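import Pool.Agent.Lib.H30K.Defs

/-!
# P11A (M): a trace inequality

Let `T = tr N`, `u = |U|²`; hypothesis `u ≥ T`. `∑ m k (U m U k - N m k)² = u² - 2 Uᵀ N U + |N|²`. Let `ν`
be the largest eigenvalue of the positive semidefinite matrix `N` (diagonalise, `Matrix.PosSemidef`,
`IsHermitian.spectral_theorem`; `n = 0` is trivial). Then `Uᵀ N U ≤ ν u`, `|N|² = ∑ ν_i² ≥ ν²`,
`0 ≤ ν ≤ T`. So the difference of the two sides is `|N|² - 2 Uᵀ N U + 2 u T - T² ≥
ν² - T² + 2 u (T - ν) ≥ ν² - T² + 2 T (T - ν) = (T - ν)² ≥ 0`.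
-/

set_option autoImplicit false

open scoped ContDiff Topology Manifold
open Set

namespace H30K

open H31R H79G H60E
open Pool.Agent.H69Hopf (Arr IsAlgCurv ev area2)
open HopfKC (lo hi)

open scoped MatrixOrder in
theorem p11a_fac {n : ℕ} {N : Matrix (Fin n) (Fin n) ℝ} (hN : N.PosSemidef) :
    ∃ B : Matrix (Fin n) (Fin n) ℝ, ∀ m k, N m k = ∑ r, B r m * B r k := by
  obtain ⟨B, hB⟩ := CStarAlgebra.nonneg_iff_eq_star_mul_self.mp hN.nonneg
  refine ⟨B, fun m k => ?_⟩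
  rw [hB, Matrix.star_eq_conjTranspose, Matrix.mul_apply]
  simp

theorem p11a_num {u T X S : ℝ} (hu : 0 ≤ u) (hT : 0 ≤ T) (hS : 0 ≤ S) (h1 : X ^ 2 ≤ u ^ 2 * S)
    (h2 : X ≤ u * T) (h3 : T ≤ u) : (u - T) ^ 2 ≤ u ^ 2 - 2 * X + S := by
  rcases hu.eq_or_lt with h | h
  · subst h
    have hX : X = 0 := by nlinarith
    have hT0 : T = 0 := le_antisymm h3 hT
    rw [hX, hT0]
    nlinarith
  · set a := X / u with ha
    have hX : X = u * a := by rw [ha]; field_simp
    have ha1 : a ^ 2 ≤ S := by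
      rw [hX, mul_pow] at h1
      exact le_of_mul_le_mul_left h1 (by positivity)
    have ha2 : a ≤ T := by
      rw [hX] at h2
      exact le_of_mul_le_mul_left h2 h
    rw [hX]
    nlinarith [mul_nonneg (sub_nonneg.2 h3) (sub_nonneg.2 ha2), sq_nonneg (T - a)]

theorem P11_trace {n : ℕ} {U : Fin n → ℝ} {N : Matrix (Fin n) (Fin n) ℝ} (hN : N.PosSemidef)
    (h0 : 0 ≤ ∑ m, (U m * U m - N m m)) :
    (∑ m, (U m * U m - N m m)) ^ 2 ≤ ∑ m, ∑ k, (U m * U k - N m k) ^ 2 := by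
  classical
  obtain ⟨B, hNB⟩ := p11a_fac hN
  set u : ℝ := ∑ m, U m ^ 2 with hu
  set T : ℝ := ∑ m, N m m with hT
  set X : ℝ := ∑ m, ∑ k, (U m * U k) * N m k with hX
  set S : ℝ := ∑ m, ∑ k, N m k ^ 2 with hS
  have hu0 : 0 ≤ u := Finset.sum_nonneg fun m _ => sq_nonneg _
  have hT1 : T = ∑ r, ∑ m, B r m ^ 2 := by
    rw [hT, Finset.sum_comm]
    refine Finset.sum_congr rfl fun m _ => ?_
    rw [hNB]
    exact Finset.sum_congr rfl fun r _ => by ring
  have hT0 : 0 ≤ T := by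
    rw [hT1]
    exact Finset.sum_nonneg fun r _ => Finset.sum_nonneg fun m _ => sq_nonneg _
  have hS0 : 0 ≤ S := Finset.sum_nonneg fun m _ => Finset.sum_nonneg fun k _ => sq_nonneg _
  have huu : ∑ m, ∑ k, (U m * U k) ^ 2 = u ^ 2 := by
    rw [hu, sq, Finset.sum_mul_sum]
    exact Finset.sum_congr rfl fun m _ => Finset.sum_congr rfl fun k _ => by ring
  have h1 : X ^ 2 ≤ u ^ 2 * S := by
    rw [← huu, hX, hS, ← Finset.sum_product', ← Finset.sum_product', ← Finset.sum_product']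
    exact Finset.sum_mul_sq_le_sq_mul_sq _ (fun p : Fin n × Fin n => U p.1 * U p.2)
      (fun p : Fin n × Fin n => N p.1 p.2)
  have hXB : X = ∑ r, (∑ m, U m * B r m) ^ 2 := by
    rw [hX]
    have e1 : ∀ m k, (U m * U k) * N m k = ∑ r, (U m * B r m) * (U k * B r k) := by
      intro m k
      rw [hNB, Finset.mul_sum]
      exact Finset.sum_congr rfl fun r _ => by ring
    simp_rw [e1]
    have e2 : ∀ m : Fin n, ∑ k, ∑ r, (U m * B r m) * (U k * B r k) =
        ∑ r, ∑ k, (U m * B r m) * (U k * B r k) := fun m => Finset.sum_comm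
    simp_rw [e2]
    rw [Finset.sum_comm]
    refine Finset.sum_congr rfl fun r _ => ?_
    rw [sq, Finset.sum_mul_sum]
  have h2 : X ≤ u * T := by
    rw [hXB, hT1, Finset.mul_sum]
    refine Finset.sum_le_sum fun r _ => ?_
    exact Finset.sum_mul_sq_le_sq_mul_sq _ _ _
  have hd : ∑ m, (U m * U m - N m m) = u - T := by
    rw [Finset.sum_sub_distrib, hu, hT]
    congr 1
    exact Finset.sum_congr rfl fun m _ => by ring
  have h3 : T ≤ u := by
    rw [hd] at h0
    linarith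
  have hR : ∑ m, ∑ k, (U m * U k - N m k) ^ 2 = u ^ 2 - 2 * X + S := by
    rw [← huu, hX, hS, Finset.mul_sum, ← Finset.sum_sub_distrib, ← Finset.sum_add_distrib]
    refine Finset.sum_congr rfl fun m _ => ?_
    rw [Finset.mul_sum, ← Finset.sum_sub_distrib, ← Finset.sum_add_distrib]
    exact Finset.sum_congr rfl fun k _ => by ring
  rw [hd, hR]
  exact p11a_num hu0 hT0 hS0 h1 h2 h3

end H30K
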