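import Pool.Agent.Lib.H30K.Defs

/-!
# P3A (S/M): invariance under permutations of the indices

`gb_perm`: in `HopfSix.gaussBonnet` replace `σ` by `e⁻¹ σ` and `τ` by `e⁻¹ τ` (that is, the sum over
`σ`, `τ` of `sign σ sign τ Π R (e (σ ..)) ..` becomes a sum over `σ' = e * σ`, `τ' = e * τ`, with
`sign σ = sign e sign σ'` and `(sign e)² = 1`; `Equiv.sum_comp (Equiv.mulLeft e)`).

`kb_perm`: `ev (R ∘ e) v w v w = ev R v' w' v' w'` with `v' a = v (e⁻¹ a)` and `area2 v w = area2 v' w'`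
(`Equiv.sum_comp`).
-/

set_option autoImplicit false

open scoped ContDiff Topology Manifold
open Set

namespace H30K

open H31R H79G H60E
open Pool.Agent.H69Hopf (Arr IsAlgCurv ev area2)
open HopfKC (lo hi)

theorem gb_perm (R : Arr 6) (e : Equiv.Perm (Fin 6)) :
    gb (fun i j k l => R (e i) (e j) (e k) (e l)) = gb R := by
  have h : ((Equiv.Perm.sign e : ℤ) : ℝ) * ((Equiv.Perm.sign e : ℤ) : ℝ) = 1 := by
    rcases Int.units_eq_one_or (Equiv.Perm.sign e) with h | h <;> simp [h]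
  unfold gb HopfSix.gaussBonnet
  symm
  rw [← Equiv.sum_comp (Equiv.mulLeft e)]
  refine Finset.sum_congr rfl fun σ _ => ?_
  rw [← Equiv.sum_comp (Equiv.mulLeft e)]
  refine Finset.sum_congr rfl fun τ _ => ?_
  simp only [Equiv.coe_mulLeft, Equiv.Perm.sign_mul, Equiv.Perm.mul_apply]
  push_cast
  linear_combination (((Equiv.Perm.sign σ : ℤ) : ℝ) * ((Equiv.Perm.sign τ : ℤ) : ℝ) *
    (R (e (σ 0)) (e (σ 1)) (e (τ 0)) (e (τ 1)) * R (e (σ 2)) (e (σ 3)) (e (τ 2)) (e (τ 3)) *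
      R (e (σ 4)) (e (σ 5)) (e (τ 4)) (e (τ 5)))) * h

theorem p3a_ev (R : Arr 6) (e : Equiv.Perm (Fin 6)) (x y z w : Fin 6 → ℝ) :
    ev (N := 6) (fun i j k l => R (e i) (e j) (e k) (e l)) (fun a => x (e a)) (fun a => y (e a))
      (fun a => z (e a)) (fun a => w (e a)) = ev R x y z w := by
  unfold ev
  symm
  refine (Equiv.sum_comp e _).symm.trans ?_
  refine Finset.sum_congr rfl fun i _ => ?_
  refine (Equiv.sum_comp e _).symm.trans ?_
  refine Finset.sum_congr rfl fun j _ => ?_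
  refine (Equiv.sum_comp e _).symm.trans ?_
  refine Finset.sum_congr rfl fun k _ => ?_
  exact (Equiv.sum_comp e _).symm

theorem p3a_area (e : Equiv.Perm (Fin 6)) (x y : Fin 6 → ℝ) :
    area2 (fun a => x (e a)) (fun a => y (e a)) = area2 x y := by
  unfold area2
  rw [Equiv.sum_comp e (fun i => x i ^ 2), Equiv.sum_comp e (fun i => y i ^ 2),
    Equiv.sum_comp e (fun i => x i * y i)]

theorem kb_perm {R : Arr 6} {h : ℝ} (hK : KB h R) (e : Equiv.Perm (Fin 6)) :
    KB h (fun i j k l => R (e i) (e j) (e k) (e l)) := by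
  intro v w
  have h1 := hK (fun a => v (e.symm a)) (fun a => w (e.symm a))
  rw [← p3a_ev R e, ← p3a_area e] at h1
  simpa only [Equiv.symm_apply_apply] using h1

theorem algCurv_perm {R : Arr 6} (hR : IsAlgCurv R) (e : Equiv.Perm (Fin 6)) :
    IsAlgCurv (N := 6) (fun i j k l => R (e i) (e j) (e k) (e l)) :=
  ⟨fun _ _ _ _ => hR.skew _ _ _ _, fun _ _ _ _ => hR.pair _ _ _ _,
    fun _ _ _ _ => hR.bianchi _ _ _ _⟩

end H30K
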