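import Pool.Agent.Lib.H30K.Defs

/-!
# P3B (M): invariance under rotations

`frR R E i j k l = ∑ R a b c e * E a i * E b j * E c k * E e l` (`Frame.lean`; same as `H79G.frameR`).

`gb_orth`: `frR R O = Pool.Agent.H69Hopf.pull (fun i a => O a i) R`; use `gb3` (`Frame.lean`),
`mgb_pull` (`Lib/H69/Hopf/Alt.lean`; `gaussBonnet n R = mgb (fun _ => R)`) and `det_sq_of_ONF`.
(Other route: `evM 0 (PC ..)` for the constant metric; or `H60E` `D6`, which proves a similar
invariance: look at `Lib/H60E/D4.lean`.)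

`frR_mul`: `frR (frR R E) O = frR R (E * O)` (reordering of finite sums; look at
`H60E.crv_crv`).

`kb_orth`: `ev (frR R O) v w v w = ev R (O.mulVec v) (O.mulVec w) (O.mulVec v) (O.mulVec w)`
(`ev_frR`), and `area2` is invariant under the orthogonal matrix `O`
(`|O v|² = |v|²`, `Ov · Ow = v · w`).

`frame_rel`: two orthonormal frames differ by an orthogonal matrix: take `O = E⁻¹ * E'`. From
`Eᵀ G E = 1`: `E` is invertible and `G = (Eᵀ)⁻¹ E⁻¹`, so `O Oᵀ`-relations follow:
`Oᵀ O = E'ᵀ (E⁻¹)ᵀ E⁻¹ E' = E'ᵀ G E' = 1`.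
-/

set_option autoImplicit false

open scoped ContDiff Topology Manifold
open Set

namespace H30K

open H31R H79G H60E
open Pool.Agent.H69Hopf (Arr IsAlgCurv ev area2)
open HopfKC (lo hi)

theorem p3b_apply {d : ℕ} {O : Mt d} (hO : O.transpose * O = 1) (i j : Fin d) :
    ∑ a, O a i * O a j = if i = j then 1 else 0 := by
  have h := congrFun (congrFun hO i) j
  rw [Matrix.mul_apply, Matrix.one_apply] at h
  exact h

theorem gb_orth (R : Arr 6) {O : Mt 6} (hO : O.transpose * O = 1) : gb (frR R O) = gb R := by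
  unfold gb
  rw [← gb3, ← gb3, Pool.Agent.H69Hopf.gaussBonnet_eq_mgb, Pool.Agent.H69Hopf.gaussBonnet_eq_mgb]
  have hg : Pool.Agent.H69Hopf.ONF (fun (i : Fin 6) (a : Fin 6) => O a i) := fun i j =>
    p3b_apply hO i j
  have h1 := Pool.Agent.H69Hopf.mgb_pull (m := 3) (fun _ => R) (fun (i : Fin 6) (a : Fin 6) => O a i)
  have h2 := Pool.Agent.H69Hopf.det_sq_of_ONF hg
  refine Eq.trans ?_ (h1.trans ?_)
  · rfl
  · exact (congrArg (· * Pool.Agent.H69Hopf.mgb (m := 3) fun _ => R) h2).trans (one_mul _)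

theorem frR_mul {d : ℕ} (R : Cu d) (E O : Mt d) : frR (frR R E) O = frR R (E * O) := by
  funext i j k l
  exact fr_expand R E (fun a => O a i) (fun a => O a j) (fun a => O a k) (fun a => O a l)

theorem p3b_dot {d : ℕ} {O : Mt d} (hO : O.transpose * O = 1) (v w : Fin d → ℝ) :
    (O.mulVec v) ⬝ᵥ (O.mulVec w) = v ⬝ᵥ w := by
  rw [Matrix.dotProduct_mulVec, Matrix.vecMul_mulVec, hO, Matrix.vecMul_one]

theorem p3b_area {d : ℕ} {O : Mt d} (hO : O.transpose * O = 1) (v w : Fin d → ℝ) :
    area2 (O.mulVec v) (O.mulVec w) = area2 v w := by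
  rw [Pool.Agent.H69Hopf.area2_eq, Pool.Agent.H69Hopf.area2_eq]
  have h : ∀ x y : Fin d → ℝ, Pool.Agent.H69Hopf.dot (O.mulVec x) (O.mulVec y) =
      Pool.Agent.H69Hopf.dot x y := fun x y => p3b_dot hO x y
  rw [h, h, h]

theorem kb_orth {d : ℕ} {R : Arr d} {h : ℝ} (hK : KB h R) {O : Mt d} (hO : O.transpose * O = 1) :
    KB h (frR R O) := by
  intro v w
  rw [ev_frR, ← p3b_area hO v w]
  exact hK _ _

theorem frame_rel {d : ℕ} {G E E' : Mt d} (hE : E.transpose * G * E = 1)
    (hE' : E'.transpose * G * E' = 1) : ∃ O : Mt d, O.transpose * O = 1 ∧ E' = E * O := by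
  have h1 : E * (E.transpose * G) = 1 := mul_eq_one_comm.1 hE
  refine ⟨E.transpose * G * E', ?_, ?_⟩
  · have h2 : (E'.transpose * G * E').transpose = 1 := by rw [hE', Matrix.transpose_one]
    rw [Matrix.transpose_mul, Matrix.transpose_mul, Matrix.transpose_transpose] at h2
    calc (E.transpose * G * E').transpose * (E.transpose * G * E')
        = E'.transpose * (G.transpose * (E * (E.transpose * G)) * E') := by
          simp only [Matrix.transpose_mul, Matrix.transpose_transpose, Matrix.mul_assoc]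
      _ = 1 := by rw [h1, Matrix.mul_one]; exact h2
  · rw [← Matrix.mul_assoc, h1, Matrix.one_mul]

end H30K
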