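import Pool.Agent.Lib.H30K.P3B

/-!
# P4 (M): diagonalisation of `R 0 i 0 j`

Let `R 0 i k l = 0` for `k, l ≠ 0`. The matrix `A i j = R 0 i.succ 0 j.succ`, `i j : Fin 5`, is
symmetric (`hR.pair`). Spectral theorem: `Q : Matrix (Fin 5) (Fin 5) ℝ` orthogonal with `Qᵀ A Q`
diagonal (`Matrix.IsHermitian.spectral_theorem`, `eigenvectorUnitary`; over `ℝ` conjugation is
trivial). Put `O 0 0 = 1`, `O 0 i.succ = O i.succ 0 = 0`, `O i.succ j.succ = Q i j`
(`Fin.cases`). Then `Oᵀ O = 1`, and with `R' = frR R O` (sums over `a b c e : Fin 6`, split with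
`Fin.sum_univ_succ`): `R' 0 i k l = ∑ R 0 b c e O b i O c k O e l`; for `k l ≠ 0` the terms with `c = 0`
or `e = 0` vanish because of `O 0 k = 0`, and the others because of the hypothesis; and for
`i = i'.succ`, `j = j'.succ`: `R' 0 i 0 j = (Qᵀ A Q) i' j'` (`i = 0` or `j = 0`: zero by skewness).
-/

set_option autoImplicit false

open scoped ContDiff Topology Manifold
open Set

namespace H30K

open H31R H79G H60E
open Pool.Agent.H69Hopf (Arr IsAlgCurv ev area2)
open HopfKC (lo hi)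

theorem p4_diag (A : Matrix (Fin 5) (Fin 5) ℝ) (hA : ∀ i j, A i j = A j i) :
    ∃ Q : Matrix (Fin 5) (Fin 5) ℝ, (∀ i j, ∑ a, Q a i * Q a j = if i = j then 1 else 0) ∧
      ∀ i j, i ≠ j → ∑ a, ∑ b, A a b * Q a i * Q b j = 0 := by
  have hH : A.IsHermitian := by
    ext i j
    rw [Matrix.conjTranspose_apply, hA i j]
    rfl
  have horth : ∀ i j, ∑ a, hH.eigenvectorBasis i a * hH.eigenvectorBasis j a =
      if i = j then (1 : ℝ) else 0 := by
    intro i j
    have h := orthonormal_iff_ite.1 hH.eigenvectorBasis.orthonormal i j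
    rw [← h, EuclideanSpace.inner_eq_star_dotProduct]
    unfold dotProduct
    refine Finset.sum_congr rfl fun a _ => ?_
    show _ = hH.eigenvectorBasis j a * hH.eigenvectorBasis i a
    ring
  refine ⟨fun a i => hH.eigenvectorBasis i a, horth, fun i j hij => ?_⟩
  have h1 : ∀ a, ∑ b, A a b * hH.eigenvectorBasis j b =
      hH.eigenvalues j * hH.eigenvectorBasis j a := by
    intro a
    have h := congrFun (hH.mulVec_eigenvectorBasis j) a
    exact h
  have h2 : ∀ a, ∑ b, A a b * hH.eigenvectorBasis i a * hH.eigenvectorBasis j b =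
      hH.eigenvalues j * (hH.eigenvectorBasis i a * hH.eigenvectorBasis j a) := by
    intro a
    have h3 : ∑ b, A a b * hH.eigenvectorBasis i a * hH.eigenvectorBasis j b =
        hH.eigenvectorBasis i a * ∑ b, A a b * hH.eigenvectorBasis j b := by
      rw [Finset.mul_sum]
      refine Finset.sum_congr rfl fun b _ => ?_
      ring
    rw [h3, h1]
    ring
  rw [Finset.sum_congr rfl fun a _ => h2 a, ← Finset.mul_sum, horth i j, if_neg hij, mul_zero]

/-- the orthogonal matrix with the block `Q` -/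
def p4_O (Q : Matrix (Fin 5) (Fin 5) ℝ) : Mt 6 := fun a b =>
  Fin.cases (motive := fun _ => ℝ) (Fin.cases (motive := fun _ => ℝ) 1 (fun _ => 0) b)
    (fun a' => Fin.cases (motive := fun _ => ℝ) 0 (fun b' => Q a' b') b) a

theorem p4_00 (Q : Matrix (Fin 5) (Fin 5) ℝ) : p4_O Q 0 0 = 1 := rfl
theorem p4_0s (Q : Matrix (Fin 5) (Fin 5) ℝ) (j : Fin 5) : p4_O Q 0 j.succ = 0 := rfl
theorem p4_s0 (Q : Matrix (Fin 5) (Fin 5) ℝ) (i : Fin 5) : p4_O Q i.succ 0 = 0 := rfl
theorem p4_ss (Q : Matrix (Fin 5) (Fin 5) ℝ) (i j : Fin 5) :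
    p4_O Q i.succ j.succ = Q i j := rfl

theorem p4_0ne (Q : Matrix (Fin 5) (Fin 5) ℝ) {k : Fin 6} (hk : k ≠ 0) : p4_O Q 0 k = 0 := by
  obtain ⟨k', rfl⟩ := Fin.exists_succ_eq.2 hk
  exact p4_0s Q k'

theorem p4_ne0 (Q : Matrix (Fin 5) (Fin 5) ℝ) {k : Fin 6} (hk : k ≠ 0) : p4_O Q k 0 = 0 := by
  obtain ⟨k', rfl⟩ := Fin.exists_succ_eq.2 hk
  exact p4_s0 Q k'

theorem p4_sum0 (F : Fin 6 → ℝ) (h : ∀ a, a ≠ 0 → F a = 0) : ∑ a, F a = F 0 :=
  Finset.sum_eq_single 0 (fun a _ ha => h a ha) fun h => absurd (Finset.mem_univ _) h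

theorem p4_sums (F : Fin 6 → ℝ) (h : F 0 = 0) : ∑ a, F a = ∑ a : Fin 5, F a.succ := by
  rw [Fin.sum_univ_succ, h, zero_add]

theorem p4_orth {Q : Matrix (Fin 5) (Fin 5) ℝ}
    (hQ : ∀ i j, ∑ a, Q a i * Q a j = if i = j then 1 else 0) :
    (p4_O Q).transpose * p4_O Q = 1 := by
  ext i j
  rw [Matrix.mul_apply, Matrix.one_apply]
  simp only [Matrix.transpose_apply]
  by_cases hi : i = 0
  · subst hi
    rw [p4_sum0 _ fun a ha => by rw [p4_ne0 Q ha, zero_mul], p4_00, one_mul]
    by_cases hj : j = 0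
    · subst hj
      rw [p4_00, if_pos rfl]
    · rw [p4_0ne Q hj, if_neg (Ne.symm hj)]
  · obtain ⟨i', rfl⟩ := Fin.exists_succ_eq.2 hi
    rw [p4_sums _ (by rw [p4_0s, zero_mul])]
    by_cases hj : j = 0
    · subst hj
      rw [if_neg hi]
      exact Finset.sum_eq_zero fun a _ => by rw [p4_s0, mul_zero]
    · obtain ⟨j', rfl⟩ := Fin.exists_succ_eq.2 hj
      simp only [p4_ss]
      rw [hQ i' j']
      simp only [Fin.succ_inj]

theorem P4_exists {R : Arr 6} (hR : IsAlgCurv R) (h0 : ∀ i k l, k ≠ 0 → l ≠ 0 → R 0 i k l = 0) :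
    ∃ O : Mt 6, O.transpose * O = 1 ∧ Smp (frR R O) := by
  obtain ⟨Q, hQ1, hQ2⟩ := p4_diag (fun i j => R 0 i.succ 0 j.succ) fun i j => hR.pair _ _ _ _
  refine ⟨p4_O Q, p4_orth hQ1, fun i k l hk hl => ?_, fun i j hij => ?_⟩
  · unfold frR
    refine Finset.sum_eq_zero fun a _ => Finset.sum_eq_zero fun b _ =>
      Finset.sum_eq_zero fun c _ => Finset.sum_eq_zero fun e _ => ?_
    by_cases ha : a = 0
    · subst ha
      by_cases hc : c = 0
      · subst hc
        rw [p4_0ne Q hk]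
        ring
      · by_cases he : e = 0
        · subst he
          rw [p4_0ne Q hl]
          ring
        · rw [h0 b c e hc he]
          ring
    · rw [p4_ne0 Q ha]
      ring
  · have hR' := frR_algCurv hR (p4_O Q)
    by_cases hi : i = 0
    · subst hi
      have := hR'.skew 0 0 0 j
      linarith
    · by_cases hj : j = 0
      · subst hj
        have h1 := hR'.skew 0 0 0 i
        have h2 := hR'.pair 0 i 0 0
        linarith
      · obtain ⟨i', rfl⟩ := Fin.exists_succ_eq.2 hi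
        obtain ⟨j', rfl⟩ := Fin.exists_succ_eq.2 hj
        have hij' : i' ≠ j' := fun h => hij (by rw [h])
        unfold frR
        rw [p4_sum0 _ fun a ha => Finset.sum_eq_zero fun b _ =>
          Finset.sum_eq_zero fun c _ => Finset.sum_eq_zero fun e _ => by
            rw [p4_ne0 Q ha]
            ring]
        rw [p4_sums _ (Finset.sum_eq_zero fun c _ => Finset.sum_eq_zero fun e _ => by
            rw [p4_0s]
            ring)]
        refine Eq.trans ?_ (hQ2 i' j' hij')
        refine Finset.sum_congr rfl fun b _ => ?_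
        rw [p4_sum0 _ fun c hc => Finset.sum_eq_zero fun e _ => by
            rw [p4_ne0 Q hc]
            ring]
        rw [p4_sums _ (by
            rw [p4_0s]
            ring)]
        refine Finset.sum_congr rfl fun e _ => ?_
        rw [p4_00, p4_ss, p4_ss]
        ring

end H30K
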