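import Pool.Agent.Lib.H30K.Defs

/-!
# P5 (M/L): the Gauss-Bonnet integrand if the index `0` is simple

`gb R = 12 ∑ i : Fin 5, R 0 i' 0 i' * gaussBonnet 2 (R restricted to the four other indices)`,
`i' = i.succ` (checked numerically, and for `R = -h idA`: `-5760 h³` on both sides).

Two ways. (A) By computation: `HopfKC.gb_blocks` (`Lib/H87/HopfKC/Block2.lean`) expresses `gb R` by the
components (`bT, bA, bC, bG, bL, bM, bX`, `H91.Mat3.QP`), and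
`Pool.Agent.H69Hopf.gb2_formula` expresses the terms on the right hand side (four-dimensional case).
Normalise the components by the symmetries (all `R i j k l` with `i < j`, `k < l`, `(i,j) ≤ (k,l)`;
one Bianchi identity for each four distinct indices), put the components `R 0 i k l`, `k l ≠ 0`, and
`R 0 i 0 j`, `i ≠ j`, equal to zero, `ring`.

(B) By the structure of the sum. Write `R = A + R'`, where `A` has the components with an index `0` in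
the first pair (equivalently in the second pair: `R 0 i k l = 0` for `k, l ≠ 0`) and `R'` the others.
The sum over `σ`, `τ` is `mgb` (`Lib/H69/Hopf/Alt.lean`), multilinear and symmetric (`mgb_perm`);
terms with two factors `A` or without a factor `A` vanish (the index `0` appears exactly once among
`σ 0, .., σ 5`); `mgb ![A, R', R'] = 4 ∑ i, R 0 i' 0 i' * gaussBonnet 2 ..` (the index `0` is at
position `0` or `1` of `σ` and of `τ`: factor `4`; the other one of the two positions is `i'` for both,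
because `R 0 i 0 j = 0` for `i ≠ j`; the sum over the rest is the sum over the permutations of the four
remaining indices; signs: `Fin.succAbove` twice for `σ` and for `τ`, they cancel). Use
`Equiv.Perm.decomposeFin` twice, or `mgb_cons` of `Lib/H69/Hopf/Cof.lean`.
-/

set_option autoImplicit false
set_option linter.unusedVariables false

open scoped ContDiff Topology Manifold
open Equiv (swap)
open Set

namespace H30K

open H31R H79G H60E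
open Pool.Agent.H69Hopf (Arr IsAlgCurv ev area2)
open HopfKC (lo hi nx pv bT bA bC bG bL bM bX bE3)

/-- zero on equal first indices -/
theorem p5_z1 {R : Arr 6} (hR : IsAlgCurv R) (a c d : Fin 6) : R a a c d = 0 := by
  have := hR.skew a a c d
  linarith

/-- skew in the second pair -/
theorem p5_sk2 {R : Arr 6} (hR : IsAlgCurv R) (a b c d : Fin 6) : R a b c d = - R a b d c := by
  rw [hR.pair a b c d, hR.skew c d a b, hR.pair d c a b]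

theorem p5_z2 {R : Arr 6} (hR : IsAlgCurv R) (a b c : Fin 6) : R a b c c = 0 := by
  have := p5_sk2 hR a b c c
  linarith

theorem p5_bi {R : Arr 6} (hR : IsAlgCurv R) (a b c d : Fin 6) :
    R a d b c = R a c b d - R a b c d := by
  have h1 := hR.bianchi a b c d
  have h2 := hR.pair b c a d
  have h3 := hR.skew c a b d
  linarith

theorem p5_T0000 {R : Arr 6} (hR : IsAlgCurv R) (hS : Smp R) : bT R 0 0 0 0 = R 0 3 0 3 := by
  rfl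

theorem p5_T0001 {R : Arr 6} (hR : IsAlgCurv R) (hS : Smp R) : bT R 0 0 0 1 = 0 := by
  change R 0 3 0 4 = _
  rw [hS.2 3 4 (by decide)]

theorem p5_T0002 {R : Arr 6} (hR : IsAlgCurv R) (hS : Smp R) : bT R 0 0 0 2 = 0 := by
  change R 0 3 0 5 = _
  rw [hS.2 3 5 (by decide)]

theorem p5_T0010 {R : Arr 6} (hR : IsAlgCurv R) (hS : Smp R) : bT R 0 0 1 0 = 0 := by
  change R 0 3 1 3 = _
  rw [hS.1 3 1 3 (by decide) (by decide)]

theorem p5_T0011 {R : Arr 6} (hR : IsAlgCurv R) (hS : Smp R) : bT R 0 0 1 1 = 0 := by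
  change R 0 3 1 4 = _
  rw [hS.1 3 1 4 (by decide) (by decide)]

theorem p5_T0012 {R : Arr 6} (hR : IsAlgCurv R) (hS : Smp R) : bT R 0 0 1 2 = 0 := by
  change R 0 3 1 5 = _
  rw [hS.1 3 1 5 (by decide) (by decide)]

theorem p5_T0020 {R : Arr 6} (hR : IsAlgCurv R) (hS : Smp R) : bT R 0 0 2 0 = 0 := by
  change R 0 3 2 3 = _
  rw [hS.1 3 2 3 (by decide) (by decide)]

theorem p5_T0021 {R : Arr 6} (hR : IsAlgCurv R) (hS : Smp R) : bT R 0 0 2 1 = 0 := by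
  change R 0 3 2 4 = _
  rw [hS.1 3 2 4 (by decide) (by decide)]

theorem p5_T0022 {R : Arr 6} (hR : IsAlgCurv R) (hS : Smp R) : bT R 0 0 2 2 = 0 := by
  change R 0 3 2 5 = _
  rw [hS.1 3 2 5 (by decide) (by decide)]

theorem p5_T0100 {R : Arr 6} (hR : IsAlgCurv R) (hS : Smp R) : bT R 0 1 0 0 = 0 := by
  change R 0 4 0 3 = _
  rw [hR.pair 0 4 0 3, hS.2 3 4 (by decide)]

theorem p5_T0101 {R : Arr 6} (hR : IsAlgCurv R) (hS : Smp R) : bT R 0 1 0 1 = R 0 4 0 4 := by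
  rfl

theorem p5_T0102 {R : Arr 6} (hR : IsAlgCurv R) (hS : Smp R) : bT R 0 1 0 2 = 0 := by
  change R 0 4 0 5 = _
  rw [hS.2 4 5 (by decide)]

theorem p5_T0110 {R : Arr 6} (hR : IsAlgCurv R) (hS : Smp R) : bT R 0 1 1 0 = 0 := by
  change R 0 4 1 3 = _
  rw [hS.1 4 1 3 (by decide) (by decide)]

theorem p5_T0111 {R : Arr 6} (hR : IsAlgCurv R) (hS : Smp R) : bT R 0 1 1 1 = 0 := by
  change R 0 4 1 4 = _
  rw [hS.1 4 1 4 (by decide) (by decide)]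

theorem p5_T0112 {R : Arr 6} (hR : IsAlgCurv R) (hS : Smp R) : bT R 0 1 1 2 = 0 := by
  change R 0 4 1 5 = _
  rw [hS.1 4 1 5 (by decide) (by decide)]

theorem p5_T0120 {R : Arr 6} (hR : IsAlgCurv R) (hS : Smp R) : bT R 0 1 2 0 = 0 := by
  change R 0 4 2 3 = _
  rw [hS.1 4 2 3 (by decide) (by decide)]

theorem p5_T0121 {R : Arr 6} (hR : IsAlgCurv R) (hS : Smp R) : bT R 0 1 2 1 = 0 := by
  change R 0 4 2 4 = _
  rw [hS.1 4 2 4 (by decide) (by decide)]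

theorem p5_T0122 {R : Arr 6} (hR : IsAlgCurv R) (hS : Smp R) : bT R 0 1 2 2 = 0 := by
  change R 0 4 2 5 = _
  rw [hS.1 4 2 5 (by decide) (by decide)]

theorem p5_T0200 {R : Arr 6} (hR : IsAlgCurv R) (hS : Smp R) : bT R 0 2 0 0 = 0 := by
  change R 0 5 0 3 = _
  rw [hR.pair 0 5 0 3, hS.2 3 5 (by decide)]

theorem p5_T0201 {R : Arr 6} (hR : IsAlgCurv R) (hS : Smp R) : bT R 0 2 0 1 = 0 := by
  change R 0 5 0 4 = _
  rw [hR.pair 0 5 0 4, hS.2 4 5 (by decide)]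

theorem p5_T0202 {R : Arr 6} (hR : IsAlgCurv R) (hS : Smp R) : bT R 0 2 0 2 = R 0 5 0 5 := by
  rfl

theorem p5_T0210 {R : Arr 6} (hR : IsAlgCurv R) (hS : Smp R) : bT R 0 2 1 0 = 0 := by
  change R 0 5 1 3 = _
  rw [hS.1 5 1 3 (by decide) (by decide)]

theorem p5_T0211 {R : Arr 6} (hR : IsAlgCurv R) (hS : Smp R) : bT R 0 2 1 1 = 0 := by
  change R 0 5 1 4 = _
  rw [hS.1 5 1 4 (by decide) (by decide)]

theorem p5_T0212 {R : Arr 6} (hR : IsAlgCurv R) (hS : Smp R) : bT R 0 2 1 2 = 0 := by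
  change R 0 5 1 5 = _
  rw [hS.1 5 1 5 (by decide) (by decide)]

theorem p5_T0220 {R : Arr 6} (hR : IsAlgCurv R) (hS : Smp R) : bT R 0 2 2 0 = 0 := by
  change R 0 5 2 3 = _
  rw [hS.1 5 2 3 (by decide) (by decide)]

theorem p5_T0221 {R : Arr 6} (hR : IsAlgCurv R) (hS : Smp R) : bT R 0 2 2 1 = 0 := by
  change R 0 5 2 4 = _
  rw [hS.1 5 2 4 (by decide) (by decide)]

theorem p5_T0222 {R : Arr 6} (hR : IsAlgCurv R) (hS : Smp R) : bT R 0 2 2 2 = 0 := by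
  change R 0 5 2 5 = _
  rw [hS.1 5 2 5 (by decide) (by decide)]

theorem p5_T1000 {R : Arr 6} (hR : IsAlgCurv R) (hS : Smp R) : bT R 1 0 0 0 = 0 := by
  change R 1 3 0 3 = _
  rw [hR.pair 1 3 0 3, hS.1 3 1 3 (by decide) (by decide)]

theorem p5_T1001 {R : Arr 6} (hR : IsAlgCurv R) (hS : Smp R) : bT R 1 0 0 1 = 0 := by
  change R 1 3 0 4 = _
  rw [hR.pair 1 3 0 4, hS.1 4 1 3 (by decide) (by decide)]

theorem p5_T1002 {R : Arr 6} (hR : IsAlgCurv R) (hS : Smp R) : bT R 1 0 0 2 = 0 := by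
  change R 1 3 0 5 = _
  rw [hR.pair 1 3 0 5, hS.1 5 1 3 (by decide) (by decide)]

theorem p5_T1010 {R : Arr 6} (hR : IsAlgCurv R) (hS : Smp R) : bT R 1 0 1 0 = R 1 3 1 3 := by
  rfl

theorem p5_T1011 {R : Arr 6} (hR : IsAlgCurv R) (hS : Smp R) : bT R 1 0 1 1 = R 1 3 1 4 := by
  rfl

theorem p5_T1012 {R : Arr 6} (hR : IsAlgCurv R) (hS : Smp R) : bT R 1 0 1 2 = R 1 3 1 5 := by
  rfl

theorem p5_T1020 {R : Arr 6} (hR : IsAlgCurv R) (hS : Smp R) : bT R 1 0 2 0 = R 1 3 2 3 := by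
  rfl

theorem p5_T1021 {R : Arr 6} (hR : IsAlgCurv R) (hS : Smp R) : bT R 1 0 2 1 = R 1 3 2 4 := by
  rfl

theorem p5_T1022 {R : Arr 6} (hR : IsAlgCurv R) (hS : Smp R) : bT R 1 0 2 2 = R 1 3 2 5 := by
  rfl

theorem p5_T1100 {R : Arr 6} (hR : IsAlgCurv R) (hS : Smp R) : bT R 1 1 0 0 = 0 := by
  change R 1 4 0 3 = _
  rw [hR.pair 1 4 0 3, hS.1 3 1 4 (by decide) (by decide)]

theorem p5_T1101 {R : Arr 6} (hR : IsAlgCurv R) (hS : Smp R) : bT R 1 1 0 1 = 0 := by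
  change R 1 4 0 4 = _
  rw [hR.pair 1 4 0 4, hS.1 4 1 4 (by decide) (by decide)]

theorem p5_T1102 {R : Arr 6} (hR : IsAlgCurv R) (hS : Smp R) : bT R 1 1 0 2 = 0 := by
  change R 1 4 0 5 = _
  rw [hR.pair 1 4 0 5, hS.1 5 1 4 (by decide) (by decide)]

theorem p5_T1110 {R : Arr 6} (hR : IsAlgCurv R) (hS : Smp R) : bT R 1 1 1 0 = R 1 3 1 4 := by
  change R 1 4 1 3 = _
  rw [hR.pair 1 4 1 3]

theorem p5_T1111 {R : Arr 6} (hR : IsAlgCurv R) (hS : Smp R) : bT R 1 1 1 1 = R 1 4 1 4 := by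
  rfl

theorem p5_T1112 {R : Arr 6} (hR : IsAlgCurv R) (hS : Smp R) : bT R 1 1 1 2 = R 1 4 1 5 := by
  rfl

theorem p5_T1120 {R : Arr 6} (hR : IsAlgCurv R) (hS : Smp R) : bT R 1 1 2 0 = R 1 3 2 4 - R 1 2 3 4 := by
  change R 1 4 2 3 = _
  rw [p5_bi hR 1 2 3 4]

theorem p5_T1121 {R : Arr 6} (hR : IsAlgCurv R) (hS : Smp R) : bT R 1 1 2 1 = R 1 4 2 4 := by
  rfl

theorem p5_T1122 {R : Arr 6} (hR : IsAlgCurv R) (hS : Smp R) : bT R 1 1 2 2 = R 1 4 2 5 := by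
  rfl

theorem p5_T1200 {R : Arr 6} (hR : IsAlgCurv R) (hS : Smp R) : bT R 1 2 0 0 = 0 := by
  change R 1 5 0 3 = _
  rw [hR.pair 1 5 0 3, hS.1 3 1 5 (by decide) (by decide)]

theorem p5_T1201 {R : Arr 6} (hR : IsAlgCurv R) (hS : Smp R) : bT R 1 2 0 1 = 0 := by
  change R 1 5 0 4 = _
  rw [hR.pair 1 5 0 4, hS.1 4 1 5 (by decide) (by decide)]

theorem p5_T1202 {R : Arr 6} (hR : IsAlgCurv R) (hS : Smp R) : bT R 1 2 0 2 = 0 := by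
  change R 1 5 0 5 = _
  rw [hR.pair 1 5 0 5, hS.1 5 1 5 (by decide) (by decide)]

theorem p5_T1210 {R : Arr 6} (hR : IsAlgCurv R) (hS : Smp R) : bT R 1 2 1 0 = R 1 3 1 5 := by
  change R 1 5 1 3 = _
  rw [hR.pair 1 5 1 3]

theorem p5_T1211 {R : Arr 6} (hR : IsAlgCurv R) (hS : Smp R) : bT R 1 2 1 1 = R 1 4 1 5 := by
  change R 1 5 1 4 = _
  rw [hR.pair 1 5 1 4]

theorem p5_T1212 {R : Arr 6} (hR : IsAlgCurv R) (hS : Smp R) : bT R 1 2 1 2 = R 1 5 1 5 := by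
  rfl

theorem p5_T1220 {R : Arr 6} (hR : IsAlgCurv R) (hS : Smp R) : bT R 1 2 2 0 = R 1 3 2 5 - R 1 2 3 5 := by
  change R 1 5 2 3 = _
  rw [p5_bi hR 1 2 3 5]

theorem p5_T1221 {R : Arr 6} (hR : IsAlgCurv R) (hS : Smp R) : bT R 1 2 2 1 = R 1 4 2 5 - R 1 2 4 5 := by
  change R 1 5 2 4 = _
  rw [p5_bi hR 1 2 4 5]

theorem p5_T1222 {R : Arr 6} (hR : IsAlgCurv R) (hS : Smp R) : bT R 1 2 2 2 = R 1 5 2 5 := by
  rfl

theorem p5_T2000 {R : Arr 6} (hR : IsAlgCurv R) (hS : Smp R) : bT R 2 0 0 0 = 0 := by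
  change R 2 3 0 3 = _
  rw [hR.pair 2 3 0 3, hS.1 3 2 3 (by decide) (by decide)]

theorem p5_T2001 {R : Arr 6} (hR : IsAlgCurv R) (hS : Smp R) : bT R 2 0 0 1 = 0 := by
  change R 2 3 0 4 = _
  rw [hR.pair 2 3 0 4, hS.1 4 2 3 (by decide) (by decide)]

theorem p5_T2002 {R : Arr 6} (hR : IsAlgCurv R) (hS : Smp R) : bT R 2 0 0 2 = 0 := by
  change R 2 3 0 5 = _
  rw [hR.pair 2 3 0 5, hS.1 5 2 3 (by decide) (by decide)]

theorem p5_T2010 {R : Arr 6} (hR : IsAlgCurv R) (hS : Smp R) : bT R 2 0 1 0 = R 1 3 2 3 := by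
  change R 2 3 1 3 = _
  rw [hR.pair 2 3 1 3]

theorem p5_T2011 {R : Arr 6} (hR : IsAlgCurv R) (hS : Smp R) : bT R 2 0 1 1 = R 1 3 2 4 - R 1 2 3 4 := by
  change R 2 3 1 4 = _
  rw [hR.pair 2 3 1 4, p5_bi hR 1 2 3 4]

theorem p5_T2012 {R : Arr 6} (hR : IsAlgCurv R) (hS : Smp R) : bT R 2 0 1 2 = R 1 3 2 5 - R 1 2 3 5 := by
  change R 2 3 1 5 = _
  rw [hR.pair 2 3 1 5, p5_bi hR 1 2 3 5]

theorem p5_T2020 {R : Arr 6} (hR : IsAlgCurv R) (hS : Smp R) : bT R 2 0 2 0 = R 2 3 2 3 := by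
  rfl

theorem p5_T2021 {R : Arr 6} (hR : IsAlgCurv R) (hS : Smp R) : bT R 2 0 2 1 = R 2 3 2 4 := by
  rfl

theorem p5_T2022 {R : Arr 6} (hR : IsAlgCurv R) (hS : Smp R) : bT R 2 0 2 2 = R 2 3 2 5 := by
  rfl

theorem p5_T2100 {R : Arr 6} (hR : IsAlgCurv R) (hS : Smp R) : bT R 2 1 0 0 = 0 := by
  change R 2 4 0 3 = _
  rw [hR.pair 2 4 0 3, hS.1 3 2 4 (by decide) (by decide)]

theorem p5_T2101 {R : Arr 6} (hR : IsAlgCurv R) (hS : Smp R) : bT R 2 1 0 1 = 0 := by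
  change R 2 4 0 4 = _
  rw [hR.pair 2 4 0 4, hS.1 4 2 4 (by decide) (by decide)]

theorem p5_T2102 {R : Arr 6} (hR : IsAlgCurv R) (hS : Smp R) : bT R 2 1 0 2 = 0 := by
  change R 2 4 0 5 = _
  rw [hR.pair 2 4 0 5, hS.1 5 2 4 (by decide) (by decide)]

theorem p5_T2110 {R : Arr 6} (hR : IsAlgCurv R) (hS : Smp R) : bT R 2 1 1 0 = R 1 3 2 4 := by
  change R 2 4 1 3 = _
  rw [hR.pair 2 4 1 3]

theorem p5_T2111 {R : Arr 6} (hR : IsAlgCurv R) (hS : Smp R) : bT R 2 1 1 1 = R 1 4 2 4 := by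
  change R 2 4 1 4 = _
  rw [hR.pair 2 4 1 4]

theorem p5_T2112 {R : Arr 6} (hR : IsAlgCurv R) (hS : Smp R) : bT R 2 1 1 2 = R 1 4 2 5 - R 1 2 4 5 := by
  change R 2 4 1 5 = _
  rw [hR.pair 2 4 1 5, p5_bi hR 1 2 4 5]

theorem p5_T2120 {R : Arr 6} (hR : IsAlgCurv R) (hS : Smp R) : bT R 2 1 2 0 = R 2 3 2 4 := by
  change R 2 4 2 3 = _
  rw [hR.pair 2 4 2 3]

theorem p5_T2121 {R : Arr 6} (hR : IsAlgCurv R) (hS : Smp R) : bT R 2 1 2 1 = R 2 4 2 4 := by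
  rfl

theorem p5_T2122 {R : Arr 6} (hR : IsAlgCurv R) (hS : Smp R) : bT R 2 1 2 2 = R 2 4 2 5 := by
  rfl

theorem p5_T2200 {R : Arr 6} (hR : IsAlgCurv R) (hS : Smp R) : bT R 2 2 0 0 = 0 := by
  change R 2 5 0 3 = _
  rw [hR.pair 2 5 0 3, hS.1 3 2 5 (by decide) (by decide)]

theorem p5_T2201 {R : Arr 6} (hR : IsAlgCurv R) (hS : Smp R) : bT R 2 2 0 1 = 0 := by
  change R 2 5 0 4 = _
  rw [hR.pair 2 5 0 4, hS.1 4 2 5 (by decide) (by decide)]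

theorem p5_T2202 {R : Arr 6} (hR : IsAlgCurv R) (hS : Smp R) : bT R 2 2 0 2 = 0 := by
  change R 2 5 0 5 = _
  rw [hR.pair 2 5 0 5, hS.1 5 2 5 (by decide) (by decide)]

theorem p5_T2210 {R : Arr 6} (hR : IsAlgCurv R) (hS : Smp R) : bT R 2 2 1 0 = R 1 3 2 5 := by
  change R 2 5 1 3 = _
  rw [hR.pair 2 5 1 3]

theorem p5_T2211 {R : Arr 6} (hR : IsAlgCurv R) (hS : Smp R) : bT R 2 2 1 1 = R 1 4 2 5 := by
  change R 2 5 1 4 = _
  rw [hR.pair 2 5 1 4]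

theorem p5_T2212 {R : Arr 6} (hR : IsAlgCurv R) (hS : Smp R) : bT R 2 2 1 2 = R 1 5 2 5 := by
  change R 2 5 1 5 = _
  rw [hR.pair 2 5 1 5]

theorem p5_T2220 {R : Arr 6} (hR : IsAlgCurv R) (hS : Smp R) : bT R 2 2 2 0 = R 2 3 2 5 := by
  change R 2 5 2 3 = _
  rw [hR.pair 2 5 2 3]

theorem p5_T2221 {R : Arr 6} (hR : IsAlgCurv R) (hS : Smp R) : bT R 2 2 2 1 = R 2 4 2 5 := by
  change R 2 5 2 4 = _
  rw [hR.pair 2 5 2 4]

theorem p5_T2222 {R : Arr 6} (hR : IsAlgCurv R) (hS : Smp R) : bT R 2 2 2 2 = R 2 5 2 5 := by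
  rfl

theorem p5_A00 {R : Arr 6} (hR : IsAlgCurv R) (hS : Smp R) : bA R 0 0 = R 1 2 1 2 := by
  rfl

theorem p5_C00 {R : Arr 6} (hR : IsAlgCurv R) (hS : Smp R) : bC R 0 0 = R 4 5 4 5 := by
  rfl

theorem p5_G00 {R : Arr 6} (hR : IsAlgCurv R) (hS : Smp R) : bG R 0 0 = R 1 2 4 5 := by
  rfl

theorem p5_A01 {R : Arr 6} (hR : IsAlgCurv R) (hS : Smp R) : bA R 0 1 = 0 := by
  change R 1 2 2 0 = _
  rw [p5_sk2 hR 1 2 2 0, hR.pair 1 2 0 2, hS.1 2 1 2 (by decide) (by decide)]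
  simp

theorem p5_C01 {R : Arr 6} (hR : IsAlgCurv R) (hS : Smp R) : bC R 0 1 = -R 3 5 4 5 := by
  change R 4 5 5 3 = _
  rw [p5_sk2 hR 4 5 5 3, hR.pair 4 5 3 5]

theorem p5_G01 {R : Arr 6} (hR : IsAlgCurv R) (hS : Smp R) : bG R 0 1 = -R 1 2 3 5 := by
  change R 1 2 5 3 = _
  rw [p5_sk2 hR 1 2 5 3]

theorem p5_A02 {R : Arr 6} (hR : IsAlgCurv R) (hS : Smp R) : bA R 0 2 = 0 := by
  change R 1 2 0 1 = _
  rw [hR.pair 1 2 0 1, hS.1 1 1 2 (by decide) (by decide)]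

theorem p5_C02 {R : Arr 6} (hR : IsAlgCurv R) (hS : Smp R) : bC R 0 2 = R 3 4 4 5 := by
  change R 4 5 3 4 = _
  rw [hR.pair 4 5 3 4]

theorem p5_G02 {R : Arr 6} (hR : IsAlgCurv R) (hS : Smp R) : bG R 0 2 = R 1 2 3 4 := by
  rfl

theorem p5_A10 {R : Arr 6} (hR : IsAlgCurv R) (hS : Smp R) : bA R 1 0 = 0 := by
  change R 2 0 1 2 = _
  rw [hR.skew 2 0 1 2, hS.1 2 1 2 (by decide) (by decide)]
  simp

theorem p5_C10 {R : Arr 6} (hR : IsAlgCurv R) (hS : Smp R) : bC R 1 0 = -R 3 5 4 5 := by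
  change R 5 3 4 5 = _
  rw [hR.skew 5 3 4 5]

theorem p5_G10 {R : Arr 6} (hR : IsAlgCurv R) (hS : Smp R) : bG R 1 0 = 0 := by
  change R 2 0 4 5 = _
  rw [hR.skew 2 0 4 5, hS.1 2 4 5 (by decide) (by decide)]
  simp

theorem p5_A11 {R : Arr 6} (hR : IsAlgCurv R) (hS : Smp R) : bA R 1 1 = R 0 2 0 2 := by
  change R 2 0 2 0 = _
  rw [hR.skew 2 0 2 0, p5_sk2 hR 0 2 2 0]
  rw [neg_neg]

theorem p5_C11 {R : Arr 6} (hR : IsAlgCurv R) (hS : Smp R) : bC R 1 1 = R 3 5 3 5 := by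
  change R 5 3 5 3 = _
  rw [hR.skew 5 3 5 3, p5_sk2 hR 3 5 5 3]
  rw [neg_neg]

theorem p5_G11 {R : Arr 6} (hR : IsAlgCurv R) (hS : Smp R) : bG R 1 1 = 0 := by
  change R 2 0 5 3 = _
  rw [hR.skew 2 0 5 3, p5_sk2 hR 0 2 5 3, hS.1 2 3 5 (by decide) (by decide)]
  simp

theorem p5_A12 {R : Arr 6} (hR : IsAlgCurv R) (hS : Smp R) : bA R 1 2 = 0 := by
  change R 2 0 0 1 = _
  rw [hR.skew 2 0 0 1, hR.pair 0 2 0 1, hS.2 1 2 (by decide)]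
  simp

theorem p5_C12 {R : Arr 6} (hR : IsAlgCurv R) (hS : Smp R) : bC R 1 2 = -R 3 4 3 5 := by
  change R 5 3 3 4 = _
  rw [hR.skew 5 3 3 4, hR.pair 3 5 3 4]

theorem p5_G12 {R : Arr 6} (hR : IsAlgCurv R) (hS : Smp R) : bG R 1 2 = 0 := by
  change R 2 0 3 4 = _
  rw [hR.skew 2 0 3 4, hS.1 2 3 4 (by decide) (by decide)]
  simp

theorem p5_A20 {R : Arr 6} (hR : IsAlgCurv R) (hS : Smp R) : bA R 2 0 = 0 := by
  change R 0 1 1 2 = _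
  rw [hS.1 1 1 2 (by decide) (by decide)]

theorem p5_C20 {R : Arr 6} (hR : IsAlgCurv R) (hS : Smp R) : bC R 2 0 = R 3 4 4 5 := by
  rfl

theorem p5_G20 {R : Arr 6} (hR : IsAlgCurv R) (hS : Smp R) : bG R 2 0 = 0 := by
  change R 0 1 4 5 = _
  rw [hS.1 1 4 5 (by decide) (by decide)]

theorem p5_A21 {R : Arr 6} (hR : IsAlgCurv R) (hS : Smp R) : bA R 2 1 = 0 := by
  change R 0 1 2 0 = _
  rw [p5_sk2 hR 0 1 2 0, hS.2 1 2 (by decide)]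
  simp

theorem p5_C21 {R : Arr 6} (hR : IsAlgCurv R) (hS : Smp R) : bC R 2 1 = -R 3 4 3 5 := by
  change R 3 4 5 3 = _
  rw [p5_sk2 hR 3 4 5 3]

theorem p5_G21 {R : Arr 6} (hR : IsAlgCurv R) (hS : Smp R) : bG R 2 1 = 0 := by
  change R 0 1 5 3 = _
  rw [p5_sk2 hR 0 1 5 3, hS.1 1 3 5 (by decide) (by decide)]
  simp

theorem p5_A22 {R : Arr 6} (hR : IsAlgCurv R) (hS : Smp R) : bA R 2 2 = R 0 1 0 1 := by
  rfl

theorem p5_C22 {R : Arr 6} (hR : IsAlgCurv R) (hS : Smp R) : bC R 2 2 = R 3 4 3 4 := by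
  rfl

theorem p5_G22 {R : Arr 6} (hR : IsAlgCurv R) (hS : Smp R) : bG R 2 2 = 0 := by
  change R 0 1 3 4 = _
  rw [hS.1 1 3 4 (by decide) (by decide)]

theorem p5_L000 {R : Arr 6} (hR : IsAlgCurv R) (hS : Smp R) : bL R 0 0 0 = 0 := by
  change R 1 2 0 3 = _
  rw [hR.pair 1 2 0 3, hS.1 3 1 2 (by decide) (by decide)]

theorem p5_M000 {R : Arr 6} (hR : IsAlgCurv R) (hS : Smp R) : bM R 0 0 0 = 0 := by
  change R 4 5 0 3 = _
  rw [hR.pair 4 5 0 3, hS.1 3 4 5 (by decide) (by decide)]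

theorem p5_L001 {R : Arr 6} (hR : IsAlgCurv R) (hS : Smp R) : bL R 0 0 1 = 0 := by
  change R 1 2 0 4 = _
  rw [hR.pair 1 2 0 4, hS.1 4 1 2 (by decide) (by decide)]

theorem p5_M001 {R : Arr 6} (hR : IsAlgCurv R) (hS : Smp R) : bM R 0 0 1 = 0 := by
  change R 4 5 0 4 = _
  rw [hR.pair 4 5 0 4, hS.1 4 4 5 (by decide) (by decide)]

theorem p5_L002 {R : Arr 6} (hR : IsAlgCurv R) (hS : Smp R) : bL R 0 0 2 = 0 := by
  change R 1 2 0 5 = _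
  rw [hR.pair 1 2 0 5, hS.1 5 1 2 (by decide) (by decide)]

theorem p5_M002 {R : Arr 6} (hR : IsAlgCurv R) (hS : Smp R) : bM R 0 0 2 = 0 := by
  change R 4 5 0 5 = _
  rw [hR.pair 4 5 0 5, hS.1 5 4 5 (by decide) (by decide)]

theorem p5_L010 {R : Arr 6} (hR : IsAlgCurv R) (hS : Smp R) : bL R 0 1 0 = R 1 2 1 3 := by
  rfl

theorem p5_M010 {R : Arr 6} (hR : IsAlgCurv R) (hS : Smp R) : bM R 0 1 0 = R 1 3 4 5 := by
  change R 4 5 1 3 = _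
  rw [hR.pair 4 5 1 3]

theorem p5_L011 {R : Arr 6} (hR : IsAlgCurv R) (hS : Smp R) : bL R 0 1 1 = R 1 2 1 4 := by
  rfl

theorem p5_M011 {R : Arr 6} (hR : IsAlgCurv R) (hS : Smp R) : bM R 0 1 1 = R 1 4 4 5 := by
  change R 4 5 1 4 = _
  rw [hR.pair 4 5 1 4]

theorem p5_L012 {R : Arr 6} (hR : IsAlgCurv R) (hS : Smp R) : bL R 0 1 2 = R 1 2 1 5 := by
  rfl

theorem p5_M012 {R : Arr 6} (hR : IsAlgCurv R) (hS : Smp R) : bM R 0 1 2 = R 1 5 4 5 := by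
  change R 4 5 1 5 = _
  rw [hR.pair 4 5 1 5]

theorem p5_L020 {R : Arr 6} (hR : IsAlgCurv R) (hS : Smp R) : bL R 0 2 0 = R 1 2 2 3 := by
  rfl

theorem p5_M020 {R : Arr 6} (hR : IsAlgCurv R) (hS : Smp R) : bM R 0 2 0 = R 2 3 4 5 := by
  change R 4 5 2 3 = _
  rw [hR.pair 4 5 2 3]

theorem p5_L021 {R : Arr 6} (hR : IsAlgCurv R) (hS : Smp R) : bL R 0 2 1 = R 1 2 2 4 := by
  rfl

theorem p5_M021 {R : Arr 6} (hR : IsAlgCurv R) (hS : Smp R) : bM R 0 2 1 = R 2 4 4 5 := by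
  change R 4 5 2 4 = _
  rw [hR.pair 4 5 2 4]

theorem p5_L022 {R : Arr 6} (hR : IsAlgCurv R) (hS : Smp R) : bL R 0 2 2 = R 1 2 2 5 := by
  rfl

theorem p5_M022 {R : Arr 6} (hR : IsAlgCurv R) (hS : Smp R) : bM R 0 2 2 = R 2 5 4 5 := by
  change R 4 5 2 5 = _
  rw [hR.pair 4 5 2 5]

theorem p5_L100 {R : Arr 6} (hR : IsAlgCurv R) (hS : Smp R) : bL R 1 0 0 = 0 := by
  change R 2 0 0 3 = _
  rw [hR.skew 2 0 0 3, hS.2 2 3 (by decide)]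
  simp

theorem p5_M100 {R : Arr 6} (hR : IsAlgCurv R) (hS : Smp R) : bM R 1 0 0 = 0 := by
  change R 5 3 0 3 = _
  rw [hR.skew 5 3 0 3, hR.pair 3 5 0 3, hS.1 3 3 5 (by decide) (by decide)]
  simp

theorem p5_L101 {R : Arr 6} (hR : IsAlgCurv R) (hS : Smp R) : bL R 1 0 1 = 0 := by
  change R 2 0 0 4 = _
  rw [hR.skew 2 0 0 4, hS.2 2 4 (by decide)]
  simp

theorem p5_M101 {R : Arr 6} (hR : IsAlgCurv R) (hS : Smp R) : bM R 1 0 1 = 0 := by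
  change R 5 3 0 4 = _
  rw [hR.skew 5 3 0 4, hR.pair 3 5 0 4, hS.1 4 3 5 (by decide) (by decide)]
  simp

theorem p5_L102 {R : Arr 6} (hR : IsAlgCurv R) (hS : Smp R) : bL R 1 0 2 = 0 := by
  change R 2 0 0 5 = _
  rw [hR.skew 2 0 0 5, hS.2 2 5 (by decide)]
  simp

theorem p5_M102 {R : Arr 6} (hR : IsAlgCurv R) (hS : Smp R) : bM R 1 0 2 = 0 := by
  change R 5 3 0 5 = _
  rw [hR.skew 5 3 0 5, hR.pair 3 5 0 5, hS.1 5 3 5 (by decide) (by decide)]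
  simp

theorem p5_L110 {R : Arr 6} (hR : IsAlgCurv R) (hS : Smp R) : bL R 1 1 0 = 0 := by
  change R 2 0 1 3 = _
  rw [hR.skew 2 0 1 3, hS.1 2 1 3 (by decide) (by decide)]
  simp

theorem p5_M110 {R : Arr 6} (hR : IsAlgCurv R) (hS : Smp R) : bM R 1 1 0 = -R 1 3 3 5 := by
  change R 5 3 1 3 = _
  rw [hR.skew 5 3 1 3, hR.pair 3 5 1 3]

theorem p5_L111 {R : Arr 6} (hR : IsAlgCurv R) (hS : Smp R) : bL R 1 1 1 = 0 := by
  change R 2 0 1 4 = _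
  rw [hR.skew 2 0 1 4, hS.1 2 1 4 (by decide) (by decide)]
  simp

theorem p5_M111 {R : Arr 6} (hR : IsAlgCurv R) (hS : Smp R) : bM R 1 1 1 = -R 1 4 3 5 := by
  change R 5 3 1 4 = _
  rw [hR.skew 5 3 1 4, hR.pair 3 5 1 4]

theorem p5_L112 {R : Arr 6} (hR : IsAlgCurv R) (hS : Smp R) : bL R 1 1 2 = 0 := by
  change R 2 0 1 5 = _
  rw [hR.skew 2 0 1 5, hS.1 2 1 5 (by decide) (by decide)]
  simp

theorem p5_M112 {R : Arr 6} (hR : IsAlgCurv R) (hS : Smp R) : bM R 1 1 2 = -R 1 5 3 5 := by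
  change R 5 3 1 5 = _
  rw [hR.skew 5 3 1 5, hR.pair 3 5 1 5]

theorem p5_L120 {R : Arr 6} (hR : IsAlgCurv R) (hS : Smp R) : bL R 1 2 0 = 0 := by
  change R 2 0 2 3 = _
  rw [hR.skew 2 0 2 3, hS.1 2 2 3 (by decide) (by decide)]
  simp

theorem p5_M120 {R : Arr 6} (hR : IsAlgCurv R) (hS : Smp R) : bM R 1 2 0 = -R 2 3 3 5 := by
  change R 5 3 2 3 = _
  rw [hR.skew 5 3 2 3, hR.pair 3 5 2 3]

theorem p5_L121 {R : Arr 6} (hR : IsAlgCurv R) (hS : Smp R) : bL R 1 2 1 = 0 := by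
  change R 2 0 2 4 = _
  rw [hR.skew 2 0 2 4, hS.1 2 2 4 (by decide) (by decide)]
  simp

theorem p5_M121 {R : Arr 6} (hR : IsAlgCurv R) (hS : Smp R) : bM R 1 2 1 = -R 2 4 3 5 := by
  change R 5 3 2 4 = _
  rw [hR.skew 5 3 2 4, hR.pair 3 5 2 4]

theorem p5_L122 {R : Arr 6} (hR : IsAlgCurv R) (hS : Smp R) : bL R 1 2 2 = 0 := by
  change R 2 0 2 5 = _
  rw [hR.skew 2 0 2 5, hS.1 2 2 5 (by decide) (by decide)]
  simp

theorem p5_M122 {R : Arr 6} (hR : IsAlgCurv R) (hS : Smp R) : bM R 1 2 2 = -R 2 5 3 5 := by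
  change R 5 3 2 5 = _
  rw [hR.skew 5 3 2 5, hR.pair 3 5 2 5]

theorem p5_L200 {R : Arr 6} (hR : IsAlgCurv R) (hS : Smp R) : bL R 2 0 0 = 0 := by
  change R 0 1 0 3 = _
  rw [hS.2 1 3 (by decide)]

theorem p5_M200 {R : Arr 6} (hR : IsAlgCurv R) (hS : Smp R) : bM R 2 0 0 = 0 := by
  change R 3 4 0 3 = _
  rw [hR.pair 3 4 0 3, hS.1 3 3 4 (by decide) (by decide)]

theorem p5_L201 {R : Arr 6} (hR : IsAlgCurv R) (hS : Smp R) : bL R 2 0 1 = 0 := by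
  change R 0 1 0 4 = _
  rw [hS.2 1 4 (by decide)]

theorem p5_M201 {R : Arr 6} (hR : IsAlgCurv R) (hS : Smp R) : bM R 2 0 1 = 0 := by
  change R 3 4 0 4 = _
  rw [hR.pair 3 4 0 4, hS.1 4 3 4 (by decide) (by decide)]

theorem p5_L202 {R : Arr 6} (hR : IsAlgCurv R) (hS : Smp R) : bL R 2 0 2 = 0 := by
  change R 0 1 0 5 = _
  rw [hS.2 1 5 (by decide)]

theorem p5_M202 {R : Arr 6} (hR : IsAlgCurv R) (hS : Smp R) : bM R 2 0 2 = 0 := by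
  change R 3 4 0 5 = _
  rw [hR.pair 3 4 0 5, hS.1 5 3 4 (by decide) (by decide)]

theorem p5_L210 {R : Arr 6} (hR : IsAlgCurv R) (hS : Smp R) : bL R 2 1 0 = 0 := by
  change R 0 1 1 3 = _
  rw [hS.1 1 1 3 (by decide) (by decide)]

theorem p5_M210 {R : Arr 6} (hR : IsAlgCurv R) (hS : Smp R) : bM R 2 1 0 = R 1 3 3 4 := by
  change R 3 4 1 3 = _
  rw [hR.pair 3 4 1 3]

theorem p5_L211 {R : Arr 6} (hR : IsAlgCurv R) (hS : Smp R) : bL R 2 1 1 = 0 := by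
  change R 0 1 1 4 = _
  rw [hS.1 1 1 4 (by decide) (by decide)]

theorem p5_M211 {R : Arr 6} (hR : IsAlgCurv R) (hS : Smp R) : bM R 2 1 1 = R 1 4 3 4 := by
  change R 3 4 1 4 = _
  rw [hR.pair 3 4 1 4]

theorem p5_L212 {R : Arr 6} (hR : IsAlgCurv R) (hS : Smp R) : bL R 2 1 2 = 0 := by
  change R 0 1 1 5 = _
  rw [hS.1 1 1 5 (by decide) (by decide)]

theorem p5_M212 {R : Arr 6} (hR : IsAlgCurv R) (hS : Smp R) : bM R 2 1 2 = R 1 4 3 5 - R 1 3 4 5 := by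
  change R 3 4 1 5 = _
  rw [hR.pair 3 4 1 5, p5_bi hR 1 3 4 5]

theorem p5_L220 {R : Arr 6} (hR : IsAlgCurv R) (hS : Smp R) : bL R 2 2 0 = 0 := by
  change R 0 1 2 3 = _
  rw [hS.1 1 2 3 (by decide) (by decide)]

theorem p5_M220 {R : Arr 6} (hR : IsAlgCurv R) (hS : Smp R) : bM R 2 2 0 = R 2 3 3 4 := by
  change R 3 4 2 3 = _
  rw [hR.pair 3 4 2 3]

theorem p5_L221 {R : Arr 6} (hR : IsAlgCurv R) (hS : Smp R) : bL R 2 2 1 = 0 := by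
  change R 0 1 2 4 = _
  rw [hS.1 1 2 4 (by decide) (by decide)]

theorem p5_M221 {R : Arr 6} (hR : IsAlgCurv R) (hS : Smp R) : bM R 2 2 1 = R 2 4 3 4 := by
  change R 3 4 2 4 = _
  rw [hR.pair 3 4 2 4]

theorem p5_L222 {R : Arr 6} (hR : IsAlgCurv R) (hS : Smp R) : bL R 2 2 2 = 0 := by
  change R 0 1 2 5 = _
  rw [hS.1 1 2 5 (by decide) (by decide)]

theorem p5_M222 {R : Arr 6} (hR : IsAlgCurv R) (hS : Smp R) : bM R 2 2 2 = R 2 4 3 5 - R 2 3 4 5 := by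
  change R 3 4 2 5 = _
  rw [hR.pair 3 4 2 5, p5_bi hR 2 3 4 5]

theorem p5_e00 : (1 : Equiv.Perm (Fin 3)) 0 = 0 := by decide

theorem p5_e01 : (1 : Equiv.Perm (Fin 3)) 1 = 1 := by decide

theorem p5_e02 : (1 : Equiv.Perm (Fin 3)) 2 = 2 := by decide

theorem p5_e10 : (swap 0 1 : Equiv.Perm (Fin 3)) 0 = 1 := by decide

theorem p5_e11 : (swap 0 1 : Equiv.Perm (Fin 3)) 1 = 0 := by decide

theorem p5_e12 : (swap 0 1 : Equiv.Perm (Fin 3)) 2 = 2 := by decide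

theorem p5_e20 : (swap 0 2 : Equiv.Perm (Fin 3)) 0 = 2 := by decide

theorem p5_e21 : (swap 0 2 : Equiv.Perm (Fin 3)) 1 = 1 := by decide

theorem p5_e22 : (swap 0 2 : Equiv.Perm (Fin 3)) 2 = 0 := by decide

theorem p5_e30 : (swap 1 2 : Equiv.Perm (Fin 3)) 0 = 0 := by decide

theorem p5_e31 : (swap 1 2 : Equiv.Perm (Fin 3)) 1 = 2 := by decide

theorem p5_e32 : (swap 1 2 : Equiv.Perm (Fin 3)) 2 = 1 := by decide

theorem p5_e40 : (swap 0 1 * swap 1 2 : Equiv.Perm (Fin 3)) 0 = 1 := by decide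

theorem p5_e41 : (swap 0 1 * swap 1 2 : Equiv.Perm (Fin 3)) 1 = 2 := by decide

theorem p5_e42 : (swap 0 1 * swap 1 2 : Equiv.Perm (Fin 3)) 2 = 0 := by decide

theorem p5_e50 : (swap 1 2 * swap 0 1 : Equiv.Perm (Fin 3)) 0 = 2 := by decide

theorem p5_e51 : (swap 1 2 * swap 0 1 : Equiv.Perm (Fin 3)) 1 = 0 := by decide

theorem p5_e52 : (swap 1 2 * swap 0 1 : Equiv.Perm (Fin 3)) 2 = 1 := by decide

theorem p5_s0 : (((Equiv.Perm.sign (1 : Equiv.Perm (Fin 3)) : ℤˣ) : ℤ) : ℝ) = 1 := by simp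

theorem p5_s1 : (((Equiv.Perm.sign (swap 0 1 : Equiv.Perm (Fin 3)) : ℤˣ) : ℤ) : ℝ) = -1 := by
  rw [Equiv.Perm.sign_swap (by decide)]; simp

theorem p5_s2 : (((Equiv.Perm.sign (swap 0 2 : Equiv.Perm (Fin 3)) : ℤˣ) : ℤ) : ℝ) = -1 := by
  rw [Equiv.Perm.sign_swap (by decide)]; simp

theorem p5_s3 : (((Equiv.Perm.sign (swap 1 2 : Equiv.Perm (Fin 3)) : ℤˣ) : ℤ) : ℝ) = -1 := by
  rw [Equiv.Perm.sign_swap (by decide)]; simp

theorem p5_s4 : (((Equiv.Perm.sign (swap 0 1 * swap 1 2 : Equiv.Perm (Fin 3)) : ℤˣ) : ℤ) : ℝ) = 1 := by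
  rw [Equiv.Perm.sign_mul, Equiv.Perm.sign_swap (by decide), Equiv.Perm.sign_swap (by decide)]; simp

theorem p5_s5 : (((Equiv.Perm.sign (swap 1 2 * swap 0 1 : Equiv.Perm (Fin 3)) : ℤˣ) : ℤ) : ℝ) = 1 := by
  rw [Equiv.Perm.sign_mul, Equiv.Perm.sign_swap (by decide), Equiv.Perm.sign_swap (by decide)]; simp

theorem p5_a00 : ((0 : Fin 5).succAbove (0 : Fin 4)).succ = (2 : Fin 6) := by decide

theorem p5_a01 : ((0 : Fin 5).succAbove (1 : Fin 4)).succ = (3 : Fin 6) := by decide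

theorem p5_a02 : ((0 : Fin 5).succAbove (2 : Fin 4)).succ = (4 : Fin 6) := by decide

theorem p5_a03 : ((0 : Fin 5).succAbove (3 : Fin 4)).succ = (5 : Fin 6) := by decide

theorem p5_a10 : ((1 : Fin 5).succAbove (0 : Fin 4)).succ = (1 : Fin 6) := by decide

theorem p5_a11 : ((1 : Fin 5).succAbove (1 : Fin 4)).succ = (3 : Fin 6) := by decide

theorem p5_a12 : ((1 : Fin 5).succAbove (2 : Fin 4)).succ = (4 : Fin 6) := by decide

theorem p5_a13 : ((1 : Fin 5).succAbove (3 : Fin 4)).succ = (5 : Fin 6) := by decide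

theorem p5_a20 : ((2 : Fin 5).succAbove (0 : Fin 4)).succ = (1 : Fin 6) := by decide

theorem p5_a21 : ((2 : Fin 5).succAbove (1 : Fin 4)).succ = (2 : Fin 6) := by decide

theorem p5_a22 : ((2 : Fin 5).succAbove (2 : Fin 4)).succ = (4 : Fin 6) := by decide

theorem p5_a23 : ((2 : Fin 5).succAbove (3 : Fin 4)).succ = (5 : Fin 6) := by decide

theorem p5_a30 : ((3 : Fin 5).succAbove (0 : Fin 4)).succ = (1 : Fin 6) := by decide

theorem p5_a31 : ((3 : Fin 5).succAbove (1 : Fin 4)).succ = (2 : Fin 6) := by decide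

theorem p5_a32 : ((3 : Fin 5).succAbove (2 : Fin 4)).succ = (3 : Fin 6) := by decide

theorem p5_a33 : ((3 : Fin 5).succAbove (3 : Fin 4)).succ = (5 : Fin 6) := by decide

theorem p5_a40 : ((4 : Fin 5).succAbove (0 : Fin 4)).succ = (1 : Fin 6) := by decide

theorem p5_a41 : ((4 : Fin 5).succAbove (1 : Fin 4)).succ = (2 : Fin 6) := by decide

theorem p5_a42 : ((4 : Fin 5).succAbove (2 : Fin 4)).succ = (3 : Fin 6) := by decide

theorem p5_a43 : ((4 : Fin 5).succAbove (3 : Fin 4)).succ = (4 : Fin 6) := by decide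

theorem p5_b0 : (0 : Fin 5).succ = (1 : Fin 6) := by decide

theorem p5_b1 : (1 : Fin 5).succ = (2 : Fin 6) := by decide

theorem p5_b2 : (2 : Fin 5).succ = (3 : Fin 6) := by decide

theorem p5_b3 : (3 : Fin 5).succ = (4 : Fin 6) := by decide

theorem p5_b4 : (4 : Fin 5).succ = (5 : Fin 6) := by decide

theorem p5_R4535 {R : Arr 6} (hR : IsAlgCurv R) : R 4 5 3 5 = R 3 5 4 5 := by
  rw [hR.pair 4 5 3 5]

theorem p5_R4534 {R : Arr 6} (hR : IsAlgCurv R) : R 4 5 3 4 = R 3 4 4 5 := by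
  rw [hR.pair 4 5 3 4]

theorem p5_R3534 {R : Arr 6} (hR : IsAlgCurv R) : R 3 5 3 4 = R 3 4 3 5 := by
  rw [hR.pair 3 5 3 4]

theorem p5_R2534 {R : Arr 6} (hR : IsAlgCurv R) : R 2 5 3 4 = R 2 4 3 5 - R 2 3 4 5 := by
  rw [p5_bi hR 2 3 4 5]

theorem p5_R1534 {R : Arr 6} (hR : IsAlgCurv R) : R 1 5 3 4 = R 1 4 3 5 - R 1 3 4 5 := by
  rw [p5_bi hR 1 3 4 5]

theorem p5_R4525 {R : Arr 6} (hR : IsAlgCurv R) : R 4 5 2 5 = R 2 5 4 5 := by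
  rw [hR.pair 4 5 2 5]

theorem p5_R4524 {R : Arr 6} (hR : IsAlgCurv R) : R 4 5 2 4 = R 2 4 4 5 := by
  rw [hR.pair 4 5 2 4]

theorem p5_R2524 {R : Arr 6} (hR : IsAlgCurv R) : R 2 5 2 4 = R 2 4 2 5 := by
  rw [hR.pair 2 5 2 4]

theorem p5_R1524 {R : Arr 6} (hR : IsAlgCurv R) : R 1 5 2 4 = R 1 4 2 5 - R 1 2 4 5 := by
  rw [p5_bi hR 1 2 4 5]

theorem p5_R3525 {R : Arr 6} (hR : IsAlgCurv R) : R 3 5 2 5 = R 2 5 3 5 := by
  rw [hR.pair 3 5 2 5]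

theorem p5_R3523 {R : Arr 6} (hR : IsAlgCurv R) : R 3 5 2 3 = R 2 3 3 5 := by
  rw [hR.pair 3 5 2 3]

theorem p5_R2523 {R : Arr 6} (hR : IsAlgCurv R) : R 2 5 2 3 = R 2 3 2 5 := by
  rw [hR.pair 2 5 2 3]

theorem p5_R1523 {R : Arr 6} (hR : IsAlgCurv R) : R 1 5 2 3 = R 1 3 2 5 - R 1 2 3 5 := by
  rw [p5_bi hR 1 2 3 5]

theorem p5_R3424 {R : Arr 6} (hR : IsAlgCurv R) : R 3 4 2 4 = R 2 4 3 4 := by
  rw [hR.pair 3 4 2 4]

theorem p5_R3423 {R : Arr 6} (hR : IsAlgCurv R) : R 3 4 2 3 = R 2 3 3 4 := by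
  rw [hR.pair 3 4 2 3]

theorem p5_R2423 {R : Arr 6} (hR : IsAlgCurv R) : R 2 4 2 3 = R 2 3 2 4 := by
  rw [hR.pair 2 4 2 3]

theorem p5_R1423 {R : Arr 6} (hR : IsAlgCurv R) : R 1 4 2 3 = R 1 3 2 4 - R 1 2 3 4 := by
  rw [p5_bi hR 1 2 3 4]

theorem P5_gb {R : Arr 6} (hR : IsAlgCurv R) (hS : Smp R) :
    gb R = 12 * ∑ i : Fin 5, R 0 i.succ 0 i.succ *
      Pool.Agent.H69Hopf.gaussBonnet 2 (fun a b c e : Fin 4 =>
        R (i.succAbove a).succ (i.succAbove b).succ (i.succAbove c).succ (i.succAbove e).succ) := by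
  have h1 := HopfKC.gb_blocks (R := R) ⟨hR.skew, hR.pair, hR.bianchi⟩
  have h2 : ∀ i : Fin 5, Pool.Agent.H69Hopf.gaussBonnet 2 (fun a b c e : Fin 4 =>
      R (i.succAbove a).succ (i.succAbove b).succ (i.succAbove c).succ (i.succAbove e).succ) = _ :=
    fun i => Pool.Agent.H69Hopf.gb2_formula _ ⟨fun _ _ _ _ => hR.skew _ _ _ _,
      fun _ _ _ _ => hR.pair _ _ _ _, fun _ _ _ _ => hR.bianchi _ _ _ _⟩
  rw [show gb R = HopfSix.gaussBonnet R from rfl, h1]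
  simp only [h2, Fin.sum_univ_five, p5_a00, p5_a01, p5_a02, p5_a03, p5_a10, p5_a11, p5_a12, p5_a13, p5_a20, p5_a21, p5_a22, p5_a23, p5_a30, p5_a31, p5_a32, p5_a33, p5_a40, p5_a41, p5_a42, p5_a43, p5_b0, p5_b1, p5_b2, p5_b3, p5_b4]
  unfold H91.Mat3.QP bX bE3
  simp only [HopfKC.sum_perm3, Fin.prod_univ_three, Fin.sum_univ_three, p5_e00, p5_e01, p5_e02, p5_e10, p5_e11, p5_e12, p5_e20, p5_e21, p5_e22, p5_e30, p5_e31, p5_e32, p5_e40, p5_e41, p5_e42, p5_e50, p5_e51, p5_e52, p5_s0, p5_s1, p5_s2, p5_s3, p5_s4, p5_s5]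
  simp only [p5_T0000 hR hS, p5_T0001 hR hS, p5_T0002 hR hS, p5_T0010 hR hS, p5_T0011 hR hS, p5_T0012 hR hS, p5_T0020 hR hS, p5_T0021 hR hS, p5_T0022 hR hS, p5_T0100 hR hS, p5_T0101 hR hS, p5_T0102 hR hS, p5_T0110 hR hS, p5_T0111 hR hS, p5_T0112 hR hS, p5_T0120 hR hS, p5_T0121 hR hS, p5_T0122 hR hS, p5_T0200 hR hS, p5_T0201 hR hS, p5_T0202 hR hS, p5_T0210 hR hS, p5_T0211 hR hS, p5_T0212 hR hS, p5_T0220 hR hS, p5_T0221 hR hS, p5_T0222 hR hS, p5_T1000 hR hS, p5_T1001 hR hS, p5_T1002 hR hS, p5_T1010 hR hS, p5_T1011 hR hS, p5_T1012 hR hS, p5_T1020 hR hS, p5_T1021 hR hS, p5_T1022 hR hS, p5_T1100 hR hS, p5_T1101 hR hS, p5_T1102 hR hS, p5_T1110 hR hS, p5_T1111 hR hS, p5_T1112 hR hS, p5_T1120 hR hS, p5_T1121 hR hS, p5_T1122 hR hS, p5_T1200 hR hS, p5_T1201 hR hS, p5_T1202 hR hS, p5_T1210 hR hS, p5_T1211 hR hS, p5_T1212 hR hS, p5_T1220 hR hS, p5_T1221 hR hS,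 p5_T1222 hR hS, p5_T2000 hR hS, p5_T2001 hR hS, p5_T2002 hR hS, p5_T2010 hR hS, p5_T2011 hR hS, p5_T2012 hR hS, p5_T2020 hR hS, p5_T2021 hR hS, p5_T2022 hR hS, p5_T2100 hR hS, p5_T2101 hR hS, p5_T2102 hR hS, p5_T2110 hR hS, p5_T2111 hR hS, p5_T2112 hR hS, p5_T2120 hR hS, p5_T2121 hR hS, p5_T2122 hR hS, p5_T2200 hR hS, p5_T2201 hR hS, p5_T2202 hR hS, p5_T2210 hR hS, p5_T2211 hR hS, p5_T2212 hR hS, p5_T2220 hR hS, p5_T2221 hR hS, p5_T2222 hR hS, p5_A00 hR hS, p5_C00 hR hS, p5_G00 hR hS, p5_A01 hR hS, p5_C01 hR hS, p5_G01 hR hS, p5_A02 hR hS, p5_C02 hR hS, p5_G02 hR hS, p5_A10 hR hS, p5_C10 hR hS, p5_G10 hR hS, p5_A11 hR hS, p5_C11 hR hS, p5_G11 hR hS, p5_A12 hR hS, p5_C12 hR hS, p5_G12 hR hS, p5_A20 hR hS, p5_C20 hR hS, p5_G20 hR hS, p5_A21 hR hS, p5_C21 hR hS, p5_G21 hR hS, p5_A22 hR hS, p5_C22 hR hS, p5_G22 hR hS, p5_L000 hR hS, p5_M000 hR hS, p5_L001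 hR hS, p5_M001 hR hS, p5_L002 hR hS, p5_M002 hR hS, p5_L010 hR hS, p5_M010 hR hS, p5_L011 hR hS, p5_M011 hR hS, p5_L012 hR hS, p5_M012 hR hS, p5_L020 hR hS, p5_M020 hR hS, p5_L021 hR hS, p5_M021 hR hS, p5_L022 hR hS, p5_M022 hR hS, p5_L100 hR hS, p5_M100 hR hS, p5_L101 hR hS, p5_M101 hR hS, p5_L102 hR hS, p5_M102 hR hS, p5_L110 hR hS, p5_M110 hR hS, p5_L111 hR hS, p5_M111 hR hS, p5_L112 hR hS, p5_M112 hR hS, p5_L120 hR hS, p5_M120 hR hS, p5_L121 hR hS, p5_M121 hR hS, p5_L122 hR hS, p5_M122 hR hS, p5_L200 hR hS, p5_M200 hR hS, p5_L201 hR hS, p5_M201 hR hS, p5_L202 hR hS, p5_M202 hR hS, p5_L210 hR hS, p5_M210 hR hS, p5_L211 hR hS, p5_M211 hR hS, p5_L212 hR hS, p5_M212 hR hS, p5_L220 hR hS, p5_M220 hR hS, p5_L221 hR hS, p5_M221 hR hS, p5_L222 hR hS, p5_M222 hR hS, mul_zero, zero_mul, add_zero, zero_add]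
  simp only [p5_R1423 hR, p5_R1523 hR, p5_R1524 hR, p5_R1534 hR, p5_R2423 hR, p5_R2523 hR, p5_R2524 hR, p5_R2534 hR, p5_R3423 hR, p5_R3424 hR, p5_R3523 hR, p5_R3525 hR, p5_R3534 hR, p5_R4524 hR, p5_R4525 hR, p5_R4534 hR, p5_R4535 hR]
  ring

end H30K
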