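import Pool.Agent.Lib.H30K.Defs
import Pool.Agent.Lib.H69.Hopf.Rec

/-!
# P6 (S/M): dimension four with `sec ≤ -h`

Put `P i j k l = -R i j k l - h * idA 4 i j k l`. It is an algebraic curvature tensor
(`algCurv_sub_idA` applied to `-R`) with `ev P x y x y ≥ 0` (`ev_sub_idA`, `hK`). By
`gb2_formula` for `R` and for `P` (`R i j k l = -P i j k l - h idA`, `idA` has the components `1` at
`i j i j`, `-1` at `i j j i`): `gaussBonnet 2 R = gaussBonnet 2 P + 32 (3 h² + h ∑_{i<j} P i j i j)`.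
`gaussBonnet 2 P ≥ 0` by `milnor`, `P i j i j = ev P e_i e_j e_i e_j ≥ 0`.
-/

set_option autoImplicit false

open scoped ContDiff Topology Manifold
open Set

namespace H30K

open H31R H79G H60E
open Pool.Agent.H69Hopf (Arr IsAlgCurv ev area2)
open HopfKC (lo hi)

theorem p6_ev_single {N : ℕ} (P : Arr N) (i j : Fin N) :
    ev P (Pi.single i 1) (Pi.single j 1) (Pi.single i 1) (Pi.single j 1) = P i j i j := by
  unfold ev
  simp [Pi.single_apply]

theorem P6_milnor {R : Arr 4} (hR : IsAlgCurv R) {h : ℝ} (hh : 0 ≤ h) (hK : KB h R) :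
    96 * h ^ 2 ≤ Pool.Agent.H69Hopf.gaussBonnet 2 R := by
  have hneg : IsAlgCurv (N := 4) (fun i j k l => -R i j k l) :=
    ⟨fun i j k l => by rw [hR.skew i j k l], fun i j k l => by rw [hR.pair i j k l],
      fun i j k l => by have := hR.bianchi i j k l; linarith⟩
  have hP := Pool.Agent.H69Hopf.algCurv_sub_idA hneg h
  obtain ⟨P, hPdef⟩ : ∃ P : Arr 4, P = fun i j k l =>
    -R i j k l - h * Pool.Agent.H69Hopf.idA 4 i j k l := ⟨_, rfl⟩
  rw [← hPdef] at hP
  have hneg2 : ∀ x y : Fin 4 → ℝ, ev (N := 4) (fun i j k l => -R i j k l) x y x y = -ev R x y x y := by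
    intro x y
    unfold ev
    simp only [neg_mul, Finset.sum_neg_distrib]
  have hpos : ∀ x y : Fin (2 * 2) → ℝ, 0 ≤ ev (N := 2 * 2) P x y x y := by
    intro x y
    have h1 := Pool.Agent.H69Hopf.ev_sub_idA (N := 4) (fun i j k l => -R i j k l) h x y
    have h2 := hK x y
    rw [hneg2 x y] at h1
    rw [hPdef]
    refine le_of_le_of_eq ?_ h1.symm
    linarith
  have hm := Pool.Agent.H69Hopf.milnor P hP hpos
  have f1 := Pool.Agent.H69Hopf.gb2_formula R hR
  have f2 := Pool.Agent.H69Hopf.gb2_formula P hP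
  have hd : ∀ i j : Fin 4, 0 ≤ P i j i j := fun i j => by
    rw [← p6_ev_single P i j]
    exact hpos _ _
  have hPR : ∀ i j k l, R i j k l = -P i j k l - h * Pool.Agent.H69Hopf.idA 4 i j k l := by
    intro i j k l
    rw [hPdef]
    ring
  rw [f2] at hm
  rw [f1]
  simp only [hPR]
  have d1 := hd 0 1
  have d2 := hd 0 2
  have d3 := hd 0 3
  have d4 := hd 1 2
  have d5 := hd 1 3
  have d6 := hd 2 3
  have i1 : ∀ i j k l : Fin 4, Pool.Agent.H69Hopf.idA 4 i j k l =
      (if i = k then 1 else 0) * (if j = l then 1 else 0) -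
      (if i = l then 1 else 0) * (if j = k then 1 else 0) := fun i j k l => rfl
  simp only [i1]
  norm_num [Fin.ext_iff]
  nlinarith [mul_nonneg hh d1, mul_nonneg hh d2, mul_nonneg hh d3, mul_nonneg hh d4,
    mul_nonneg hh d5, mul_nonneg hh d6]

end H30K
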