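import Pool.Agent.Lib.H30K.P3A
import Pool.Agent.Lib.H30K.P3B
import Pool.Agent.Lib.H30K.P4
import Pool.Agent.Lib.H30K.P5
import Pool.Agent.Lib.H30K.P6

/-!
# P6S (S/M): the case of a simple index

Let `R e i k l = 0` for `k, l ≠ e`. With the permutation `swap 0 e` (`gb_perm`, `kb_perm`,
`algCurv_perm`) we may assume `e = 0`. With `P4_exists` and `gb_orth`, `kb_orth`, `frR_algCurv` we
may assume `Smp R`. Then `P5_gb`; `R 0 i 0 i ≤ -h` (`kb_apply`) and the four-dimensional tensors satisfy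
`KB h` and `IsAlgCurv` (extend vectors by zero: `ev` and `area2` are unchanged), so
`gaussBonnet 2 ≥ 96 h²` (`P6_milnor`), and `gb R ≤ 12 · 5 · (-h) · 96 h² = -5760 h³`.

`kb_apply`: `v = e_i`, `w = e_j` standard basis vectors, `area2 = 1`.
-/

set_option autoImplicit false

open scoped ContDiff Topology Manifold
open Set

namespace H30K

open H31R H79G H60E
open Pool.Agent.H69Hopf (Arr IsAlgCurv ev area2)
open HopfKC (lo hi)

theorem kb_apply {N : ℕ} {R : Arr N} {h : ℝ} (hK : KB h R) {i j : Fin N} (hij : i ≠ j) :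
    R i j i j ≤ -h := by
  have h1 := hK (Pi.single i 1) (Pi.single j 1)
  rw [Pool.Agent.H69Hopf.ev_single] at h1
  have h2 : area2 (Pi.single i 1 : Fin N → ℝ) (Pi.single j 1) = 1 := by
    unfold area2
    have e1 : ∀ a : Fin N, ∑ b, (Pi.single a 1 : Fin N → ℝ) b ^ 2 = 1 := by
      intro a
      rw [Finset.sum_eq_single a]
      · simp
      · intro b _ hb
        simp [hb]
      · intro ha
        exact absurd (Finset.mem_univ a) ha
    have e2 : ∑ b, (Pi.single i 1 : Fin N → ℝ) b * (Pi.single j 1 : Fin N → ℝ) b = 0 := by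
      refine Finset.sum_eq_zero fun b _ => ?_
      by_cases hb : b = i
      · subst hb
        simp [hij]
      · simp [hb]
    rw [e1, e1, e2]
    norm_num
  rw [h2, mul_one] at h1
  exact h1

theorem p6s_sum {M N : ℕ} {f : Fin M → Fin N} (hf : Function.Injective f) (G : Fin N → ℝ)
    (h : ∀ a, (∀ b, f b ≠ a) → G a = 0) : ∑ a, G a = ∑ b, G (f b) := by
  rw [← Finset.sum_image (s := Finset.univ) (g := f) (f := G) (fun a _ b _ h => hf h)]
  symm
  exact Finset.sum_subset (Finset.subset_univ _) fun a _ ha => h a fun b hb =>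
    ha (Finset.mem_image.2 ⟨b, Finset.mem_univ b, hb⟩)

theorem p6s_ext0 {M N : ℕ} {f : Fin M → Fin N} (x : Fin M → ℝ) {a : Fin N}
    (h : ∀ b, f b ≠ a) : Function.extend f x 0 a = 0 := by
  rw [Function.extend_apply' _ _ _ (fun ⟨b, hb⟩ => h b hb)]
  rfl

theorem p6s_ev {M N : ℕ} {f : Fin M → Fin N} (hf : Function.Injective f) (R : Arr N)
    (x y z w : Fin M → ℝ) :
    ev (N := M) (fun i j k l => R (f i) (f j) (f k) (f l)) x y z w =
      ev R (Function.extend f x 0) (Function.extend f y 0) (Function.extend f z 0)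
        (Function.extend f w 0) := by
  unfold ev
  symm
  rw [p6s_sum hf _ fun a ha => Finset.sum_eq_zero fun b _ => Finset.sum_eq_zero fun c _ =>
    Finset.sum_eq_zero fun e _ => by rw [p6s_ext0 x ha]; ring]
  refine Finset.sum_congr rfl fun i _ => ?_
  rw [p6s_sum hf _ fun a ha => Finset.sum_eq_zero fun c _ =>
    Finset.sum_eq_zero fun e _ => by rw [p6s_ext0 y ha]; ring]
  refine Finset.sum_congr rfl fun j _ => ?_
  rw [p6s_sum hf _ fun a ha =>
    Finset.sum_eq_zero fun e _ => by rw [p6s_ext0 z ha]; ring]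
  refine Finset.sum_congr rfl fun k _ => ?_
  rw [p6s_sum hf _ fun a ha => by rw [p6s_ext0 w ha]; ring]
  refine Finset.sum_congr rfl fun l _ => ?_
  rw [hf.extend_apply, hf.extend_apply, hf.extend_apply, hf.extend_apply]

theorem p6s_area {M N : ℕ} {f : Fin M → Fin N} (hf : Function.Injective f) (x y : Fin M → ℝ) :
    area2 (Function.extend f x 0) (Function.extend f y 0) = area2 x y := by
  unfold area2
  rw [p6s_sum hf (fun a => Function.extend f x 0 a ^ 2) fun a ha => by
      rw [p6s_ext0 x ha]; norm_num,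
    p6s_sum hf (fun a => Function.extend f y 0 a ^ 2) fun a ha => by
      rw [p6s_ext0 y ha]; norm_num,
    p6s_sum hf (fun a => Function.extend f x 0 a * Function.extend f y 0 a) fun a ha => by
      rw [p6s_ext0 x ha]; ring]
  simp only [hf.extend_apply]

theorem p6s_kb {M N : ℕ} {f : Fin M → Fin N} (hf : Function.Injective f) {R : Arr N} {h : ℝ}
    (hK : KB h R) : KB (N := M) h (fun i j k l => R (f i) (f j) (f k) (f l)) := by
  intro v w
  rw [p6s_ev hf, ← p6s_area hf]
  exact hK _ _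

theorem p6s_alg {M N : ℕ} (f : Fin M → Fin N) {R : Arr N} (hR : IsAlgCurv R) :
    IsAlgCurv (N := M) (fun i j k l => R (f i) (f j) (f k) (f l)) :=
  ⟨fun _ _ _ _ => hR.skew _ _ _ _, fun _ _ _ _ => hR.pair _ _ _ _,
    fun _ _ _ _ => hR.bianchi _ _ _ _⟩

theorem p6s_main {R : Arr 6} (hR : IsAlgCurv R) {h : ℝ} (hh : 0 ≤ h) (hK : KB h R)
    (hS : Smp R) : gb R ≤ -(5760 * h ^ 3) := by
  rw [P5_gb hR hS]
  have h1 : ∀ i : Fin 5, R 0 i.succ 0 i.succ *
      Pool.Agent.H69Hopf.gaussBonnet 2 (fun a b c e : Fin 4 =>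
        R (i.succAbove a).succ (i.succAbove b).succ (i.succAbove c).succ (i.succAbove e).succ) ≤
      -(96 * h ^ 3) := by
    intro i
    have hf : Function.Injective (fun a : Fin 4 => (i.succAbove a).succ) := by
      intro a b hab
      exact Fin.succAbove_right_injective (Fin.succ_injective _ hab)
    have h2 := P6_milnor (p6s_alg (fun a : Fin 4 => (i.succAbove a).succ) hR) hh (p6s_kb hf hK)
    have h3 : R 0 i.succ 0 i.succ ≤ -h := kb_apply hK (Fin.succ_ne_zero i).symm
    obtain ⟨X, hX⟩ : ∃ X, X = Pool.Agent.H69Hopf.gaussBonnet 2 (fun a b c e : Fin 4 =>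
        R (i.succAbove a).succ (i.succAbove b).succ (i.succAbove c).succ
          (i.succAbove e).succ) := ⟨_, rfl⟩
    rw [← hX]
    have h4 : 96 * h ^ 2 ≤ X := by
      rw [hX]
      exact h2
    have h5 : 0 ≤ X := le_trans (by positivity) h4
    nlinarith [mul_le_mul_of_nonneg_right h3 h5, mul_le_mul_of_nonneg_left h4 hh]
  have h2 := Finset.sum_le_sum fun i (_ : i ∈ (Finset.univ : Finset (Fin 5))) => h1 i
  rw [Finset.sum_const, Finset.card_univ, Fintype.card_fin, nsmul_eq_mul] at h2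
  push_cast at h2
  linarith

theorem case_simple {R : Arr 6} (hR : IsAlgCurv R) {h : ℝ} (hh : 0 ≤ h) (hK : KB h R) {e : Fin 6}
    (h0 : ∀ i k l, k ≠ e → l ≠ e → R e i k l = 0) : gb R ≤ -(5760 * h ^ 3) := by
  obtain ⟨s, hs⟩ : ∃ s : Equiv.Perm (Fin 6), s = Equiv.swap 0 e := ⟨_, rfl⟩
  have hs0 : s 0 = e := by rw [hs, Equiv.swap_apply_left]
  have hne : ∀ k, k ≠ 0 → s k ≠ e := fun k hk h => hk (s.injective (by rw [h, hs0]))
  rw [← gb_perm R s]
  have hR1 := algCurv_perm hR s
  have hK1 := kb_perm hK s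
  obtain ⟨O, hO, hS⟩ := P4_exists hR1 fun i k l hk hl => by
    show R (s 0) (s i) (s k) (s l) = 0
    rw [hs0]
    exact h0 _ _ _ (hne k hk) (hne l hl)
  rw [← gb_orth _ hO]
  exact p6s_main (frR_algCurv hR1 O) hh (kb_orth hK1 hO) hS

end H30K
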