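import Pool.Agent.Lib.H30K.P14
import Pool.Agent.Lib.H30K.P6S
import Pool.Agent.Lib.H30K.P3A

/-!
# P15 (M): the case of two classes

Let `n` be the number of `i` with `s i = true`, `2 ≤ n ≤ 4`.

`n = 2`, `{i | s i} = {e, f}`: `R e i k l = 0` for `k, l ≠ e`. Indeed if `i = e` skewness. If `i = f` and
the component is nonzero, then `s k = s l = true`, so `k = l = f` and skewness gives zero. If
`s i = false` and the component is nonzero: one of `k`, `l` is `f` (the one with `s = true`, `≠ e`) and
the other one has `s = false`; the component is zero by `hs.d` (`e ≠ f`; use `R e i k l = -R e i l k` in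
the second case). So `case_simple`: `gb R ≤ -5760 h³ ≤ -384 h³`. `n = 4`: the same with the two indices
with `s = false` (exchange the classes).

`n = 3`: choose a permutation `e` with `s (e i) = decide (i < 3)` (two 3-element sets:
`Finset.equivOfCardEq`, `Equiv.sumCompl`, or a finite search: the statement
`∀ s : Fin 6 → Bool, (card = 3) → ∃ e, ..` is decidable but large; better: order embeddings
`Finset.orderEmbOfFin`). With `gb_perm`, `kb_perm`, `algCurv_perm` we may assume
`s = fun i => decide (i < 3)`. `P14_gb`: all the components `bA i i`, `bT i j i j`, `bC j j` are sectional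
curvatures `≤ -h ≤ 0` (`kb_apply`), so each of the `9 + 6` products is `≤ -h³`: `gb R ≤ -384 · 15 h³`.
-/

set_option autoImplicit false

open scoped ContDiff Topology Manifold
open Set

namespace H30K

open H31R H79G H60E
open Pool.Agent.H69Hopf (Arr IsAlgCurv ev area2)
open HopfKC (lo hi)

theorem p15_prod {h a b c : ℝ} (hh : 0 ≤ h) (ha : a ≤ -h) (hb : b ≤ -h) (hc : c ≤ -h) :
    a * b * c ≤ -(h ^ 3) := by
  have h1 : h * h ≤ (-a) * (-b) := mul_le_mul (by linarith) (by linarith) hh (by linarith)
  have h2 : h * h * h ≤ (-a) * (-b) * (-c) :=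
    mul_le_mul h1 (by linarith) hh (le_trans (mul_nonneg hh hh) h1)
  nlinarith [h2]

theorem p15_two {R : Arr 6} (hR : IsAlgCurv R) {h : ℝ} (hh : 0 ≤ h) (hK : KB h R) {s : Fin 6 → Bool}
    (hs : Kr s R) {e f : Fin 6} (hef : e ≠ f) (he : s e = true) (hf : s f = true)
    (hall : ∀ i, s i = true → i = e ∨ i = f) : gb R ≤ -(384 * h ^ 3) := by
  have h0 : ∀ i k l, k ≠ e → l ≠ e → R e i k l = 0 := by
    intro i k l hk hl
    by_contra hne
    have hz := hs.z e i k l hne
    by_cases hi : s i = true
    · have hk' : s k = true := by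
        rcases hz with ⟨h1, _⟩ | ⟨_, h2⟩
        · rw [← h1, he]
        · rw [← h2, hi]
      have hl' : s l = true := by
        rcases hz with ⟨_, h2⟩ | ⟨h1, _⟩
        · rw [← h2, hi]
        · rw [← h1, he]
      have hkf : k = f := (hall k hk').resolve_left hk
      have hlf : l = f := (hall l hl').resolve_left hl
      apply hne
      rw [hkf, hlf]
      have h2 := hR.skew f f e i
      have h3 := hR.pair e i f f
      linarith
    · have hi' : s i = false := by simpa using hi
      rcases hz with ⟨h1, h2⟩ | ⟨h1, h2⟩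
      · apply hne
        have hk' : s k = true := by rw [← h1, he]
        have hkf : k = f := (hall k hk').resolve_left hk
        refine hs.d e i k l ?_ h1 h2 (Or.inl ?_)
        · rw [he, hi']
          decide
        · rw [hkf]
          exact hef
      · apply hne
        have hl' : s l = true := by rw [← h1, he]
        have hlf : l = f := (hall l hl').resolve_left hl
        have h5 : R e i l k = 0 := by
          refine hs.d e i l k ?_ h1 h2 (Or.inl ?_)
          · rw [he, hi']
            decide
          · rw [hlf]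
            exact hef
        have h6 := hR.pair e i k l
        have h7 := hR.skew k l e i
        have h8 := hR.pair l k e i
        rw [h6, h7, h8, h5, neg_zero]
  have h1 := case_simple hR hh hK h0
  have h3 : 0 ≤ h ^ 3 := pow_nonneg hh 3
  linarith

theorem p15_three {R : Arr 6} (hR : IsAlgCurv R) {h : ℝ} (hh : 0 ≤ h) (hK : KB h R)
    (hs : Kr (fun i => decide (i.1 < 3)) R) : gb R ≤ -(384 * h ^ 3) := by
  rw [P14_gb hR hs]
  have e1 : ∀ i : Fin 3, lo (HopfKC.nx i) ≠ lo (HopfKC.pv i) := by decide
  have e2 : ∀ i : Fin 3, hi (HopfKC.nx i) ≠ hi (HopfKC.pv i) := by decide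
  have e3 : ∀ i j : Fin 3, lo i ≠ hi j := by decide
  have a1 : ∑ i, ∑ j, HopfKC.bA R i i * HopfKC.bT R i j i j * HopfKC.bC R j j ≤
      ∑ _i : Fin 3, ∑ _j : Fin 3, -(h ^ 3) :=
    Finset.sum_le_sum fun i _ => Finset.sum_le_sum fun j _ =>
      p15_prod hh (kb_apply hK (e1 i)) (kb_apply hK (e3 i j)) (kb_apply hK (e2 j))
  have a2 : ∑ σ : Equiv.Perm (Fin 3), ∏ i, HopfKC.bT R i (σ i) i (σ i) ≤
      ∑ _σ : Equiv.Perm (Fin 3), -(h ^ 3) := by
    refine Finset.sum_le_sum fun σ _ => ?_
    rw [Fin.prod_univ_three]
    exact p15_prod hh (kb_apply hK (e3 _ _)) (kb_apply hK (e3 _ _)) (kb_apply hK (e3 _ _))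
  have h3 : 0 ≤ h ^ 3 := pow_nonneg hh 3
  have c1 : ∑ _i : Fin 3, ∑ _j : Fin 3, -(h ^ 3) = -(9 * h ^ 3) := by
    simp
    ring
  have c2 : ∑ _σ : Equiv.Perm (Fin 3), -(h ^ 3) = -(6 * h ^ 3) := by
    rw [Finset.sum_const, Finset.card_univ, Fintype.card_perm, Fintype.card_fin]
    norm_num [Nat.factorial]
  rw [c1] at a1
  rw [c2] at a2
  linarith

theorem case_kr {R : Arr 6} (hR : IsAlgCurv R) {h : ℝ} (hh : 0 ≤ h) (hK : KB h R) {s : Fin 6 → Bool}
    (hs : Kr s R) (h1 : ∃ i j, i ≠ j ∧ s i = true ∧ s j = true)
    (h2 : ∃ i j, i ≠ j ∧ s i = false ∧ s j = false) : gb R ≤ -(384 * h ^ 3) := by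
  obtain ⟨A, hA⟩ : ∃ A : Finset (Fin 6), A = Finset.univ.filter (fun i => s i = true) := ⟨_, rfl⟩
  obtain ⟨B, hB⟩ : ∃ B : Finset (Fin 6), B = Finset.univ.filter (fun i => s i = false) := ⟨_, rfl⟩
  have hmA : ∀ i, i ∈ A ↔ s i = true := fun i => by simp [hA]
  have hmB : ∀ i, i ∈ B ↔ s i = false := fun i => by simp [hB]
  have hAB : A.card + B.card = 6 := by
    have hd : Disjoint A B := by
      rw [Finset.disjoint_left]
      intro i hi hi'
      rw [hmA] at hi
      rw [hmB, hi] at hi'
      exact absurd hi' (by decide)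
    rw [← Finset.card_union_of_disjoint hd]
    have : A ∪ B = Finset.univ := by
      ext i
      rw [Finset.mem_union, hmA, hmB]
      cases s i <;> simp
    rw [this]
    rfl
  have hA2 : 2 ≤ A.card := by
    obtain ⟨i, j, hij, hi, hj⟩ := h1
    have : ({i, j} : Finset (Fin 6)) ⊆ A := by
      intro x hx
      rw [Finset.mem_insert, Finset.mem_singleton] at hx
      rw [hmA]
      rcases hx with rfl | rfl <;> assumption
    have := Finset.card_le_card this
    rwa [Finset.card_pair hij] at this
  have hB2 : 2 ≤ B.card := by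
    obtain ⟨i, j, hij, hi, hj⟩ := h2
    have : ({i, j} : Finset (Fin 6)) ⊆ B := by
      intro x hx
      rw [Finset.mem_insert, Finset.mem_singleton] at hx
      rw [hmB]
      rcases hx with rfl | rfl <;> assumption
    have := Finset.card_le_card this
    rwa [Finset.card_pair hij] at this
  have hcases : A.card = 2 ∨ B.card = 2 ∨ A.card = 3 := by omega
  rcases hcases with hc | hc | hc
  · obtain ⟨e, f, hef, hAe⟩ := Finset.card_eq_two.mp hc
    have he : s e = true := (hmA e).mp (by rw [hAe]; simp)
    have hf : s f = true := (hmA f).mp (by rw [hAe]; simp)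
    refine p15_two hR hh hK hs hef he hf fun i hi => ?_
    have := (hmA i).mpr hi
    rw [hAe, Finset.mem_insert, Finset.mem_singleton] at this
    exact this
  · obtain ⟨e, f, hef, hBe⟩ := Finset.card_eq_two.mp hc
    have he : s e = false := (hmB e).mp (by rw [hBe]; simp)
    have hf : s f = false := (hmB f).mp (by rw [hBe]; simp)
    have hb : ∀ a b : Bool, ((!a) = (!b)) ↔ a = b := by decide
    have hs' : Kr (fun i => !(s i)) R := by
      refine ⟨fun i j k l hne => ?_, fun i j k l g1 g2 g3 g4 => ?_⟩
      · have := hs.z i j k l hne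
        simpa only [hb] using this
      · refine hs.d i j k l ?_ ((hb _ _).mp g2) ((hb _ _).mp g3) g4
        intro g
        apply g1
        simp only [g]
    refine p15_two hR hh hK hs' hef (by simp [he]) (by simp [hf]) fun i hi => ?_
    have hi' : s i = false := by simpa using hi
    have := (hmB i).mpr hi'
    rw [hBe, Finset.mem_insert, Finset.mem_singleton] at this
    exact this
  · have c1 : Fintype.card {i : Fin 6 // i.1 < 3} = 3 := by decide
    have c2 : Fintype.card {i : Fin 6 // s i = true} = 3 := by
      rw [Fintype.card_subtype, ← hA, hc]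
    let e0 : {i : Fin 6 // i.1 < 3} ≃ {i : Fin 6 // s i = true} :=
      Fintype.equivOfCardEq (c1.trans c2.symm)
    obtain ⟨e, he⟩ : ∃ e : Equiv.Perm (Fin 6), e = e0.extendSubtype := ⟨_, rfl⟩
    have hse : ∀ i : Fin 6, s (e i) = decide (i.1 < 3) := by
      intro i
      by_cases hi : i.1 < 3
      · rw [he, e0.extendSubtype_mem i hi]
        simp [hi]
      · have := e0.extendSubtype_not_mem i hi
        rw [he]
        have h3 : s (e0.extendSubtype i) = false := by simpa using this
        rw [h3]
        simp [hi]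
    have g1 := algCurv_perm hR e
    have g2 := kb_perm hK e
    have g3 : Kr (fun i => decide (i.1 < 3)) (fun i j k l => R (e i) (e j) (e k) (e l)) := by
      refine ⟨fun i j k l hne => ?_, fun i j k l p1 p2 p3 p4 => ?_⟩
      · have := hs.z _ _ _ _ hne
        simpa only [hse] using this
      · refine hs.d _ _ _ _ ?_ ?_ ?_ ?_
        · rw [hse, hse]
          exact p1
        · rw [hse, hse]
          exact p2
        · rw [hse, hse]
          exact p3
        · rcases p4 with p | p
          · exact Or.inl fun q => p (e.injective q)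
          · exact Or.inr fun q => p (e.injective q)
    have g4 := p15_three g1 hh g2 g3
    rwa [gb_perm] at g4

end H30K
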