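import Pool.Agent.Lib.H30K.Defs

/-!
# P10 (M): the smallest multiplier

The set `F = {t | |t| ≤ c ∧ ∀ X, 0 ≤ qf B X + 2 t dt X}` is compact (closed and bounded) and nonempty.
Let `t ∈ F` with `|t|` minimal (`IsCompact.exists_isMinOn`). If `t ≠ 0`, then for each `n ≥ 1` the number
`t_n = t (1 - 1/n)` is not in `F` and `|t_n| ≤ c`, so there is `X_n` with `qf B X_n + 2 t_n dt X_n < 0`;
`X_n ≠ 0`, and after scaling `X_n` is in the unit sphere `S` of `Fin 2 → Fin 2 → ℝ` (sup norm, compact).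
Since `qf B X_n + 2 t dt X_n ≥ 0`: `2 (t - t_n) dt X_n > 0`, that is `t dt X_n > 0`. A subsequence
converges to `X ∈ S` (`IsCompact.tendsto_subseq`): `qf B X + 2 t dt X ≤ 0` (limit), and `≥ 0` because
`t ∈ F`, and `t dt X ≥ 0`.
-/

set_option autoImplicit false

open scoped ContDiff Topology Manifold
open Set Filter

namespace H30K

open H31R H79G H60E
open Pool.Agent.H69Hopf (Arr IsAlgCurv ev area2)
open HopfKC (lo hi)

theorem p10_cq (B : B4) : Continuous (fun X : Fin 2 → Fin 2 → ℝ => qf B X) := by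
  unfold qf
  fun_prop

theorem p10_cd : Continuous (fun X : Fin 2 → Fin 2 → ℝ => dt X) := by
  unfold dt
  fun_prop

theorem p10_hq (B : B4) (r : ℝ) (X : Fin 2 → Fin 2 → ℝ) : qf B (r • X) = r ^ 2 * qf B X := by
  unfold qf
  simp only [Finset.mul_sum, Pi.smul_apply, smul_eq_mul]
  refine Finset.sum_congr rfl fun a _ => Finset.sum_congr rfl fun b _ =>
    Finset.sum_congr rfl fun c _ => Finset.sum_congr rfl fun d _ => ?_
  ring

theorem p10_hd (r : ℝ) (X : Fin 2 → Fin 2 → ℝ) : dt (r • X) = r ^ 2 * dt X := by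
  unfold dt
  simp only [Pi.smul_apply, smul_eq_mul]
  ring

theorem P10_min {B : B4} {c : ℝ} (h : ∃ t, |t| ≤ c ∧ ∀ X, 0 ≤ qf B X + 2 * t * dt X) :
    ∃ t, |t| ≤ c ∧ (∀ X, 0 ≤ qf B X + 2 * t * dt X) ∧
      (t = 0 ∨ ∃ X, X ≠ 0 ∧ qf B X + 2 * t * dt X = 0 ∧ 0 ≤ t * dt X) := by
  set F : Set ℝ := {t | |t| ≤ c ∧ ∀ X, 0 ≤ qf B X + 2 * t * dt X} with hF
  have hcl : IsClosed F := by
    have h1 : IsClosed {t : ℝ | |t| ≤ c} := isClosed_le continuous_abs continuous_const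
    have h2 : IsClosed {t : ℝ | ∀ X, 0 ≤ qf B X + 2 * t * dt X} := by
      have : {t : ℝ | ∀ X, 0 ≤ qf B X + 2 * t * dt X} =
          ⋂ X : Fin 2 → Fin 2 → ℝ, {t : ℝ | 0 ≤ qf B X + 2 * t * dt X} := by
        ext t; simp
      rw [this]
      refine isClosed_iInter fun X => isClosed_le continuous_const ?_
      fun_prop
    exact h1.inter h2
  have hcomp : IsCompact F := by
    refine (isCompact_Icc (a := -c) (b := c)).of_isClosed_subset hcl ?_
    intro t ht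
    exact abs_le.mp ht.1
  obtain ⟨t, ht, hmin⟩ := hcomp.exists_isMinOn (f := fun t : ℝ => |t|) h
    (continuous_abs.continuousOn)
  refine ⟨t, ht.1, ht.2, ?_⟩
  by_cases h0 : t = 0
  · exact Or.inl h0
  right
  have htp : 0 < |t| := abs_pos.mpr h0
  have hex : ∀ n : ℕ, ∃ Y : Fin 2 → Fin 2 → ℝ, Y ∈ Metric.sphere (0 : Fin 2 → Fin 2 → ℝ) 1 ∧
      qf B Y + 2 * (t * (1 - 1 / ((n : ℝ) + 1))) * dt Y ≤ 0 ∧ 0 ≤ t * dt Y := by
    intro n
    have hn : (0 : ℝ) < (n : ℝ) + 1 := by positivity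
    have h1n : 1 / ((n : ℝ) + 1) ≤ 1 := by
      rw [div_le_one hn]; linarith [Nat.cast_nonneg (α := ℝ) n]
    have h1p : 0 < 1 / ((n : ℝ) + 1) := by positivity
    have hlt : |t * (1 - 1 / ((n : ℝ) + 1))| < |t| := by
      rw [abs_mul, abs_of_nonneg (by linarith : (0 : ℝ) ≤ 1 - 1 / ((n : ℝ) + 1))]
      nlinarith
    have hnot : t * (1 - 1 / ((n : ℝ) + 1)) ∉ F := by
      intro hm
      have := hmin hm
      simp only [Set.mem_ofPred_eq] at this
      linarith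
    have : ∃ X, qf B X + 2 * (t * (1 - 1 / ((n : ℝ) + 1))) * dt X < 0 := by
      by_contra hc
      push Not at hc
      exact hnot ⟨hlt.le.trans ht.1, hc⟩
    obtain ⟨X, hX⟩ := this
    have hX0 : X ≠ 0 := by
      rintro rfl
      have e1 : qf B 0 = 0 := by simp [qf]
      have e2 : dt 0 = 0 := by simp [dt]
      rw [e1, e2] at hX
      simp at hX
    have hnX : 0 < ‖X‖ := norm_pos_iff.mpr hX0
    refine ⟨‖X‖⁻¹ • X, ?_, ?_, ?_⟩
    · rw [mem_sphere_zero_iff_norm, norm_smul, norm_inv, norm_norm, inv_mul_cancel₀ hnX.ne']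
    · rw [p10_hq, p10_hd]
      have h2 : (0 : ℝ) < ‖X‖⁻¹ ^ 2 := by positivity
      nlinarith
    · rw [p10_hd]
      have h3 := ht.2 X
      have h4 : 0 < t * dt X * (1 / ((n : ℝ) + 1)) := by nlinarith
      have h5 : 0 < t * dt X := by
        by_contra hc
        push Not at hc
        nlinarith
      have h2 : (0 : ℝ) < ‖X‖⁻¹ ^ 2 := by positivity
      have : t * (‖X‖⁻¹ ^ 2 * dt X) = ‖X‖⁻¹ ^ 2 * (t * dt X) := by ring
      rw [this]
      positivity
  choose Y hY1 hY2 hY3 using hex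
  obtain ⟨Z, hZ, φ, hφ, hlim⟩ := (isCompact_sphere (0 : Fin 2 → Fin 2 → ℝ) 1).tendsto_subseq hY1
  have hq : Tendsto (fun n => qf B (Y (φ n))) atTop (𝓝 (qf B Z)) :=
    ((p10_cq B).tendsto Z).comp hlim
  have hd : Tendsto (fun n => dt (Y (φ n))) atTop (𝓝 (dt Z)) :=
    (p10_cd.tendsto Z).comp hlim
  have hr : Tendsto (fun n : ℕ => t * (1 - 1 / (((φ n : ℕ) : ℝ) + 1))) atTop (𝓝 (t * (1 - 0))) :=
    ((tendsto_const_nhds.sub (tendsto_one_div_add_atTop_nhds_zero_nat.comp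
      hφ.tendsto_atTop)).const_mul t)
  have hl1 : Tendsto (fun n => qf B (Y (φ n)) + 2 * (t * (1 - 1 / (((φ n : ℕ) : ℝ) + 1))) *
      dt (Y (φ n))) atTop (𝓝 (qf B Z + 2 * (t * (1 - 0)) * dt Z)) :=
    hq.add ((hr.const_mul 2).mul hd)
  have hle := le_of_tendsto' hl1 (fun n => hY2 (φ n))
  have hge := ge_of_tendsto' (hd.const_mul t) (fun n => hY3 (φ n))
  refine ⟨Z, ?_, le_antisymm ?_ (ht.2 Z), hge⟩
  · rintro rfl
    simp at hZ
  · simpa using hle

end H30K
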