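import Pool.Agent.Lib.H30K.P11B

/-!
# P11C (M): the lower bound for `DD`

Coordinates: `X y = ![![y 0 + y 2, y 1 + y 3], ![-y 1 + y 3, y 0 - y 2]]` for `y : Fin 4 → ℝ`, so
`dt (X y) = y0² + y1² - y2² - y3²`. Let `Q` be the symmetric matrix of the quadratic form
`y ↦ qf B (X y) + 2 t dt (X y)`: `Q = Q₀ + 2 t diag(et)`,
`Q₀ = [[B0000+2B0011+B1111, ..], ..]` (with the basis matrices `E 0 = e00 + e11`, `E 1 = e01 - e10`,
`E 2 = e00 - e11`, `E 3 = e01 + e10`: `Q₀ i j = ∑ B a b a' b' (E i) a b (E j) a' b'`). With `S4 B`: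
`tr (Q₀ η) = 4 (B0011 - B0110) = 0` and `∑ et i et j (Q₀ i j)² = 8 DD B` (identities checked
numerically; `ring` after normalising the entries of `B` by `S4`). Hence
`Q 0 0 + Q 1 1 - Q 2 2 - Q 3 3 = 8 t` and `∑ et i et j (Q i j)² = 8 DD B + 16 t²`. `Q` is positive
semidefinite by `h1`.

Case `t = 0`: `P11_zero`. Case `t > 0`: the null vector `X` has coordinates `y ≠ 0` with `yᵀ Q y = 0`, so
`Q y = 0` (`Q` is positive semidefinite: `Matrix.PosSemidef.dotProduct_mulVec_zero_iff`), and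
`dt X ≥ 0`. `P11_eta`: `64 t² ≤ 8 DD B + 16 t²`. Case `t < 0`: apply the case `t > 0` to
`B' a b a' b' = B (1-a) b (1-a') b'`, `-t`, `X' a b = X (1-a) b`: `S4 B'`, `qf B' X' = qf B X`,
`dt X' = -dt X`, `DD B' = DD B`.
-/

set_option autoImplicit false

open scoped ContDiff Topology Manifold
open Set

namespace H30K

open H31R H79G H60E
open Pool.Agent.H69Hopf (Arr IsAlgCurv ev area2)
open HopfKC (lo hi)

/-- the basis matrices -/
def p11c_E : Fin 4 → Fin 2 → Fin 2 → ℝ :=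
  ![![![1, 0], ![0, 1]], ![![0, 1], ![-1, 0]], ![![1, 0], ![0, -1]], ![![0, 1], ![1, 0]]]

/-- the matrix with the given coordinates -/
def p11c_X (y : Fin 4 → ℝ) : Fin 2 → Fin 2 → ℝ :=
  ![![y 0 + y 2, y 1 + y 3], ![-y 1 + y 3, y 0 - y 2]]

/-- the matrix of the quadratic form -/
def p11c_Q (B : B4) (t : ℝ) : Matrix (Fin 4) (Fin 4) ℝ :=
  Matrix.of fun i j => (∑ a, ∑ b, ∑ a', ∑ b', B a b a' b' * p11c_E i a b * p11c_E j a' b') +
    if i = j then 2 * t * et i else 0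

theorem p11c_form (B : B4) (t : ℝ) (y : Fin 4 → ℝ) :
    y ⬝ᵥ (p11c_Q B t).mulVec y = qf B (p11c_X y) + 2 * t * dt (p11c_X y) := by
  simp only [dotProduct, Matrix.mulVec, p11c_Q, Matrix.of_apply, qf, dt, Fin.sum_univ_four,
    Fin.sum_univ_two, p11c_E, p11c_X, et, Matrix.cons_val]
  simp only [Fin.reduceEq, if_true, if_false]
  ring

theorem p11c_symm {B : B4} (hB : S4 B) (t : ℝ) (i j : Fin 4) :
    p11c_Q B t j i = p11c_Q B t i j := by
  simp only [p11c_Q, Matrix.of_apply]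
  congr 1
  · have e : ∀ a b : Fin 2, ∑ a', ∑ b', B a b a' b' * p11c_E j a b * p11c_E i a' b' =
        ∑ a', ∑ b', B a' b' a b * p11c_E i a' b' * p11c_E j a b := by
      intro a b
      refine Finset.sum_congr rfl fun a' _ => Finset.sum_congr rfl fun b' _ => ?_
      rw [hB.pair a b a' b']
      ring
    simp only [e]
    simp only [Fin.sum_univ_two]
    ring
  · by_cases h : i = j
    · subst h; rfl
    · rw [if_neg h, if_neg (fun h' => h h'.symm)]

theorem p11c_psd {B : B4} (hB : S4 B) {t : ℝ} (h1 : ∀ X, 0 ≤ qf B X + 2 * t * dt X) :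
    (p11c_Q B t).PosSemidef := by
  refine Matrix.PosSemidef.of_dotProduct_mulVec_nonneg ?_ ?_
  · ext i j
    simp only [Matrix.conjTranspose_apply, star_trivial]
    exact p11c_symm hB t i j
  · intro v
    have e : star v = v := by ext i; simp
    rw [e, p11c_form]
    exact h1 _

theorem p11c_tr {B : B4} (hB : S4 B) (t : ℝ) :
    p11c_Q B t 0 0 + p11c_Q B t 1 1 - p11c_Q B t 2 2 - p11c_Q B t 3 3 = 8 * t := by
  have e1 := hB.bi 0 0 1 1
  have e2 := hB.bi 1 0 0 1
  have e3 := hB.pair 0 0 1 1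
  have e4 := hB.pair 0 1 1 0
  simp only [p11c_Q, Matrix.of_apply, Fin.sum_univ_two, p11c_E, et, Matrix.cons_val]
  simp only [if_true]
  linarith

theorem p11c_sum {B : B4} (hB : S4 B) (t : ℝ) :
    ∑ i, ∑ j, et i * et j * p11c_Q B t i j ^ 2 = 8 * DD B + 16 * t ^ 2 := by
  have a1 : B 0 1 0 0 = B 0 0 0 1 := hB.pair 0 1 0 0
  have a2 : B 1 0 0 0 = B 0 0 1 0 := hB.pair 1 0 0 0
  have a3 : B 0 1 1 0 = B 0 0 1 1 := (hB.bi 0 0 1 1).symm
  have a4 : B 1 0 0 1 = B 0 0 1 1 := by rw [hB.pair 1 0 0 1, a3]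
  have a5 : B 1 1 0 0 = B 0 0 1 1 := hB.pair 1 1 0 0
  have a6 : B 1 1 0 1 = B 0 1 1 1 := hB.pair 1 1 0 1
  have a7 : B 1 1 1 0 = B 1 0 1 1 := hB.pair 1 1 1 0
  simp only [p11c_Q, Matrix.of_apply, Fin.sum_univ_four, Fin.sum_univ_two, p11c_E, et, DD,
    Matrix.cons_val]
  simp only [Fin.reduceEq, if_true, if_false]
  rw [a1, a2, a3, a4, a5, a6, a7]
  ring

theorem p11c_pos {B : B4} (hB : S4 B) {t : ℝ} (ht : 0 < t) (h1 : ∀ X, 0 ≤ qf B X + 2 * t * dt X)
    (h2 : ∃ X, X ≠ 0 ∧ qf B X + 2 * t * dt X = 0 ∧ 0 ≤ t * dt X) : 6 * t ^ 2 ≤ DD B := by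
  obtain ⟨X, hX, hX0, hXd⟩ := h2
  have hQ := p11c_psd hB h1
  let y : Fin 4 → ℝ := ![(X 0 0 + X 1 1) / 2, (X 0 1 - X 1 0) / 2, (X 0 0 - X 1 1) / 2,
    (X 0 1 + X 1 0) / 2]
  have hy : p11c_X y = X := by
    funext a b
    fin_cases a <;> fin_cases b <;> simp [p11c_X, y] <;> ring
  have hy0 : y ≠ 0 := by
    intro h
    apply hX
    rw [← hy, h]
    funext a b
    fin_cases a <;> fin_cases b <;> simp [p11c_X]
  have hd : 0 ≤ dt X := by
    by_contra hcon
    push Not at hcon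
    have := mul_neg_of_pos_of_neg ht hcon
    linarith
  have hQy : (p11c_Q B t).mulVec y = 0 := by
    rw [← hQ.dotProduct_mulVec_zero_iff]
    have e : star y = y := by ext i; simp
    rw [e, p11c_form, hy]
    exact hX0
  have hdy : dt (p11c_X y) = y 0 ^ 2 + y 1 ^ 2 - y 2 ^ 2 - y 3 ^ 2 := by
    simp only [dt, p11c_X, Matrix.cons_val]
    ring
  have h3 := P11_eta hQ hy0 hQy (by rw [← hdy, hy]; exact hd) (by rw [p11c_tr hB]; linarith)
  rw [p11c_tr hB, p11c_sum hB] at h3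
  nlinarith

theorem P11_dd {B : B4} (hB : S4 B) {t : ℝ} (h1 : ∀ X, 0 ≤ qf B X + 2 * t * dt X)
    (h2 : t = 0 ∨ ∃ X, X ≠ 0 ∧ qf B X + 2 * t * dt X = 0 ∧ 0 ≤ t * dt X) : 6 * t ^ 2 ≤ DD B := by
  rcases lt_trichotomy t 0 with ht | ht | ht
  · rcases h2 with h2 | ⟨X, hX, hX0, hXd⟩
    · exact absurd h2 ht.ne
    · let B' : B4 := fun a b a' b' => B (1 - a) b (1 - a') b'
      have hB' : S4 B' := ⟨fun a b a' b' => hB.pair _ _ _ _, fun a b a' b' => hB.bi _ _ _ _⟩
      have hqf : ∀ Y : Fin 2 → Fin 2 → ℝ, qf B' (fun a b => Y (1 - a) b) = qf B Y := by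
        intro Y
        simp only [qf, B', Fin.sum_univ_two, sub_zero, sub_self]
        ring
      have hdt : ∀ Y : Fin 2 → Fin 2 → ℝ, dt (fun a b => Y (1 - a) b) = -dt Y := by
        intro Y
        simp only [dt, sub_zero, sub_self]
        ring
      have hYY : ∀ Y : Fin 2 → Fin 2 → ℝ, (fun a b => (fun a' b' => Y (1 - a') b') (1 - a) b) = Y := by
        intro Y
        funext a b
        fin_cases a <;> simp
      have h3 : 6 * (-t) ^ 2 ≤ DD B' := by
        apply p11c_pos hB' (by linarith)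
        · intro Y
          have h4 := h1 (fun a b => Y (1 - a) b)
          have h5 := hqf (fun a b => Y (1 - a) b)
          have h6 := hdt Y
          rw [hYY Y] at h5
          rw [h5]
          rw [h6] at h4
          linarith
        · refine ⟨fun a b => X (1 - a) b, ?_, ?_, ?_⟩
          · intro h
            apply hX
            rw [← hYY X]
            funext a b
            exact congrFun (congrFun h (1 - a)) b
          · rw [hqf, hdt]
            linarith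
          · rw [hdt]
            linarith
      have h7 : DD B' = DD B := by
        simp only [DD, B', sub_zero, sub_self]
        have a1 : B 1 1 0 0 = B 0 0 1 1 := hB.pair 1 1 0 0
        have a2 : B 1 0 0 1 = B 0 1 1 0 := hB.pair 1 0 0 1
        have a3 : B 1 0 0 0 = B 0 0 1 0 := hB.pair 1 0 0 0
        have a4 : B 1 1 0 1 = B 0 1 1 1 := hB.pair 1 1 0 1
        have a5 : B 0 1 0 0 = B 0 0 0 1 := hB.pair 0 1 0 0
        have a6 : B 1 1 1 0 = B 1 0 1 1 := hB.pair 1 1 1 0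
        rw [a1, a2, a3, a4, a5, a6]
        ring
      rw [h7] at h3
      linarith
  · subst ht
    have hQ := p11c_psd hB h1
    have h3 := P11_zero hQ
    rw [p11c_sum hB] at h3
    linarith
  · rcases h2 with h2 | h2
    · exact absurd h2 ht.ne'
    · exact p11c_pos hB ht h1 h2

end H30K
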