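import Pool.Agent.Lib.H30K.Defs

/-!
# P12 (M): sectional curvature of the planes in two pairs of indices

Let `B = -bl R i j`, `k_i = -R (lo i) (hi i) (lo i) (hi i) ≥ 0`, `k_j` the same with `j` (`KB 0` for
standard basis vectors). For `p p' q q' : Fin 2 → ℝ` let `v = ∑ a, p a • e_{ix i a} + ∑ b, q b •
e_{ix j b}` and `w` the same with `p'`, `q'`. Because of `Trp` only the following terms of `ev R v w v w`
are nonzero (sum over the four indices, each of type `i` or `j`):
`ev R v w v w = -k_i α² - k_j β² - qf B X`, `α = p 0 p' 1 - p 1 p' 0`, `β = q 0 q' 1 - q 1 q' 0`,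
`X a b = p a q' b - p' a q b`. [Types `(i i | i i)`: `R(i a, i b, i a', i b') = -k_i` times the signs.
Mixed types: `(i j | i j)`, `(i j | j i)`, `(j i | i j)`, `(j i | j i)`: together
`∑ R(i a, j b, i a', j b') (v_a w_b - w_a v_b)(v_a' w_b' - w_a' v_b')`.] So `0 ≤ qf B X + k_i α² + k_j β²`.

Given `X` and `α ≠ 0` choose `p = ![1, 0]`, `p' = ![0, α]`, `q' = X 0`, `q = -α⁻¹ • X 1`: then
`p a q' b - p' a q b = X a b`, and `β = dt X / α`. Hence `0 ≤ qf B X + k_i α² + k_j (dt X)² / α²` for all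
`α ≠ 0`. If `dt X = 0`, let `α → 0`. Otherwise, for `ε > 0` take `α² = |dt X| √((k_j+ε)/(k_i+ε))`: this
gives `0 ≤ qf B X + 2 √((k_i+ε)(k_j+ε)) |dt X|`; let `ε → 0` (`ge_of_tendsto`), `k_i k_j =
R(..) R(..)`.
-/

set_option autoImplicit false

open scoped ContDiff Topology Manifold
open Set

namespace H30K

open H31R H79G H60E
open Pool.Agent.H69Hopf (Arr IsAlgCurv ev area2)
open HopfKC (lo hi)

/-- The vector with components `p` in the directions of the pair `i`. -/
def p12_vec (i : Fin 3) (p : Fin 2 → ℝ) : Fin 6 → ℝ := fun m => ∑ a, p a * (if m = ix i a then 1 else 0)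

theorem p12_sum (i : Fin 3) (p : Fin 2 → ℝ) (f : Fin 6 → ℝ) :
    ∑ m, p12_vec i p m * f m = ∑ a, p a * f (ix i a) := by
  unfold p12_vec
  simp_rw [Finset.sum_mul]
  rw [Finset.sum_comm]
  refine Finset.sum_congr rfl fun a _ => ?_
  simp [mul_assoc]

theorem p12_form (R : Arr 6) (x y z w : Fin 6 → ℝ) :
    ev R x y z w = ∑ i, x i * ∑ j, y j * ∑ k, z k * ∑ l, w l * R i j k l := by
  unfold Pool.Agent.H69Hopf.ev
  simp_rw [Finset.mul_sum]
  refine Finset.sum_congr rfl fun i _ => Finset.sum_congr rfl fun j _ =>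
    Finset.sum_congr rfl fun k _ => Finset.sum_congr rfl fun l _ => by ring

theorem p12_ev (R : Arr 6) (i j k l : Fin 3) (p q r s : Fin 2 → ℝ) :
    ev R (p12_vec i p) (p12_vec j q) (p12_vec k r) (p12_vec l s) =
      ∑ a, p a * ∑ b, q b * ∑ c, r c * ∑ e, s e * R (ix i a) (ix j b) (ix k c) (ix l e) := by
  rw [p12_form]
  simp only [p12_sum]

theorem p12_zero {R : Arr 6} (hT : Trp R) {i j k l : Fin 3} (h : ¬ ((i = k ∧ j = l) ∨ (i = l ∧ j = k)))
    (p q r s : Fin 2 → ℝ) : ev R (p12_vec i p) (p12_vec j q) (p12_vec k r) (p12_vec l s) = 0 := by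
  rw [p12_ev]
  have h0 : ∀ a b c e, R (ix i a) (ix j b) (ix k c) (ix l e) = 0 := by
    intro a b c e
    by_contra hne
    exact h (hT i j k l a b c e hne)
  simp only [h0, mul_zero, Finset.sum_const_zero]

theorem p12_add1 (R : Arr 6) (x x' y z w : Fin 6 → ℝ) :
    ev R (x + x') y z w = ev R x y z w + ev R x' y z w := by
  simp only [p12_form, Pi.add_apply, add_mul, Finset.sum_add_distrib]

theorem p12_add2 (R : Arr 6) (x y y' z w : Fin 6 → ℝ) :
    ev R x (y + y') z w = ev R x y z w + ev R x y' z w := by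
  simp only [p12_form, Pi.add_apply, add_mul, Finset.sum_add_distrib, mul_add]

theorem p12_add3 (R : Arr 6) (x y z z' w : Fin 6 → ℝ) :
    ev R x y (z + z') w = ev R x y z w + ev R x y z' w := by
  simp only [p12_form, Pi.add_apply, add_mul, Finset.sum_add_distrib, mul_add]

theorem p12_add4 (R : Arr 6) (x y z w w' : Fin 6 → ℝ) :
    ev R x y z (w + w') = ev R x y z w + ev R x y z w' := by
  simp only [p12_form, Pi.add_apply, add_mul, Finset.sum_add_distrib, mul_add]

theorem p12_diag {R : Arr 6} (hR : IsAlgCurv R) (i : Fin 3) (p p' : Fin 2 → ℝ) :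
    ev R (p12_vec i p) (p12_vec i p') (p12_vec i p) (p12_vec i p') =
      R (lo i) (hi i) (lo i) (hi i) * (p 0 * p' 1 - p 1 * p' 0) ^ 2 := by
  rw [p12_ev]
  have e0 : ix i 0 = lo i := rfl
  have e1 : ix i 1 = hi i := rfl
  have s1 : ∀ a c e, R a a c e = 0 := fun a c e => by have := hR.skew a a c e; linarith
  have s2 : ∀ a b c, R a b c c = 0 := fun a b c => by rw [hR.pair, s1]
  have s3 : ∀ a b c e, R a b e c = -R a b c e := fun a b c e => by
    rw [hR.pair a b e c, hR.skew e c a b, hR.pair c e a b]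
  simp only [Fin.sum_univ_two, e0, e1, s1, s2, mul_zero, add_zero, zero_add]
  have t1 : R (lo i) (hi i) (hi i) (lo i) = -R (lo i) (hi i) (lo i) (hi i) := s3 _ _ _ _
  have t2 : R (hi i) (lo i) (lo i) (hi i) = -R (lo i) (hi i) (lo i) (hi i) := by rw [hR.skew]
  have t3 : R (hi i) (lo i) (hi i) (lo i) = R (lo i) (hi i) (lo i) (hi i) := by
    rw [hR.skew, s3, neg_neg]
  rw [t1, t2, t3]
  ring

theorem p12_mix {R : Arr 6} (hR : IsAlgCurv R) (i j : Fin 3) (p p' q q' : Fin 2 → ℝ) :
    ev R (p12_vec i p) (p12_vec j q') (p12_vec i p) (p12_vec j q') +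
    ev R (p12_vec i p) (p12_vec j q') (p12_vec j q) (p12_vec i p') +
    ev R (p12_vec j q) (p12_vec i p') (p12_vec i p) (p12_vec j q') +
    ev R (p12_vec j q) (p12_vec i p') (p12_vec j q) (p12_vec i p') =
      qf (bl R i j) (fun a b => p a * q' b - p' a * q b) := by
  have s3 : ∀ a b c e, R a b e c = -R a b c e := fun a b c e => by
    rw [hR.pair a b e c, hR.skew e c a b, hR.pair c e a b]
  have t1 : ∀ a b c e, R (ix i a) (ix j b) (ix j c) (ix i e) = -bl R i j a b e c := fun a b c e =>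
    s3 _ _ _ _
  have t2 : ∀ a b c e, R (ix j a) (ix i b) (ix i c) (ix j e) = -bl R i j b a c e := fun a b c e =>
    hR.skew _ _ _ _
  have t3 : ∀ a b c e, R (ix j a) (ix i b) (ix j c) (ix i e) = bl R i j b a e c := fun a b c e => by
    rw [hR.skew, s3, neg_neg]
    rfl
  have t0 : ∀ a b c e, R (ix i a) (ix j b) (ix i c) (ix j e) = bl R i j a b c e := fun a b c e => rfl
  simp only [p12_ev, t0, t1, t2, t3, qf, Fin.sum_univ_two]
  ring

theorem p12_key {R : Arr 6} (hR : IsAlgCurv R) (hT : Trp R) (hK : KB 0 R) {i j : Fin 3} (hij : i ≠ j)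
    (p p' q q' : Fin 2 → ℝ) :
    0 ≤ qf (-bl R i j) (fun a b => p a * q' b - p' a * q b) -
      R (lo i) (hi i) (lo i) (hi i) * (p 0 * p' 1 - p 1 * p' 0) ^ 2 -
      R (lo j) (hi j) (lo j) (hi j) * (q 0 * q' 1 - q 1 * q' 0) ^ 2 := by
  have h := hK (p12_vec i p + p12_vec j q) (p12_vec i p' + p12_vec j q')
  rw [zero_mul, neg_zero] at h
  simp only [p12_add1, p12_add2, p12_add3, p12_add4] at h
  have hji : j ≠ i := hij.symm
  rw [p12_zero hT (i := i) (j := i) (k := i) (l := j) (by tauto),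
    p12_zero hT (i := i) (j := i) (k := j) (l := i) (by tauto),
    p12_zero hT (i := i) (j := i) (k := j) (l := j) (by tauto),
    p12_zero hT (i := i) (j := j) (k := i) (l := i) (by tauto),
    p12_zero hT (i := i) (j := j) (k := j) (l := j) (by tauto),
    p12_zero hT (i := j) (j := i) (k := i) (l := i) (by tauto),
    p12_zero hT (i := j) (j := i) (k := j) (l := j) (by tauto),
    p12_zero hT (i := j) (j := j) (k := i) (l := i) (by tauto),
    p12_zero hT (i := j) (j := j) (k := i) (l := j) (by tauto),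
    p12_zero hT (i := j) (j := j) (k := j) (l := i) (by tauto)] at h
  have h1 := p12_mix hR i j p p' q q'
  have h2 := p12_diag hR i p p'
  have h3 := p12_diag hR j q q'
  have h4 : qf (-bl R i j) (fun a b => p a * q' b - p' a * q b) =
      -qf (bl R i j) (fun a b => p a * q' b - p' a * q b) := by
    simp only [qf, Pi.neg_apply, neg_mul, Finset.sum_neg_distrib]
  rw [h4]
  linarith

theorem P12_sec {R : Arr 6} (hR : IsAlgCurv R) (hT : Trp R) (hK : KB 0 R) {i j : Fin 3} (hij : i ≠ j)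
    (X : Fin 2 → Fin 2 → ℝ) : 0 ≤ qf (-bl R i j) X +
      2 * Real.sqrt (R (lo i) (hi i) (lo i) (hi i) * R (lo j) (hi j) (lo j) (hi j)) * |dt X| := by
  set A : ℝ := -R (lo i) (hi i) (lo i) (hi i) with hA
  set B : ℝ := -R (lo j) (hi j) (lo j) (hi j) with hB
  have hA0 : 0 ≤ A := by
    have h := p12_key hR hT hK hij ![1, 0] ![0, 1] 0 0
    simp [qf] at h
    rw [hA]
    linarith
  have hB0 : 0 ≤ B := by
    have h := p12_key hR hT hK hij 0 0 ![1, 0] ![0, 1]
    simp [qf] at h
    rw [hB]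
    linarith
  have hkey : ∀ α : ℝ, α ≠ 0 → 0 ≤ qf (-bl R i j) X + A * α ^ 2 + B * (dt X / α) ^ 2 := by
    intro α hα
    have h := p12_key hR hT hK hij ![1, 0] ![0, α] (fun b => -(α⁻¹ * X 1 b)) (X 0)
    have e1 : (fun a b => (![1, 0] : Fin 2 → ℝ) a * X 0 b - (![0, α] : Fin 2 → ℝ) a *
        (-(α⁻¹ * X 1 b))) = X := by
      funext a b
      fin_cases a
      · simp
      · simp [hα]
    rw [e1] at h
    have e2 : -(α⁻¹ * X 1 0) * X 0 1 - -(α⁻¹ * X 1 1) * X 0 0 = dt X / α := by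
      unfold dt
      field_simp
      ring
    rw [e2] at h
    have e3 : (![1, 0] : Fin 2 → ℝ) 0 * (![0, α] : Fin 2 → ℝ) 1 -
        (![1, 0] : Fin 2 → ℝ) 1 * (![0, α] : Fin 2 → ℝ) 0 = α := by
      simp
    rw [e3] at h
    rw [hA, hB]
    linarith
  have hprod : R (lo i) (hi i) (lo i) (hi i) * R (lo j) (hi j) (lo j) (hi j) = A * B := by
    rw [hA, hB]
    ring
  rw [hprod]
  have heps : ∀ ε : ℝ, 0 < ε → 0 ≤ qf (-bl R i j) X +
      2 * Real.sqrt ((A + ε) * (B + ε)) * (|dt X| + ε) := by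
    intro ε hε
    set a := Real.sqrt (A + ε) with ha
    set b := Real.sqrt (B + ε) with hb
    have ha0 : 0 < a := Real.sqrt_pos.2 (by linarith)
    have hb0 : 0 < b := Real.sqrt_pos.2 (by linarith)
    have ha2 : a ^ 2 = A + ε := Real.sq_sqrt (by linarith)
    have hb2 : b ^ 2 = B + ε := Real.sq_sqrt (by linarith)
    have hab : Real.sqrt ((A + ε) * (B + ε)) = a * b := Real.sqrt_mul (by linarith) _
    rw [hab]
    set D := |dt X| + ε with hD
    have hD0 : 0 < D := by positivity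
    have hD1 : (dt X) ^ 2 ≤ D ^ 2 := by
      rw [← sq_abs (dt X)]
      exact pow_le_pow_left₀ (abs_nonneg _) (by rw [hD]; linarith) 2
    set s := D * (b / a) with hs
    have hs0 : 0 < s := by positivity
    have h := hkey (Real.sqrt s) (Real.sqrt_pos.2 hs0).ne'
    rw [div_pow, Real.sq_sqrt hs0.le] at h
    have h1 : A * s ≤ a ^ 2 * s := mul_le_mul_of_nonneg_right (by linarith) hs0.le
    have h2 : B * (dt X ^ 2 / s) ≤ b ^ 2 * (D ^ 2 / s) := by
      apply mul_le_mul (by linarith) (div_le_div_of_nonneg_right hD1 hs0.le) (by positivity)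
        (by positivity)
    have h3 : a ^ 2 * s + b ^ 2 * (D ^ 2 / s) = 2 * (a * b) * D := by
      rw [hs]
      field_simp
      ring
    linarith
  have hlim : Filter.Tendsto (fun ε : ℝ => qf (-bl R i j) X +
      2 * Real.sqrt ((A + ε) * (B + ε)) * (|dt X| + ε)) (nhdsWithin 0 (Set.Ioi 0))
      (nhds (qf (-bl R i j) X + 2 * Real.sqrt (A * B) * |dt X|)) := by
    have hc : Continuous (fun ε : ℝ => qf (-bl R i j) X +
      2 * Real.sqrt ((A + ε) * (B + ε)) * (|dt X| + ε)) := by fun_prop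
    have h := (hc.tendsto 0).mono_left (nhdsWithin_le_nhds (s := Set.Ioi (0 : ℝ)))
    simpa using h
  refine ge_of_tendsto hlim ?_
  filter_upwards [self_mem_nhdsWithin] with ε hε
  exact heps ε hε

end H30K
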