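import Pool.Agent.Lib.H30K.Defs

/-!
# P7B (S): symmetries of the blocks

`pair`: `hR.pair`. `bi`: Bianchi identity
`R(ia,jb,ia',jb') + R(jb,ia',ia,jb') + R(ia',ia,jb,jb') = 0`; the last term is zero by `Trp`
(otherwise `i = j`), and `R(jb,ia',ia,jb') = -R(ia',jb,ia,jb') = -R(ia,jb',ia',jb)`.
`P7_neg`: `DD`, `TT` of the negative blocks (`DD` is quadratic, `TT` is trilinear).
-/

set_option autoImplicit false

open scoped ContDiff Topology Manifold
open Set

namespace H30K

open H31R H79G H60E
open Pool.Agent.H69Hopf (Arr IsAlgCurv ev area2)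
open HopfKC (lo hi)

theorem P7_S4 {R : Arr 6} (hR : IsAlgCurv R) (hT : Trp R) {i j : Fin 3} (hij : i ≠ j) :
    S4 (-bl R i j) := by
  refine ⟨fun a b a' b' => ?_, fun a b a' b' => ?_⟩
  · show -(R (ix i a) (ix j b) (ix i a') (ix j b')) = -(R (ix i a') (ix j b') (ix i a) (ix j b))
    rw [hR.pair]
  · show -(R (ix i a) (ix j b) (ix i a') (ix j b')) = -(R (ix i a) (ix j b') (ix i a') (ix j b))
    have h1 := hR.bianchi (ix i a) (ix j b) (ix i a') (ix j b')
    have h2 : R (ix i a') (ix i a) (ix j b) (ix j b') = 0 := by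
      by_contra hne
      rcases hT i i j j a' a b b' hne with h | h
      · exact hij h.1
      · exact hij h.1
    have h3 : R (ix j b) (ix i a') (ix i a) (ix j b') = -R (ix i a) (ix j b') (ix i a') (ix j b) := by
      rw [hR.skew (ix j b), hR.pair (ix i a') (ix j b)]
    rw [h2, h3] at h1
    linarith

theorem P7_DD_neg (B : B4) : DD (-B) = DD B := by
  unfold DD
  simp only [Pi.neg_apply]
  ring

theorem P7_TT_neg (P Q S : B4) : TT (-P) (-Q) (-S) = -TT P Q S := by
  unfold TT
  simp only [← Finset.sum_neg_distrib, Pi.neg_apply]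
  refine Finset.sum_congr rfl fun a _ => Finset.sum_congr rfl fun b _ =>
    Finset.sum_congr rfl fun c _ => Finset.sum_congr rfl fun a' _ =>
    Finset.sum_congr rfl fun b' _ => Finset.sum_congr rfl fun c' _ => ?_
  ring

end H30K
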