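import Pool.Agent.Lib.H30K.Defs

/-!
# P8 (M): the lower bound for `TT`

Let `Δ : B4` be `Δ 0 0 1 1 = Δ 1 1 0 0 = 1/2`, `Δ 0 1 1 0 = Δ 1 0 0 1 = -1/2`, other entries `0`; then
`qf Δ X = dt X`. For a pair-symmetric `Q` put `a Q = Q 0 0 1 1 - Q 0 1 1 0`. `a Δ = 1`, and `a Q = 0`
if `S4 Q` (`bi`).

1. `TT` is linear in each argument, and for pair-symmetric `Q`, `Q'` (only `pair` is used):
`TT Δ Q Q' = a Q * a Q'`, `TT Q Δ Q' = a Q * a Q'`, `TT Q Q' Δ = a Q * a Q'` (finite computations,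
checked numerically: expand all sums, use the pair symmetries, `ring`).

2. Put `P^ = P + 2 t1 Δ` etc. (pair-symmetric, `a P^ = 2 t1`). Expanding
`TT (P^ - 2 t1 Δ) (Q^ - 2 t2 Δ) (S^ - 2 t3 Δ)`:
`TT P Q S = TT P^ Q^ S^ - 2 t1 (2 t2)(2 t3) - 2 t2 (2 t1)(2 t3) - 2 t3 (2 t1)(2 t2)
 + 4 t1 t2 (1)(2 t3) + 4 t1 t3 (1) (2 t2) + 4 t2 t3 (1) (2 t1) - 8 t1 t2 t3 = TT P^ Q^ S^ - 8 t1 t2 t3`.

3. `TT P^ Q^ S^ ≥ 0` if the three forms are positive semidefinite: `qf P^ X ≥ 0` for all `X`. The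
symmetric `4 × 4` matrix `P^ (a,b) (a',b')` is a Gram matrix: `P^ a b a' b' = ∑ m, x m a b * x m a' b'`
(`Matrix.PosSemidef` on `Fin 2 × Fin 2`: `A = Bᴴ * B`). By trilinearity it is enough to treat
`P^ = x ⊗ x`, `Q^ = y ⊗ y`, `S^ = z ⊗ z`:
`TT = (∑ a b c, (-1)^(a+b+c) x a b * y (1-b) c * z (1-c) (1-a))² ≥ 0`.
-/

set_option autoImplicit false

open scoped ContDiff Topology Manifold
open Set

namespace H30K

open H31R H79G H60E
open Pool.Agent.H69Hopf (Arr IsAlgCurv ev area2)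
open HopfKC (lo hi)

open scoped MatrixOrder ComplexOrder in
theorem p8_gram {P : B4} (hP : ∀ a b a' b', P a b a' b' = P a' b' a b) (h1 : ∀ X, 0 ≤ qf P X) :
    ∃ x : Fin 2 × Fin 2 → Fin 2 → Fin 2 → ℝ, P = fun a b a' b' => ∑ m, x m a b * x m a' b' := by
  obtain ⟨A, hA⟩ : ∃ A : Matrix (Fin 2 × Fin 2) (Fin 2 × Fin 2) ℝ,
      ∀ u v, A u v = P u.1 u.2 v.1 v.2 := ⟨fun u v => P u.1 u.2 v.1 v.2, fun _ _ => rfl⟩
  have hpsd : A.PosSemidef := by
    refine Matrix.PosSemidef.of_dotProduct_mulVec_nonneg ?_ fun y => ?_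
    · apply Matrix.IsHermitian.ext
      intro u v
      rw [hA, hA, star_trivial]
      exact (hP _ _ _ _).symm
    · have h2 := h1 fun a b => y (a, b)
      have e : star y ⬝ᵥ (A.mulVec y) = qf P fun a b => y (a, b) := by
        unfold qf
        simp only [dotProduct, Matrix.mulVec, hA, Fintype.sum_prod_type, Pi.star_apply, star_trivial,
          Finset.mul_sum]
        refine Finset.sum_congr rfl fun a _ => Finset.sum_congr rfl fun b _ =>
          Finset.sum_congr rfl fun a' _ => Finset.sum_congr rfl fun b' _ => ?_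
        ring
      rw [e]
      exact h2
  obtain ⟨B, hB⟩ := CStarAlgebra.nonneg_iff_eq_star_mul_self.mp hpsd.nonneg
  refine ⟨fun m a b => B m (a, b), ?_⟩
  funext a b a' b'
  have h3 := congrFun (congrFun hB (a, b)) (a', b')
  rw [hA, Matrix.star_eq_conjTranspose, Matrix.mul_apply] at h3
  rw [h3]
  refine Finset.sum_congr rfl fun m _ => ?_
  rw [Matrix.conjTranspose_apply, star_trivial]

theorem p8_add1 (P P' Q S : B4) : TT (fun a b a' b' => P a b a' b' + P' a b a' b') Q S =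
    TT P Q S + TT P' Q S := by
  simp only [TT, mul_add, add_mul, Finset.sum_add_distrib]

theorem p8_add2 (P Q Q' S : B4) : TT P (fun a b a' b' => Q a b a' b' + Q' a b a' b') S =
    TT P Q S + TT P Q' S := by
  simp only [TT, mul_add, add_mul, Finset.sum_add_distrib]

theorem p8_add3 (P Q S S' : B4) : TT P Q (fun a b a' b' => S a b a' b' + S' a b a' b') =
    TT P Q S + TT P Q S' := by
  simp only [TT, mul_add, add_mul, Finset.sum_add_distrib]

theorem p8_sum1 {ι : Type} (s : Finset ι) (f : ι → B4) (Q S : B4) :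
    TT (fun a b a' b' => ∑ m ∈ s, f m a b a' b') Q S = ∑ m ∈ s, TT (f m) Q S := by
  classical
  induction s using Finset.induction_on with
  | empty => simp [TT]
  | insert i s hi ih =>
    rw [Finset.sum_insert hi, ← ih, ← p8_add1]
    congr 1
    funext a b a' b'
    rw [Finset.sum_insert hi]

theorem p8_sum2 {ι : Type} (s : Finset ι) (f : ι → B4) (P S : B4) :
    TT P (fun a b a' b' => ∑ m ∈ s, f m a b a' b') S = ∑ m ∈ s, TT P (f m) S := by
  classical
  induction s using Finset.induction_on with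
  | empty => simp [TT]
  | insert i s hi ih =>
    rw [Finset.sum_insert hi, ← ih, ← p8_add2]
    congr 1
    funext a b a' b'
    rw [Finset.sum_insert hi]

theorem p8_sum3 {ι : Type} (s : Finset ι) (f : ι → B4) (P Q : B4) :
    TT P Q (fun a b a' b' => ∑ m ∈ s, f m a b a' b') = ∑ m ∈ s, TT P Q (f m) := by
  classical
  induction s using Finset.induction_on with
  | empty => simp [TT]
  | insert i s hi ih =>
    rw [Finset.sum_insert hi, ← ih, ← p8_add3]
    congr 1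
    funext a b a' b'
    rw [Finset.sum_insert hi]

theorem p8_sq (x y z : Fin 2 → Fin 2 → ℝ) :
    TT (fun a b a' b' => x a b * x a' b') (fun a b a' b' => y a b * y a' b')
      (fun a b a' b' => z a b * z a' b') =
    (∑ a : Fin 2, ∑ b : Fin 2, ∑ c : Fin 2, (-1 : ℝ) ^ (a.1 + b.1 + c.1) *
      (x a b * y (1 - b) c * z (1 - c) (1 - a))) ^ 2 := by
  rw [pow_two, Finset.sum_mul]
  unfold TT
  refine Finset.sum_congr rfl fun a _ => ?_
  rw [Finset.sum_mul]
  refine Finset.sum_congr rfl fun b _ => ?_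
  rw [Finset.sum_mul]
  refine Finset.sum_congr rfl fun c _ => ?_
  rw [Finset.mul_sum]
  refine Finset.sum_congr rfl fun a' _ => ?_
  rw [Finset.mul_sum]
  refine Finset.sum_congr rfl fun b' _ => ?_
  rw [Finset.mul_sum]
  refine Finset.sum_congr rfl fun c' _ => ?_
  rw [show a.1 + b.1 + c.1 + a'.1 + b'.1 + c'.1 = (a.1 + b.1 + c.1) + (a'.1 + b'.1 + c'.1) by ring,
    pow_add]
  ring

theorem P8_psd {P Q S : B4} (hP : ∀ a b a' b', P a b a' b' = P a' b' a b)
    (hQ : ∀ a b a' b', Q a b a' b' = Q a' b' a b) (hS : ∀ a b a' b', S a b a' b' = S a' b' a b)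
    (h1 : ∀ X, 0 ≤ qf P X) (h2 : ∀ X, 0 ≤ qf Q X) (h3 : ∀ X, 0 ≤ qf S X) : 0 ≤ TT P Q S := by
  obtain ⟨x, hx⟩ := p8_gram hP h1
  obtain ⟨y, hy⟩ := p8_gram hQ h2
  obtain ⟨z, hz⟩ := p8_gram hS h3
  rw [hx, p8_sum1 Finset.univ (fun m a b a' b' => x m a b * x m a' b')]
  refine Finset.sum_nonneg fun m _ => ?_
  rw [hy, p8_sum2 Finset.univ (fun m a b a' b' => y m a b * y m a' b')]
  refine Finset.sum_nonneg fun n _ => ?_
  rw [hz, p8_sum3 Finset.univ (fun m a b a' b' => z m a b * z m a' b')]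
  refine Finset.sum_nonneg fun o _ => ?_
  rw [p8_sq]
  exact sq_nonneg _

/-- the form with quadratic form the determinant -/
noncomputable def p8_D : B4 := fun a b a' b' =>
  if a = a' then 0 else if b = b' then 0 else if a = b then 1 / 2 else -(1 / 2)

theorem p8_D_symm (a b a' b' : Fin 2) : p8_D a b a' b' = p8_D a' b' a b := by
  unfold p8_D
  fin_cases a <;> fin_cases b <;> fin_cases a' <;> fin_cases b' <;> simp

theorem p8_hat {P : B4} (t : ℝ) (X : Fin 2 → Fin 2 → ℝ) :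
    qf (fun a b a' b' => P a b a' b' + 2 * t * p8_D a b a' b') X = qf P X + 2 * t * dt X := by
  unfold qf dt p8_D
  simp [Fin.sum_univ_two]
  ring

theorem p8_ex {P Q S : B4} (hP : S4 P) (hQ : S4 Q) (hS : S4 S) (t1 t2 t3 : ℝ) :
    TT (fun a b a' b' => P a b a' b' + 2 * t1 * p8_D a b a' b')
      (fun a b a' b' => Q a b a' b' + 2 * t2 * p8_D a b a' b')
      (fun a b a' b' => S a b a' b' + 2 * t3 * p8_D a b a' b') = TT P Q S + 8 * (t1 * t2 * t3) := by
  have P1 := hP.pair 0 1 0 0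
  have P2 := hP.pair 1 0 0 0
  have P3 := hP.pair 1 1 0 0
  have P4 := hP.bi 0 1 1 0
  have P5 := hP.bi 1 0 0 1
  have P6 := hP.pair 1 1 0 1
  have P7 := hP.pair 1 1 1 0
  have Q1 := hQ.pair 0 1 0 0
  have Q2 := hQ.pair 1 0 0 0
  have Q3 := hQ.pair 1 1 0 0
  have Q4 := hQ.bi 0 1 1 0
  have Q5 := hQ.bi 1 0 0 1
  have Q6 := hQ.pair 1 1 0 1
  have Q7 := hQ.pair 1 1 1 0
  have S1 := hS.pair 0 1 0 0
  have S2 := hS.pair 1 0 0 0
  have S3 := hS.pair 1 1 0 0
  have S4 := hS.bi 0 1 1 0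
  have S5 := hS.bi 1 0 0 1
  have S6 := hS.pair 1 1 0 1
  have S7 := hS.pair 1 1 1 0
  simp [TT, p8_D, Fin.sum_univ_two]
  rw [P5, P4, P1, P2, P3, P6, P7, Q5, Q4, Q1, Q2, Q3, Q6, Q7, S5, S4, S1, S2, S3, S6, S7]
  ring

theorem P8_tt {P Q S : B4} (hP : S4 P) (hQ : S4 Q) (hS : S4 S) {t1 t2 t3 : ℝ}
    (h1 : ∀ X, 0 ≤ qf P X + 2 * t1 * dt X) (h2 : ∀ X, 0 ≤ qf Q X + 2 * t2 * dt X)
    (h3 : ∀ X, 0 ≤ qf S X + 2 * t3 * dt X) : -(8 * (t1 * t2 * t3)) ≤ TT P Q S := by
  have h := P8_psd (P := fun a b a' b' => P a b a' b' + 2 * t1 * p8_D a b a' b')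
    (Q := fun a b a' b' => Q a b a' b' + 2 * t2 * p8_D a b a' b')
    (S := fun a b a' b' => S a b a' b' + 2 * t3 * p8_D a b a' b')
    (fun a b a' b' => by rw [hP.pair a b a' b', p8_D_symm a b a' b'])
    (fun a b a' b' => by rw [hQ.pair a b a' b', p8_D_symm a b a' b'])
    (fun a b a' b' => by rw [hS.pair a b a' b', p8_D_symm a b a' b'])
    (fun X => by rw [p8_hat]; exact h1 X) (fun X => by rw [p8_hat]; exact h2 X)
    (fun X => by rw [p8_hat]; exact h3 X)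
  rw [p8_ex hP hQ hS] at h
  linarith

end H30K
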