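import Pool.Agent.Lib.H30K.Defs

/-!
# P9 (M): the S-lemma for the determinant

`P9_path`: let `q X = qf B X + 2 t dt X` (a quadratic form; with `pair` its polarisation is
`q (X, Y) = ∑ B a b a' b' X a b Y a' b' + t (X00 Y11 + X11 Y00 - X01 Y10 - X10 Y01)`). Replacing `Y`
by `-Y` (this does not change `q Y`, `dt Y`) we may assume `q (X, Y) ≤ 0`. Then
`q ((1-s) Y + s X) = (1-s)² q Y + 2 s (1-s) q (X, Y) + s² q X < 0` for `s ∈ [0,1]`. `dt` is negative at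
`s = 0`, positive at `s = 1`: intermediate value theorem, `dt Z = 0` and `q Z = qf B Z < 0`.

`P9_lemma`: `T₊ = {t | ∀ X, 0 < dt X → 0 ≤ qf B X + 2 t dt X}` and `T₋ = {t | ∀ X, dt X < 0 → 0 ≤ ..}` are
closed; `c ∈ T₊`, `-c ∈ T₋` by `h`; `T₊ ∪ T₋ = ℝ`: otherwise `P9_path` gives `Z` with `dt Z = 0` and
`qf B Z < 0`, which contradicts `h Z`. `[-c, c]` is connected (`isPreconnected_closed_iff` /
`isPreconnected_Icc`), so there is `t ∈ [-c, c] ∩ T₊ ∩ T₋`. For `dt X = 0` use `h X`.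
-/

set_option autoImplicit false

open scoped ContDiff Topology Manifold
open Set

namespace H30K

open H31R H79G H60E
open Pool.Agent.H69Hopf (Arr IsAlgCurv ev area2)
open HopfKC (lo hi)

/-- the polarisation -/
noncomputable def p9_bp (B : B4) (t : ℝ) (X Y : Fin 2 → Fin 2 → ℝ) : ℝ :=
  (∑ a, ∑ b, ∑ a', ∑ b', B a b a' b' * X a b * Y a' b') +
    t * (X 0 0 * Y 1 1 + X 1 1 * Y 0 0 - X 0 1 * Y 1 0 - X 1 0 * Y 0 1)

theorem p9_expand {B : B4} (hB : ∀ a b a' b', B a b a' b' = B a' b' a b) (t s : ℝ)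
    (X Y : Fin 2 → Fin 2 → ℝ) :
    qf B (fun a b => (1 - s) * Y a b + s * X a b) +
      2 * t * dt (fun a b => (1 - s) * Y a b + s * X a b) =
    (1 - s) ^ 2 * (qf B Y + 2 * t * dt Y) + 2 * (s * (1 - s)) * p9_bp B t X Y +
      s ^ 2 * (qf B X + 2 * t * dt X) := by
  have h1 : B 0 1 0 0 = B 0 0 0 1 := hB _ _ _ _
  have h2 : B 1 0 0 0 = B 0 0 1 0 := hB _ _ _ _
  have h3 : B 1 1 0 0 = B 0 0 1 1 := hB _ _ _ _
  have h4 : B 1 0 0 1 = B 0 1 1 0 := hB _ _ _ _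
  have h5 : B 1 1 0 1 = B 0 1 1 1 := hB _ _ _ _
  have h6 : B 1 1 1 0 = B 1 0 1 1 := hB _ _ _ _
  simp only [qf, dt, p9_bp, Fin.sum_univ_two, h1, h2, h3, h4, h5, h6]
  ring

theorem p9_neg (B : B4) (t : ℝ) (Y : Fin 2 → Fin 2 → ℝ) :
    qf B (fun a b => - Y a b) + 2 * t * dt (fun a b => - Y a b) = qf B Y + 2 * t * dt Y := by
  simp only [qf, dt, Fin.sum_univ_two]
  ring

theorem p9_dtneg (Y : Fin 2 → Fin 2 → ℝ) : dt (fun a b => - Y a b) = dt Y := by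
  simp only [dt]
  ring

theorem p9_bpneg (B : B4) (t : ℝ) (X Y : Fin 2 → Fin 2 → ℝ) :
    p9_bp B t X (fun a b => - Y a b) = - p9_bp B t X Y := by
  simp only [p9_bp, Fin.sum_univ_two]
  ring

theorem p9_aux {B : B4} (hB : ∀ a b a' b', B a b a' b' = B a' b' a b) {t : ℝ}
    {X Y : Fin 2 → Fin 2 → ℝ} (hX : 0 < dt X) (hX' : qf B X + 2 * t * dt X < 0) (hY : dt Y < 0)
    (hY' : qf B Y + 2 * t * dt Y < 0) (hp : p9_bp B t X Y ≤ 0) : ∃ Z, dt Z = 0 ∧ qf B Z < 0 := by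
  have hcont : ContinuousOn (fun s : ℝ => dt (fun a b => (1 - s) * Y a b + s * X a b))
      (Icc 0 1) := by
    simp only [dt]
    fun_prop
  have h0 : (0 : ℝ) ∈ Icc (dt (fun a b => (1 - (0 : ℝ)) * Y a b + 0 * X a b))
      (dt (fun a b => (1 - (1 : ℝ)) * Y a b + 1 * X a b)) := by
    simp only [dt] at hX hY ⊢
    constructor <;> nlinarith
  obtain ⟨s, hs, hs'⟩ := intermediate_value_Icc (zero_le_one) hcont h0
  refine ⟨fun a b => (1 - s) * Y a b + s * X a b, hs', ?_⟩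
  have he := p9_expand hB t s X Y
  simp only at hs'
  rw [hs', mul_zero, add_zero] at he
  rw [he]
  obtain ⟨hs0, hs1⟩ := hs
  have h1 : 2 * (s * (1 - s)) * p9_bp B t X Y ≤ 0 :=
    mul_nonpos_of_nonneg_of_nonpos (by
      have := mul_nonneg hs0 (sub_nonneg.mpr hs1)
      linarith) hp
  have h2 : (1 - s) ^ 2 * (qf B Y + 2 * t * dt Y) ≤ 0 :=
    mul_nonpos_of_nonneg_of_nonpos (sq_nonneg _) hY'.le
  rcases eq_or_lt_of_le hs0 with h | h
  · have hs00 : s = 0 := h.symm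
    rw [hs00]
    nlinarith
  · have h3 : s ^ 2 * (qf B X + 2 * t * dt X) < 0 :=
      mul_neg_of_pos_of_neg (by positivity) hX'
    linarith

theorem P9_path {B : B4} (hB : ∀ a b a' b', B a b a' b' = B a' b' a b) {t : ℝ}
    {X Y : Fin 2 → Fin 2 → ℝ} (hX : 0 < dt X) (hX' : qf B X + 2 * t * dt X < 0) (hY : dt Y < 0)
    (hY' : qf B Y + 2 * t * dt Y < 0) : ∃ Z, dt Z = 0 ∧ qf B Z < 0 := by
  rcases le_total (p9_bp B t X Y) 0 with hp | hp
  · exact p9_aux hB hX hX' hY hY' hp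
  · refine p9_aux hB (Y := fun a b => - Y a b) hX hX' ?_ ?_ ?_
    · rw [p9_dtneg]; exact hY
    · rw [p9_neg]; exact hY'
    · rw [p9_bpneg]; linarith

theorem P9_lemma {B : B4} (hB : ∀ a b a' b', B a b a' b' = B a' b' a b) {c : ℝ} (hc : 0 ≤ c)
    (h : ∀ X, 0 ≤ qf B X + 2 * c * |dt X|) : ∃ t, |t| ≤ c ∧ ∀ X, 0 ≤ qf B X + 2 * t * dt X := by
  obtain ⟨Tp, hTp⟩ : ∃ Tp : Set ℝ, Tp = {t | ∀ X, 0 < dt X → 0 ≤ qf B X + 2 * t * dt X} := ⟨_, rfl⟩
  obtain ⟨Tm, hTm⟩ : ∃ Tm : Set ℝ, Tm = {t | ∀ X, dt X < 0 → 0 ≤ qf B X + 2 * t * dt X} := ⟨_, rfl⟩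
  have hclp : IsClosed Tp := by
    rw [hTp]
    simp only [setOf_forall]
    refine isClosed_iInter (fun X => isClosed_iInter (fun _ => ?_))
    exact isClosed_le continuous_const (by fun_prop)
  have hclm : IsClosed Tm := by
    rw [hTm]
    simp only [setOf_forall]
    refine isClosed_iInter (fun X => isClosed_iInter (fun _ => ?_))
    exact isClosed_le continuous_const (by fun_prop)
  have hcover : Icc (-c) c ⊆ Tp ∪ Tm := by
    intro t _
    by_contra hcon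
    rw [mem_union, not_or, hTp, hTm] at hcon
    obtain ⟨h1, h2⟩ := hcon
    simp only [mem_setOf_eq, not_forall, not_le] at h1 h2
    obtain ⟨X, hX, hX'⟩ := h1
    obtain ⟨Y, hY, hY'⟩ := h2
    obtain ⟨Z, hZ, hZ'⟩ := P9_path hB hX hX' hY hY'
    have := h Z
    rw [hZ, abs_zero, mul_zero, add_zero] at this
    linarith
  have hcp : c ∈ Tp := by
    rw [hTp]
    intro X hX
    have := h X
    rwa [abs_of_pos hX] at this
  have hcm : -c ∈ Tm := by
    rw [hTm]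
    intro X hX
    have := h X
    rw [abs_of_neg hX] at this
    linarith
  have hpre := isPreconnected_closed_iff.mp (isPreconnected_Icc (a := -c) (b := c)) Tp Tm hclp hclm
    hcover ⟨c, ⟨by linarith, le_refl _⟩, hcp⟩ ⟨-c, ⟨le_refl _, by linarith⟩, hcm⟩
  obtain ⟨t, ht, htp, htm⟩ := hpre
  refine ⟨t, abs_le.mpr ⟨ht.1, ht.2⟩, ?_⟩
  intro X
  rcases lt_trichotomy (dt X) 0 with hX | hX | hX
  · rw [hTm] at htm
    exact htm X hX
  · have := h X
    rw [hX, abs_zero, mul_zero] at this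
    rw [hX, mul_zero]
    exact this
  · rw [hTp] at htp
    exact htp X hX

end H30K
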