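import Pool.Agent.Lib.H30K.P7A
import Pool.Agent.Lib.H30K.P7B
import Pool.Agent.Lib.H30K.P8
import Pool.Agent.Lib.H30K.P9
import Pool.Agent.Lib.H30K.P10
import Pool.Agent.Lib.H30K.P11C
import Pool.Agent.Lib.H30K.P12
import Pool.Agent.Lib.H30K.P6S

/-!
# P13 (S/M): the case of three pairs

`KB h R` and `h ≥ 0` imply `KB 0 R` (`area2 ≥ 0`). Let `k_i = -R (lo i) (hi i) (lo i) (hi i) ≥ h`
(`kb_apply`), `B_ij = -bl R i j` for `(i,j) = (0,1), (1,2), (2,0)` (`S4` by `P7_S4`), `c_ij = √(k_i k_j)`.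
`P12_sec`, `P9_lemma`, `P10_min`: there are `t_ij` with `|t_ij| ≤ c_ij`, `qf B_ij X + 2 t_ij dt X ≥ 0` and
the null vector condition. `P11_dd`: `DD B_ij ≥ 6 t_ij²`. `P8_tt`: `TT B_01 B_12 B_20 ≥
-8 t01 t12 t20 ≥ -8 τ`, `τ = |t01 t12 t20|`. `P7_gb` with `P7_DD_neg`, `P7_TT_neg`:
`-gb R / 384 = k0 k1 k2 + k0 DD B_12 + k1 DD B_20 + k2 DD B_01 + TT B_01 B_12 B_20
 ≥ P + 6 (x + y + z) - 8 τ`, `P = k0 k1 k2`, `x = k0 t12²`, `y = k1 t20²`, `z = k2 t01²`. `x y z = P τ²`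
and `τ² ≤ (k0 k1)(k1 k2)(k2 k0) = P²`, so `τ ≤ P` and `x y z ≥ τ³`; by the inequality of the arithmetic and
geometric means `x + y + z ≥ 3 τ` (`(x+y+z)³ ≥ 27 x y z ≥ (3 τ)³`). So `-gb R / 384 ≥ P + 10 τ ≥ P ≥ h³`.
-/

set_option autoImplicit false

open scoped ContDiff Topology Manifold
open Set

namespace H30K

open H31R H79G H60E
open Pool.Agent.H69Hopf (Arr IsAlgCurv ev area2)
open HopfKC (lo hi)

theorem p13_real {k0 k1 k2 t1 t2 t3 D1 D2 D3 T h : ℝ} (hh : 0 ≤ h) (h0 : h ≤ k0) (h1 : h ≤ k1)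
    (h2 : h ≤ k2) (e1 : t1 ^ 2 ≤ k0 * k1) (e2 : t2 ^ 2 ≤ k1 * k2) (e3 : t3 ^ 2 ≤ k2 * k0)
    (d1 : 6 * t1 ^ 2 ≤ D1) (d2 : 6 * t2 ^ 2 ≤ D2) (d3 : 6 * t3 ^ 2 ≤ D3)
    (hT : -(8 * (t1 * t2 * t3)) ≤ T) :
    h ^ 3 ≤ k0 * k1 * k2 + k0 * D2 + k1 * D3 + k2 * D1 + T := by
  have p0 : 0 ≤ k0 := hh.trans h0
  have p1 : 0 ≤ k1 := hh.trans h1
  have p2 : 0 ≤ k2 := hh.trans h2
  obtain ⟨P, hP⟩ : ∃ P, P = k0 * k1 * k2 := ⟨_, rfl⟩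
  obtain ⟨τ, hτ⟩ : ∃ τ, τ = |t1 * t2 * t3| := ⟨_, rfl⟩
  have hτ0 : 0 ≤ τ := by rw [hτ]; exact abs_nonneg _
  have hP0 : 0 ≤ P := by rw [hP]; positivity
  have hτ2 : τ ^ 2 = t1 ^ 2 * t2 ^ 2 * t3 ^ 2 := by rw [hτ, sq_abs]; ring
  have hτP : τ ≤ P := by
    have h3 : τ ^ 2 ≤ P ^ 2 := by
      rw [hτ2, hP]
      calc t1 ^ 2 * t2 ^ 2 * t3 ^ 2 ≤ (k0 * k1) * (k1 * k2) * (k2 * k0) := by
            gcongr
        _ = (k0 * k1 * k2) ^ 2 := by ring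
    exact (sq_le_sq₀ hτ0 hP0).1 h3
  obtain ⟨x, hx⟩ : ∃ x, x = k0 * t2 ^ 2 := ⟨_, rfl⟩
  obtain ⟨y, hy⟩ : ∃ y, y = k1 * t3 ^ 2 := ⟨_, rfl⟩
  obtain ⟨z, hz⟩ : ∃ z, z = k2 * t1 ^ 2 := ⟨_, rfl⟩
  have x0 : 0 ≤ x := by rw [hx]; positivity
  have y0 : 0 ≤ y := by rw [hy]; positivity
  have z0 : 0 ≤ z := by rw [hz]; positivity
  have hxyz : x * y * z = P * τ ^ 2 := by rw [hx, hy, hz, hP, hτ2]; ring
  have h3 : τ ^ 3 ≤ x * y * z := by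
    rw [hxyz]
    calc τ ^ 3 = τ * τ ^ 2 := by ring
      _ ≤ P * τ ^ 2 := by gcongr
  have amgm : 27 * (x * y * z) ≤ (x + y + z) ^ 3 := by
    nlinarith [mul_nonneg x0 (sq_nonneg (y - z)), mul_nonneg y0 (sq_nonneg (x - z)),
      mul_nonneg z0 (sq_nonneg (x - y)), mul_nonneg (add_nonneg (add_nonneg x0 y0) z0)
        (add_nonneg (add_nonneg (sq_nonneg (x - y)) (sq_nonneg (y - z))) (sq_nonneg (x - z)))]
  have h4 : 3 * τ ≤ x + y + z := by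
    by_contra hc
    have h5 := not_le.1 hc
    have h6 : (x + y + z) ^ 3 < (3 * τ) ^ 3 := by
      gcongr
    nlinarith
  have h7 : t1 * t2 * t3 ≤ τ := by rw [hτ]; exact le_abs_self _
  have h8 : h ^ 3 ≤ P := by
    rw [hP]
    calc h ^ 3 = h * h * h := by ring
      _ ≤ k0 * k1 * k2 := by gcongr
  have h9 : 6 * x ≤ k0 * D2 := by
    rw [hx]
    nlinarith [mul_le_mul_of_nonneg_left d2 p0]
  have h10 : 6 * y ≤ k1 * D3 := by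
    rw [hy]
    nlinarith [mul_le_mul_of_nonneg_left d3 p1]
  have h11 : 6 * z ≤ k2 * D1 := by
    rw [hz]
    nlinarith [mul_le_mul_of_nonneg_left d1 p2]
  rw [← hP]
  linarith

theorem case_triple {R : Arr 6} (hR : IsAlgCurv R) {h : ℝ} (hh : 0 ≤ h) (hK : KB h R) (hT : Trp R) :
    gb R ≤ -(384 * h ^ 3) := by
  have hK0 : KB 0 R := by
    intro v w
    have h1 := hK v w
    have h2 := Pool.Agent.H69Hopf.area2_nonneg v w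
    have h3 : 0 ≤ h * area2 v w := mul_nonneg hh h2
    linarith
  obtain ⟨k0, hk0⟩ : ∃ k, k = -R 0 3 0 3 := ⟨_, rfl⟩
  obtain ⟨k1, hk1⟩ : ∃ k, k = -R 1 4 1 4 := ⟨_, rfl⟩
  obtain ⟨k2, hk2⟩ : ∃ k, k = -R 2 5 2 5 := ⟨_, rfl⟩
  have a0 : h ≤ k0 := by have := kb_apply hK (i := 0) (j := 3) (by decide); linarith
  have a1 : h ≤ k1 := by have := kb_apply hK (i := 1) (j := 4) (by decide); linarith
  have a2 : h ≤ k2 := by have := kb_apply hK (i := 2) (j := 5) (by decide); linarith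
  have key : ∀ i j : Fin 3, i ≠ j → ∃ t, t ^ 2 ≤ R (lo i) (hi i) (lo i) (hi i) *
      R (lo j) (hi j) (lo j) (hi j) ∧ (∀ X, 0 ≤ qf (-bl R i j) X + 2 * t * dt X) ∧
      6 * t ^ 2 ≤ DD (-bl R i j) := by
    intro i j hij
    have hS := P7_S4 hR hT hij
    have b1 := P12_sec hR hT hK0 hij
    obtain ⟨t, ht, h1, h2⟩ := P10_min (P9_lemma hS.pair (Real.sqrt_nonneg _) b1)
    have hne : ∀ i : Fin 3, lo i ≠ hi i := by decide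
    have n1 := kb_apply hK0 (hne i)
    have n2 := kb_apply hK0 (hne j)
    have n3 : 0 ≤ R (lo i) (hi i) (lo i) (hi i) * R (lo j) (hi j) (lo j) (hi j) := by
      nlinarith
    refine ⟨t, ?_, h1, P11_dd hS h1 h2⟩
    calc t ^ 2 = |t| ^ 2 := (sq_abs t).symm
      _ ≤ (Real.sqrt (R (lo i) (hi i) (lo i) (hi i) * R (lo j) (hi j) (lo j) (hi j))) ^ 2 := by
          gcongr
      _ = _ := Real.sq_sqrt n3
  obtain ⟨t1, c1, q1, d1⟩ := key 0 1 (by decide)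
  obtain ⟨t2, c2, q2, d2⟩ := key 1 2 (by decide)
  obtain ⟨t3, c3, q3, d3⟩ := key 2 0 (by decide)
  have hTT := P8_tt (P7_S4 hR hT (show (0 : Fin 3) ≠ 1 by decide))
    (P7_S4 hR hT (show (1 : Fin 3) ≠ 2 by decide)) (P7_S4 hR hT (show (2 : Fin 3) ≠ 0 by decide))
    q1 q2 q3
  have c1' : t1 ^ 2 ≤ k0 * k1 := by
    have : R 0 3 0 3 * R 1 4 1 4 = k0 * k1 := by rw [hk0, hk1]; ring
    rw [← this]; exact c1
  have c2' : t2 ^ 2 ≤ k1 * k2 := by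
    have : R 1 4 1 4 * R 2 5 2 5 = k1 * k2 := by rw [hk1, hk2]; ring
    rw [← this]; exact c2
  have c3' : t3 ^ 2 ≤ k2 * k0 := by
    have : R 2 5 2 5 * R 0 3 0 3 = k2 * k0 := by rw [hk2, hk0]; ring
    rw [← this]; exact c3
  have fin := p13_real hh a0 a1 a2 c1' c2' c3' d1 d2 d3 hTT
  rw [P7_DD_neg, P7_DD_neg, P7_DD_neg, P7_TT_neg] at fin
  rw [P7_gb hR hT]
  have e0 : R 0 3 0 3 = -k0 := by rw [hk0]; ring
  have e1 : R 1 4 1 4 = -k1 := by rw [hk1]; ring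
  have e2 : R 2 5 2 5 = -k2 := by rw [hk2]; ring
  rw [e0, e1, e2]
  nlinarith

end H30K
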