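import Pool.Agent.Lib.H30K.Defs

/-!
# P2 (M): combinatorics of six values

`P2_pairs`: if every value of `β` is taken at least twice and there are three distinct values, then the
values come in three pairs. Proof: the fibres of `β` have at least two elements and there are at least
three of them; `6 ≥ 2 · 3` so there are exactly three fibres with two elements each. Choose
`e (lo 0) = p`, `e (hi 0)` = the other index with the value `β p`, and the same for `q`, `r`: the map
is injective (the six indices are distinct), hence a permutation (`Equiv.ofBijective`, `lo`, `hi` are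
`![0,1,2]` and `![3,4,5]`). Note that only `β (e (hi i)) = β (e (lo i))` and the distinctness are
claimed: take `p' ≠ p` with `β p' = β p`, etc.

`P2_cases`: every `β : Fin 6 → ℝ` is constant, generic or two-valued. Proof: if not generic then every
index `i` has `j ≠ i` with `β j = β i`, and there are no three distinct values. If not constant there
are `p`, `q` with `β p < β q`; `mu = β p`, `lam = β q`, `ε i = if β i = lam then 1 else 0`; every
other value is `lam` or `mu` (no three distinct values).

`P2_gen`: the negation, for the use with neighbourhoods. Immediate from the definitions: a two-valued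
`β` is not generic and not constant is not needed; only `P2_cases` is used.
-/

set_option autoImplicit false

open scoped ContDiff Topology Manifold
open Set

namespace H30K

open H31R H79G H60E
open Pool.Agent.H69Hopf (Arr IsAlgCurv ev area2)
open HopfKC (lo hi)

theorem p2_inj {p q r p' q' r' : Fin 6} (h1 : p ≠ q) (h2 : p ≠ r) (h3 : p ≠ p') (h4 : p ≠ q')
    (h5 : p ≠ r') (h6 : q ≠ r) (h7 : q ≠ p') (h8 : q ≠ q') (h9 : q ≠ r') (h10 : r ≠ p')
    (h11 : r ≠ q') (h12 : r ≠ r') (h13 : p' ≠ q') (h14 : p' ≠ r') (h15 : q' ≠ r') :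
    Function.Injective (![p, q, r, p', q', r'] : Fin 6 → Fin 6) := by
  intro i j hij
  fin_cases i <;> fin_cases j <;>
    first
      | rfl
      | exact absurd hij (by assumption)
      | exact absurd hij.symm (by assumption)

theorem P2_pairs {β : Fin 6 → ℝ} (h1 : ∀ i, ∃ j, j ≠ i ∧ β j = β i) {p q r : Fin 6}
    (hpq : β p ≠ β q) (hpr : β p ≠ β r) (hqr : β q ≠ β r) :
    ∃ e : Equiv.Perm (Fin 6), (∀ i, β (e (hi i)) = β (e (lo i))) ∧
      ∀ i j, i ≠ j → β (e (lo i)) ≠ β (e (lo j)) := by
  obtain ⟨p', hp1, hp2⟩ := h1 p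
  obtain ⟨q', hq1, hq2⟩ := h1 q
  obtain ⟨r', hr1, hr2⟩ := h1 r
  have key : ∀ a b : Fin 6, β a ≠ β b → a ≠ b := fun a b h hab => h (by rw [hab])
  have hinj := p2_inj (p := p) (q := q) (r := r) (p' := p') (q' := q') (r' := r')
    (key _ _ hpq) (key _ _ hpr) hp1.symm (key _ _ (by rw [hq2]; exact hpq))
    (key _ _ (by rw [hr2]; exact hpr)) (key _ _ hqr) (key _ _ (by rw [hp2]; exact hpq.symm))
    hq1.symm (key _ _ (by rw [hr2]; exact hqr)) (key _ _ (by rw [hp2]; exact hpr.symm))
    (key _ _ (by rw [hq2]; exact hqr.symm)) hr1.symm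
    (key _ _ (by rw [hp2, hq2]; exact hpq)) (key _ _ (by rw [hp2, hr2]; exact hpr))
    (key _ _ (by rw [hq2, hr2]; exact hqr))
  refine ⟨Equiv.ofBijective _ (Finite.injective_iff_bijective.1 hinj), fun i => ?_,
    fun i j hij => ?_⟩
  · fin_cases i
    · exact hp2
    · exact hq2
    · exact hr2
  · fin_cases i <;> fin_cases j
    · exact absurd rfl hij
    · exact hpq
    · exact hpr
    · exact hpq.symm
    · exact absurd rfl hij
    · exact hqr
    · exact hpr.symm
    · exact hqr.symm
    · exact absurd rfl hij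

theorem p2_two {β : Fin 6 → ℝ} (hG : ¬ Gen β) {p q : Fin 6} (hpq : β p < β q) :
    ∃ ε lam mu, TwoV β ε lam mu := by
  have h1 : ∀ e, ∃ k, k ≠ e ∧ β k = β e := by
    intro e
    by_contra hcon
    push Not at hcon
    exact hG (Or.inl ⟨e, fun k hk => hcon k hk⟩)
  have h2 : ∀ i, β i ≠ β q → β i = β p := by
    intro i hi
    by_contra hcon
    exact hG (Or.inr ⟨p, q, i, hpq.ne, fun h => hcon h.symm, fun h => hi h.symm⟩)
  refine ⟨fun i => if β i = β q then 1 else 0, β q, β p, hpq, fun i => ?_, fun i => ?_,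
    fun i => ?_, ⟨p, ?_⟩, ⟨q, ?_⟩⟩
  · by_cases h : β i = β q
    · right
      simp [h]
    · left
      simp [h]
  · by_cases h : β i = β q
    · simp [h]
    · simp [h2 i h, hpq.ne]
  · obtain ⟨j, hj1, hj2⟩ := h1 i
    exact ⟨j, hj1, by simp [hj2]⟩
  · simp [hpq.ne]
  · simp

theorem P2_cases (β : Fin 6 → ℝ) :
    (∀ i j, β i = β j) ∨ Gen β ∨ ∃ ε lam mu, TwoV β ε lam mu := by
  by_cases hG : Gen β
  · exact Or.inr (Or.inl hG)
  by_cases hc : ∀ i j, β i = β j
  · exact Or.inl hc
  push Not at hc
  obtain ⟨p, q, hpq⟩ := hc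
  rcases lt_or_gt_of_ne hpq with h | h
  · exact Or.inr (Or.inr (p2_two hG h))
  · exact Or.inr (Or.inr (p2_two hG h))

end H30K
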