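import Pool.Agent.Lib.H30K.P1
import Pool.Agent.Lib.H30K.P2
import Pool.Agent.Lib.H30K.P3A
import Pool.Agent.Lib.H30K.P6S
import Pool.Agent.Lib.H30K.P13

/-!
# P16 (S/M): the generic case

If `β e` is a simple value: by `P1_zero`, `R e i k l ≠ 0` implies `β e = β k` or `β e = β l`, so `k = e` or
`l = e`; `case_simple`. Otherwise every value is taken at least twice and there are three distinct
values; `P2_pairs` gives `e`, and `R' i j k l = R (e i) (e j) (e k) (e l)` satisfies `Trp`: with
`β (e (ix i a)) = β (e (lo i))` (`ix i 0 = lo i`, `ix i 1 = hi i`) and the distinctness, `P1_zero` gives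
the types. `case_triple`, `gb_perm`, `kb_perm`, `algCurv_perm`.
-/

set_option autoImplicit false

open scoped ContDiff Topology Manifold
open Set

namespace H30K

open H31R H79G H60E
open Pool.Agent.H69Hopf (Arr IsAlgCurv ev area2)
open HopfKC (lo hi)

theorem case_gen {R : Arr 6} (hR : IsAlgCurv R) {h : ℝ} (hh : 0 ≤ h) (hK : KB h R) {β : Fin 6 → ℝ}
    (hc : Cyc β R) (hg : Gen β) : gb R ≤ -(384 * h ^ 3) := by
  by_cases hs : ∃ e, ∀ k, k ≠ e → β k ≠ β e
  · obtain ⟨e, he⟩ := hs
    have h1 := case_simple hR hh hK (e := e) (fun i k l hk hl => by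
      by_contra h0
      rcases P1_zero hR hc h0 with h2 | h2
      · exact he k hk h2.1.symm
      · exact he l hl h2.1.symm)
    have h2 : 0 ≤ h ^ 3 := pow_nonneg hh 3
    linarith
  · have hs' : ∀ e, ∃ k, k ≠ e ∧ β k = β e := by
      intro e
      by_contra h0
      exact hs ⟨e, fun k hk h1 => h0 ⟨k, hk, h1⟩⟩
    rcases hg with hg | ⟨p, q, r, h1, h2, h3⟩
    · exact absurd hg hs
    · obtain ⟨e, he1, he2⟩ := P2_pairs hs' h1 h2 h3
      have h4 : ∀ (i : Fin 3) (a : Fin 2), β (e (ix i a)) = β (e (lo i)) := by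
        intro i a
        fin_cases a
        · rfl
        · exact he1 i
      have h5 : ∀ (i k : Fin 3), β (e (lo i)) = β (e (lo k)) → i = k := by
        intro i k hik
        by_contra h0
        exact he2 i k h0 hik
      have hT : Trp (fun i j k l => R (e i) (e j) (e k) (e l)) := by
        intro i j k l a b c f h0
        rcases P1_zero hR hc h0 with h6 | h6
        · rw [h4, h4, h4, h4] at h6
          exact Or.inl ⟨h5 _ _ h6.1, h5 _ _ h6.2⟩
        · rw [h4, h4, h4, h4] at h6
          exact Or.inr ⟨h5 _ _ h6.1, h5 _ _ h6.2⟩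
      have h7 := case_triple (algCurv_perm hR e) hh (kb_perm hK e) hT
      rwa [gb_perm] at h7

end H30K
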