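import Pool.Agent.Lib.H30K.Frame

/-!
# H30K: definitions used in the proof

`Arr N` = arrays `R i j k l`; `ev R x y z w = ∑ R i j k l x_i y_j z_k w_l`;
`area2 x y = |x|² |y|² - (x·y)²`; `gb R = HopfSix.gaussBonnet R` (the Gauss-Bonnet integrand times
`384` up to a positive constant: a sum over two permutations of `Fin 6`).
-/

set_option autoImplicit false

open scoped ContDiff Topology Manifold
open Set

namespace H30K

open H31R H79G H60E
open Pool.Agent.H69Hopf (Arr IsAlgCurv ev area2)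
open HopfKC (lo hi)

/-- The Gauss-Bonnet integrand in dimension six. -/
noncomputable abbrev gb (R : Arr 6) : ℝ := HopfSix.gaussBonnet R

/-- `sec ≤ -h`. -/
def KB {N : ℕ} (h : ℝ) (R : Arr N) : Prop := ∀ v w : Fin N → ℝ, ev R v w v w ≤ -(h * area2 v w)

/-- arrays with four indices in `Fin 2` -/
abbrev B4 := Fin 2 → Fin 2 → Fin 2 → Fin 2 → ℝ

/-- `ix i 0 = lo i = i`, `ix i 1 = hi i = i + 3`: the pair of indices number `i`. -/
def ix (i : Fin 3) (a : Fin 2) : Fin 6 := ![lo i, hi i] a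

/-- the block `R(i a, j b, i a', j b')` -/
def bl (R : Arr 6) (i j : Fin 3) : B4 := fun a b a' b' => R (ix i a) (ix j b) (ix i a') (ix j b')

/-- the quadratic invariant of a block -/
def DD (B : B4) : ℝ :=
  B 0 0 0 0 * B 1 1 1 1 + B 0 0 1 1 ^ 2 + B 0 1 0 1 * B 1 0 1 0 + B 0 1 1 0 ^ 2
    - 2 * (B 0 0 0 1 * B 1 1 1 0) - 2 * (B 0 0 1 0 * B 0 1 1 1)

/-- the trilinear invariant of three blocks -/
def TT (P Q S : B4) : ℝ := ∑ a : Fin 2, ∑ b : Fin 2, ∑ c : Fin 2, ∑ a' : Fin 2, ∑ b' : Fin 2,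
  ∑ c' : Fin 2, (-1 : ℝ) ^ (a.1 + b.1 + c.1 + a'.1 + b'.1 + c'.1) *
    (P a b a' b' * Q (1 - b) c (1 - b') c' * S (1 - c) (1 - a) (1 - c') (1 - a'))

/-- the symmetries of a block -/
structure S4 (B : B4) : Prop where
  pair : ∀ a b a' b', B a b a' b' = B a' b' a b
  bi : ∀ a b a' b', B a b a' b' = B a b' a' b

/-- the quadratic form of a block -/
def qf (B : B4) (X : Fin 2 → Fin 2 → ℝ) : ℝ :=
  ∑ a, ∑ b, ∑ a', ∑ b', B a b a' b' * X a b * X a' b'

/-- the determinant of a `2 × 2` matrix -/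
def dt (X : Fin 2 → Fin 2 → ℝ) : ℝ := X 0 0 * X 1 1 - X 0 1 * X 1 0

/-- the index `0` is simple and `R 0 i 0 j` is diagonal -/
def Smp (R : Arr 6) : Prop :=
  (∀ i k l, k ≠ 0 → l ≠ 0 → R 0 i k l = 0) ∧ ∀ i j, i ≠ j → R 0 i 0 j = 0

/-- three pairs of indices -/
def Trp (R : Arr 6) : Prop := ∀ (i j k l : Fin 3) (a b c e : Fin 2),
  R (ix i a) (ix j b) (ix k c) (ix l e) ≠ 0 → (i = k ∧ j = l) ∨ (i = l ∧ j = k)

/-- two classes of indices (`s i = true` and `s i = false`), mixed part diagonal -/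
structure Kr (s : Fin 6 → Bool) (R : Arr 6) : Prop where
  z : ∀ i j k l, R i j k l ≠ 0 → (s i = s k ∧ s j = s l) ∨ (s i = s l ∧ s j = s k)
  d : ∀ i j k l, s i ≠ s j → s i = s k → s j = s l → (i ≠ k ∨ j ≠ l) → R i j k l = 0

/-- the algebraic condition satisfied by the curvature tensor in a frame of eigenvectors of a Codazzi
tensor with eigenvalues `β` -/
def Cyc {N : ℕ} (β : Fin N → ℝ) (R : Arr N) : Prop :=
  ∀ i j k l, R i j k l * β k + R j k i l * β i + R k i j l * β j = 0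

/-- `β` has a simple value or three distinct values -/
def Gen (β : Fin 6 → ℝ) : Prop :=
  (∃ e, ∀ k, k ≠ e → β k ≠ β e) ∨ ∃ p q r, β p ≠ β q ∧ β p ≠ β r ∧ β q ≠ β r

/-- `β` has two values `mu < lam`, each at least twice; `ε i = 1` iff `β i = lam`. -/
structure TwoV (β ε : Fin 6 → ℝ) (lam mu : ℝ) : Prop where
  lt : mu < lam
  ep : ∀ i, ε i = 0 ∨ ε i = 1
  eq : ∀ i, β i = mu + (lam - mu) * ε i
  two : ∀ i, ∃ j, j ≠ i ∧ ε j = ε i
  zero : ∃ i, ε i = 0
  one : ∃ i, ε i = 1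

variable {d : ℕ}

/-- the integrand of Gauss-Bonnet-Chern at the point `x`: `gb (frR (riem G x) E) / 384` for each
orthonormal frame `E` -/
noncomputable def pf (G : EE 6 → Mt 6) (x : EE 6) : ℝ := evM 0 (PC (cuv G x))

/-- covariant derivative of a field of trilinear forms -/
noncomputable def cov3 (G : EE d → Mt d) (T : EE d → Fin d → Fin d → Fin d → ℝ) (x : EE d)
    (n m i j : Fin d) : ℝ :=
  pd n (fun y => T y m i j) x - ∑ l, chr G l n m x * T x l i j - ∑ l, chr G l n i x * T x m l j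
    - ∑ l, chr G l n j x * T x m i l

/-- second covariant derivative of `b` -/
noncomputable def cov2 (G b : EE d → Mt d) (x : EE d) : Cu d := fun n m i j =>
  cov3 G (fun y => cov G b y) x n m i j

/-- Hessian of a function -/
noncomputable def hs (G : EE d → Mt d) (f : EE d → ℝ) (x : EE d) (n m : Fin d) : ℝ :=
  pd n (pd m f) x - ∑ l, chr G l n m x * pd l f x

/-- symmetrised product of a covector and a symmetric form -/
def symT (w : Fin d → ℝ) (A : Fin d → Fin d → ℝ) (m i j : Fin d) : ℝ :=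
  w m * A i j + w i * A m j + w j * A m i

/-- components in the frame `E` (the `i`-th vector is the `i`-th column) -/
def fr1 (w : Fin d → ℝ) (E : Mt d) (i : Fin d) : ℝ := ∑ a, w a * E a i
/-- components in the frame `E` -/
def fr2 (A : Fin d → Fin d → ℝ) (E : Mt d) (i j : Fin d) : ℝ := ∑ a, ∑ b, A a b * E a i * E b j
/-- components in the frame `E` -/
def fr3 (T : Fin d → Fin d → Fin d → ℝ) (E : Mt d) (m i j : Fin d) : ℝ :=
  ∑ a, ∑ b, ∑ c, T a b c * E a m * E b i * E c j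

/-- Kronecker delta -/
def dl {N : ℕ} (i j : Fin N) : ℝ := if i = j then 1 else 0

/-- `tr (G⁻¹ b)` -/
noncomputable def tr1 (G b : Mt 6) : ℝ := (G⁻¹ * b).trace
/-- `tr (G⁻¹ b)²` -/
noncomputable def tr2 (G b : Mt 6) : ℝ := (G⁻¹ * b * (G⁻¹ * b)).trace
/-- `tr (G⁻¹ b)³` -/
noncomputable def tr3 (G b : Mt 6) : ℝ := (G⁻¹ * b * (G⁻¹ * b) * (G⁻¹ * b)).trace
/-- `∑ (β i - m)²`, `m` the mean of the eigenvalues `β i` -/
noncomputable def nn2 (G b : Mt 6) : ℝ := tr2 G b - tr1 G b ^ 2 / 6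
/-- `∑ (β i - m)³` -/
noncomputable def nn3 (G b : Mt 6) : ℝ := tr3 G b - tr1 G b * tr2 G b / 2 + tr1 G b ^ 3 / 18
/-- the difference of the two eigenvalues -/
noncomputable def ww (G b : Mt 6) : ℝ := Real.sqrt ((nn3 G b / nn2 G b) ^ 2 + 2 * nn2 G b / 3)
/-- the smaller eigenvalue -/
noncomputable def mm (G b : Mt 6) : ℝ := (nn3 G b / nn2 G b - ww G b) / 2 + tr1 G b / 6
/-- the projection onto the eigenspace of the larger eigenvalue (as a bilinear form) -/
noncomputable def PP (G b : Mt 6) : Mt 6 := (ww G b)⁻¹ • (b - mm G b • G)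

/-- derivatives of smooth functions are smooth -/
theorem pd_sm {U : Set (EE d)} (hU : IsOpen U) {f : EE d → ℝ} (hf : ContDiffOn ℝ ∞ f U) (k : Fin d) :
    ContDiffOn ℝ ∞ (pd k f) U :=
  (hf.fderiv_of_isOpen hU (by simp)).clm_apply contDiffOn_const

end H30K
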