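import Pool.Agent.Lib.H30K.Stmt
import Pool.Agent.Lib.H60E.A5
import Pool.Agent.Lib.H79G.B4
import Pool.Agent.Lib.H79G.C0
import Pool.Agent.Lib.H87.HopfKC.Block2
import Pool.Agent.Lib.H69.Hopf.Milnor

/-!
# Components in a frame (copies of statements of `Lib/H79G/P1.lean`, `P2.lean`, which need long builds)

`frR R E` is the same as `H79G.frameR R E` (by `rfl`).
-/

set_option autoImplicit false

open scoped ContDiff Topology Manifold
open Set

namespace H30K

open H31R H79G H60E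
open Pool.Agent.H69Hopf (Arr IsAlgCurv ev area2)

variable {d : ℕ}

/-- components of `R` in the frame given by the columns of `E` -/
noncomputable def frR (R : Cu d) (E : Mt d) : Cu d := fun i j k l =>
  ∑ a, ∑ b, ∑ c, ∑ e, R a b c e * E a i * E b j * E c k * E e l

open scoped MatrixOrder in
theorem exists_fr (G0 : Mt d) (hs : ∀ i j, G0 i j = G0 j i)
    (hp : ∀ v : Fin d → ℝ, v ≠ 0 → 0 < ∑ i, ∑ j, G0 i j * v i * v j) :
    ∃ E : Mt d, E.transpose * G0 * E = 1 := by
  have hpd : G0.PosDef := by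
    refine Matrix.PosDef.of_dotProduct_mulVec_pos ?_ fun v hv => ?_
    · ext i j
      simp [Matrix.conjTranspose_apply, hs j i]
    · have h1 := hp v hv
      have h2 : star v ⬝ᵥ G0.mulVec v = ∑ i, ∑ j, G0 i j * v i * v j := by
        simp only [dotProduct, Matrix.mulVec, Finset.mul_sum]
        refine Finset.sum_congr rfl fun i _ => Finset.sum_congr rfl fun j _ => ?_
        have : star v i = v i := rfl
        rw [this]
        ring
      rw [h2]
      exact h1
  have hdet := hpd.det_pos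
  obtain ⟨B, hB⟩ := CStarAlgebra.nonneg_iff_eq_star_mul_self.mp hpd.posSemidef.nonneg
  have hB' : G0 = B.transpose * B := by
    rw [hB]
    congr 1
  have hu : IsUnit B.det := by
    rw [isUnit_iff_ne_zero]
    intro h0
    rw [hB', Matrix.det_mul, h0, mul_zero] at hdet
    exact lt_irrefl _ hdet
  refine ⟨B⁻¹, ?_⟩
  rw [hB']
  have h1 : B * B⁻¹ = 1 := Matrix.mul_nonsing_inv B hu
  have h2 : (B⁻¹).transpose * B.transpose = 1 := by
    rw [← Matrix.transpose_mul, h1, Matrix.transpose_one]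
  rw [← Matrix.mul_assoc, h2, Matrix.one_mul, h1]

theorem fr_swap4 (F : Fin d → Fin d → Fin d → Fin d → ℝ) :
    ∑ a, ∑ b, ∑ c, ∑ e, F a b c e = ∑ c, ∑ e, ∑ a, ∑ b, F a b c e := by
  calc ∑ a, ∑ b, ∑ c, ∑ e, F a b c e = ∑ a, ∑ c, ∑ b, ∑ e, F a b c e :=
        Finset.sum_congr rfl fun a _ => Finset.sum_comm
    _ = ∑ c, ∑ a, ∑ b, ∑ e, F a b c e := Finset.sum_comm
    _ = ∑ c, ∑ a, ∑ e, ∑ b, F a b c e :=
        Finset.sum_congr rfl fun c _ => Finset.sum_congr rfl fun a _ => Finset.sum_comm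
    _ = ∑ c, ∑ e, ∑ a, ∑ b, F a b c e := Finset.sum_congr rfl fun c _ => Finset.sum_comm

theorem fr_cyc (F : Fin d → Fin d → Fin d → ℝ) :
    ∑ a, ∑ b, ∑ c, F a b c = ∑ b, ∑ c, ∑ a, F a b c := by
  rw [Finset.sum_comm]
  exact Finset.sum_congr rfl fun b _ => Finset.sum_comm

theorem frR_algCurv {R : Cu d} (hR : Pool.Agent.H69Hopf.IsAlgCurv R) (E : Mt d) :
    Pool.Agent.H69Hopf.IsAlgCurv (frR R E) := by
  refine ⟨fun i j k l => ?_, fun i j k l => ?_, fun i j k l => ?_⟩
  · unfold frR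
    rw [Finset.sum_comm]
    simp only [← Finset.sum_neg_distrib]
    refine Finset.sum_congr rfl fun b _ => Finset.sum_congr rfl fun a _ =>
      Finset.sum_congr rfl fun c _ => Finset.sum_congr rfl fun e _ => ?_
    rw [hR.skew a b c e]
    ring
  · unfold frR
    rw [fr_swap4]
    refine Finset.sum_congr rfl fun c _ => Finset.sum_congr rfl fun e _ =>
      Finset.sum_congr rfl fun a _ => Finset.sum_congr rfl fun b _ => ?_
    rw [hR.pair a b c e]
    ring
  · have e1 : frR R E j k i l =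
        ∑ a, ∑ b, ∑ c, ∑ e, R b c a e * E b j * E c k * E a i * E e l := by
      unfold frR
      exact (fr_cyc (fun a b c => ∑ e, R b c a e * E b j * E c k * E a i * E e l)).symm
    have e2 : frR R E k i j l =
        ∑ a, ∑ b, ∑ c, ∑ e, R c a b e * E c k * E a i * E b j * E e l := by
      unfold frR
      exact fr_cyc (fun c a b => ∑ e, R c a b e * E c k * E a i * E b j * E e l)
    rw [e1, e2]
    unfold frR
    simp only [← Finset.sum_add_distrib]
    refine Finset.sum_eq_zero fun a _ => Finset.sum_eq_zero fun b _ =>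
      Finset.sum_eq_zero fun c _ => Finset.sum_eq_zero fun e _ => ?_
    have := hR.bianchi a b c e
    linear_combination (E a i * E b j * E c k * E e l) * this

theorem gb3 (R : Fin 6 → Fin 6 → Fin 6 → Fin 6 → ℝ) :
    Pool.Agent.H69Hopf.gaussBonnet 3 R = HopfSix.gaussBonnet R := by
  unfold Pool.Agent.H69Hopf.gaussBonnet HopfSix.gaussBonnet
  refine Finset.sum_congr rfl fun σ _ => Finset.sum_congr rfl fun τ _ => ?_
  rw [Fin.prod_univ_three]
  rfl

theorem fr_pull3 {K : Type*} [CommRing K] {d : ℕ} (A S T U : K) (f : Fin d → K) :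
    A * (∑ i, f i) * S * T * U = ∑ i, A * f i * S * T * U := by
  rw [Finset.mul_sum, Finset.sum_mul, Finset.sum_mul, Finset.sum_mul]

theorem fr_pull2 {K : Type*} [CommRing K] {d : ℕ} (A S T : K) (f : Fin d → K) :
    A * (∑ i, f i) * S * T = ∑ i, A * f i * S * T := by
  rw [Finset.mul_sum, Finset.sum_mul, Finset.sum_mul]

theorem fr_pull1 {K : Type*} [CommRing K] {d : ℕ} (A S : K) (f : Fin d → K) :
    A * (∑ i, f i) * S = ∑ i, A * f i * S := by
  rw [Finset.mul_sum, Finset.sum_mul]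

/-- The expansion of a four-linear form at four vectors `E p`, `E q`, `E r`, `E s`. -/
theorem fr_expand {K : Type*} [CommRing K] {d : ℕ} (R : Fin d → Fin d → Fin d → Fin d → K)
    (E : Fin d → Fin d → K) (p q r s : Fin d → K) :
    ∑ i, ∑ j, ∑ k, ∑ l, (∑ a, ∑ b, ∑ c, ∑ e, R a b c e * E a i * E b j * E c k * E e l) *
      p i * q j * r k * s l =
    ∑ a, ∑ b, ∑ c, ∑ e, R a b c e * (∑ i, E a i * p i) * (∑ j, E b j * q j) *
      (∑ k, E c k * r k) * (∑ l, E e l * s l) := by
  have h1 : ∀ a b c e, R a b c e * (∑ i, E a i * p i) * (∑ j, E b j * q j) *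
      (∑ k, E c k * r k) * (∑ l, E e l * s l) = ∑ i, ∑ j, ∑ k, ∑ l,
        R a b c e * E a i * E b j * E c k * E e l * p i * q j * r k * s l := by
    intro a b c e
    rw [fr_pull3]
    refine Finset.sum_congr rfl fun i _ => ?_
    rw [fr_pull2]
    refine Finset.sum_congr rfl fun j _ => ?_
    rw [fr_pull1]
    refine Finset.sum_congr rfl fun k _ => ?_
    rw [Finset.mul_sum]
    refine Finset.sum_congr rfl fun l _ => ?_
    ring
  have h2 : ∀ i j k l, (∑ a, ∑ b, ∑ c, ∑ e, R a b c e * E a i * E b j * E c k * E e l) *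
      p i * q j * r k * s l = ∑ a, ∑ b, ∑ c, ∑ e,
        R a b c e * E a i * E b j * E c k * E e l * p i * q j * r k * s l := by
    intro i j k l
    simp only [Finset.sum_mul]
  have h3 : ∀ (F : Fin d → Fin d → Fin d → Fin d → Fin d → Fin d → Fin d → Fin d → K),
      ∑ i, ∑ j, ∑ k, ∑ l, ∑ a, ∑ b, ∑ c, ∑ e, F i j k l a b c e =
      ∑ a, ∑ b, ∑ c, ∑ e, ∑ i, ∑ j, ∑ k, ∑ l, F i j k l a b c e := by
    intro F
    have e1 : ∀ H : Fin d → Fin d → Fin d → Fin d → K, ∑ i, ∑ j, ∑ k, ∑ l, H i j k l =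
        ∑ t : Fin d × Fin d × Fin d × Fin d, H t.1 t.2.1 t.2.2.1 t.2.2.2 := by
      intro H
      rw [Fintype.sum_prod_type]
      refine Finset.sum_congr rfl fun i _ => ?_
      rw [Fintype.sum_prod_type]
      refine Finset.sum_congr rfl fun j _ => ?_
      rw [Fintype.sum_prod_type]
    rw [e1, e1]
    have e2 : ∀ t : Fin d × Fin d × Fin d × Fin d, ∑ a, ∑ b, ∑ c, ∑ e,
        F t.1 t.2.1 t.2.2.1 t.2.2.2 a b c e = ∑ u : Fin d × Fin d × Fin d × Fin d,
        F t.1 t.2.1 t.2.2.1 t.2.2.2 u.1 u.2.1 u.2.2.1 u.2.2.2 := fun t => e1 _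
    have e3 : ∀ u : Fin d × Fin d × Fin d × Fin d, ∑ i, ∑ j, ∑ k, ∑ l,
        F i j k l u.1 u.2.1 u.2.2.1 u.2.2.2 = ∑ t : Fin d × Fin d × Fin d × Fin d,
        F t.1 t.2.1 t.2.2.1 t.2.2.2 u.1 u.2.1 u.2.2.1 u.2.2.2 := fun u =>
      e1 fun i j k l => F i j k l u.1 u.2.1 u.2.2.1 u.2.2.2
    simp only [e2, e3]
    exact Finset.sum_comm
  simp only [h1, h2]
  exact h3 fun i j k l a b c e => R a b c e * E a i * E b j * E c k * E e l * p i * q j * r k * s l


theorem ev_frR (R : Cu d) (E : Mt d) (x y z w : Fin d → ℝ) :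
    ev (frR R E) x y z w = ev (N := d) R (E.mulVec x) (E.mulVec y) (E.mulVec z) (E.mulVec w) :=
  fr_expand R E x y z w

theorem indep_fr {d : ℕ} {G0 E : Mt d} (hE : E.transpose * G0 * E = 1) {x v : Fin d → ℝ}
    (h : LinearIndependent ℝ ![x, v]) : LinearIndependent ℝ ![E.mulVec x, E.mulVec v] := by
  have hinj : Function.Injective E.mulVec := by
    intro a b hab
    have h1 : (E.transpose * G0).mulVec (E.mulVec a) = (E.transpose * G0).mulVec (E.mulVec b) := by
      rw [hab]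
    rw [Matrix.mulVec_mulVec, Matrix.mulVec_mulVec, hE, Matrix.one_mulVec, Matrix.one_mulVec] at h1
    exact h1
  have h2 : ![E.mulVec x, E.mulVec v] = fun i => E.mulVecLin (![x, v] i) := by
    funext i
    fin_cases i <;> rfl
  rw [h2]
  exact h.map' E.mulVecLin (LinearMap.ker_eq_bot.2 hinj)

end H30K
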