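import Pool.Agent.Lib.H30K.Defs

/-!
# G1 (M): the Ricci identity

Matrices (`Lib/H31R/N1.lean`, `N3.lean`): `chM G m x l i = chr G l m i x`, `pdM m b x i j = pd m (b_ij) x`,
`Rm G n m x = pdM n (chM G m) x - pdM m (chM G n) x + (chM G n x * chM G m x - chM G m x * chM G n x)`.
`G1_covM`: `cov G b x m = pdM m b x - (chM G m x)ᵀ * b x - b x * chM G m x` as matrices (unfold).

`G1_ricci`: let `C m y i j = cov G b y m i j` (the matrix `C m y`). Then
`cov2 G b x n m i j = (pdM n (C m) x - ∑ l, chr G l n m x • C l x - (chM G n x)ᵀ * C m x - C m x * chM G n x) i j`.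
The term with `∑ l` is symmetric in `n`, `m` (`N_chr_symm`). With `Γ m = chM G m`:
`pdM n (C m) = pdM n (pdM m b) - (pdM n (Γ m))ᵀ b - (Γ m)ᵀ pdM n b - pdM n b Γ m - b pdM n (Γ m)`
(`N_pdM_mul`, `N_pdM_symm`, smoothness of `chr`: `N_chr_sm`). Antisymmetrise in `n`, `m`: what remains is
`-(pdM n (Γ m) - pdM m (Γ n))ᵀ b - b (pdM n (Γ m) - pdM m (Γ n)) + ((Γ n)ᵀ (Γ m)ᵀ - (Γ m)ᵀ (Γ n)ᵀ) b
+ b (Γ m Γ n - Γ n Γ m) = -(Rm G n m)ᵀ b - b (Rm G n m)`.
(`Sm n U f` of `N1.lean` is `ContDiffOn ℝ n f U`: from `ContDiffOn ℝ ∞` with `ContDiffOn.of_le`;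
`met_det_ne` in `Lib/H60E/A5.lean`.)
-/

set_option autoImplicit false

open scoped ContDiff Topology Manifold
open Set

namespace H30K

open H31R H79G H60E
open Pool.Agent.H69Hopf (Arr IsAlgCurv ev area2)
open HopfKC (lo hi)

variable {d : ℕ} {U : Set (EE d)} {G b : EE d → Mt d}

theorem G1_covM (G b : EE d → Mt d) (x : EE d) (m : Fin d) :
    (Matrix.of (cov G b x m) : Mt d) =
      pdM m b x - (chM G m x).transpose * b x - b x * chM G m x := by
  ext i j
  rw [Matrix.of_apply, Matrix.sub_apply, Matrix.sub_apply, Matrix.mul_apply, Matrix.mul_apply]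
  unfold cov
  refine congrArg₂ _ rfl (Finset.sum_congr rfl fun l _ => ?_)
  exact mul_comm _ _

theorem g1_sm {f : EE d → ℝ} (hf : ContDiffOn ℝ ∞ f U) (n : ℕ) : Sm n U f :=
  hf.of_le (by exact_mod_cast le_top)

theorem g1_pdM_sub (hU : IsOpen U) {x : EE d} (hx : x ∈ U) {A B : EE d → Mt d} (hA : SmM 1 U A)
    (hB : SmM 1 U B) (k : Fin d) :
    pdM k (fun y => A y - B y) x = pdM k A x - pdM k B x := by
  ext i j
  exact N_pd_sub (N_diff (n := 0) hU (hA _ _) hx) (N_diff (n := 0) hU (hB _ _) hx) k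

theorem G1_ricci (h : MetOn U G) (hb : ∀ i j, ContDiffOn ℝ ∞ (fun y => b y i j) U) {x : EE d}
    (hx : x ∈ U) (n m i j : Fin d) :
    cov2 G b x n m i j - cov2 G b x m n i j =
      -(∑ a, Rm G n m x a i * b x a j) - ∑ a, Rm G n m x a j * b x i a := by
  have hU := h.hU
  have hG : ∀ k, SmM k U G := fun k i j => g1_sm (h.sm i j) k
  have hB : ∀ k, SmM k U b := fun k i j => g1_sm (hb i j) k
  have hd := met_det_ne h
  have hch : ∀ k m, SmM k U (chM G m) := fun k m => N_chM_sm hU (hG (k + 1)) hd m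
  have e2 : ∀ n m, (Matrix.of (fun i j => cov2 G b x n m i j) : Mt d) =
      pdM n (pdM m b) x - ((pdM n (chM G m) x).transpose * b x + (chM G m x).transpose * pdM n b x)
        - (pdM n b x * chM G m x + b x * pdM n (chM G m) x)
        - ∑ l, chr G l n m x • (Matrix.of (cov G b x l) : Mt d)
        - (chM G n x).transpose * (pdM m b x - (chM G m x).transpose * b x - b x * chM G m x)
        - (pdM m b x - (chM G m x).transpose * b x - b x * chM G m x) * chM G n x := by
    intro n m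
    have a1 : pdM n (fun y => (Matrix.of (cov G b y m) : Mt d)) x =
        pdM n (pdM m b) x - ((pdM n (chM G m) x).transpose * b x +
          (chM G m x).transpose * pdM n b x) -
          (pdM n b x * chM G m x + b x * pdM n (chM G m) x) := by
      have b1 : (fun y => (Matrix.of (cov G b y m) : Mt d)) =
          fun y => (pdM m b y - (chM G m y).transpose * b y) - b y * chM G m y := by
        funext y
        exact G1_covM G b y m
      have c1 : SmM 1 U (pdM m b) := N_pdM_sm hU (hB 2) m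
      have c2 : SmM 1 U (fun y => (chM G m y).transpose * b y) :=
        N_mul_sm (N_tr_sm (hch 1 m)) (hB 1)
      have c3 : SmM 1 U (fun y => b y * chM G m y) := N_mul_sm (hB 1) (hch 1 m)
      have c4 : SmM 1 U (fun y => pdM m b y - (chM G m y).transpose * b y) :=
        fun i j => (c1 i j).sub (c2 i j)
      rw [b1, g1_pdM_sub hU hx c4 c3, g1_pdM_sub hU hx c1 c2,
        N_pdM_mul (n := 0) hU hx (N_tr_sm (hch 1 m)) (hB 1),
        N_pdM_mul (n := 0) hU hx (hB 1) (hch 1 m)]
      rfl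
    rw [← a1, ← G1_covM G b x m]
    ext i j
    rw [Matrix.of_apply]
    simp only [Matrix.sub_apply, Matrix.mul_apply, Matrix.sum_apply, Matrix.smul_apply,
      Matrix.of_apply, smul_eq_mul]
    unfold cov2 cov3
    refine congrArg₂ _ (congrArg₂ _ (congrArg₂ _ rfl rfl) rfl) (Finset.sum_congr rfl fun l _ => ?_)
    exact mul_comm _ _
  have hsum : ∑ l, chr G l n m x • (Matrix.of (cov G b x l) : Mt d) =
      ∑ l, chr G l m n x • (Matrix.of (cov G b x l) : Mt d) :=
    Finset.sum_congr rfl fun l _ => by rw [N_chr_symm hU hx h.symm l n m]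
  have hpp : pdM n (pdM m b) x = pdM m (pdM n b) x := N_pdM_symm hU hx (hB 2) n m
  have e3 : (Matrix.of (fun i j => cov2 G b x n m i j) : Mt d) -
      Matrix.of (fun i j => cov2 G b x m n i j) =
      -((Rm G n m x).transpose * b x) - b x * Rm G n m x := by
    rw [e2 n m, e2 m n, hsum, hpp]
    unfold Rm
    simp only [Matrix.transpose_add, Matrix.transpose_sub, Matrix.transpose_mul]
    noncomm_ring
  have e4 := congrFun (congrFun e3 i) j
  rw [Matrix.sub_apply, Matrix.of_apply, Matrix.of_apply, Matrix.sub_apply, Matrix.neg_apply,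
    Matrix.mul_apply, Matrix.mul_apply] at e4
  rw [e4]
  refine congrArg₂ _ rfl (Finset.sum_congr rfl fun l _ => ?_)
  exact mul_comm _ _

end H30K
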