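import Pool.Agent.Lib.H30K.G1

/-!
# G2 (M): the curvature in a frame of eigenvectors of a Codazzi tensor

`E` is an orthonormal frame at `x` with `Eᵀ b E = diagonal β`. `G x` is invertible and
`(G x)⁻¹ = E Eᵀ`; `riem G x n m k l = (G x * Rm G n m x) k l` (`H79G.riem_eq`, `Lib/H79G/B4.lean`), so
`Rm G n m x = E Eᵀ riem(n, m)`.

`G2_frame`: put `D = cov2 G b x` and apply `frR · E` to `G1_ricci`: with
`ρ = ∑ a b, E a n E b m Rm G a b x` (a matrix) the right hand side is
`-(Eᵀ ρᵀ b E) i j - (Eᵀ b ρ E) i j`; `ρ = E (Eᵀ r)`, where `r = ∑ a b, E a n E b m • riem(a, b)`, so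
`Eᵀ b ρ E = (Eᵀ b E)(Eᵀ r E) = diagonal β * F`, `F i j = frR (riem G x) E n m i j`, and
`Eᵀ ρᵀ b E = Fᵀ * diagonal β`. Together: `-F j i β j - β i F i j = F i j (β j - β i)` (`F` is
antisymmetric, `riem_algCurv`, `frR_algCurv`).

`G2_cyc`: `cov G b y` is symmetric in the first two indices for all `y ∈ U` (`cod`), so
`cov2 G b x n m i j = cov2 G b x n i m j` (`N_pd_congr_on` for the derivative; the other terms at `x`:
`cov3` of a field of forms symmetric in the first two indices is symmetric in these indices), and the same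
for the components in the frame. Sum `G2_frame` over the cyclic permutations of `(n, m, i)`: the left
hand sides cancel, `∑ cyc F(n m i j) (β j - β i) = 0`, and with the Bianchi identity
`F n m i j β i + F m i n j β n + F i n m j β m = 0`: this is `Cyc` (`(i,j,k,l) = (n,m,i,j)`).
-/

set_option autoImplicit false

open scoped ContDiff Topology Manifold
open Set

namespace H30K

open H31R H79G H60E
open Pool.Agent.H69Hopf (Arr IsAlgCurv ev area2)
open HopfKC (lo hi)

variable {d : ℕ} {U : Set (EE d)} {G b : EE d → Mt d}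

theorem g2_mm (E D : Mt d) (i j : Fin d) :
    (E.transpose * D * E) i j = ∑ c, ∑ e, D c e * E c i * E e j := by
  rw [Matrix.mul_apply, Finset.sum_comm]
  refine Finset.sum_congr rfl fun e _ => ?_
  rw [Matrix.mul_apply, Finset.sum_mul]
  refine Finset.sum_congr rfl fun c _ => ?_
  rw [Matrix.transpose_apply]
  ring

theorem g2_fr (C : Cu d) (E : Mt d) (n m i j : Fin d) :
    frR C E n m i j = ∑ a, ∑ b, E a n * E b m * (E.transpose * (Matrix.of (C a b)) * E) i j := by
  unfold frR
  refine Finset.sum_congr rfl fun a _ => Finset.sum_congr rfl fun b _ => ?_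
  rw [g2_mm, Finset.mul_sum]
  refine Finset.sum_congr rfl fun c _ => ?_
  rw [Finset.mul_sum]
  refine Finset.sum_congr rfl fun e _ => ?_
  rw [Matrix.of_apply]
  ring

theorem g2_fr' (C : Cu d) (E : Mt d) (n m i j : Fin d) :
    frR C E m n i j = ∑ a, ∑ b, E a n * E b m * (E.transpose * (Matrix.of (C b a)) * E) i j := by
  rw [g2_fr, Finset.sum_comm]
  refine Finset.sum_congr rfl fun a _ => Finset.sum_congr rfl fun b _ => ?_
  rw [mul_comm (E b m)]

theorem G2_frame (h : MetOn U G) (hb : ∀ i j, ContDiffOn ℝ ∞ (fun y => b y i j) U)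
    {x : EE d} (hx : x ∈ U) {E : Mt d} (hE : E.transpose * G x * E = 1) {β : Fin d → ℝ}
    (hβ : E.transpose * b x * E = Matrix.diagonal β) (n m i j : Fin d) :
    frR (cov2 G b x) E n m i j - frR (cov2 G b x) E m n i j =
      frR (riem G x) E n m i j * (β j - β i) := by
  have hinv : E * (E.transpose * G x) = 1 := mul_eq_one_comm.1 hE
  have hE1 : ∀ a c : Fin d, Rm G a c x = E * (E.transpose * Matrix.of (riem G x a c)) := by
    intro a c
    have h1 : (Matrix.of (riem G x a c) : Mt d) = G x * Rm G a c x := by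
      ext k l
      rw [Matrix.of_apply]
      exact riem_eq G x a c k l
    rw [h1, ← Matrix.mul_assoc, ← Matrix.mul_assoc, Matrix.mul_assoc E, hinv, Matrix.one_mul]
  have hD : ∀ a c : Fin d, E.transpose * Matrix.of (cov2 G b x a c) * E -
      E.transpose * Matrix.of (cov2 G b x c a) * E =
      -((E.transpose * Matrix.of (riem G x a c) * E).transpose * Matrix.diagonal β) -
        Matrix.diagonal β * (E.transpose * Matrix.of (riem G x a c) * E) := by
    intro a c
    have h1 : (Matrix.of (cov2 G b x a c) : Mt d) - Matrix.of (cov2 G b x c a) =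
        -((Rm G a c x).transpose * b x) - b x * Rm G a c x := by
      ext k l
      have h2 := G1_ricci h hb hx a c k l
      simp only [Matrix.sub_apply, Matrix.neg_apply, Matrix.of_apply, Matrix.mul_apply,
        Matrix.transpose_apply]
      rw [h2]
      congr 1
      exact Finset.sum_congr rfl fun e _ => mul_comm _ _
    rw [← Matrix.sub_mul, ← Matrix.mul_sub, h1, ← hβ, hE1 a c]
    simp only [Matrix.transpose_mul, Matrix.transpose_transpose, Matrix.mul_sub, Matrix.sub_mul,
      Matrix.mul_neg, Matrix.neg_mul, Matrix.mul_assoc]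
  rw [g2_fr' (cov2 G b x) E n m i j, g2_fr (cov2 G b x) E n m i j, ← Finset.sum_sub_distrib]
  have hskew : frR (riem G x) E n m j i = -frR (riem G x) E n m i j := by
    have hc := frR_algCurv (riem_algCurv h hx) E
    rw [hc.pair n m j i, hc.skew j i n m, hc.pair i j n m]
  have h3 : frR (riem G x) E n m i j * (β j - β i) =
      -(frR (riem G x) E n m j i * β j) - β i * frR (riem G x) E n m i j := by
    rw [hskew]
    ring
  rw [h3, g2_fr (riem G x) E n m j i, g2_fr (riem G x) E n m i j, Finset.sum_mul, Finset.mul_sum,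
    ← Finset.sum_neg_distrib, ← Finset.sum_sub_distrib]
  refine Finset.sum_congr rfl fun a _ => ?_
  rw [← Finset.sum_sub_distrib, Finset.sum_mul, Finset.mul_sum,
    ← Finset.sum_neg_distrib, ← Finset.sum_sub_distrib]
  refine Finset.sum_congr rfl fun c _ => ?_
  have h4 := congrFun (congrFun (hD a c) i) j
  simp only [Matrix.sub_apply, Matrix.neg_apply, Matrix.mul_diagonal, Matrix.diagonal_mul,
    Matrix.transpose_apply (E.transpose * Matrix.of (riem G x a c) * E)] at h4
  rw [← mul_sub, h4]
  ring

theorem G2_cyc (h : MetOn U G) (hc : IsCodazzi G U b) {x : EE d} (hx : x ∈ U) {E : Mt d}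
    (hE : E.transpose * G x * E = 1) {β : Fin d → ℝ}
    (hβ : E.transpose * b x * E = Matrix.diagonal β) : Cyc (N := d) β (frR (riem G x) E) := by
  have hsym : ∀ n m i j, cov2 G b x n m i j = cov2 G b x n i m j := by
    intro n m i j
    unfold cov2 cov3
    have h1 : pd n (fun y => cov G b y m i j) x = pd n (fun y => cov G b y i m j) x :=
      N_pd_congr_on h.hU hx n fun y hy => hc.cod y hy m i j
    have h2 : ∀ l, cov G b x m l j = cov G b x l m j := fun l => hc.cod x hx m l j
    have h3 : ∀ l, cov G b x i l j = cov G b x l i j := fun l => hc.cod x hx i l j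
    have h4 : ∀ l, cov G b x m i l = cov G b x i m l := fun l => hc.cod x hx m i l
    simp only [h1, h2, h3, h4]
    ring
  have hC : ∀ n m i j, frR (cov2 G b x) E n m i j = frR (cov2 G b x) E n i m j := by
    intro n m i j
    unfold frR
    refine Finset.sum_congr rfl fun a _ => ?_
    rw [Finset.sum_comm]
    refine Finset.sum_congr rfl fun c _ => Finset.sum_congr rfl fun b' _ =>
      Finset.sum_congr rfl fun e _ => ?_
    rw [hsym a b' c e]
    ring
  intro i j k l
  have f1 := G2_frame h hc.sm hx hE hβ i j k l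
  have f2 := G2_frame h hc.sm hx hE hβ j k i l
  have f3 := G2_frame h hc.sm hx hE hβ k i j l
  have c1 := hC i j k l
  have c2 := hC j k i l
  have c3 := hC k i j l
  have hb := (frR_algCurv (riem_algCurv h hx) E).bianchi i j k l
  linear_combination f1 + f2 + f3 - c1 - c2 - c3 + β l * hb

end H30K
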