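import Pool.Agent.Lib.H30K.Defs

/-!
# G3 (S/M): a frame of eigenvectors

`exists_fr` (`Frame.lean`): `E₀` with `E₀ᵀ G₀ E₀ = 1`. `A = E₀ᵀ b₀ E₀` is symmetric; spectral
theorem: `Q` orthogonal, `Qᵀ A Q = diagonal β`. Take `E = E₀ Q`.

`G3_umb`: if all `β i` are equal to `c` then `b₀ = c • G₀` (multiply `Eᵀ b₀ E = c • 1 = c • Eᵀ G₀ E` by the
inverses of `Eᵀ` and `E`).
-/

set_option autoImplicit false

open scoped ContDiff Topology Manifold
open Set

namespace H30K

open H31R H79G H60E
open Pool.Agent.H69Hopf (Arr IsAlgCurv ev area2)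
open HopfKC (lo hi)

variable {d : ℕ}

theorem G3_exists {G0 b0 : Mt d} (hs : ∀ i j, G0 i j = G0 j i)
    (hp : ∀ v : Fin d → ℝ, v ≠ 0 → 0 < ∑ i, ∑ j, G0 i j * v i * v j) (hb : ∀ i j, b0 i j = b0 j i) :
    ∃ (E : Mt d) (β : Fin d → ℝ), E.transpose * G0 * E = 1 ∧
      E.transpose * b0 * E = Matrix.diagonal β := by
  obtain ⟨E0, hE0⟩ := exists_fr G0 hs hp
  have hbT : b0.transpose = b0 := by
    ext i j
    exact hb j i
  have hA : (E0.transpose * b0 * E0).IsHermitian := by
    show (E0.transpose * b0 * E0).conjTranspose = E0.transpose * b0 * E0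
    rw [Matrix.conjTranspose_eq_transpose_of_trivial, Matrix.transpose_mul, Matrix.transpose_mul,
      hbT, Matrix.transpose_transpose, Matrix.mul_assoc]
  have h1 := hA.conjStarAlgAut_star_eigenvectorUnitary
  rw [Unitary.conjStarAlgAut_star_apply] at h1
  have hU : star (hA.eigenvectorUnitary : Mt d) = (hA.eigenvectorUnitary : Mt d).transpose := by
    rw [Matrix.star_eq_conjTranspose, Matrix.conjTranspose_eq_transpose_of_trivial]
  have h2 : (hA.eigenvectorUnitary : Mt d).transpose * (hA.eigenvectorUnitary : Mt d) = 1 := by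
    rw [← hU]
    exact Unitary.coe_star_mul_self _
  rw [hU] at h1
  refine ⟨E0 * (hA.eigenvectorUnitary : Mt d), hA.eigenvalues, ?_, ?_⟩
  · rw [Matrix.transpose_mul]
    calc (hA.eigenvectorUnitary : Mt d).transpose * E0.transpose * G0 *
          (E0 * (hA.eigenvectorUnitary : Mt d))
        = (hA.eigenvectorUnitary : Mt d).transpose * (E0.transpose * G0 * E0) *
          (hA.eigenvectorUnitary : Mt d) := by simp only [Matrix.mul_assoc]
      _ = 1 := by rw [hE0, Matrix.mul_one, h2]
  · rw [Matrix.transpose_mul]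
    calc (hA.eigenvectorUnitary : Mt d).transpose * E0.transpose * b0 *
          (E0 * (hA.eigenvectorUnitary : Mt d))
        = (hA.eigenvectorUnitary : Mt d).transpose * (E0.transpose * b0 * E0) *
          (hA.eigenvectorUnitary : Mt d) := by simp only [Matrix.mul_assoc]
      _ = Matrix.diagonal hA.eigenvalues := by
          rw [h1]
          rfl

theorem G3_umb {G0 b0 E : Mt d} {β : Fin d → ℝ} (hE : E.transpose * G0 * E = 1)
    (hβ : E.transpose * b0 * E = Matrix.diagonal β) {c : ℝ} (hc : ∀ i, β i = c) : b0 = c • G0 := by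
  have h1 : (E.transpose * G0) * E = 1 := hE
  have h2 : E * (E.transpose * G0) = 1 := mul_eq_one_comm.mp h1
  have h3 : E.transpose * (G0 * E) = 1 := by rw [← Matrix.mul_assoc]; exact hE
  have h4 : (G0 * E) * E.transpose = 1 := mul_eq_one_comm.mp h3
  have h5 : Matrix.diagonal β = c • (E.transpose * G0 * E) := by
    rw [hE]
    have : β = fun _ => c := funext hc
    rw [this]
    ext i j
    by_cases hij : i = j
    · subst hij
      simp
    · simp [hij]
  rw [h5] at hβ
  calc b0 = ((G0 * E) * E.transpose) * b0 * (E * (E.transpose * G0)) := by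
        rw [h2, h4, Matrix.one_mul, Matrix.mul_one]
    _ = (G0 * E) * (E.transpose * b0 * E) * (E.transpose * G0) := by
        simp only [Matrix.mul_assoc]
    _ = c • (((G0 * E) * E.transpose) * G0 * (E * (E.transpose * G0))) := by
        rw [hβ]
        simp only [Matrix.mul_assoc, Matrix.smul_mul, Matrix.mul_smul]
    _ = c • G0 := by rw [h2, h4, Matrix.one_mul, Matrix.mul_one]

end H30K
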