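import Pool.Agent.Lib.H30K.Defs

/-!
# G4 (M): the two eigenvalues as functions of the traces

`Eᵀ G₀ E = 1`, `Eᵀ b₀ E = diagonal β`. Then `G₀⁻¹ = E Eᵀ`, `E⁻¹ (G₀⁻¹ b₀) E = diagonal β`
(`E⁻¹ E Eᵀ b₀ E = Eᵀ b₀ E`), so `tr1 = ∑ β i`, `tr2 = ∑ β i²`, `tr3 = ∑ β i³` (cyclicity of the trace).
`G4_nn2`: `nn2 = ∑ (β i - m)²`, `m = tr1/6`, so `nn2 ≥ 0` and it is `0` iff all `β i` are equal.

`G4_two`: let `β i = mu + (lam - mu) ε i`, `W = lam - mu > 0`, `p = ∑ ε i`, `q = 6 - p`, `p, q > 0`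
(`ε i ^ 2 = ε i`): `β i - m = W (ε i - p/6)`, `nn2 = W² (p - p²/6) = W² p q/6 > 0`,
`nn3 = ∑ (β i - m)³ = W³ (p - 3 p p/6 + 3 p (p/6)² - 6 (p/6)³) = W³ p q (q - p)/36`,
`nn3/nn2 = W (q - p)/6`, `(nn3/nn2)² + 2 nn2/3 = W² ((q-p)² + 4 p q)/36 = W²`, so `ww = W`;
`mm = (W (q - p)/6 - W)/2 + m = m - W p/6 = mu`. `Eᵀ PP E = W⁻¹ (diagonal β - mu) = diagonal ε`, and
`PP G₀⁻¹ PP = PP`: `Eᵀ (PP E Eᵀ PP) E = (diagonal ε)² = diagonal ε`, `E` invertible.
-/

set_option autoImplicit false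

open scoped ContDiff Topology Manifold
open Set

namespace H30K

open H31R H79G H60E
open Pool.Agent.H69Hopf (Arr IsAlgCurv ev area2)
open HopfKC (lo hi)

theorem g4_inv {G0 E : Mt 6} (hE : E.transpose * G0 * E = 1) : G0⁻¹ = E * E.transpose := by
  have h3 : E.transpose * (G0 * E) = 1 := by rw [← Matrix.mul_assoc]; exact hE
  have h4 : (G0 * E) * E.transpose = 1 := mul_eq_one_comm.mp h3
  exact Matrix.inv_eq_right_inv (by rw [← Matrix.mul_assoc]; exact h4)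

theorem g4_cancel {G0 E X Y : Mt 6} (hE : E.transpose * G0 * E = 1)
    (h : E.transpose * X * E = E.transpose * Y * E) : X = Y := by
  have h1 : (E.transpose * G0) * E = 1 := hE
  have h2 : E * (E.transpose * G0) = 1 := mul_eq_one_comm.mp h1
  have h3 : E.transpose * (G0 * E) = 1 := by rw [← Matrix.mul_assoc]; exact hE
  have h4 : (G0 * E) * E.transpose = 1 := mul_eq_one_comm.mp h3
  have key : ∀ Z : Mt 6, Z = (G0 * E) * (E.transpose * Z * E) * (E.transpose * G0) := by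
    intro Z
    calc Z = ((G0 * E) * E.transpose) * Z * (E * (E.transpose * G0)) := by
          rw [h2, h4, Matrix.one_mul, Matrix.mul_one]
      _ = _ := by simp only [Matrix.mul_assoc]
  rw [key X, key Y, h]

theorem g4_tr {G0 b0 E : Mt 6} {β : Fin 6 → ℝ} (hE : E.transpose * G0 * E = 1)
    (hβ : E.transpose * b0 * E = Matrix.diagonal β) :
    tr1 G0 b0 = ∑ i, β i ∧ tr2 G0 b0 = ∑ i, β i ^ 2 ∧ tr3 G0 b0 = ∑ i, β i ^ 3 := by
  have hi := g4_inv hE
  refine ⟨?_, ?_, ?_⟩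
  · unfold tr1
    rw [hi, Matrix.mul_assoc, Matrix.trace_mul_comm, hβ, Matrix.trace_diagonal]
  · unfold tr2
    have e : E * E.transpose * b0 * (E * E.transpose * b0) =
        E * ((E.transpose * b0 * E) * (E.transpose * b0)) := by simp only [Matrix.mul_assoc]
    rw [hi, e, Matrix.trace_mul_comm, Matrix.mul_assoc, hβ, Matrix.diagonal_mul_diagonal,
      Matrix.trace_diagonal]
    exact Finset.sum_congr rfl fun i _ => by ring
  · unfold tr3
    have e : E * E.transpose * b0 * (E * E.transpose * b0) * (E * E.transpose * b0) =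
        E * ((E.transpose * b0 * E) * (E.transpose * b0 * E) * (E.transpose * b0)) := by
      simp only [Matrix.mul_assoc]
    rw [hi, e, Matrix.trace_mul_comm, Matrix.mul_assoc, hβ, Matrix.diagonal_mul_diagonal,
      Matrix.diagonal_mul_diagonal, Matrix.trace_diagonal]
    exact Finset.sum_congr rfl fun i _ => by ring

theorem g4_nn2_eq {G0 b0 E : Mt 6} {β : Fin 6 → ℝ} (hE : E.transpose * G0 * E = 1)
    (hβ : E.transpose * b0 * E = Matrix.diagonal β) :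
    nn2 G0 b0 = ∑ i, (β i - (∑ j, β j) / 6) ^ 2 := by
  obtain ⟨h1, h2, -⟩ := g4_tr hE hβ
  unfold nn2
  rw [h1, h2]
  simp only [Fin.sum_univ_six]
  ring

theorem G4_nn2 {G0 b0 E : Mt 6} {β : Fin 6 → ℝ} (hE : E.transpose * G0 * E = 1)
    (hβ : E.transpose * b0 * E = Matrix.diagonal β) :
    0 ≤ nn2 G0 b0 ∧ (nn2 G0 b0 = 0 ↔ ∀ i j, β i = β j) := by
  have h := g4_nn2_eq hE hβ
  rw [h]
  refine ⟨Finset.sum_nonneg fun i _ => sq_nonneg _, ?_, ?_⟩
  · intro h0 i j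
    have h1 := (Finset.sum_eq_zero_iff_of_nonneg (fun i _ => sq_nonneg _)).mp h0
    have hi := pow_eq_zero_iff (two_ne_zero) |>.mp (h1 i (Finset.mem_univ _))
    have hj := pow_eq_zero_iff (two_ne_zero) |>.mp (h1 j (Finset.mem_univ _))
    linarith
  · intro h0
    have e : ∀ i, β i = β 0 := fun i => h0 i 0
    refine Finset.sum_eq_zero fun i _ => ?_
    rw [Finset.sum_congr rfl fun j _ => e j, e i]
    simp

theorem G4_two {G0 b0 E : Mt 6} {β ε : Fin 6 → ℝ} {lam mu : ℝ} (hE : E.transpose * G0 * E = 1)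
    (hβ : E.transpose * b0 * E = Matrix.diagonal β) (h2 : TwoV β ε lam mu) :
    0 < nn2 G0 b0 ∧ ww G0 b0 = lam - mu ∧ mm G0 b0 = mu ∧
      E.transpose * PP G0 b0 * E = Matrix.diagonal ε ∧
      PP G0 b0 * G0⁻¹ * PP G0 b0 = PP G0 b0 := by
  obtain ⟨t1, t2, t3⟩ := g4_tr hE hβ
  obtain ⟨W, hW⟩ : ∃ W, W = lam - mu := ⟨_, rfl⟩
  have hW0 : 0 < W := by rw [hW]; linarith [h2.lt]
  obtain ⟨p, hp⟩ : ∃ p, p = ∑ i, ε i := ⟨_, rfl⟩
  have he2 : ∀ i, ε i ^ 2 = ε i := fun i => by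
    rcases h2.ep i with h | h <;> rw [h] <;> norm_num
  have he3 : ∀ i, ε i ^ 3 = ε i := fun i => by
    rcases h2.ep i with h | h <;> rw [h] <;> norm_num
  have he0 : ∀ i, 0 ≤ ε i := fun i => by
    rcases h2.ep i with h | h <;> rw [h] <;> norm_num
  have he1 : ∀ i, ε i ≤ 1 := fun i => by
    rcases h2.ep i with h | h <;> rw [h]; norm_num
  have hp0 : 0 < p := by
    obtain ⟨i, hi⟩ := h2.one
    have := Finset.single_le_sum (fun j _ => he0 j) (Finset.mem_univ i)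
    rw [hp]
    linarith
  have hp6 : p < 6 := by
    obtain ⟨i, hi⟩ := h2.zero
    have h : ∑ j, ε j < ∑ _j : Fin 6, (1 : ℝ) :=
      Finset.sum_lt_sum (fun j _ => he1 j) ⟨i, Finset.mem_univ i, by rw [hi]; norm_num⟩
    simp at h
    rw [hp]
    exact h
  have hb : ∀ i, β i = mu + W * ε i := fun i => by rw [h2.eq i, hW]
  have s1 : tr1 G0 b0 = 6 * mu + W * p := by
    rw [t1, hp, Finset.sum_congr rfl fun i _ => hb i, Finset.sum_add_distrib, ← Finset.mul_sum]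
    simp
  have s2 : tr2 G0 b0 = 6 * mu ^ 2 + 2 * mu * W * p + W ^ 2 * p := by
    have : ∀ i, β i ^ 2 = mu ^ 2 + (2 * mu * W + W ^ 2) * ε i := fun i => by
      rw [hb i]
      linear_combination W ^ 2 * he2 i
    rw [t2, hp, Finset.sum_congr rfl fun i _ => this i, Finset.sum_add_distrib, ← Finset.mul_sum]
    simp
    ring
  have s3 : tr3 G0 b0 = 6 * mu ^ 3 + (3 * mu ^ 2 * W + 3 * mu * W ^ 2 + W ^ 3) * p := by
    have : ∀ i, β i ^ 3 = mu ^ 3 + (3 * mu ^ 2 * W + 3 * mu * W ^ 2 + W ^ 3) * ε i := fun i => by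
      rw [hb i]
      linear_combination 3 * mu * W ^ 2 * he2 i + W ^ 3 * he3 i
    rw [t3, hp, Finset.sum_congr rfl fun i _ => this i, Finset.sum_add_distrib, ← Finset.mul_sum]
    simp
  have n2 : nn2 G0 b0 = W ^ 2 * (p * (6 - p)) / 6 := by
    unfold nn2
    rw [s1, s2]
    ring
  have n3 : nn3 G0 b0 = W ^ 3 * (p * (6 - p)) * (6 - 2 * p) / 36 := by
    unfold nn3
    rw [s1, s2, s3]
    ring
  have hpos : 0 < p * (6 - p) := mul_pos hp0 (by linarith)
  have n2pos : 0 < nn2 G0 b0 := by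
    rw [n2]
    positivity
  have hq : nn3 G0 b0 / nn2 G0 b0 = W * (6 - 2 * p) / 6 := by
    rw [n3, n2]
    have h6 : (6 - p) ≠ 0 := by linarith
    field_simp
    ring
  have hww : ww G0 b0 = W := by
    unfold ww
    rw [hq, n2]
    have : (W * (6 - 2 * p) / 6) ^ 2 + 2 * (W ^ 2 * (p * (6 - p)) / 6) / 3 = W ^ 2 := by ring
    rw [this]
    exact Real.sqrt_sq hW0.le
  have hmm : mm G0 b0 = mu := by
    unfold mm
    rw [hq, hww, s1]
    ring
  have hPP : E.transpose * PP G0 b0 * E = Matrix.diagonal ε := by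
    unfold PP
    rw [hww, hmm, Matrix.mul_smul, Matrix.smul_mul, Matrix.mul_sub, Matrix.sub_mul, hβ,
      Matrix.mul_smul, Matrix.smul_mul, hE]
    ext i j
    by_cases hij : i = j
    · subst hij
      simp [hb]
      field_simp
    · simp [hij]
  refine ⟨n2pos, by rw [hww, hW], hmm, hPP, ?_⟩
  refine g4_cancel hE ?_
  have e : E.transpose * (PP G0 b0 * G0⁻¹ * PP G0 b0) * E =
      (E.transpose * PP G0 b0 * E) * (E.transpose * PP G0 b0 * E) := by
    rw [g4_inv hE]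
    simp only [Matrix.mul_assoc]
  rw [e, hPP, Matrix.diagonal_mul_diagonal]
  congr 1
  funext i
  rw [← sq, he2]

end H30K
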