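import Pool.Agent.Lib.H30K.Defs

/-!
# G5 (S/M): smoothness of the eigenvalues

On `V`: the entries of `G⁻¹` are smooth (`N_inv_sm` for each finite order: `contDiffOn_infty`; or
`Matrix.inv_def`/adjugate; `met_det_ne` in `Lib/H60E/A5.lean`), hence `tr1`, `tr2`, `tr3`, `nn2`, `nn3` are
smooth; `nn2 > 0` by hypothesis, so `nn3/nn2` is smooth, `(nn3/nn2)² + 2 nn2/3 > 0` and its square root is
smooth and positive (`Real.sqrt` is smooth away from `0`: `ContDiffOn.sqrt`), `PP` is smooth.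
-/

set_option autoImplicit false

open scoped ContDiff Topology Manifold
open Set

namespace H30K

open H31R H79G H60E
open Pool.Agent.H69Hopf (Arr IsAlgCurv ev area2)
open HopfKC (lo hi)

/-- smooth matrix function -/
def g5_S (V : Set (EE 6)) (A : EE 6 → Mt 6) : Prop := ∀ i j, ContDiffOn ℝ ∞ (fun y => A y i j) V

theorem g5_mul {V : Set (EE 6)} {A B : EE 6 → Mt 6} (hA : g5_S V A) (hB : g5_S V B) :
    g5_S V (fun y => A y * B y) := by
  intro i j
  simp only [Matrix.mul_apply]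
  exact ContDiffOn.sum fun k _ => (hA i k).mul (hB k j)

theorem g5_tr {V : Set (EE 6)} {A : EE 6 → Mt 6} (hA : g5_S V A) :
    ContDiffOn ℝ ∞ (fun y => (A y).trace) V := by
  simp only [Matrix.trace, Matrix.diag]
  exact ContDiffOn.sum fun k _ => hA k k

theorem g5_inv {V : Set (EE 6)} {G : EE 6 → Mt 6} (h : MetOn V G) : g5_S V (fun y => (G y)⁻¹) := by
  intro i j
  rw [contDiffOn_infty]
  intro n
  exact N_inv_sm (fun i j => (h.sm i j).of_le (by exact_mod_cast le_top))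
    (fun y hy => met_det_ne h y hy) i j

theorem G5_smooth {V : Set (EE 6)} {G b : EE 6 → Mt 6} (h : MetOn V G)
    (hb : ∀ i j, ContDiffOn ℝ ∞ (fun y => b y i j) V) (hn : ∀ y ∈ V, 0 < nn2 (G y) (b y)) :
    ContDiffOn ℝ ∞ (fun y => ww (G y) (b y)) V ∧ ContDiffOn ℝ ∞ (fun y => mm (G y) (b y)) V ∧
      (∀ i j, ContDiffOn ℝ ∞ (fun y => PP (G y) (b y) i j) V) ∧
      ∀ y ∈ V, 0 < ww (G y) (b y) := by
  have hb' : g5_S V b := hb
  have h1 := g5_mul (g5_inv h) hb'
  have h2 := g5_mul h1 h1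
  have h3 := g5_mul h2 h1
  have t1 : ContDiffOn ℝ ∞ (fun y => tr1 (G y) (b y)) V := g5_tr h1
  have t2 : ContDiffOn ℝ ∞ (fun y => tr2 (G y) (b y)) V := g5_tr h2
  have t3 : ContDiffOn ℝ ∞ (fun y => tr3 (G y) (b y)) V := g5_tr h3
  have n2 : ContDiffOn ℝ ∞ (fun y => nn2 (G y) (b y)) V := t2.sub ((t1.pow 2).div_const 6)
  have n3 : ContDiffOn ℝ ∞ (fun y => nn3 (G y) (b y)) V :=
    (t3.sub ((t1.mul t2).div_const 2)).add ((t1.pow 3).div_const 18)
  have q : ContDiffOn ℝ ∞ (fun y => nn3 (G y) (b y) / nn2 (G y) (b y)) V :=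
    n3.div n2 fun y hy => (hn y hy).ne'
  have r : ContDiffOn ℝ ∞ (fun y => (nn3 (G y) (b y) / nn2 (G y) (b y)) ^ 2 +
      2 * nn2 (G y) (b y) / 3) V :=
    (q.pow 2).add ((contDiffOn_const.mul n2).div_const 3)
  have rpos : ∀ y ∈ V, 0 < (nn3 (G y) (b y) / nn2 (G y) (b y)) ^ 2 + 2 * nn2 (G y) (b y) / 3 := by
    intro y hy
    have := hn y hy
    positivity
  have w : ContDiffOn ℝ ∞ (fun y => ww (G y) (b y)) V := r.sqrt fun y hy => (rpos y hy).ne'
  have wpos : ∀ y ∈ V, 0 < ww (G y) (b y) := fun y hy => Real.sqrt_pos.2 (rpos y hy)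
  have m : ContDiffOn ℝ ∞ (fun y => mm (G y) (b y)) V :=
    ((q.sub w).div_const 2).add (t1.div_const 6)
  refine ⟨w, m, ?_, wpos⟩
  intro i j
  have e : (fun y => PP (G y) (b y) i j) = fun y => (ww (G y) (b y))⁻¹ *
      (b y i j - mm (G y) (b y) * G y i j) := by
    funext y
    unfold PP
    rw [Matrix.smul_apply, Matrix.sub_apply, Matrix.smul_apply, smul_eq_mul, smul_eq_mul]
  rw [e]
  exact (w.inv fun y hy => (wpos y hy).ne').mul ((hb i j).sub (m.mul (h.sm i j)))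

end H30K
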