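import Pool.Agent.Lib.H30K.Defs

/-!
# G6 (M): algebra of a Codazzi tensor with two eigenvalues

`S m i j = (μ m + w m ε i) δ_ij + W p m i j` is totally symmetric; `ε ∈ {0, 1}`; `p m i j = 0` if
`ε i = ε j`; each class has at least two elements (`two`).

(a) `μ i + w i ε i = 0`: let `j ≠ i` with `ε j = ε i`. `S i j j = μ i + w i ε j` (`p i j j = 0`) and
`S i j j = S j i j = 0` (`i ≠ j`, `p j i j = 0` because `ε i = ε j`).

(b) `S m i j = symT w (ε δ) m i j + symT μ δ m i j`: cases. If `ε i = ε j`: `S m i j = (μ m + w m ε i) δ_ij`.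
For `i ≠ j` it is `0`, and the right hand side is `δ_mj (w i ε m + μ i) + δ_mi (w j ε m + μ j)`, where
for `m = j` the bracket is `w i ε j + μ i = w i ε i + μ i = 0`, same for `m = i`. For `i = j`:
`μ m + w m ε i` versus `w m ε i + μ m + 2 δ_mi (w i ε i + μ i)`. If `ε i ≠ ε j` (so `i ≠ j`): by
symmetry in `i j` (`hp`) and since one of `ε m = ε i`, `ε m = ε j` holds: if `ε m = ε i`:
`S m i j = S j i m` (`= S i j m = S i m j`...: total symmetry), which is the case of equal `ε` in the last two
indices: `(μ j + w j ε i) δ_im`; right hand side: `δ_mj .. = 0` (`m ≠ j`), `δ_mi (w j ε m + μ j)`. Same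
if `ε m = ε j`.
-/

set_option autoImplicit false

open scoped ContDiff Topology Manifold
open Set

namespace H30K

open H31R H79G H60E
open Pool.Agent.H69Hopf (Arr IsAlgCurv ev area2)
open HopfKC (lo hi)

theorem G6_alg {N : ℕ} {ε w μ : Fin N → ℝ} {W : ℝ} {p : Fin N → Fin N → Fin N → ℝ}
    (he : ∀ i, ε i = 0 ∨ ε i = 1) (two : ∀ i, ∃ j, j ≠ i ∧ ε j = ε i)
    (hp0 : ∀ m i j, ε i = ε j → p m i j = 0) (hp : ∀ m i j, p m i j = p m j i)
    (hS : ∀ m i j, (μ m + w m * ε i) * dl i j + W * p m i j =
      (μ i + w i * ε m) * dl m j + W * p i m j) :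
    (∀ i, μ i + w i * ε i = 0) ∧ ∀ m i j, (μ m + w m * ε i) * dl i j + W * p m i j =
      symT w (fun i j => ε i * dl i j) m i j + symT μ dl m i j := by
  have a1 : ∀ i, μ i + w i * ε i = 0 := by
    intro i
    obtain ⟨j, hj, hje⟩ := two i
    have h1 := hS i j j
    rw [hp0 i j j rfl, hp0 j i j hje.symm] at h1
    simp only [dl, if_true, if_neg (Ne.symm hj)] at h1
    rw [hje] at h1
    linarith
  refine ⟨a1, ?_⟩
  have key : ∀ m i j, ε i = ε j → (μ m + w m * ε i) * dl i j + W * p m i j =
      symT w (fun i j => ε i * dl i j) m i j + symT μ dl m i j := by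
    intro m i j hij
    rw [hp0 m i j hij]
    unfold symT dl
    have b1 := a1 i
    have b2 := a1 j
    by_cases h1 : i = j
    · subst h1
      by_cases h2 : m = i
      · subst h2
        simp only [if_true]
        linarith
      · simp only [if_true, if_neg h2]
        linarith
    · by_cases h2 : m = j
      · subst h2
        simp only [if_true, if_neg h1, if_neg (Ne.symm h1)]
        rw [hij] at b1
        linarith
      · by_cases h3 : m = i
        · subst h3
          simp only [if_true, if_neg h1]
          rw [← hij] at b2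
          linarith
        · simp only [if_neg h1, if_neg h2, if_neg h3]
          ring
  have sy1 : ∀ m i j, symT w (fun i j => ε i * dl i j) m i j + symT μ dl m i j =
      symT w (fun i j => ε i * dl i j) m j i + symT μ dl m j i := by
    intro m i j
    have e1 : ∀ i j : Fin N, ε i * dl i j = ε j * dl j i := by
      intro i j
      unfold dl
      by_cases h : i = j
      · subst h; rfl
      · rw [if_neg h, if_neg (Ne.symm h)]; ring
    have e2 : ∀ i j : Fin N, (dl i j : ℝ) = dl j i := by
      intro i j
      unfold dl
      by_cases h : i = j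
      · subst h; rfl
      · rw [if_neg h, if_neg (Ne.symm h)]
    unfold symT
    simp only
    rw [e1 i j, e2 i j]
    ring
  have sy2 : ∀ m i j, symT w (fun i j => ε i * dl i j) m i j + symT μ dl m i j =
      symT w (fun i j => ε i * dl i j) i m j + symT μ dl i m j := by
    intro m i j
    have e1 : ∀ i j : Fin N, ε i * dl i j = ε j * dl j i := by
      intro i j
      unfold dl
      by_cases h : i = j
      · subst h; rfl
      · rw [if_neg h, if_neg (Ne.symm h)]; ring
    have e2 : ∀ i j : Fin N, (dl i j : ℝ) = dl j i := by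
      intro i j
      unfold dl
      by_cases h : i = j
      · subst h; rfl
      · rw [if_neg h, if_neg (Ne.symm h)]
    unfold symT
    simp only
    rw [e1 m i, e2 m i]
    ring
  have t1 : ∀ m i j, (μ m + w m * ε i) * dl i j + W * p m i j =
      (μ m + w m * ε j) * dl j i + W * p m j i := by
    intro m i j
    rw [hp m i j]
    unfold dl
    by_cases h : i = j
    · subst h; rfl
    · rw [if_neg h, if_neg (Ne.symm h)]; ring
  intro m i j
  by_cases h1 : ε i = ε j
  · exact key m i j h1
  · by_cases h2 : ε m = ε i
    · -- S m i j = S m j i = S j m i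
      rw [t1 m i j, hS m j i, key j m i h2, sy1 m i j, sy2 m j i]
    · have h3 : ε m = ε j := by
        rcases he m with a | a <;> rcases he i with b | b <;> rcases he j with c | c <;>
          simp_all
      rw [hS m i j, key i m j h3, sy2 m i j]

end H30K
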