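import Pool.Agent.Lib.H30K.G7B
import Pool.Agent.Lib.H30K.G6
import Pool.Agent.Lib.H30K.G5
import Pool.Agent.Lib.H30K.G4
import Pool.Agent.Lib.H30K.G3
import Pool.Agent.Lib.H30K.P2

/-!
# G7C (M): the covariant derivative of a Codazzi tensor with two eigenvalues

`TwoOn V G b`: at each point of `V`, in each frame of eigenvectors, `β` is two-valued. By `G3_exists`
there is such a frame at each `y ∈ V`; `G4_two` gives `nn2 > 0`, `b = mm • G + ww • PP` (definition of
`PP`, `ww > 0`), `PP G⁻¹ PP = PP`. `G5_smooth`: `ww`, `mm`, `PP` are smooth. In the frame `E` at `x`: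
`fr3 (cov G b x) E m i j = (μ m + w m ε i) δ_ij + W p m i j` with `μ = fr1 (pd · mm) E`,
`w = fr1 (pd · ww) E`, `W = ww`, `p = fr3 (cov G PP x) E` (`G7_leib`, `fr3_mul`, `fr2_eq`). It is
symmetric in `m i` (`hc.cod`), `p m i j = p m j i` (`PP` is symmetric on `V`), `p m i j = 0` if
`ε i = ε j` (`G7_frame`). `G6_alg` gives both statements (`G7_star` with `fr3_inj`, `fr3_symT`).
-/

set_option autoImplicit false

open scoped ContDiff Topology Manifold
open Set

namespace H30K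

open H31R H79G H60E
open Pool.Agent.H69Hopf (Arr IsAlgCurv ev area2)
open HopfKC (lo hi)

/-- `b` has exactly two eigenvalues at each point of `V`, each with multiplicity at least two -/
def TwoOn (V : Set (EE 6)) (G b : EE 6 → Mt 6) : Prop :=
  ∀ y ∈ V, ∀ (E : Mt 6) (β : Fin 6 → ℝ), E.transpose * G y * E = 1 →
    E.transpose * b y * E = Matrix.diagonal β → ∃ ε lam mu, TwoV β ε lam mu

variable {V : Set (EE 6)} {G b : EE 6 → Mt 6}

theorem g7c_pt (h : MetOn V G) (hc : IsCodazzi G V b) (ht : TwoOn V G b) {y : EE 6} (hy : y ∈ V) :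
    ∃ (E : Mt 6) (β ε : Fin 6 → ℝ) (lam mu : ℝ), E.transpose * G y * E = 1 ∧
      E.transpose * b y * E = Matrix.diagonal β ∧ TwoV β ε lam mu := by
  obtain ⟨E, β, h1, h2⟩ := G3_exists (h.symm y hy) (h.pos y hy) (hc.symm y hy)
  obtain ⟨ε, lam, mu, h3⟩ := ht y hy E β h1 h2
  exact ⟨E, β, ε, lam, mu, h1, h2, h3⟩

/-- smoothness and the decomposition `b = mm G + ww PP` -/
theorem G7_dec (h : MetOn V G) (hc : IsCodazzi G V b) (ht : TwoOn V G b) :
    ContDiffOn ℝ ∞ (fun y => ww (G y) (b y)) V ∧ ContDiffOn ℝ ∞ (fun y => mm (G y) (b y)) V ∧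
      (∀ i j, ContDiffOn ℝ ∞ (fun y => PP (G y) (b y) i j) V) ∧
      (∀ y ∈ V, 0 < ww (G y) (b y)) ∧
      (∀ y ∈ V, PP (G y) (b y) * (G y)⁻¹ * PP (G y) (b y) = PP (G y) (b y)) ∧
      (∀ y ∈ V, ∀ i j, PP (G y) (b y) i j = PP (G y) (b y) j i) ∧
      ∀ y ∈ V, b y = mm (G y) (b y) • G y + ww (G y) (b y) • PP (G y) (b y) := by
  have hn : ∀ y ∈ V, 0 < nn2 (G y) (b y) := by
    intro y hy
    obtain ⟨E, β, ε, lam, mu, h1, h2, h3⟩ := g7c_pt h hc ht hy
    exact (G4_two h1 h2 h3).1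
  obtain ⟨s1, s2, s3, s4⟩ := G5_smooth h hc.sm hn
  refine ⟨s1, s2, s3, s4, ?_, ?_, ?_⟩
  · intro y hy
    obtain ⟨E, β, ε, lam, mu, h1, h2, h3⟩ := g7c_pt h hc ht hy
    exact (G4_two h1 h2 h3).2.2.2.2
  · intro y hy i j
    unfold PP
    rw [Matrix.smul_apply, Matrix.smul_apply, Matrix.sub_apply, Matrix.sub_apply,
      Matrix.smul_apply, Matrix.smul_apply, hc.symm y hy i j, h.symm y hy i j]
  · intro y hy
    have h1 := s4 y hy
    have h2 : ww (G y) (b y) • PP (G y) (b y) = b y - mm (G y) (b y) • G y := by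
      unfold PP
      rw [smul_smul, mul_inv_cancel₀ h1.ne', one_smul]
    rw [h2]
    exact (add_sub_cancel _ _).symm

theorem g7c_fr3_sym {T : Fin 6 → Fin 6 → Fin 6 → ℝ} (hT : ∀ m i j, T m i j = T m j i) (E : Mt 6)
    (m i j : Fin 6) : fr3 T E m i j = fr3 T E m j i := by
  unfold fr3
  refine Finset.sum_congr rfl fun a _ => ?_
  rw [Finset.sum_comm]
  refine Finset.sum_congr rfl fun c _ => Finset.sum_congr rfl fun b _ => ?_
  rw [hT a b c]
  ring

theorem g7c_fr3_sym' {T : Fin 6 → Fin 6 → Fin 6 → ℝ} (hT : ∀ m i j, T m i j = T i m j) (E : Mt 6)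
    (m i j : Fin 6) : fr3 T E m i j = fr3 T E i m j := by
  unfold fr3
  rw [Finset.sum_comm]
  refine Finset.sum_congr rfl fun a _ => Finset.sum_congr rfl fun b _ =>
    Finset.sum_congr rfl fun c _ => ?_
  rw [hT b a c]
  ring

theorem g7c_fr3_add (T T' : Fin 6 → Fin 6 → Fin 6 → ℝ) (E : Mt 6) (m i j : Fin 6) :
    fr3 (fun m i j => T m i j + T' m i j) E m i j = fr3 T E m i j + fr3 T' E m i j := by
  unfold fr3
  simp only [add_mul, Finset.sum_add_distrib]

theorem g7c_fr3_smul (c : ℝ) (T : Fin 6 → Fin 6 → Fin 6 → ℝ) (E : Mt 6) (m i j : Fin 6) :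
    fr3 (fun m i j => c * T m i j) E m i j = c * fr3 T E m i j := by
  unfold fr3
  simp only [mul_assoc, Finset.mul_sum]

theorem g7c_cov_sym (hU : IsOpen V) {A : EE 6 → Mt 6} (hA : ∀ y ∈ V, ∀ i j, A y i j = A y j i)
    {x : EE 6} (hx : x ∈ V) (m i j : Fin 6) : cov G A x m i j = cov G A x m j i := by
  unfold cov
  rw [N_pd_congr_on hU hx m (f := fun y => A y i j) (g := fun y => A y j i) (fun y hy => hA y hy i j)]
  have e1 : ∑ l, chr G l m i x * A x l j = ∑ l, chr G l m i x * A x j l :=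
    Finset.sum_congr rfl fun l _ => by rw [hA x hx l j]
  have e2 : ∑ l, chr G l m j x * A x i l = ∑ l, chr G l m j x * A x l i :=
    Finset.sum_congr rfl fun l _ => by rw [hA x hx i l]
  rw [e1, e2]
  ring

theorem g7c_main (h : MetOn V G) (hc : IsCodazzi G V b) (ht : TwoOn V G b) {x : EE 6} (hx : x ∈ V)
    {E : Mt 6} (hE : E.transpose * G x * E = 1) {β ε : Fin 6 → ℝ} {lam mu : ℝ}
    (hβ : E.transpose * b x * E = Matrix.diagonal β) (h2 : TwoV β ε lam mu) :
    (∀ m i j, fr3 (cov G b x) E m i j =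
      (fr1 (fun a => pd a (fun y => mm (G y) (b y)) x) E m +
        fr1 (fun a => pd a (fun y => ww (G y) (b y)) x) E m * ε i) * dl i j +
        ww (G x) (b x) * fr3 (cov G (fun y => PP (G y) (b y)) x) E m i j) ∧
    (∀ i, fr1 (fun a => pd a (fun y => mm (G y) (b y)) x) E i +
      fr1 (fun a => pd a (fun y => ww (G y) (b y)) x) E i * ε i = 0) ∧
    (∀ m i j, fr3 (cov G b x) E m i j =
      symT (fr1 (fun a => pd a (fun y => ww (G y) (b y)) x) E) (fun i j => ε i * dl i j) m i j +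
      symT (fr1 (fun a => pd a (fun y => mm (G y) (b y)) x) E) dl m i j) ∧
    (∀ i j, fr2 (PP (G x) (b x)) E i j = ε i * dl i j) ∧
    (∀ i j, fr2 (G x) E i j = dl i j) := by
  obtain ⟨s1, s2, s3, s4, s5, s6, s7⟩ := G7_dec h hc ht
  obtain ⟨q1, q2, q3, q4, q5⟩ := G4_two hE hβ h2
  have f2 : ∀ i j, fr2 (PP (G x) (b x)) E i j = ε i * dl i j := by
    intro i j
    rw [fr2_eq, q4, Matrix.diagonal_apply]
    unfold dl
    split_ifs <;> ring
  have f1 : ∀ i j, fr2 (G x) E i j = dl i j := by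
    intro i j
    rw [fr2_eq, hE, Matrix.one_apply]
    rfl
  have k1 : ∀ m i j, fr3 (cov G b x) E m i j =
      (fr1 (fun a => pd a (fun y => mm (G y) (b y)) x) E m +
        fr1 (fun a => pd a (fun y => ww (G y) (b y)) x) E m * ε i) * dl i j +
        ww (G x) (b x) * fr3 (cov G (fun y => PP (G y) (b y)) x) E m i j := by
    intro m i j
    have e1 : cov G b x = fun m i j => (pd m (fun y => mm (G y) (b y)) x * G x i j +
        pd m (fun y => ww (G y) (b y)) x * PP (G x) (b x) i j) +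
        ww (G x) (b x) * cov G (fun y => PP (G y) (b y)) x m i j := by
      funext m i j
      exact G7_leib h s3 s2 s1 s7 hx m i j
    rw [e1, g7c_fr3_add (fun m i j => pd m (fun y => mm (G y) (b y)) x * G x i j +
        pd m (fun y => ww (G y) (b y)) x * PP (G x) (b x) i j)
        (fun m i j => ww (G x) (b x) * cov G (fun y => PP (G y) (b y)) x m i j),
      g7c_fr3_add (fun m i j => pd m (fun y => mm (G y) (b y)) x * G x i j)
        (fun m i j => pd m (fun y => ww (G y) (b y)) x * PP (G x) (b x) i j),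
      g7c_fr3_smul, fr3_mul (fun a => pd a (fun y => mm (G y) (b y)) x) (G x),
      fr3_mul (fun a => pd a (fun y => ww (G y) (b y)) x) (PP (G x) (b x)), f1, f2]
    ring
  have hp0 : ∀ m i j, ε i = ε j → fr3 (cov G (fun y => PP (G y) (b y)) x) E m i j = 0 :=
    fun m i j hij => G7_frame h s3 s5 hx hE h2.ep q4 hij
  have hp : ∀ m i j, fr3 (cov G (fun y => PP (G y) (b y)) x) E m i j =
      fr3 (cov G (fun y => PP (G y) (b y)) x) E m j i :=
    fun m i j => g7c_fr3_sym (fun m i j => g7c_cov_sym h.hU s6 hx m i j) E m i j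
  have hS : ∀ m i j, (fr1 (fun a => pd a (fun y => mm (G y) (b y)) x) E m +
        fr1 (fun a => pd a (fun y => ww (G y) (b y)) x) E m * ε i) * dl i j +
        ww (G x) (b x) * fr3 (cov G (fun y => PP (G y) (b y)) x) E m i j =
      (fr1 (fun a => pd a (fun y => mm (G y) (b y)) x) E i +
        fr1 (fun a => pd a (fun y => ww (G y) (b y)) x) E i * ε m) * dl m j +
        ww (G x) (b x) * fr3 (cov G (fun y => PP (G y) (b y)) x) E i m j := by
    intro m i j
    rw [← k1, ← k1]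
    exact g7c_fr3_sym' (fun m i j => hc.cod x hx m i j) E m i j
  obtain ⟨r1, r2⟩ := G6_alg h2.ep h2.two hp0 hp hS
  exact ⟨k1, r1, fun m i j => (k1 m i j).trans (r2 m i j), f2, f1⟩

theorem G7_eig (h : MetOn V G) (hc : IsCodazzi G V b) (ht : TwoOn V G b) {x : EE 6} (hx : x ∈ V)
    {E : Mt 6} (hE : E.transpose * G x * E = 1) {β ε : Fin 6 → ℝ} {lam mu : ℝ}
    (hβ : E.transpose * b x * E = Matrix.diagonal β) (h2 : TwoV β ε lam mu) (i : Fin 6) :
    fr1 (fun a => pd a (fun y => mm (G y) (b y)) x) E i +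
      fr1 (fun a => pd a (fun y => ww (G y) (b y)) x) E i * ε i = 0 :=
  (g7c_main h hc ht hx hE hβ h2).2.1 i

theorem G7_star (h : MetOn V G) (hc : IsCodazzi G V b) (ht : TwoOn V G b) {x : EE 6} (hx : x ∈ V)
    (m i j : Fin 6) : cov G b x m i j =
      symT (fun a => pd a (fun y => ww (G y) (b y)) x) (PP (G x) (b x)) m i j +
      symT (fun a => pd a (fun y => mm (G y) (b y)) x) (G x) m i j := by
  obtain ⟨E, β, ε, lam, mu, hE, hβ, h2⟩ := g7c_pt h hc ht hx
  obtain ⟨k1, k2, k3, k4, k5⟩ := g7c_main h hc ht hx hE hβ h2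
  refine fr3_inj hE (T := cov G b x) (T' := fun m i j =>
    symT (fun a => pd a (fun y => ww (G y) (b y)) x) (PP (G x) (b x)) m i j +
      symT (fun a => pd a (fun y => mm (G y) (b y)) x) (G x) m i j) (fun m i j => ?_) m i j
  rw [k3, g7c_fr3_add (symT (fun a => pd a (fun y => ww (G y) (b y)) x) (PP (G x) (b x)))
    (symT (fun a => pd a (fun y => mm (G y) (b y)) x) (G x)), fr3_symT, fr3_symT]
  unfold symT
  simp only [k4, k5]

end H30K
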