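import Pool.Agent.Lib.H30K.G7A

/-!
# G8 (M): Leibniz rule for the second covariant derivative

Unfold `cov3`, `symT`; `pd n (fun y => pd m f y * A y i j) x = pd n (pd m f) x * A x i j +
pd m f x * pd n (A_ij) x` (`N_pd_mul`, smoothness of `pd m f`: `pd_sm` in `Defs.lean`); the
terms with Christoffel symbols distribute; `hs G f x n m = pd n (pd m f) x - ∑ l, chr G l n m x * pd l f x`.
`G8_congr`: `cov3` depends only on the values on the open set `U` (`N_pd_congr_on`). `G8_add`:
additivity. `hs_symm`: `N_pd_symm`, `N_chr_symm`.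
-/

set_option autoImplicit false

open scoped ContDiff Topology Manifold
open Set

namespace H30K

open H31R H79G H60E
open Pool.Agent.H69Hopf (Arr IsAlgCurv ev area2)
open HopfKC (lo hi)

variable {d : ℕ} {U : Set (EE d)} {G A : EE d → Mt d}

theorem G8_congr (hU : IsOpen U) {T T' : EE d → Fin d → Fin d → Fin d → ℝ}
    (hT : ∀ y ∈ U, ∀ m i j, T y m i j = T' y m i j) {x : EE d} (hx : x ∈ U) (n m i j : Fin d) :
    cov3 G T x n m i j = cov3 G T' x n m i j := by
  unfold cov3
  rw [N_pd_congr_on hU hx n (f := fun y => T y m i j) (g := fun y => T' y m i j)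
    (fun y hy => hT y hy m i j)]
  simp only [hT x hx]

theorem hs_symm (h : MetOn U G) {f : EE d → ℝ} (hf : ContDiffOn ℝ ∞ f U) {x : EE d} (hx : x ∈ U)
    (n m : Fin d) : hs G f x n m = hs G f x m n := by
  unfold hs
  rw [N_pd_symm h.hU (g1_sm hf 2) hx n m]
  refine congrArg₂ _ rfl (Finset.sum_congr rfl fun l _ => ?_)
  rw [N_chr_symm h.hU hx h.symm l n m]

theorem g8_add (hU : IsOpen U) {T T' : EE d → Fin d → Fin d → Fin d → ℝ} {x : EE d}
    (hT : ∀ m i j, DifferentiableAt ℝ (fun y => T y m i j) x)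
    (hT' : ∀ m i j, DifferentiableAt ℝ (fun y => T' y m i j) x) (n m i j : Fin d) :
    cov3 G (fun y m i j => T y m i j + T' y m i j) x n m i j =
      cov3 G T x n m i j + cov3 G T' x n m i j := by
  unfold cov3
  rw [N_pd_add (hT m i j) (hT' m i j) n]
  simp only [mul_add, Finset.sum_add_distrib]
  ring

/-- one product -/
theorem g8_prod (h : MetOn U G) (hA : ∀ i j, ContDiffOn ℝ ∞ (fun y => A y i j) U)
    {f : EE d → ℝ} (hf : ContDiffOn ℝ ∞ f U) {x : EE d} (hx : x ∈ U) (n m i j : Fin d) :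
    cov3 G (fun y m i j => pd m f y * A y i j) x n m i j =
      hs G f x n m * A x i j + pd m f x * cov G A x n i j := by
  have hU := h.hU
  have d1 : DifferentiableAt ℝ (pd m f) x := N_diff (n := 0) hU (g1_sm (pd_sm hU hf m) 1) hx
  have d2 : DifferentiableAt ℝ (fun y => A y i j) x := N_diff (n := 0) hU (g1_sm (hA i j) 1) hx
  unfold cov3 hs cov
  rw [N_pd_mul d1 d2 n]
  have e1 : ∑ l, chr G l n m x * (pd l f x * A x i j) =
      (∑ l, chr G l n m x * pd l f x) * A x i j := by
    rw [Finset.sum_mul]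
    exact Finset.sum_congr rfl fun l _ => by ring
  have e2 : ∑ l, chr G l n i x * (pd m f x * A x l j) =
      pd m f x * ∑ l, chr G l n i x * A x l j := by
    rw [Finset.mul_sum]
    exact Finset.sum_congr rfl fun l _ => by ring
  have e3 : ∑ l, chr G l n j x * (pd m f x * A x i l) =
      pd m f x * ∑ l, chr G l n j x * A x i l := by
    rw [Finset.mul_sum]
    exact Finset.sum_congr rfl fun l _ => by ring
  rw [e1, e2, e3]
  ring

/-- permutation of the arguments -/
theorem g8_swap12 (T : EE d → Fin d → Fin d → Fin d → ℝ) (x : EE d) (n m i j : Fin d) :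
    cov3 G (fun y m i j => T y i m j) x n m i j = cov3 G T x n i m j := by
  unfold cov3
  ring

theorem g8_rot (T : EE d → Fin d → Fin d → Fin d → ℝ) (x : EE d) (n m i j : Fin d) :
    cov3 G (fun y m i j => T y j m i) x n m i j = cov3 G T x n j m i := by
  unfold cov3
  ring

theorem g8_symT (h : MetOn U G) (hA : ∀ i j, ContDiffOn ℝ ∞ (fun y => A y i j) U)
    {f : EE d → ℝ} (hf : ContDiffOn ℝ ∞ f U) {x : EE d} (hx : x ∈ U) (n m i j : Fin d) :
    cov3 G (fun y m i j => symT (fun a => pd a f y) (A y) m i j) x n m i j =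
      hs G f x n m * A x i j + hs G f x n i * A x m j + hs G f x n j * A x m i +
        pd m f x * cov G A x n i j + pd i f x * cov G A x n m j + pd j f x * cov G A x n m i := by
  have hU := h.hU
  have d1 : ∀ m, DifferentiableAt ℝ (pd m f) x := fun m =>
    N_diff (n := 0) hU (g1_sm (pd_sm hU hf m) 1) hx
  have d2 : ∀ i j, DifferentiableAt ℝ (fun y => A y i j) x := fun i j =>
    N_diff (n := 0) hU (g1_sm (hA i j) 1) hx
  have e1 : cov3 G (fun y m i j => symT (fun a => pd a f y) (A y) m i j) x n m i j =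
      cov3 G (fun y m i j => (pd m f y * A y i j + pd i f y * A y m j) + pd j f y * A y m i)
        x n m i j := rfl
  rw [e1, g8_add hU (T := fun y m i j => pd m f y * A y i j + pd i f y * A y m j)
      (T' := fun y m i j => pd j f y * A y m i)
      (fun m i j => ((d1 m).mul (d2 i j)).add ((d1 i).mul (d2 m j)))
      (fun m i j => (d1 j).mul (d2 m i)),
    g8_add hU (T := fun y m i j => pd m f y * A y i j) (T' := fun y m i j => pd i f y * A y m j)
      (fun m i j => (d1 m).mul (d2 i j)) (fun m i j => (d1 i).mul (d2 m j)),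
    g8_prod h hA hf hx,
    g8_swap12 (fun y m i j => pd m f y * A y i j), g8_prod h hA hf hx,
    g8_rot (fun y m i j => pd m f y * A y i j), g8_prod h hA hf hx]
  ring

theorem G8_leib (h : MetOn U G) (hA : ∀ i j, ContDiffOn ℝ ∞ (fun y => A y i j) U)
    (hs' : ∀ y ∈ U, ∀ i j, A y i j = A y j i)
    {f : EE d → ℝ} (hf : ContDiffOn ℝ ∞ f U) {A' : EE d → Mt d}
    (hA' : ∀ i j, ContDiffOn ℝ ∞ (fun y => A' y i j) U) (hs'' : ∀ y ∈ U, ∀ i j, A' y i j = A' y j i)
    {f' : EE d → ℝ} (hf' : ContDiffOn ℝ ∞ f' U) {x : EE d} (hx : x ∈ U) (n m i j : Fin d) :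
    cov3 G (fun y m i j => symT (fun a => pd a f y) (A y) m i j +
        symT (fun a => pd a f' y) (A' y) m i j) x n m i j =
      (hs G f x n m * A x i j + hs G f x n i * A x m j + hs G f x n j * A x m i +
        pd m f x * cov G A x n i j + pd i f x * cov G A x n m j + pd j f x * cov G A x n m i) +
      (hs G f' x n m * A' x i j + hs G f' x n i * A' x m j + hs G f' x n j * A' x m i +
        pd m f' x * cov G A' x n i j + pd i f' x * cov G A' x n m j +
        pd j f' x * cov G A' x n m i) := by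
  have hU := h.hU
  have d1 : ∀ {f : EE d → ℝ}, ContDiffOn ℝ ∞ f U → ∀ m, DifferentiableAt ℝ (pd m f) x :=
    fun hf m => N_diff (n := 0) hU (g1_sm (pd_sm hU hf m) 1) hx
  have d2 : ∀ {A : EE d → Mt d}, (∀ i j, ContDiffOn ℝ ∞ (fun y => A y i j) U) → ∀ i j,
      DifferentiableAt ℝ (fun y => A y i j) x := fun hA i j =>
    N_diff (n := 0) hU (g1_sm (hA i j) 1) hx
  have d3 : ∀ {f : EE d → ℝ} {A : EE d → Mt d}, ContDiffOn ℝ ∞ f U →
      (∀ i j, ContDiffOn ℝ ∞ (fun y => A y i j) U) → ∀ m i j,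
      DifferentiableAt ℝ (fun y => symT (fun a => pd a f y) (A y) m i j) x := fun hf hA m i j =>
    (((d1 hf m).mul (d2 hA i j)).add ((d1 hf i).mul (d2 hA m j))).add ((d1 hf j).mul (d2 hA m i))
  rw [g8_add hU (d3 hf hA) (d3 hf' hA'), g8_symT h hA hf hx, g8_symT h hA' hf' hx]

end H30K
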