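import Pool.Agent.Lib.H30K.Defs

/-!
# P1 (S): curvature tensors with the cyclic condition

Proof. Put `u = R i j k l`, `v = R j k i l`, `w = R k i j l`, so `u + v + w = 0` (Bianchi). By the
symmetries of `R`, the condition `Cyc` at `(i j k l)`, `(i j l k)`, `(i k l j)`, `(j k l i)` gives
(1) `u b k + v b i + w b j = 0`, (2) `u b l + w b i + v b j = 0`, (3) `w b l + u b i + v b k = 0`,
(4) `v b l + u b j + w b k = 0`. [E.g. (2): `R i j l k = -u`, `R j l i k = -R j l k i = -w`
(`R k i j l = R j l k i`), `R l i j k = -R i l j k = -R j k i l = -v`.] Substitute `w = -u - v`.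
(1)+(2): `u (b k + b l - b i - b j) = 0`. (1)+(4): `v (b i - b j + b l - b k) = 0`. (1):
`u (b k - b j) + v (b i - b j) = 0`. If `u ≠ 0`: `b k + b l = b i + b j`. If `v = 0` then
`b k = b j`, hence `b l = b i` (second case). If `v ≠ 0` then `b i + b l = b j + b k`, hence
`b l = b j` and `b k = b i` (first case).
-/

set_option autoImplicit false

open scoped ContDiff Topology Manifold
open Set

namespace H30K

open H31R H79G H60E
open Pool.Agent.H69Hopf (Arr IsAlgCurv ev area2)
open HopfKC (lo hi)

theorem p1_skew2 {N : ℕ} {R : Arr N} (hR : IsAlgCurv R) (i j k l : Fin N) :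
    R i j k l = -R i j l k := by
  rw [hR.pair i j k l, hR.pair i j l k]
  exact hR.skew _ _ _ _

theorem P1_zero {N : ℕ} {R : Arr N} (hR : IsAlgCurv R) {β : Fin N → ℝ} (h : Cyc β R)
    {i j k l : Fin N} (h0 : R i j k l ≠ 0) :
    (β i = β k ∧ β j = β l) ∨ (β i = β l ∧ β j = β k) := by
  obtain ⟨u, hu⟩ : ∃ u, u = R i j k l := ⟨_, rfl⟩
  obtain ⟨v, hv⟩ : ∃ v, v = R j k i l := ⟨_, rfl⟩
  have hw : R k i j l = -u - v := by
    have := hR.bianchi i j k l
    linarith
  have h1 := h i j k l
  have h2 := h i j l k
  have h4 := h j k l i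
  have e21 : R i j l k = -u := by
    rw [hu, p1_skew2 hR i j l k]
  have e22 : R j l i k = u + v := by
    have : R j l i k = -R k i j l := by
      rw [hR.pair j l i k, hR.skew i k j l]
    rw [this, hw]
    ring
  have e23 : R l i j k = -v := by
    rw [hv, hR.skew l i j k, hR.pair i l j k]
  have e41 : R j k l i = -v := by
    rw [hv, p1_skew2 hR j k l i]
  have e42 : R k l j i = -u := by
    rw [hu, hR.pair k l j i, hR.skew j i k l]
  have e43 : R l j k i = u + v := by
    have : R l j k i = -R k i j l := by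
      rw [hR.skew l j k i, hR.pair j l k i]
    rw [this, hw]
    ring
  rw [← hu, ← hv, hw] at h1
  rw [e21, e22, e23] at h2
  rw [e41, e42, e43] at h4
  rw [← hu] at h0
  have f1 : u * (β k + β l - β i - β j) = 0 := by linarith
  have f2 : β k + β l - β i - β j = 0 := by
    rcases mul_eq_zero.1 f1 with h5 | h5
    · exact absurd h5 h0
    · exact h5
  have f3 : v * (β i - β j + β l - β k) = 0 := by linarith
  by_cases hv0 : v = 0
  · right
    have f4 : u * (β k - β j) = 0 := by
      rw [hv0] at h1
      linarith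
    rcases mul_eq_zero.1 f4 with h5 | h5
    · exact absurd h5 h0
    · constructor <;> linarith
  · left
    rcases mul_eq_zero.1 f3 with h5 | h5
    · exact absurd h5 hv0
    · constructor <;> linarith

end H30K
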