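import Pool.Agent.Lib.H30K.G10
import Pool.Agent.Lib.H30K.G9B
import Pool.Agent.Lib.H30K.P15
import Pool.Agent.Lib.H30K.P1

/-!
# G11 (S/M): the region with two eigenvalues

Take a frame `E₁` of eigenvectors at `x` (`G3_exists`), `β`, `TwoV` (`ht`). `R = frR (riem G x) E₁` is
an algebraic curvature tensor (`riem_algCurv`, `frR_algCurv`), `Cyc` (`G2_cyc`), so `P1_zero` gives the
types (`β i = β k` iff `ε i = ε k`, since `β = mu + (lam - mu) ε`, `lam ≠ mu`), `G9_mixed` the mixed part,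
`G10_kr` the rotation, `case_kr` (with `kb_orth`, `frame_rel`) the bound; `gb_orth` transports it to the
frame `E` (`frame_rel`, `frR_mul`).
-/

set_option autoImplicit false

open scoped ContDiff Topology Manifold
open Set

namespace H30K

open H31R H79G H60E
open Pool.Agent.H69Hopf (Arr IsAlgCurv ev area2)
open HopfKC (lo hi)

variable {V : Set (EE 6)} {G b : EE 6 → Mt 6}

theorem G11_two (h : MetOn V G) (hc : IsCodazzi G V b) (ht : TwoOn V G b) {x : EE 6} (hx : x ∈ V)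
    {c : ℝ} (hc0 : 0 ≤ c) {E : Mt 6} (hE : E.transpose * G x * E = 1)
    (hK : KB (N := 6) c (frR (riem G x) E)) : gb (frR (riem G x) E) ≤ -(384 * c ^ 3) := by
  obtain ⟨E1, β, hE1, hβ⟩ := G3_exists (h.symm x hx) (h.pos x hx) (hc.symm x hx)
  obtain ⟨ε, lam, mu, h2⟩ := ht x hx E1 β hE1 hβ
  have hA : IsAlgCurv (N := 6) (riem G x) := riem_algCurv h hx
  have hA1 : IsAlgCurv (N := 6) (frR (riem G x) E1) := frR_algCurv hA E1
  have hcyc := G2_cyc h hc hx hE1 hβ
  have hne : lam - mu ≠ 0 := sub_ne_zero.2 (ne_of_gt h2.lt)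
  have hbe : ∀ i k, β i = β k → ε i = ε k := by
    intro i k hik
    rw [h2.eq i, h2.eq k] at hik
    exact mul_left_cancel₀ hne (add_left_cancel hik)
  have hty : ∀ i j k l, frR (riem G x) E1 i j k l ≠ 0 →
      (ε i = ε k ∧ ε j = ε l) ∨ (ε i = ε l ∧ ε j = ε k) := by
    intro i j k l h0
    rcases P1_zero hA1 hcyc h0 with h3 | h3
    · exact Or.inl ⟨hbe _ _ h3.1, hbe _ _ h3.2⟩
    · exact Or.inr ⟨hbe _ _ h3.1, hbe _ _ h3.2⟩
  obtain ⟨Y, Z, hY, hZ, hm⟩ := G9_mixed h hc ht hx hE1 hβ h2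
  obtain ⟨O, s, hO, hkr, hs1, hs2⟩ := G10_kr hA1 h2.ep hty hY hZ hm h2.two h2.zero h2.one
  obtain ⟨O', hO', hEE⟩ := frame_rel hE hE1
  have hR' : frR (riem G x) E1 = frR (frR (riem G x) E) O' := by
    rw [frR_mul, hEE]
  have hK1 : KB (N := 6) c (frR (riem G x) E1) := by
    rw [hR']
    exact kb_orth hK hO'
  have h3 := case_kr (frR_algCurv hA1 O) hc0 (kb_orth hK1 hO) hkr hs1 hs2
  rw [gb_orth _ hO, hR', gb_orth _ hO'] at h3
  exact h3

end H30K
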