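import Pool.Agent.Lib.H30K.G11
import Pool.Agent.Lib.H30K.P16
import Pool.Agent.Lib.H30K.G5
import Pool.Agent.Lib.H79G.P1
import Pool.Agent.Lib.H79G.S0
import Pool.Agent.Lib.H79G.F1

/-!
# G12 (M): the local theorem

`G12_pf`: `gb_frame` (`n = 3`; `EE (2 * 3)` is `EE 6`) with `gb3` (`Frame.lean`): `4 ^ 3 * 3! = 384`.

`G12_cont`: `pf` is continuous on `U`. (`UU G 0 0 = pf`: `F1_UU_zero`; continuity of `UU`: see
`sField_UU`, `Lib/H79G`; or directly: the entries of `cuv` are continuous, `PC` and `evM` are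
polynomial in them.)

`G12_local`: let `x ∈ U` with `b x ≠ c' • G x` for all `c'`. Call `y ∈ U` generic if there are `E`, `β` with
`Eᵀ G E = 1`, `Eᵀ b E = diagonal β`, `Gen β`. At generic points `pf y ≤ -c³` (`G2_cyc`, `case_gen`,
`G12_pf`). (i) If each neighbourhood of `x` contains generic points, then `pf x ≤ -c³` by continuity
(`x ∈ closure`). (ii) Otherwise there is an open `V ∋ x`, `V ⊆ U`, without generic points; shrink `V`
such that `nn2 (G y) (b y) > 0` on `V` (`nn2` is continuous, and positive at `x` by `G4_nn2`, `G3_umb`).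
Then `TwoOn V G b` (`P2_cases`: not constant because of `nn2 > 0`, `G4_nn2`; not generic). `G11_two`.
-/

set_option autoImplicit false

open scoped ContDiff Topology Manifold
open Set

namespace H30K

open H31R H79G H60E
open Pool.Agent.H69Hopf (Arr IsAlgCurv ev area2)
open HopfKC (lo hi)

theorem G12_pf {U : Set (EE 6)} {G : EE 6 → Mt 6} (h : MetOn U G) {x : EE 6} (hx : x ∈ U) {E : Mt 6}
    (hE : E.transpose * G x * E = 1) : pf G x = gb (frR (riem G x) E) / 384 := by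
  have h1 : pf G x = Pool.Agent.H69Hopf.gaussBonnet 3 (frR (riem G x) E) /
      (4 ^ 3 * Nat.factorial 3) := gb_frame (n := 3) h hx hE
  rw [h1, gb3]
  congr 1
  norm_num [Nat.factorial]

theorem G12_cont {U : Set (EE 6)} {G : EE 6 → Mt 6} (h : MetOn U G) : ContinuousOn (pf G) U := by
  have h1 : ContDiffOn ℝ ∞ (UU G (fun _ _ => (0 : ℝ)) 0) U :=
    h.smooth_UU (fun a => contDiffOn_const) 0
  refine h1.continuousOn.congr fun y _ => ?_
  unfold pf UU
  rw [zero_smul]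
  simp

theorem g12_mono {U V : Set (EE 6)} {G : EE 6 → Mt 6} (h : MetOn U G) (hV : IsOpen V)
    (hVU : V ⊆ U) : MetOn V G where
  hU := hV
  sm i j := (h.sm i j).mono hVU
  symm y hy := h.symm y (hVU hy)
  pos y hy := h.pos y (hVU hy)

theorem g12_cod {U V : Set (EE 6)} {G b : EE 6 → Mt 6} (hc : IsCodazzi G U b) (hVU : V ⊆ U) :
    IsCodazzi G V b where
  sm i j := (hc.sm i j).mono hVU
  symm y hy := hc.symm y (hVU hy)
  cod y hy := hc.cod y (hVU hy)

/-- generic points -/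
def g12_gen (G b : EE 6 → Mt 6) (y : EE 6) : Prop := ∃ (E : Mt 6) (β : Fin 6 → ℝ),
  E.transpose * G y * E = 1 ∧ E.transpose * b y * E = Matrix.diagonal β ∧ Gen β

theorem g12_le {U : Set (EE 6)} {G b : EE 6 → Mt 6} (h : MetOn U G) (hc : IsCodazzi G U b)
    {c : ℝ} (hc0 : 0 ≤ c)
    (hK : ∀ y ∈ U, ∀ E : Mt 6, E.transpose * G y * E = 1 → KB (N := 6) c (frR (riem G y) E))
    {y : EE 6} (hy : y ∈ U) (hg : g12_gen G b y) : pf G y ≤ -c ^ 3 := by
  obtain ⟨E, β, hE, hβ, hG⟩ := hg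
  have hA : IsAlgCurv (N := 6) (riem G y) := riem_algCurv h hy
  have hA1 : IsAlgCurv (N := 6) (frR (riem G y) E) := frR_algCurv hA E
  have h1 := case_gen hA1 hc0 (hK y hy E hE) (G2_cyc h hc hy hE hβ) hG
  rw [G12_pf h hy hE, div_le_iff₀ (by norm_num)]
  linarith

theorem g12_nn2 {U : Set (EE 6)} {G b : EE 6 → Mt 6} (h : MetOn U G)
    (hb : ∀ i j, ContDiffOn ℝ ∞ (fun y => b y i j) U) :
    ContinuousOn (fun y => nn2 (G y) (b y)) U := by
  have h1 := g5_mul (g5_inv h) hb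
  have h2 := g5_mul h1 h1
  exact ((g5_tr h2).sub (((g5_tr h1).pow 2).div_const 6)).continuousOn

theorem G12_local {U : Set (EE 6)} {G b : EE 6 → Mt 6} (h : MetOn U G) (hc : IsCodazzi G U b)
    {c : ℝ} (hc0 : 0 ≤ c)
    (hK : ∀ y ∈ U, ∀ E : Mt 6, E.transpose * G y * E = 1 → KB (N := 6) c (frR (riem G y) E))
    {x : EE 6} (hx : x ∈ U) (hb : ∀ c' : ℝ, b x ≠ c' • G x) : pf G x ≤ -c ^ 3 := by
  by_cases hcl : x ∈ closure {y | y ∈ U ∧ g12_gen G b y}
  · have h1 : ContinuousWithinAt (pf G) {y | y ∈ U ∧ g12_gen G b y} x :=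
      (G12_cont h x hx).mono fun y hy => hy.1
    exact h1.closure_le hcl continuousWithinAt_const fun y hy => g12_le h hc hc0 hK hy.1 hy.2
  · set V : Set (EE 6) := (U ∩ (fun y => nn2 (G y) (b y)) ⁻¹' Ioi 0) ∩
      (closure {y | y ∈ U ∧ g12_gen G b y})ᶜ with hVdef
    have hVo : IsOpen V := ((g12_nn2 h hc.sm).isOpen_inter_preimage h.hU isOpen_Ioi).inter
      isClosed_closure.isOpen_compl
    have hVU : V ⊆ U := fun y hy => hy.1.1
    obtain ⟨E, β, hE, hβ⟩ := G3_exists (h.symm x hx) (h.pos x hx) (hc.symm x hx)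
    have hxV : x ∈ V := by
      refine ⟨⟨hx, ?_⟩, hcl⟩
      obtain ⟨h1, h2⟩ := G4_nn2 hE hβ
      refine lt_of_le_of_ne h1 fun h3 => ?_
      have h4 := h2.1 h3.symm
      exact hb (β 0) (G3_umb hE hβ fun i => h4 i 0)
    have hT : TwoOn V G b := by
      intro y hy E' β' hE' hβ'
      rcases P2_cases β' with h1 | h1 | h1
      · exact absurd ((G4_nn2 hE' hβ').2.2 h1) (ne_of_gt hy.1.2)
      · have h5 : y ∈ {y | y ∈ U ∧ g12_gen G b y} := ⟨hVU hy, E', β', hE', hβ', h1⟩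
        exact absurd (subset_closure h5) hy.2
      · exact h1
    have h1 := G11_two (g12_mono h hVo hVU) (g12_cod hc hVU) hT hxV hc0 hE (hK x hx E hE)
    rw [G12_pf h hx hE, div_le_iff₀ (by norm_num)]
    linarith

end H30K
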