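import Pool.Agent.Lib.H30K.G12
import Pool.Agent.Lib.H30K.G13
import Pool.Agent.Lib.H79G.F1

/-!
# G14 (M): closed manifolds with Codazzi tensors

`G14_codazzi`: apply `sign_principle 3 M g (-1)` (`Lib/H79G/F1.lean`; `gb3` (`Frame.lean`)). The inequality
`pf (g.mat p) y ≤ 0` for all `p`, `y ∈ target`: `pf` is continuous (`G12_cont`, `metOn`), and each open
`V ∋ y`, `V ⊆ target` contains by `DenseCodazzi` an open `U`, a Codazzi tensor `b` on `U` and a point `z ∈ U`
with `b z ≠ c • g`, where `pf ≤ 0` by `G12_local` (`c = 0`, `G13_nonpos`; `MetOn U` from `metOn`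
restricted to `U`: `MetOn.mono`, or directly). Strictness at `m`: `G13_neg` gives `c > 0` and `W`; the
same argument inside `W` gives `pf ≤ -c³` on a dense subset of `W`, so `pf (g.mat m) (chartAt m m) ≤ -c³ < 0`.

`G14_unique`: two Euler characteristics are equal (evaluate at a nondegenerate field).
-/

set_option autoImplicit false

open scoped ContDiff Topology Manifold
open Set

namespace H30K

open H31R H79G H60E
open Pool.Agent.H69Hopf (Arr IsAlgCurv ev area2)
open HopfKC (lo hi)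

theorem g14_mono {U V : Set (EE 6)} {G : EE 6 → Mt 6} (h : MetOn U G) (hV : IsOpen V)
    (hVU : V ⊆ U) : MetOn V G where
  hU := hV
  sm i j := (h.sm i j).mono hVU
  symm y hy := h.symm y (hVU hy)
  pos y hy := h.pos y (hVU hy)

theorem g14_dense {M : Type} [TopologicalSpace M] [ChartedSpace (EE 6) M] {g : Ch.Metric 6 M}
    (hD : DenseCodazzi g) (p : M) {W : Set (EE 6)} (hW : IsOpen W)
    (hWt : W ⊆ (chartAt (EE 6) p).target) {c : ℝ} (hc0 : 0 ≤ c)
    (hK : ∀ y ∈ W, ∀ E : Mt 6, E.transpose * g.mat p y * E = 1 →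
      KB (N := 6) c (frR (riem (g.mat p) y) E)) {y : EE 6} (hy : y ∈ W) :
    pf (g.mat p) y ≤ -c ^ 3 := by
  have hM : MetOn W (g.mat p) := g14_mono (metOn g p) hW hWt
  have hcl : y ∈ closure {z | z ∈ W ∧ pf (g.mat p) z ≤ -c ^ 3} := by
    rw [mem_closure_iff]
    intro O hO hyO
    obtain ⟨U, hUV, hU, b, hb, z, hz, hzc⟩ := hD p (O ∩ W) (fun z hz => hWt hz.2)
      (hO.inter hW) ⟨y, hyO, hy⟩
    have hUW : U ⊆ W := fun z hz => (hUV hz).2
    exact ⟨z, (hUV hz).1, hUW hz, G12_local (g14_mono hM hU hUW) hb hc0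
      (fun w hw => hK w (hUW hw)) hz hzc⟩
  have h1 : ContinuousWithinAt (pf (g.mat p)) {z | z ∈ W ∧ pf (g.mat p) z ≤ -c ^ 3} y :=
    (G12_cont hM y hy).mono fun z hz => hz.1
  exact h1.closure_le hcl continuousWithinAt_const fun z hz => hz.2

theorem G14_codazzi (M : Closed 6) (g : Ch.Metric 6 M.carrier) (hK : SecNonpos g)
    (hD : DenseCodazzi g) : ∃ χ : ℤ, IsEulerCharacteristic 6 M.carrier χ ∧ χ ≤ 0 ∧
      ((∃ m : M.carrier, NegAt g m) → χ < 0) := by
  have hgb : ∀ R : Fin 6 → Fin 6 → Fin 6 → Fin 6 → ℝ,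
      Pool.Agent.H69Hopf.gaussBonnet 3 R = gb R := gb3
  have hpt : ∀ p : M.carrier, ∀ y ∈ (chartAt (EE 6) p).target, ∀ E : Mt 6,
      E.transpose * g.mat p y * E = 1 →
      0 ≤ (-1 : ℝ) * Pool.Agent.H69Hopf.gaussBonnet 3 (frameR (riem (g.mat p) y) E) := by
    intro p y hy E hE
    have h1 := g14_dense hD p (chartAt (EE 6) p).open_target subset_rfl le_rfl
      (fun z hz E _ => G13_nonpos hK p hz E) hy
    rw [G12_pf (metOn g p) hy hE, div_le_iff₀ (by norm_num)] at h1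
    have h2 : gb (frR (riem (g.mat p) y) E) ≤ 0 := by
      have h3 : (-(0 : ℝ) ^ 3) * 384 = 0 := by norm_num
      linarith
    have h4 : Pool.Agent.H69Hopf.gaussBonnet 3 (frameR (riem (g.mat p) y) E) =
      gb (frR (riem (g.mat p) y) E) := hgb _
    rw [h4]
    linarith
  obtain ⟨χ, h1, h2, h3⟩ := sign_principle 3 M g (-1) hpt
  refine ⟨χ, h1, ?_, ?_⟩
  · have h4 : (χ : ℝ) ≤ 0 := by linarith
    exact_mod_cast h4
  · rintro ⟨m, hm⟩
    have h4 : 0 < (-1 : ℝ) * χ := by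
      refine h3 ⟨m, fun E hE => ?_⟩
      obtain ⟨c, hc, W, hWt, hW, hmW, hKW⟩ :=
        G13_neg (metOn g m) (mem_chart_target (EE 6) m) hm
      have h5 := g14_dense hD m hW hWt hc.le hKW hmW
      rw [G12_pf (metOn g m) (mem_chart_target (EE 6) m) hE, div_le_iff₀ (by norm_num)] at h5
      have h6 : 0 < c ^ 3 := pow_pos hc 3
      have h7 : Pool.Agent.H69Hopf.gaussBonnet 3
          (frameR (riem (g.mat m) (chartAt (EE 6) m m)) E) =
          gb (frR (riem (g.mat m) (chartAt (EE 6) m m)) E) := hgb _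
      have h8 : 0 < (-1 : ℝ) * gb (frR (riem (g.mat m) (chartAt (EE 6) m m)) E) := by
        linarith
      rw [← h7] at h8
      exact h8
    have h5 : (χ : ℝ) < 0 := by linarith
    exact_mod_cast h5

theorem G14_unique {M : Type} [TopologicalSpace M] [ChartedSpace (EE 6) M] {χ χ' : ℤ}
    (h : IsEulerCharacteristic 6 M χ) (h' : IsEulerCharacteristic 6 M χ') : χ = χ' := by
  obtain ⟨⟨X, hX⟩, h1⟩ := h
  rw [← h1 X hX, ← h'.2 X hX]

end H30K
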