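import Pool.Agent.Lib.H30K.Defs
import Pool.Agent.Lib.H79G.S0

/-!
# G15 (M): the Schouten tensor

Let `g` be a metric on a manifold of dimension 6 with harmonic Weyl tensor which is nowhere Einstein. For
`V` open in the chart at `p` take `U = V`, `b = schT (g.mat p)`: smooth on `U` (the entries of `riem`, `G⁻¹`
are smooth: `N_chr_sm`, `N_inv_sm`, `pd_sm`), symmetric (`ricT i k = ricT k i`: pair symmetry
`riem i j k l = riem k l i j` (`riem_algCurv`) and symmetry of `G⁻¹`), Codazzi by hypothesis. By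
`NowhereEinstein` there is `y ∈ V` with `ricT y ≠ c • G` for all `c`; if `schT y = c • G y` then
`ricT y = (c + s/10) • G y`, a contradiction.
-/

set_option autoImplicit false

open scoped ContDiff Topology Manifold
open Set

namespace H30K

open H31R H79G H60E
open Pool.Agent.H69Hopf (Arr IsAlgCurv ev area2)
open HopfKC (lo hi)

theorem g15_mono {d : ℕ} {U V : Set (EE d)} {G : EE d → Mt d} (h : MetOn U G) (hV : IsOpen V) (hVU : V ⊆ U) :
    MetOn V G where
  hU := hV
  sm i j := (h.sm i j).mono hVU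
  symm y hy := h.symm y (hVU hy)
  pos y hy := h.pos y (hVU hy)

theorem g15_riem {d : ℕ} {V : Set (EE d)} {G : EE d → Mt d} (h : MetOn V G) (i j k l : Fin d) :
    ContDiffOn ℝ ∞ (fun y => riem G y i j k l) V := by
  have e : (fun y => riem G y i j k l) = fun y => ∑ a, G y k a * Rm G i j y a l := by
    funext y
    rw [riem_eq, Matrix.mul_apply]
  rw [e]
  exact ContDiffOn.sum fun a _ => (h.sm k a).mul (h.smooth_Rm i j a l)

theorem g15_ric {d : ℕ} {V : Set (EE d)} {G : EE d → Mt d} (h : MetOn V G) (i k : Fin d) :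
    ContDiffOn ℝ ∞ (fun y => ricT G y i k) V := by
  unfold ricT
  exact ContDiffOn.sum fun j _ => ContDiffOn.sum fun l _ => (h.smooth_inv j l).mul (g15_riem h i j k l)

theorem g15_scal {d : ℕ} {V : Set (EE d)} {G : EE d → Mt d} (h : MetOn V G) :
    ContDiffOn ℝ ∞ (fun y => scalT G y) V := by
  unfold scalT
  exact ContDiffOn.sum fun j _ => ContDiffOn.sum fun l _ => (h.smooth_inv j l).mul (g15_ric h j l)

theorem g15_sch {d : ℕ} {V : Set (EE d)} {G : EE d → Mt d} (h : MetOn V G) (i k : Fin d) :
    ContDiffOn ℝ ∞ (fun y => schT G y i k) V := by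
  have e : (fun y => schT G y i k) = fun y => ricT G y i k -
      scalT G y / (2 * ((d : ℝ) - 1)) * G y i k := by
    funext y
    unfold schT
    rw [Matrix.sub_apply, Matrix.smul_apply, smul_eq_mul]
  rw [e]
  exact (g15_ric h i k).sub (((g15_scal h).div_const _).mul (h.sm i k))

theorem g15_symm {d : ℕ} {V : Set (EE d)} {G : EE d → Mt d} (h : MetOn V G) {y : EE d} (hy : y ∈ V)
    (i k : Fin d) : ricT G y i k = ricT G y k i := by
  have hA := riem_algCurv h hy
  have hI : ∀ j l, (G y)⁻¹ j l = (G y)⁻¹ l j := by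
    intro j l
    have h1 : ((G y)⁻¹).transpose = (G y)⁻¹ := by
      rw [Matrix.transpose_nonsing_inv]
      congr 1
      ext a b
      exact h.symm y hy b a
    have h2 := congrFun (congrFun h1 l) j
    rw [Matrix.transpose_apply] at h2
    exact h2
  unfold ricT
  rw [Finset.sum_comm]
  refine Finset.sum_congr rfl fun j _ => Finset.sum_congr rfl fun l _ => ?_
  rw [hI l j, hA.pair i l k j]

theorem G15_schouten {M : Type} [TopologicalSpace M] [ChartedSpace (EE 6) M] (g : Ch.Metric 6 M)
    (hW : HarmonicWeyl g) (hN : NowhereEinstein g) : DenseCodazzi g := by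
  intro p V hV hVo hVn
  have hM : MetOn V (g.mat p) := g15_mono (metOn g p) hVo hV
  refine ⟨V, subset_rfl, hVo, schT (g.mat p), ⟨fun i j => g15_sch hM i j, ?_, ?_⟩, ?_⟩
  · intro y hy i j
    unfold schT
    rw [Matrix.sub_apply, Matrix.sub_apply, Matrix.smul_apply, Matrix.smul_apply,
      g15_symm hM hy i j, hM.symm y hy i j]
  · intro y hy k i j
    exact hW p y (hV hy) k i j
  · obtain ⟨y, hy, hc⟩ := hN p V hV hVo hVn
    refine ⟨y, hy, fun c hcy => hc (c + scalT (g.mat p) y / (2 * (((6 : ℕ) : ℝ) - 1))) ?_⟩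
    have h1 : ricT (g.mat p) y = schT (g.mat p) y +
        (scalT (g.mat p) y / (2 * (((6 : ℕ) : ℝ) - 1))) • g.mat p y := by
      unfold schT
      rw [sub_add_cancel]
    rw [h1, hcy, add_smul]

end H30K
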