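import Pool.Agent.Lib.H30K.Defs
import Pool.Agent.Lib.H60E.D6

/-!
# G16 (S/M): Einstein metrics

`G14_einstein`: `einstein_six` (`Lib/H60E/D6.lean`), and if the sectional curvature is negative at `m` then
`χ ≠ 0`: otherwise the curvature in the frame `e` at `m` vanishes for `i = 0`, `j = 3`, so
`R(v, w, v, w) = 0` for `v = e_0`, `w = e_3` (columns of `e`), linearly independent because of
`g(e_i, e_j) = δ_ij`.
-/

set_option autoImplicit false

open scoped ContDiff Topology Manifold
open Set

namespace H30K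

open H31R H79G H60E
open Pool.Agent.H69Hopf (Arr IsAlgCurv ev area2)
open HopfKC (lo hi)

theorem G14_einstein (M : Closed 6) (g : Ch.Metric 6 M.carrier) {lam : ℝ} (hE : IsEinstein g lam)
    (hK : SecNonpos g) : ∃ χ : ℤ, IsEulerCharacteristic 6 M.carrier χ ∧ χ ≤ 0 ∧
      ((∃ m : M.carrier, NegAt g m) → χ < 0) := by
  obtain ⟨χ, h1, h2, h3⟩ := einstein_six M g lam hE hK
  refine ⟨χ, h1, h2, fun ⟨m, hm⟩ => ?_⟩
  by_contra hc
  have h0 : χ = 0 := le_antisymm h2 (not_lt.1 hc)
  obtain ⟨e, he1, he2⟩ := h3 h0 m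
  have h4 := he2 0 3 0 3
  rw [if_neg (by decide)] at h4
  have h5 : LinearIndependent ℝ ![(fun a => e a 0 : Fin 6 → ℝ), (fun a => e a 3 : Fin 6 → ℝ)] := by
    rw [LinearIndependent.pair_iff]
    intro s t hst
    have key : ∀ j : Fin 6, s * (∑ k, ∑ l, g.mat m (chartAt (EE 6) m m) k l * e k 0 * e l j) +
        t * (∑ k, ∑ l, g.mat m (chartAt (EE 6) m m) k l * e k 3 * e l j) = 0 := by
      intro j
      rw [Finset.mul_sum, Finset.mul_sum, ← Finset.sum_add_distrib]
      refine Finset.sum_eq_zero fun k _ => ?_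
      rw [Finset.mul_sum, Finset.mul_sum, ← Finset.sum_add_distrib]
      refine Finset.sum_eq_zero fun l _ => ?_
      have h6 : s * e k 0 + t * e k 3 = 0 := congrFun hst k
      linear_combination (g.mat m (chartAt (EE 6) m m) k l * e l j) * h6
    have k0 := key 0
    have k3 := key 3
    rw [he1 0 0, he1 3 0] at k0
    rw [he1 0 3, he1 3 3] at k3
    rw [if_pos rfl, if_neg (by decide)] at k0
    rw [if_neg (by decide), if_pos rfl] at k3
    constructor <;> linarith
  have h6 := hm _ _ h5
  exact absurd h4 (ne_of_lt h6)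

end H30K
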