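import Pool.Agent.Lib.H30K.G1

/-!
# G7A (M): derivative of a projection

`C = Matrix.of (cov G A x m)`, `Γ = chM G m x`: `pdM m A x = C + Γᵀ A + A Γ` (`G1_covM`). `pdM m G x =
Γᵀ G + G Γ` (`met_compat`, `Lib/H60E/A5.lean`), so `pdM m (G⁻¹) x = -G⁻¹ (Γᵀ G + G Γ) G⁻¹ =
-G⁻¹ Γᵀ - Γ G⁻¹` (`N_pdM_inv`). Differentiate `A = A G⁻¹ A` on `U` (`N_pdM_congr`, `N_pdM_mul`):
`C + Γᵀ A + A Γ = (C + Γᵀ A + A Γ) G⁻¹ A - A (G⁻¹ Γᵀ + Γ G⁻¹) A + A G⁻¹ (C + Γᵀ A + A Γ)`; with
`A G⁻¹ A = A` this is `C G⁻¹ A + Γᵀ A + A G⁻¹ C + A Γ`.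

`G7_leib`: covariant derivative of `b = f1 • G + f2 • A`; `cov G G = 0` (`met_compat`).
-/

set_option autoImplicit false

open scoped ContDiff Topology Manifold
open Set

namespace H30K

open H31R H79G H60E
open Pool.Agent.H69Hopf (Arr IsAlgCurv ev area2)
open HopfKC (lo hi)

variable {d : ℕ} {U : Set (EE d)} {G A : EE d → Mt d}

theorem g7a_G (h : MetOn U G) {x : EE d} (hx : x ∈ U) (m : Fin d) :
    (Matrix.of (cov G G x m) : Mt d) = 0 := by
  rw [G1_covM, met_compat h hx]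
  noncomm_ring

theorem G7_met (h : MetOn U G) {x : EE d} (hx : x ∈ U) (m i j : Fin d) : cov G G x m i j = 0 := by
  have h1 := congrFun (congrFun (g7a_G h hx m) i) j
  exact h1

theorem G7_idem (h : MetOn U G) (hA : ∀ i j, ContDiffOn ℝ ∞ (fun y => A y i j) U)
    (hi : ∀ y ∈ U, A y * (G y)⁻¹ * A y = A y) {x : EE d} (hx : x ∈ U) (m : Fin d) :
    (Matrix.of (cov G A x m) : Mt d) = Matrix.of (cov G A x m) * (G x)⁻¹ * A x +
      A x * (G x)⁻¹ * Matrix.of (cov G A x m) := by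
  have hU := h.hU
  have hG : ∀ k, SmM k U G := fun k i j => g1_sm (h.sm i j) k
  have hB : ∀ k, SmM k U A := fun k i j => g1_sm (hA i j) k
  have hd := met_det_ne h
  have hI : ∀ k, SmM k U (fun y => (G y)⁻¹) := fun k => N_inv_sm (hG k) hd
  have hu : IsUnit (G x).det := isUnit_iff_ne_zero.2 (hd x hx)
  have hGi : (G x)⁻¹ * G x = 1 := Matrix.nonsing_inv_mul _ hu
  have hGi' : G x * (G x)⁻¹ = 1 := Matrix.mul_nonsing_inv _ hu
  have e1 : pdM m A x = pdM m (fun y => A y * (G y)⁻¹ * A y) x :=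
    N_pdM_congr hU hx (fun y hy => (hi y hy).symm) m
  rw [N_pdM_mul (n := 0) hU hx (N_mul_sm (hB 1) (hI 1)) (hB 1),
    N_pdM_mul (n := 0) hU hx (hB 1) (hI 1), N_pdM_inv (n := 0) hU hx (hG 1) hd,
    met_compat h hx] at e1
  have e2 : -((G x)⁻¹ * ((chM G m x).transpose * G x + G x * chM G m x) * (G x)⁻¹) =
      -((G x)⁻¹ * (chM G m x).transpose) - chM G m x * (G x)⁻¹ := by
    rw [Matrix.mul_add, Matrix.add_mul]
    have a1 : (G x)⁻¹ * ((chM G m x).transpose * G x) * (G x)⁻¹ =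
        (G x)⁻¹ * (chM G m x).transpose := by
      rw [Matrix.mul_assoc, Matrix.mul_assoc, hGi', Matrix.mul_one]
    have a2 : (G x)⁻¹ * (G x * chM G m x) * (G x)⁻¹ = chM G m x * (G x)⁻¹ := by
      rw [← Matrix.mul_assoc, hGi, Matrix.one_mul]
    rw [a1, a2]
    noncomm_ring
  rw [e2] at e1
  have hC := G1_covM G A x m
  have hC' : pdM m A x = Matrix.of (cov G A x m) + (chM G m x).transpose * A x + A x * chM G m x := by
    rw [hC]
    noncomm_ring
  rw [hC'] at e1
  have hix := hi x hx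
  generalize (Matrix.of (cov G A x m) : Mt d) = C at *
  generalize chM G m x = Γ at *
  generalize (G x)⁻¹ = K at *
  have e3 : C * K * A x + A x * K * C - C = 0 := by
    have f1 : C + Γ.transpose * A x + A x * Γ = (C * K * A x + Γ.transpose * (A x * K * A x) +
        A x * Γ * K * A x + (-(A x * K * Γ.transpose * A x) - A x * Γ * K * A x)) +
        (A x * K * C + A x * K * Γ.transpose * A x + (A x * K * A x) * Γ) := by
      refine e1.trans ?_
      noncomm_ring
    rw [hix] at f1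
    have f2 : C * K * A x + A x * K * C - C = (C * K * A x + Γ.transpose * A x +
        A x * Γ * K * A x + (-(A x * K * Γ.transpose * A x) - A x * Γ * K * A x)) +
        (A x * K * C + A x * K * Γ.transpose * A x + A x * Γ) -
        (C + Γ.transpose * A x + A x * Γ) := by noncomm_ring
    rw [f2, ← f1, sub_self]
  exact (sub_eq_zero.1 e3).symm

theorem G7_leib (h : MetOn U G) (hA : ∀ i j, ContDiffOn ℝ ∞ (fun y => A y i j) U)
    {f1 f2 : EE d → ℝ} (h1 : ContDiffOn ℝ ∞ f1 U) (h2 : ContDiffOn ℝ ∞ f2 U) {b : EE d → Mt d}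
    (hb : ∀ y ∈ U, b y = f1 y • G y + f2 y • A y) {x : EE d} (hx : x ∈ U) (m i j : Fin d) :
    cov G b x m i j = pd m f1 x * G x i j + pd m f2 x * A x i j + f2 x * cov G A x m i j := by
  have hU := h.hU
  have d1 : DifferentiableAt ℝ f1 x := N_diff (n := 0) hU (g1_sm h1 1) hx
  have d2 : DifferentiableAt ℝ f2 x := N_diff (n := 0) hU (g1_sm h2 1) hx
  have d3 : ∀ i j, DifferentiableAt ℝ (fun y => G y i j) x := fun i j =>
    N_diff (n := 0) hU (g1_sm (h.sm i j) 1) hx
  have d4 : ∀ i j, DifferentiableAt ℝ (fun y => A y i j) x := fun i j =>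
    N_diff (n := 0) hU (g1_sm (hA i j) 1) hx
  have hm := G7_met h hx m i j
  have e1 : pd m (fun y => b y i j) x = pd m f1 x * G x i j + f1 x * pd m (fun y => G y i j) x +
      (pd m f2 x * A x i j + f2 x * pd m (fun y => A y i j) x) := by
    rw [N_pd_congr_on hU hx m (g := fun y => f1 y * G y i j + f2 y * A y i j)
      (fun y hy => by rw [hb y hy]; rfl),
      N_pd_add (f := fun y => f1 y * G y i j) (g := fun y => f2 y * A y i j)
        (d1.mul (d3 i j)) (d2.mul (d4 i j)) m,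
      N_pd_mul (f := f1) (g := fun y => G y i j) d1 (d3 i j),
      N_pd_mul (f := f2) (g := fun y => A y i j) d2 (d4 i j)]
  have e2 : ∀ k l, b x k l = f1 x * G x k l + f2 x * A x k l := by
    intro k l
    rw [hb x hx]
    rfl
  unfold cov at hm ⊢
  rw [e1]
  have e3 : ∑ l, chr G l m i x * b x l j = f1 x * ∑ l, chr G l m i x * G x l j +
      f2 x * ∑ l, chr G l m i x * A x l j := by
    rw [Finset.mul_sum, Finset.mul_sum, ← Finset.sum_add_distrib]
    refine Finset.sum_congr rfl fun l _ => ?_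
    rw [e2]
    ring
  have e4 : ∑ l, chr G l m j x * b x i l = f1 x * ∑ l, chr G l m j x * G x i l +
      f2 x * ∑ l, chr G l m j x * A x i l := by
    rw [Finset.mul_sum, Finset.mul_sum, ← Finset.sum_add_distrib]
    refine Finset.sum_congr rfl fun l _ => ?_
    rw [e2]
    ring
  rw [e3, e4]
  linear_combination f1 x * hm

end H30K
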