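import Pool.Agent.Lib.H30K.G7A

/-!
# G7B (M): components in a frame

`frS`: if `Eᵀ G₀ E = 1` then `E` is invertible and a trilinear form is determined by its components
`fr3 T E`. `fr_symT`, `fr_add`, ..: components of products and sums (finite sums; `fr2 A E i j =
(Eᵀ A E) i j`).

`G7_frame`: put `C = Matrix.of (cov G A x a)`; with `G7_idem` and `(G x)⁻¹ = E Eᵀ`:
`Eᵀ C E = (Eᵀ C E)(Eᵀ A E) + (Eᵀ A E)(Eᵀ C E)`, so `p i j = p i j ε j + ε i p i j`; if
`ε i = ε j ∈ {0, 1}` then `p i j (1 - 2 ε i) = 0`, `p i j = 0`. Multiply by `E a m` and sum over `a`.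
-/

set_option autoImplicit false

open scoped ContDiff Topology Manifold
open Set

namespace H30K

open H31R H79G H60E
open Pool.Agent.H69Hopf (Arr IsAlgCurv ev area2)
open HopfKC (lo hi)

variable {d : ℕ} {U : Set (EE d)} {G A : EE d → Mt d}

theorem fr2_eq (A : Mt d) (E : Mt d) (i j : Fin d) :
    fr2 A E i j = (E.transpose * A * E) i j := by
  unfold fr2
  rw [Matrix.mul_apply, Finset.sum_comm]
  refine Finset.sum_congr rfl fun b _ => ?_
  rw [Matrix.mul_apply, Finset.sum_mul]
  refine Finset.sum_congr rfl fun a _ => ?_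
  rw [Matrix.transpose_apply]
  ring

theorem g7b_right {G0 E : Mt d} (hE : E.transpose * G0 * E = 1) : E * (E.transpose * G0) = 1 :=
  mul_eq_one_comm.mp hE

theorem g7b_zero {G0 E : Mt d} (hE : E.transpose * G0 * E = 1) {f : Fin d → ℝ}
    (h : ∀ m, ∑ a, f a * E a m = 0) (a : Fin d) : f a = 0 := by
  have h1 : Matrix.vecMul f E = 0 := by
    funext m
    exact h m
  have h2 : Matrix.vecMul f (E * (E.transpose * G0)) = f := by
    rw [g7b_right hE, Matrix.vecMul_one]
  rw [← Matrix.vecMul_vecMul, h1, Matrix.zero_vecMul] at h2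
  rw [← h2]
  rfl

theorem fr3_inj {G0 E : Mt d} (hE : E.transpose * G0 * E = 1) {T T' : Fin d → Fin d → Fin d → ℝ}
    (h : ∀ m i j, fr3 T E m i j = fr3 T' E m i j) (m i j : Fin d) : T m i j = T' m i j := by
  have h1 : ∀ i j a, ∑ b, ∑ c, (T a b c - T' a b c) * E b i * E c j = 0 := by
    intro i j
    apply g7b_zero hE
    intro m
    have h2 := h m i j
    unfold fr3 at h2
    have h3 : ∑ a, (∑ b, ∑ c, (T a b c - T' a b c) * E b i * E c j) * E a m =
        (∑ a, ∑ b, ∑ c, T a b c * E a m * E b i * E c j) -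
          ∑ a, ∑ b, ∑ c, T' a b c * E a m * E b i * E c j := by
      rw [← Finset.sum_sub_distrib]
      refine Finset.sum_congr rfl fun a _ => ?_
      rw [Finset.sum_mul, ← Finset.sum_sub_distrib]
      refine Finset.sum_congr rfl fun b _ => ?_
      rw [Finset.sum_mul, ← Finset.sum_sub_distrib]
      refine Finset.sum_congr rfl fun c _ => ?_
      ring
    rw [h3, h2, sub_self]
  have h4 : ∀ j a b, ∑ c, (T a b c - T' a b c) * E c j = 0 := by
    intro j a
    apply g7b_zero hE
    intro i
    rw [← h1 i j a]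
    refine Finset.sum_congr rfl fun b _ => ?_
    rw [Finset.sum_mul]
    refine Finset.sum_congr rfl fun c _ => ?_
    ring
  have h5 : ∀ a b c, T a b c - T' a b c = 0 := by
    intro a b
    apply g7b_zero hE
    intro j
    exact h4 j a b
  exact sub_eq_zero.mp (h5 m i j)

theorem fr3_mul (w : Fin d → ℝ) (A : Mt d) (E : Mt d) (m i j : Fin d) :
    fr3 (fun m i j => w m * A i j) E m i j = fr1 w E m * fr2 A E i j := by
  unfold fr3 fr1 fr2
  rw [Finset.sum_mul]
  refine Finset.sum_congr rfl fun a _ => ?_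
  rw [Finset.mul_sum]
  refine Finset.sum_congr rfl fun b _ => ?_
  rw [Finset.mul_sum]
  refine Finset.sum_congr rfl fun c _ => ?_
  ring

theorem fr3_symT (w : Fin d → ℝ) (A : Mt d) (E : Mt d) (m i j : Fin d) :
    fr3 (symT w A) E m i j = symT (fr1 w E) (fr2 A E) m i j := by
  have e1 := fr3_mul w A E m i j
  have e2 := fr3_mul w A E i m j
  have e3 := fr3_mul w A E j m i
  have s2 : ∑ a, ∑ b, ∑ c, w b * A a c * E a m * E b i * E c j =
      fr3 (fun m i j => w m * A i j) E i m j := by
    unfold fr3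
    rw [Finset.sum_comm]
    refine Finset.sum_congr rfl fun b _ => Finset.sum_congr rfl fun a _ =>
      Finset.sum_congr rfl fun c _ => ?_
    ring
  have s3 : ∑ a, ∑ b, ∑ c, w c * A a b * E a m * E b i * E c j =
      fr3 (fun m i j => w m * A i j) E j m i := by
    unfold fr3
    have s4 : ∀ a : Fin d, ∑ b, ∑ c, w c * A a b * E a m * E b i * E c j =
        ∑ c, ∑ b, w c * A a b * E a m * E b i * E c j := fun a => Finset.sum_comm
    simp only [s4]
    rw [Finset.sum_comm]
    refine Finset.sum_congr rfl fun c _ => Finset.sum_congr rfl fun a _ =>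
      Finset.sum_congr rfl fun b _ => ?_
    ring
  have s1 : fr3 (symT w A) E m i j = fr3 (fun m i j => w m * A i j) E m i j +
      ∑ a, ∑ b, ∑ c, w b * A a c * E a m * E b i * E c j +
      ∑ a, ∑ b, ∑ c, w c * A a b * E a m * E b i * E c j := by
    unfold fr3 symT
    rw [← Finset.sum_add_distrib, ← Finset.sum_add_distrib]
    refine Finset.sum_congr rfl fun a _ => ?_
    rw [← Finset.sum_add_distrib, ← Finset.sum_add_distrib]
    refine Finset.sum_congr rfl fun b _ => ?_
    rw [← Finset.sum_add_distrib, ← Finset.sum_add_distrib]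
    refine Finset.sum_congr rfl fun c _ => ?_
    ring
  rw [s1, s2, s3, e1, e2, e3]
  rfl

theorem G7_frame (h : MetOn U G) (hA : ∀ i j, ContDiffOn ℝ ∞ (fun y => A y i j) U)
    (hi : ∀ y ∈ U, A y * (G y)⁻¹ * A y = A y) {x : EE d} (hx : x ∈ U) {E : Mt d}
    (hE : E.transpose * G x * E = 1) {ε : Fin d → ℝ} (he : ∀ i, ε i = 0 ∨ ε i = 1)
    (hAE : E.transpose * A x * E = Matrix.diagonal ε) {m i j : Fin d} (hij : ε i = ε j) :
    fr3 (cov G A x) E m i j = 0 := by
  have hG : (G x)⁻¹ = E * E.transpose := by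
    apply Matrix.inv_eq_left_inv
    rw [Matrix.mul_assoc]
    exact g7b_right hE
  have hp : ∀ a : Fin d, (E.transpose * (Matrix.of (cov G A x a) : Mt d) * E) i j = 0 := by
    intro a
    have h1 := G7_idem h hA hi hx a
    set C : Mt d := Matrix.of (cov G A x a) with hC
    set p : Mt d := E.transpose * C * E with hpd
    have h2 : p = p * Matrix.diagonal ε + Matrix.diagonal ε * p := by
      rw [← hAE, hpd]
      calc E.transpose * C * E = E.transpose * (C * (E * E.transpose) * A x +
            A x * (E * E.transpose) * C) * E := by rw [← hG, ← h1]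
        _ = E.transpose * C * E * (E.transpose * A x * E) +
            E.transpose * A x * E * (E.transpose * C * E) := by
          simp only [Matrix.mul_add, Matrix.add_mul, Matrix.mul_assoc]
    have h3 := congrFun (congrFun h2 i) j
    rw [Matrix.add_apply, Matrix.mul_diagonal, Matrix.diagonal_mul, ← hij] at h3
    rcases he i with h4 | h4
    · rw [h4] at h3
      linarith
    · rw [h4] at h3
      linarith
  unfold fr3
  have h5 : ∀ a : Fin d, ∑ b, ∑ c, cov G A x a b c * E a m * E b i * E c j =
      E a m * (E.transpose * (Matrix.of (cov G A x a) : Mt d) * E) i j := by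
    intro a
    rw [← fr2_eq]
    unfold fr2
    rw [Finset.mul_sum]
    refine Finset.sum_congr rfl fun b _ => ?_
    rw [Finset.mul_sum]
    refine Finset.sum_congr rfl fun c _ => ?_
    rw [Matrix.of_apply]
    ring
  rw [Finset.sum_congr rfl fun a _ => h5 a]
  apply Finset.sum_eq_zero
  intro a _
  rw [hp a, mul_zero]

end H30K
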