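import Pool.Agent.Lib.H30K.G6

/-!
# G9A (S/M): algebra of the second derivative

All indices `n, m, i, j` with `ε n = 1`, `ε m = 0`, `ε i = 1`, `ε j = 0` (so `n ≠ m`, `n ≠ j`, `i ≠ m`,
`i ≠ j`). From `hS`, `hμ`: for `ε i = 1`, `ε j = 0`: `W p k i j = (w j) δ_ki` if `ε k = 1` and
`W p k i j = μ i δ_kj = -w i δ_kj` if `ε k = 0` (`μ j = 0`, `μ i = -w i`). So
`W D n m i j = W Hμ n i δ_mj + w m δ_ni w j + w j δ_ni w m` (terms: `Hw n m ε i δ_ij = 0`,
`Hw n i ε m δ_mj = 0`, `Hw n j ε m δ_mi = 0`, `w m W p n i j = w m w j δ_ni`, `w i W p n m j = 0`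
(`ε m = ε j`), `w j W p n m i = w j W p n i m = w j w m δ_ni`, `Hμ n m δ_ij = 0`, `Hμ n j δ_mi = 0`) and
`W D m n i j = W Hw m j δ_ni + W Hμ m j δ_ni - w n w i δ_mj - w i w n δ_mj`. Subtract.
-/

set_option autoImplicit false

open scoped ContDiff Topology Manifold
open Set

namespace H30K

open H31R H79G H60E
open Pool.Agent.H69Hopf (Arr IsAlgCurv ev area2)
open HopfKC (lo hi)

/-- the second covariant derivative in the frame -/
def D9 (ε w : Fin 6 → ℝ) (Hw Hμ : Fin 6 → Fin 6 → ℝ) (p : Fin 6 → Fin 6 → Fin 6 → ℝ)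
    (n m i j : Fin 6) : ℝ :=
  Hw n m * (ε i * dl i j) + Hw n i * (ε m * dl m j) + Hw n j * (ε m * dl m i) +
    w m * p n i j + w i * p n m j + w j * p n m i +
    Hμ n m * dl i j + Hμ n i * dl m j + Hμ n j * dl m i

theorem G9_alg {ε w μ : Fin 6 → ℝ} {W : ℝ} {Hw Hμ : Fin 6 → Fin 6 → ℝ}
    {p : Fin 6 → Fin 6 → Fin 6 → ℝ} (hp0 : ∀ n i j, ε i = ε j → p n i j = 0)
    (hp : ∀ n i j, p n i j = p n j i) (hμ : ∀ i, μ i + w i * ε i = 0)
    (hS : ∀ m i j, (μ m + w m * ε i) * dl i j + W * p m i j =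
      symT w (fun i j => ε i * dl i j) m i j + symT μ dl m i j)
    {n m i j : Fin 6} (hn : ε n = 1) (hm : ε m = 0) (hi : ε i = 1) (hj : ε j = 0) :
    W * (D9 ε w Hw Hμ p n m i j - D9 ε w Hw Hμ p m n i j) =
      dl n i * (2 * w m * w j - W * (Hw m j + Hμ m j)) +
        dl m j * (W * Hμ n i + 2 * w n * w i) := by
  have hnm : n ≠ m := fun h => by rw [h, hm] at hn; exact absurd hn (by norm_num)
  have hnj : n ≠ j := fun h => by rw [h, hj] at hn; exact absurd hn (by norm_num)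
  have him : i ≠ m := fun h => by rw [h, hm] at hi; exact absurd hi (by norm_num)
  have hij : i ≠ j := fun h => by rw [h, hj] at hi; exact absurd hi (by norm_num)
  have p1 := hS n i j
  have p2 := hS n i m
  have p3 := hS m i j
  have p4 := hS m n j
  have q1 : p n m j = 0 := hp0 _ _ _ (by rw [hm, hj])
  have q2 : p m n i = 0 := hp0 _ _ _ (by rw [hn, hi])
  have q3 := hp n m i
  have m1 := hμ i
  have m2 := hμ j
  have m3 := hμ n
  have m4 := hμ m
  rw [hi] at m1
  rw [hj] at m2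
  rw [hn] at m3
  rw [hm] at m4
  unfold symT dl at p1 p2 p3 p4
  simp only [if_neg hnm, if_neg hnj, if_neg him, if_neg hij, if_neg hnm.symm, if_neg him.symm, hn, hm, hi, hj] at p1 p2 p3 p4
  unfold D9 dl
  simp only [if_neg hnm, if_neg hnj, if_neg him, if_neg hij, if_neg hnm.symm, if_neg him.symm, hn, hm, hi, hj, q1, q2, q3]
  have r1 : μ i = -w i := by linarith
  have r2 : μ j = 0 := by linarith
  have r3 : μ n = -w n := by linarith
  have r4 : μ m = 0 := by linarith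
  linear_combination w m * p1 + w j * p2 - w n * p3 - w i * p4 +
    w m * (if n = i then 1 else 0) * r2 + w j * (if n = i then 1 else 0) * r4 -
    w n * (if m = j then 1 else 0) * r1 - w i * (if m = j then 1 else 0) * r3

end H30K
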