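import Pool.Agent.Lib.H30K.G14
import Pool.Agent.Lib.H30K.G15
import Pool.Agent.Lib.H30K.G16

/-!
# The main theorem (assembly)
-/

set_option autoImplicit false

open scoped ContDiff Topology Manifold
open Set

namespace H30K

open H31R H79G H60E
open Pool.Agent.H69Hopf (Arr IsAlgCurv ev area2)
open HopfKC (lo hi)

theorem hopf_codazzi (M : Closed 6) (g : Ch.Metric 6 M.carrier) (hK : SecNonpos g)
    (h : (∃ lam, IsEinstein g lam) ∨ DenseCodazzi g ∨ (HarmonicWeyl g ∧ NowhereEinstein g)) :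
    ∃ χ : ℤ, IsEulerCharacteristic 6 M.carrier χ ∧ χ ≤ 0 ∧
      ((∃ m : M.carrier, NegAt g m) → χ < 0) ∧
      ∀ lam, IsEinstein g lam → χ = 0 → ∀ m : M.carrier, ∃ e : Fin 6 → Fin 6 → ℝ,
        (∀ i j, ∑ k, ∑ l, g.mat m (chartAt (EE 6) m m) k l * e k i * e l j =
          if i = j then 1 else 0) ∧
        ∀ i j k l, ∑ a, ∑ b, ∑ c, ∑ f, riem (g.mat m) (chartAt (EE 6) m m) a b c f *
          e a i * e b j * e c k * e f l =
            if (i < 3 ↔ j < 3) then (lam / 2) * ((if i = k then 1 else 0) *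
              (if j = l then 1 else 0) - (if i = l then 1 else 0) * (if j = k then 1 else 0))
            else 0 := by
  have h1 : ∃ χ : ℤ, IsEulerCharacteristic 6 M.carrier χ ∧ χ ≤ 0 ∧
      ((∃ m : M.carrier, NegAt g m) → χ < 0) := by
    rcases h with ⟨lam, h⟩ | h | h
    · exact G14_einstein M g h hK
    · exact G14_codazzi M g hK h
    · exact G14_codazzi M g hK (G15_schouten g h.1 h.2)
  obtain ⟨χ, h2, h3, h4⟩ := h1
  refine ⟨χ, h2, h3, h4, fun lam hE h0 => ?_⟩
  obtain ⟨χ', h5, -, h6⟩ := einstein_six M g lam hE hK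
  exact h6 (by rw [← G14_unique h2 h5, h0])

end H30K
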