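import Pool.Agent.Lib.H30K.G15
import Pool.Agent.Lib.H30K.G7A

/-!
# U12 (M): the traceless Ricci tensor

`U12_cod`: on `target`, `schT = ricT - (s/10) G` is Codazzi (`HarmonicWeyl`, smooth and symmetric:
`g15_sch`, `g15_symm` in `G15.lean`), and `ricT - (s/6) G = schT + (s/10 - s/6) G`; `cov G (b + c G) =
cov G b` (`G7_leib` with constant functions, or `G7_met` and linearity). Trace: `∑ G^{ij} Ric_ij = s`
(definition of `scalT`), `∑ G^{ij} G_ij = 6`.

`U12_change`: the Ricci tensor is a tensor: with `J = Ch.jacobian p q y`,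
`ricT (g.mat p) y = Jᵀ * ricT (g.mat q) (change p q y) * J`. (See `H31R.Pull.ricM_eq`, `Pull.Rm_eq` in
`Lib/H31R/N3.lean` with `Φ = change p q`, and the use of `Pull` for `Ch.Metric` in `Lib/H79G` or `Lib/H60E`;
`ricT i k = ∑ j l, G^{jl} (G Rm(i,j)) k l = ∑ j, Rm(i, j)^j ..`: compute with `riem_eq` and the symmetries of
`riem_algCurv`, `ricT G x i k = ricM G x i k` up to the order of the indices, `N_ric_eq`.)
-/

set_option autoImplicit false

open scoped ContDiff Topology Manifold
open Set MeasureTheory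

namespace H30K

open H31R

open H79G H60E

variable {M : Type} [TopologicalSpace M] [ChartedSpace (EE 6) M]

/-- constant scalar curvature `s` -/
def ConstScal (g : Ch.Metric 6 M) (s : ℝ) : Prop :=
  ∀ p : M, ∀ y ∈ (chartAt (EE 6) p).target, scalT (g.mat p) y = s

theorem u12_invG {d : ℕ} {V : Set (EE d)} {G : EE d → Mt d} (h : MetOn V G) {y : EE d} (hy : y ∈ V) :
    (G y)⁻¹ * G y = 1 :=
  Matrix.nonsing_inv_mul _ (isUnit_iff_ne_zero.2 (met_det_ne h y hy))

/-- the Ricci tensor as a contraction of the curvature matrices -/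
theorem u12_ric {d : ℕ} {V : Set (EE d)} {G : EE d → Mt d} (h : MetOn V G) {y : EE d} (hy : y ∈ V)
    (i k : Fin d) : ricT G y i k = ricM G y k i := by
  have hA := riem_algCurv h hy
  have hI := u12_invG h hy
  have hsk : ∀ i j k l, riem G y i j k l = riem G y j i l k := by
    intro i j k l
    rw [hA.skew i j k l, hA.pair j i k l, hA.skew k l j i, neg_neg, hA.pair l k j i]
  show ricT G y i k = ric G k i y
  rw [N_ric_eq h.hU hy h.symm]
  unfold ricT
  refine Finset.sum_congr rfl fun j _ => ?_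
  have e : ∀ l, (G y)⁻¹ j l * riem G y i j k l = (G y)⁻¹ j l * (G y * Rm G j i y) l k := by
    intro l
    rw [hsk, riem_eq]
  rw [Finset.sum_congr rfl fun l _ => e l, ← Matrix.mul_apply, ← Matrix.mul_assoc, hI, Matrix.one_mul]

theorem U12_cod (g : Ch.Metric 6 M) (hW : HarmonicWeyl g) {s : ℝ} (hs : ConstScal g s) (p : M) :
    IsCodazzi (g.mat p) (chartAt (EE 6) p).target (fun y => ricT (g.mat p) y - (s / 6) • g.mat p y) ∧
      ∀ y ∈ (chartAt (EE 6) p).target, ∑ i, ∑ j, (g.mat p y)⁻¹ i j *
        (ricT (g.mat p) y - (s / 6) • g.mat p y) i j = 0 := by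
  have hM : MetOn (chartAt (EE 6) p).target (g.mat p) := metOn g p
  have hb : ∀ y ∈ (chartAt (EE 6) p).target,
      (fun y => ricT (g.mat p) y - (s / 6) • g.mat p y) y =
        (fun _ => s / 10 - s / 6) y • g.mat p y + (fun _ => (1 : ℝ)) y • schT (g.mat p) y := by
    intro y hy
    show ricT (g.mat p) y - (s / 6) • g.mat p y =
      (s / 10 - s / 6) • g.mat p y + (1 : ℝ) • schT (g.mat p) y
    unfold schT
    rw [hs p y hy, one_smul, sub_smul]
    have e : s / (2 * (((6 : ℕ) : ℝ) - 1)) = s / 10 := by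
      norm_num
    rw [e]
    abel
  have hcov : ∀ y ∈ (chartAt (EE 6) p).target, ∀ k i j,
      cov (g.mat p) (fun y => ricT (g.mat p) y - (s / 6) • g.mat p y) y k i j =
        cov (g.mat p) (schT (g.mat p)) y k i j := by
    intro y hy k i j
    rw [G7_leib hM (fun i j => g15_sch hM i j) contDiffOn_const contDiffOn_const hb hy k i j]
    rw [N_pd_const, N_pd_const]
    ring
  refine ⟨⟨?_, ?_, ?_⟩, ?_⟩
  · intro i j
    have e : (fun y => (ricT (g.mat p) y - (s / 6) • g.mat p y) i j) =
        fun y => ricT (g.mat p) y i j - s / 6 * g.mat p y i j := by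
      funext y
      rw [Matrix.sub_apply, Matrix.smul_apply, smul_eq_mul]
    show ContDiffOn ℝ ∞ (fun y => (ricT (g.mat p) y - (s / 6) • g.mat p y) i j) _
    rw [e]
    exact (g15_ric hM i j).sub (contDiffOn_const.mul (hM.sm i j))
  · intro y hy i j
    show (ricT (g.mat p) y - (s / 6) • g.mat p y) i j = (ricT (g.mat p) y - (s / 6) • g.mat p y) j i
    rw [Matrix.sub_apply, Matrix.sub_apply, Matrix.smul_apply, Matrix.smul_apply,
      g15_symm hM hy i j, hM.symm y hy i j]
  · intro y hy k i j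
    rw [hcov y hy, hcov y hy]
    exact hW p y hy k i j
  · intro y hy
    have e1 : ∑ i, ∑ j, (g.mat p y)⁻¹ i j * (ricT (g.mat p) y - (s / 6) • g.mat p y) i j =
        scalT (g.mat p) y - s / 6 * ∑ i, ∑ j, (g.mat p y)⁻¹ i j * g.mat p y j i := by
      unfold scalT
      rw [Finset.mul_sum, ← Finset.sum_sub_distrib]
      refine Finset.sum_congr rfl fun i _ => ?_
      rw [Finset.mul_sum, ← Finset.sum_sub_distrib]
      refine Finset.sum_congr rfl fun j _ => ?_
      rw [Matrix.sub_apply, Matrix.smul_apply, smul_eq_mul, hM.symm y hy i j]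
      ring
    have e2 : ∑ i, ∑ j, (g.mat p y)⁻¹ i j * g.mat p y j i = 6 := by
      have e3 : ∀ i, ∑ j, (g.mat p y)⁻¹ i j * g.mat p y j i = 1 := by
        intro i
        rw [← Matrix.mul_apply, u12_invG hM hy, Matrix.one_apply_eq]
      rw [Finset.sum_congr rfl fun i _ => e3 i]
      simp
    rw [e1, e2, hs p y hy]
    ring

theorem U12_change [IsManifold (𝓡 6) ∞ M] (g : Ch.Metric 6 M) (p q : M) {y : EE 6}
    (hy : y ∈ (chartAt (EE 6) p).target)
    (hy' : (chartAt (EE 6) p).symm y ∈ (chartAt (EE 6) q).source) :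
    ricT (g.mat p) y = (Ch.jacobian p q y).transpose * ricT (g.mat q) (Ch.change p q y) *
      Ch.jacobian p q y := by
  have hd : y ∈ chDom p q := ⟨hy, hy'⟩
  have e1 : ricT (g.mat p) y = (ricM (g.mat p) y).transpose := by
    ext i k
    rw [Matrix.transpose_apply]
    exact u12_ric (metOn g p) hy i k
  have e2 : ricT (g.mat q) (Ch.change p q y) = (ricM (g.mat q) (Ch.change p q y)).transpose := by
    ext i k
    rw [Matrix.transpose_apply]
    exact u12_ric (metOn g q) (change_mem hd).1 i k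
  have h := (pull g p q).ricM_eq hd
  have e3 : jac (Ch.change p q) y = Ch.jacobian p q y := rfl
  rw [e3] at h
  rw [e1, e2, h, Matrix.transpose_mul, Matrix.transpose_mul, Matrix.transpose_transpose,
    Matrix.mul_assoc]

end H30K
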