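import Pool.Agent.Lib.H30K.U11
import Pool.Agent.Lib.H30K.U12

/-!
# U13 (M): Einstein everywhere or nowhere

Let `Q p y : Prop := ricT (g.mat p) y = (s/6) • g.mat p y`. `U13_tr`: if `ricT (g.mat p) y = c • g.mat p y`
then `c = s/6` (trace with `G⁻¹`: `s = 6 c`).
`U13_change`: `Q p y ↔ Q q (change p q y)` for `y` in the overlap (`U12_change`, `g.compat`; the Jacobian is
invertible because `g.mat p y` is: `g.mat p y = Jᵀ G J` is positive definite).

`E = {m | ∀ᶠ y in 𝓝 (chartAt m m), Q m y}`. By the change of charts: for any chart `p` with `m` in its source,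
`m ∈ E ↔ ∀ᶠ y in 𝓝 (chartAt p m), Q p y` (continuity of the changes of charts; `change m p` maps a
neighbourhood to a neighbourhood: both directions with the continuity of `(chartAt p).symm` and
`chartAt m`). `E` is open. `E` is closed: let `m₀ ∈ closure E`; let `B` be a ball around `chartAt m₀ m₀` inside
`target`; `(chartAt m₀).symm '' B` is a neighbourhood of `m₀`, so it contains some `m ∈ E`, and
`Q m₀` holds on a nonempty open subset `W ⊆ B`; `U11_ucp` with `b = ricT - (s/6) G` (`U12_cod`, `t = 0`,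
`metOn`): `Q m₀` on `B`, so `m₀ ∈ E`. `M` is connected: `E = univ` (then `IsEinstein g (s/6)`: at
`y ∈ target p`, `m = symm y`, use the chart `p`) or `E = ∅` (then `NowhereEinstein g`: if `ricT y = c • g` for
all `y` in a nonempty open `V` (with `c` depending on `y`), then `Q p` on `V` by `U13_tr` and
`symm y ∈ E` for `y ∈ V`).
-/

set_option autoImplicit false

open scoped ContDiff Topology Manifold
open Set MeasureTheory

namespace H30K

open H31R

open H79G H60E

variable {M : Type} [TopologicalSpace M] [ChartedSpace (EE 6) M]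

theorem u13_tr (g : Ch.Metric 6 M) {s : ℝ} (hs : ConstScal g s) {p : M} {y : EE 6}
    (hy : y ∈ (chartAt (EE 6) p).target) {c : ℝ} (h : ricT (g.mat p) y = c • g.mat p y) :
    c = s / 6 := by
  have h1 := hs p y hy
  unfold scalT at h1
  rw [h] at h1
  have h2 : ∑ i, ∑ k, (g.mat p y)⁻¹ i k * (c • g.mat p y) i k = c * 6 := by
    have h3 : ∀ i k, (g.mat p y)⁻¹ i k * (c • g.mat p y) i k =
        c * ((g.mat p y)⁻¹ i k * g.mat p y k i) := by
      intro i k
      rw [Matrix.smul_apply, smul_eq_mul, g.symm p y hy i k]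
      ring
    simp_rw [h3, ← Finset.mul_sum]
    have h4 : ∑ i, ∑ k, (g.mat p y)⁻¹ i k * g.mat p y k i = 6 := by
      have h5 : (g.mat p y)⁻¹ * g.mat p y = 1 :=
        Matrix.nonsing_inv_mul _ (isUnit_iff_ne_zero.2 (C0_det g p hy))
      have h6 : ∑ i, ((g.mat p y)⁻¹ * g.mat p y) i i = 6 := by
        rw [h5]
        simp
      simpa only [Matrix.mul_apply] using h6
    rw [h4]
  linarith

/-- Einstein with constant `s / 6` at the point `m`, in the chart at `m` -/
def u13R (g : Ch.Metric 6 M) (s : ℝ) (m : M) : Prop :=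
  ricT (g.mat m) (chartAt (EE 6) m m) = (s / 6) • g.mat m (chartAt (EE 6) m m)

theorem u13_fwd [IsManifold (𝓡 6) ∞ M] (g : Ch.Metric 6 M) (p q : M) {y : EE 6}
    (hy : y ∈ (chartAt (EE 6) p).target)
    (hy' : (chartAt (EE 6) p).symm y ∈ (chartAt (EE 6) q).source) {c : ℝ}
    (h : ricT (g.mat q) (Ch.change p q y) = c • g.mat q (Ch.change p q y)) :
    ricT (g.mat p) y = c • g.mat p y := by
  rw [U12_change g p q hy hy', h, g.compat p q y hy hy']
  simp only [Matrix.mul_smul, Matrix.smul_mul]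

theorem u13_iff [IsManifold (𝓡 6) ∞ M] (g : Ch.Metric 6 M) {s : ℝ} (p : M) {y : EE 6}
    (hy : y ∈ (chartAt (EE 6) p).target) :
    ricT (g.mat p) y = (s / 6) • g.mat p y ↔ u13R g s ((chartAt (EE 6) p).symm y) := by
  have hd := mem_chDom_self hy
  constructor
  · intro h
    have h1 := change_mem hd
    have h2 := change_change hd
    refine u13_fwd g ((chartAt (EE 6) p).symm y) p h1.1 h1.2 ?_
    rw [h2]
    exact h
  · intro h
    exact u13_fwd g p ((chartAt (EE 6) p).symm y) hd.1 hd.2 h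

theorem u13_closed [IsManifold (𝓡 6) ∞ M] (g : Ch.Metric 6 M) (hW : HarmonicWeyl g) {s : ℝ}
    (hs : ConstScal g s) : IsClosed (interior {m | u13R g s m}) := by
  rw [← closure_subset_iff_isClosed]
  intro m₀ hm₀
  set φ := chartAt (EE 6) m₀ with hφ
  have hsrc : m₀ ∈ φ.source := mem_chart_source _ _
  have hx₀ : φ m₀ ∈ φ.target := φ.map_source hsrc
  obtain ⟨r, hr, hB⟩ := Metric.isOpen_iff.1 φ.open_target (φ m₀) hx₀
  set B := Metric.ball (φ m₀) r with hBdef
  have hBo : IsOpen B := Metric.isOpen_ball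
  -- the image of the ball
  have hopen : IsOpen (φ.symm '' B) := by
    apply φ.symm.isOpen_image_of_subset_source hBo
    exact hB
  have hmem : m₀ ∈ φ.symm '' B := ⟨φ m₀, Metric.mem_ball_self hr, φ.left_inv hsrc⟩
  obtain ⟨m, hmB, hmE⟩ := mem_closure_iff.1 hm₀ _ hopen hmem
  set W := φ.target ∩ φ.symm ⁻¹' (interior {m | u13R g s m}) ∩ B with hWdef
  have hWo : IsOpen W := (φ.isOpen_inter_preimage_symm isOpen_interior).inter hBo
  have hWn : W.Nonempty := by
    obtain ⟨z, hz, hzm⟩ := hmB
    refine ⟨z, ⟨hB hz, ?_⟩, hz⟩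
    show φ.symm z ∈ interior {m | u13R g s m}
    rw [hzm]
    exact hmE
  obtain ⟨hc, ht⟩ := U12_cod g hW hs m₀
  have h0 : ∀ x ∈ W, (fun y => ricT (g.mat m₀) y - (s / 6) • g.mat m₀ y) x = 0 := by
    intro x hx
    have h1 : φ.symm x ∈ {m | u13R g s m} := interior_subset hx.1.2
    have h2 := (u13_iff g (s := s) m₀ hx.1.1).2 h1
    show ricT (g.mat m₀) x - (s / 6) • g.mat m₀ x = 0
    rw [h2, sub_self]
  have hall := U11_ucp (metOn g m₀) hc (t := 0) ht hBo (convex_ball _ _).isPreconnected hB hWo hWn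
    inter_subset_right h0
  refine mem_interior.2 ⟨φ.symm '' B, ?_, hopen, hmem⟩
  rintro _ ⟨z, hz, rfl⟩
  refine (u13_iff g (s := s) m₀ (hB hz)).1 ?_
  have := hall z hz
  exact sub_eq_zero.1 this

theorem U13_alt {M : Type} [TopologicalSpace M] [ChartedSpace (EE 6) M] [IsManifold (𝓡 6) ∞ M]
    [PreconnectedSpace M] (g : Ch.Metric 6 M) (hW : HarmonicWeyl g) {s : ℝ} (hs : ConstScal g s) :
    IsEinstein g (s / 6) ∨ NowhereEinstein g := by
  have hcl : IsClopen (interior {m | u13R g s m}) := ⟨u13_closed g hW hs, isOpen_interior⟩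
  rcases isClopen_iff.1 hcl with h | h
  · right
    intro p V hV hVo hVn
    by_contra hcon
    push Not at hcon
    obtain ⟨z, hz⟩ := hVn
    have hopen : IsOpen ((chartAt (EE 6) p).symm '' V) :=
      (chartAt (EE 6) p).symm.isOpen_image_of_subset_source hVo hV
    have hsub : (chartAt (EE 6) p).symm '' V ⊆ {m | u13R g s m} := by
      rintro _ ⟨y, hy, rfl⟩
      obtain ⟨c, hc⟩ := hcon y hy
      have hcs := u13_tr g hs (hV hy) hc
      rw [hcs] at hc
      exact (u13_iff g (s := s) p (hV hy)).1 hc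
    have h1 : (chartAt (EE 6) p).symm z ∈ interior {m | u13R g s m} :=
      mem_interior.2 ⟨_, hsub, hopen, ⟨z, hz, rfl⟩⟩
    rw [h] at h1
    exact h1
  · left
    intro p y hy i k
    have h1 : (chartAt (EE 6) p).symm y ∈ interior {m | u13R g s m} := by
      rw [h]
      trivial
    have h1' : (chartAt (EE 6) p).symm y ∈ {m | u13R g s m} := interior_subset h1
    have h2 := (u13_iff g (s := s) p hy).2 h1'
    have h3 := congrFun (congrFun h2 i) k
    simpa [ricT] using h3

end H30K
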