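import Pool.Agent.Lib.H30K.P11A

/-!
# P11B (M): forms in signature (2,2) with a null vector

Write `Q = Bᴴ B` (`Matrix.PosSemidef`), `w m i = B m i`, so `Q i j = ∑ m, w m i * w m j`. `Q x = 0` gives
`∑ m (w m · x)² = 0`, so `w m · x = 0` for all `m`. Let `r² = x0² + x1²`; `r² > 0`, otherwise
`x2² + x3² ≤ 0` and `x = 0`. Put `U m = (x0 w m 1 - x1 w m 0)/r` and
`N m k = w m 2 w k 2 + w m 3 w k 3 - (x2 w m 2 + x3 w m 3)(x2 w k 2 + x3 w k 3)/r²`.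
Then `w m 0 w k 0 + w m 1 w k 1 - w m 2 w k 2 - w m 3 w k 3 = U m U k - N m k` (because
`w m 0 w k 0 + w m 1 w k 1 = U m U k + (x0 w m 0 + x1 w m 1)(x0 w k 0 + x1 w k 1)/r²` and
`x0 w m 0 + x1 w m 1 = -(x2 w m 2 + x3 w m 3)`). `N` is positive semidefinite: for `c : Fin 4 → ℝ` put
`z = ∑ c m (w m 2, w m 3)`; `∑ c m c k N m k = |z|² - ((x2,x3)·z)²/r² ≥ |z|² (1 - (x2²+x3²)/r²) ≥ 0`.
`∑ m (U m U m - N m m) = Q 0 0 + Q 1 1 - Q 2 2 - Q 3 3` and
`∑ m k (U m U k - N m k)² = ∑ i j et i * et j * Q i j ^ 2` (both are `tr (Q η Q η)`). Apply `P11_trace`.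

`P11_zero`: the same without null vector: the right hand side is a sum of squares
`∑ m k (∑ i et i * w m i * w k i)²`.
-/

set_option autoImplicit false

open scoped ContDiff Topology Manifold
open Set

namespace H30K

open H31R H79G H60E
open Pool.Agent.H69Hopf (Arr IsAlgCurv ev area2)
open HopfKC (lo hi)

/-- signs -/
def et : Fin 4 → ℝ := ![1, 1, -1, -1]

theorem p11b_sq (w : Fin 4 → Fin 4 → ℝ) :
    ∑ m, ∑ k, (w m 0 * w k 0 + w m 1 * w k 1 - w m 2 * w k 2 - w m 3 * w k 3) ^ 2 =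
      ∑ i, ∑ j, et i * et j * (∑ m, w m i * w m j) ^ 2 := by
  simp only [Fin.sum_univ_four, et, Matrix.cons_val]
  ring

theorem p11b_tr (w : Fin 4 → Fin 4 → ℝ) :
    ∑ m, (w m 0 * w m 0 + w m 1 * w m 1 - w m 2 * w m 2 - w m 3 * w m 3) =
      (∑ m, w m 0 * w m 0) + (∑ m, w m 1 * w m 1) - (∑ m, w m 2 * w m 2) - ∑ m, w m 3 * w m 3 := by
  simp only [Finset.sum_sub_distrib, Finset.sum_add_distrib]

theorem p11b_id {r x0 x1 x2 x3 a b c d a' b' c' d' : ℝ} (hr : 0 < r) (hr2 : r ^ 2 = x0 ^ 2 + x1 ^ 2)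
    (h : x0 * a + x1 * b + x2 * c + x3 * d = 0) (h' : x0 * a' + x1 * b' + x2 * c' + x3 * d' = 0) :
    (x0 * b - x1 * a) / r * ((x0 * b' - x1 * a') / r) -
      (c * c' + d * d' - (x2 * c + x3 * d) * (x2 * c' + x3 * d') / r ^ 2) =
      a * a' + b * b' - c * c' - d * d' := by
  have e : x2 * c + x3 * d = -(x0 * a + x1 * b) := by linarith
  have e' : x2 * c' + x3 * d' = -(x0 * a' + x1 * b') := by linarith
  rw [e, e']
  have hr0 : r ^ 2 ≠ 0 := by positivity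
  have h1 : (x0 * b - x1 * a) / r * ((x0 * b' - x1 * a') / r) +
      (x0 * a + x1 * b) * (x0 * a' + x1 * b') / r ^ 2 = a * a' + b * b' := by
    rw [div_mul_div_comm, ← sq, ← add_div, div_eq_iff hr0, hr2]
    ring
  linear_combination h1

theorem p11b_psd {r x2 x3 : ℝ} (hr : 0 < r) (hx : x2 ^ 2 + x3 ^ 2 ≤ r ^ 2) (c d : Fin 4 → ℝ) :
    (Matrix.of fun m k : Fin 4 => c m * c k + d m * d k -
      (x2 * c m + x3 * d m) * (x2 * c k + x3 * d k) / r ^ 2).PosSemidef := by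
  refine Matrix.PosSemidef.of_dotProduct_mulVec_nonneg ?_ ?_
  · ext i j
    simp only [Matrix.conjTranspose_apply, Matrix.of_apply, star_trivial]
    ring
  · intro v
    have e : star v ⬝ᵥ (Matrix.of fun m k : Fin 4 => c m * c k + d m * d k -
        (x2 * c m + x3 * d m) * (x2 * c k + x3 * d k) / r ^ 2).mulVec v =
        (∑ m, v m * c m) ^ 2 + (∑ m, v m * d m) ^ 2 -
          (x2 * (∑ m, v m * c m) + x3 * (∑ m, v m * d m)) ^ 2 / r ^ 2 := by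
      simp only [dotProduct, Matrix.mulVec, Matrix.of_apply, star_trivial, Fin.sum_univ_four]
      ring
    rw [e]
    set A := ∑ m, v m * c m
    set B := ∑ m, v m * d m
    have hr0 : 0 < r ^ 2 := by positivity
    rw [sub_nonneg, div_le_iff₀ hr0]
    have h1 : (x2 * A + x3 * B) ^ 2 ≤ (x2 ^ 2 + x3 ^ 2) * (A ^ 2 + B ^ 2) := by
      nlinarith [sq_nonneg (x2 * B - x3 * A)]
    have h2 : (x2 ^ 2 + x3 ^ 2) * (A ^ 2 + B ^ 2) ≤ r ^ 2 * (A ^ 2 + B ^ 2) :=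
      mul_le_mul_of_nonneg_right hx (by positivity)
    linarith

theorem P11_eta {Q : Matrix (Fin 4) (Fin 4) ℝ} (hQ : Q.PosSemidef) {x : Fin 4 → ℝ} (hx : x ≠ 0)
    (h0 : Q.mulVec x = 0) (hx' : 0 ≤ x 0 ^ 2 + x 1 ^ 2 - x 2 ^ 2 - x 3 ^ 2)
    (ht : 0 ≤ Q 0 0 + Q 1 1 - Q 2 2 - Q 3 3) :
    (Q 0 0 + Q 1 1 - Q 2 2 - Q 3 3) ^ 2 ≤ ∑ i, ∑ j, et i * et j * Q i j ^ 2 := by
  obtain ⟨w, hw⟩ : ∃ w : Fin 4 → Fin 4 → ℝ, ∀ m k, Q m k = ∑ r, w r m * w r k := p11a_fac hQ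
  have hwx : ∀ m, x 0 * w m 0 + x 1 * w m 1 + x 2 * w m 2 + x 3 * w m 3 = 0 := by
    have h1 : ∑ m, (∑ i, w m i * x i) ^ 2 = 0 := by
      have h2 : x ⬝ᵥ Q.mulVec x = ∑ m, (∑ i, w m i * x i) ^ 2 := by
        simp only [dotProduct, Matrix.mulVec, hw, Fin.sum_univ_four]
        ring
      rw [← h2, h0, dotProduct_zero]
    intro m
    have h3 := (Finset.sum_eq_zero_iff_of_nonneg (fun i _ => sq_nonneg _)).1 h1 m (Finset.mem_univ m)
    have h4 : ∑ i, w m i * x i = 0 := by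
      exact pow_eq_zero_iff (two_ne_zero) |>.1 h3
    rw [Fin.sum_univ_four] at h4
    linarith
  have hr2 : 0 < x 0 ^ 2 + x 1 ^ 2 := by
    by_contra hcon
    push Not at hcon
    have e0 : x 0 = 0 := by nlinarith [sq_nonneg (x 0), sq_nonneg (x 1)]
    have e1 : x 1 = 0 := by nlinarith [sq_nonneg (x 0), sq_nonneg (x 1)]
    have e2 : x 2 = 0 := by nlinarith [sq_nonneg (x 2), sq_nonneg (x 3)]
    have e3 : x 3 = 0 := by nlinarith [sq_nonneg (x 2), sq_nonneg (x 3)]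
    apply hx
    funext i
    fin_cases i
    · exact e0
    · exact e1
    · exact e2
    · exact e3
  set r := Real.sqrt (x 0 ^ 2 + x 1 ^ 2) with hrd
  have hr : 0 < r := Real.sqrt_pos.2 hr2
  have hrr : r ^ 2 = x 0 ^ 2 + x 1 ^ 2 := Real.sq_sqrt hr2.le
  have hN := p11b_psd (x2 := x 2) (x3 := x 3) hr (by rw [hrr]; linarith) (fun m => w m 2)
    (fun m => w m 3)
  have hG : ∀ m k, (x 0 * w m 1 - x 1 * w m 0) / r * ((x 0 * w k 1 - x 1 * w k 0) / r) -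
      (Matrix.of fun m k : Fin 4 => w m 2 * w k 2 + w m 3 * w k 3 -
      (x 2 * w m 2 + x 3 * w m 3) * (x 2 * w k 2 + x 3 * w k 3) / r ^ 2) m k =
      w m 0 * w k 0 + w m 1 * w k 1 - w m 2 * w k 2 - w m 3 * w k 3 := by
    intro m k
    rw [Matrix.of_apply]
    exact p11b_id hr hrr (hwx m) (hwx k)
  have htr : Q 0 0 + Q 1 1 - Q 2 2 - Q 3 3 =
      ∑ m, (w m 0 * w m 0 + w m 1 * w m 1 - w m 2 * w m 2 - w m 3 * w m 3) := by
    rw [p11b_tr, hw, hw, hw, hw]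
  have h3 := P11_trace (U := fun m => (x 0 * w m 1 - x 1 * w m 0) / r) hN (by
    simp only [hG]
    rw [← htr]
    exact ht)
  simp only [hG] at h3
  rw [← htr, p11b_sq] at h3
  refine h3.trans (le_of_eq ?_)
  exact Finset.sum_congr rfl fun i _ => Finset.sum_congr rfl fun j _ => by rw [hw i j]

theorem P11_zero {Q : Matrix (Fin 4) (Fin 4) ℝ} (hQ : Q.PosSemidef) :
    0 ≤ ∑ i, ∑ j, et i * et j * Q i j ^ 2 := by
  obtain ⟨w, hw⟩ : ∃ w : Fin 4 → Fin 4 → ℝ, ∀ m k, Q m k = ∑ r, w r m * w r k := p11a_fac hQ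
  simp only [hw]
  rw [← p11b_sq]
  exact Finset.sum_nonneg fun m _ => Finset.sum_nonneg fun k _ => sq_nonneg _

end H30K
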