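import Pool.Agent.Lib.H30K.Defs

/-!
# P14 (M): the Gauss-Bonnet integrand for two classes of three indices

By `HopfKC.gb_blocks` (`Lib/H87/HopfKC/Block2.lean`): `gb R = 384 (QP bT - 2 bX + bE3)`. The types
condition `hs.z` gives `bG = 0` (`(lo, lo | hi, hi)`), `bL = 0` (`(lo, lo | lo, hi)`), `bM = 0`; so
`bX = 0` and `bE3 = ∑ i j k l, bA i k * bT i j k l * bC j l`; `hs.d`: `bT i j k l = 0` unless `i = k` and
`j = l`. In `H91.Mat3.QP` (look at its definition: a signed sum over permutations) with a diagonal `bT`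
only the terms with the same permutation twice remain: `∑ σ, ∏ i, bT i (σ i) i (σ i)`. The formula is
checked numerically.
-/

set_option autoImplicit false

open scoped ContDiff Topology Manifold
open Set

namespace H30K

open H31R H79G H60E
open Pool.Agent.H69Hopf (Arr IsAlgCurv ev area2)
open HopfKC (lo hi)

open HopfKC in
theorem P14_gb {R : Arr 6} (hR : IsAlgCurv R) (hs : Kr (fun i => decide (i.1 < 3)) R) :
    gb R = 384 * (∑ i, ∑ j, HopfKC.bA R i i * HopfKC.bT R i j i j * HopfKC.bC R j j +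
      ∑ σ : Equiv.Perm (Fin 3), ∏ i, HopfKC.bT R i (σ i) i (σ i)) := by
  have hlo : ∀ i : Fin 3, decide ((lo i).1 < 3) = true := by decide
  have hhi : ∀ i : Fin 3, decide ((hi i).1 < 3) = false := by decide
  have zT : ∀ i j k l, ¬(i = k ∧ j = l) → bT R i j k l = 0 := by
    intro i j k l h
    refine hs.d _ _ _ _ ?_ ?_ ?_ ?_
    · show decide ((lo i).1 < 3) ≠ decide ((hi j).1 < 3)
      rw [hlo, hhi]
      decide
    · show decide ((lo i).1 < 3) = decide ((lo k).1 < 3)
      rw [hlo, hlo]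
    · show decide ((hi j).1 < 3) = decide ((hi l).1 < 3)
      rw [hhi, hhi]
    · revert h
      revert i j k l
      decide
  have zG : ∀ i l, bG R i l = 0 := by
    intro i l
    by_contra h0
    rcases hs.z _ _ _ _ h0 with h | h
    · have h1 : decide ((lo (nx i)).1 < 3) = decide ((hi (nx l)).1 < 3) := h.1
      rw [hlo, hhi] at h1
      exact absurd h1 (by decide)
    · have h1 : decide ((lo (nx i)).1 < 3) = decide ((hi (pv l)).1 < 3) := h.1
      rw [hlo, hhi] at h1
      exact absurd h1 (by decide)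
  have zL : ∀ i k l, bL R i k l = 0 := by
    intro i k l
    by_contra h0
    rcases hs.z _ _ _ _ h0 with h | h
    · have h1 : decide ((lo (pv i)).1 < 3) = decide ((hi l).1 < 3) := h.2
      rw [hlo, hhi] at h1
      exact absurd h1 (by decide)
    · have h1 : decide ((lo (nx i)).1 < 3) = decide ((hi l).1 < 3) := h.1
      rw [hlo, hhi] at h1
      exact absurd h1 (by decide)
  have zM : ∀ i k l, bM R i k l = 0 := by
    intro i k l
    by_contra h0
    rcases hs.z _ _ _ _ h0 with h | h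
    · have h1 : decide ((hi (nx i)).1 < 3) = decide ((lo k).1 < 3) := h.1
      rw [hlo, hhi] at h1
      exact absurd h1 (by decide)
    · have h1 : decide ((hi (pv i)).1 < 3) = decide ((lo k).1 < 3) := h.2
      rw [hlo, hhi] at h1
      exact absurd h1 (by decide)
  have hR' : HopfSix.IsAlgCurv R := ⟨hR.skew, hR.pair, hR.bianchi⟩
  have e0 : H91.Mat3.QP (fun i k j l => bT R i k j l) - 2 * bX R + bE3 R =
      ∑ i, ∑ j, HopfKC.bA R i i * HopfKC.bT R i j i j * HopfKC.bC R j j +
      ∑ σ : Equiv.Perm (Fin 3), ∏ i, HopfKC.bT R i (σ i) i (σ i) := by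
    unfold H91.Mat3.QP bX bE3
    simp only [zG, zL, zM, zero_mul, mul_zero, add_zero, Finset.sum_const_zero, sub_zero]
    simp only [HopfKC.sum_perm3, Fin.prod_univ_three, Fin.sum_univ_three]
    simp only [Equiv.Perm.sign_one, Equiv.Perm.sign_mul, Equiv.Perm.sign_swap (show (0 : Fin 3) ≠ 1 by decide),
      Equiv.Perm.sign_swap (show (0 : Fin 3) ≠ 2 by decide), Equiv.Perm.sign_swap (show (1 : Fin 3) ≠ 2 by decide)]
    simp (decide := true) only [Equiv.Perm.coe_one, id, Equiv.Perm.coe_mul, Function.comp, Equiv.swap_apply_def, if_true, if_false]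
    simp only [zT 0 0 0 1 (by decide), zT 0 0 0 2 (by decide), zT 0 0 1 0 (by decide), zT 0 0 1 1 (by decide), zT 0 0 1 2 (by decide), zT 0 0 2 0 (by decide), zT 0 0 2 1 (by decide), zT 0 0 2 2 (by decide), zT 0 1 0 0 (by decide), zT 0 1 0 2 (by decide), zT 0 1 1 0 (by decide), zT 0 1 1 1 (by decide), zT 0 1 1 2 (by decide), zT 0 1 2 0 (by decide), zT 0 1 2 1 (by decide), zT 0 1 2 2 (by decide), zT 0 2 0 0 (by decide), zT 0 2 0 1 (by decide), zT 0 2 1 0 (by decide), zT 0 2 1 1 (by decide), zT 0 2 1 2 (by decide), zT 0 2 2 0 (by decide), zT 0 2 2 1 (by decide), zT 0 2 2 2 (by decide), zT 1 0 0 0 (by decide), zT 1 0 0 1 (by decide), zT 1 0 0 2 (by decide), zT 1 0 1 1 (by decide), zT 1 0 1 2 (by decide), zT 1 0 2 0 (by decide), zT 1 0 2 1 (by decide), zT 1 0 2 2 (by decide), zT 1 1 0 0 (by decide), zT 1 1 0 1 (by decide), zT 1 1 0 2 (by decide), zT 1 1 1 0 (by decide), zT 1 1 1 2 (by decide), zT 1 1 2 0 (by decide), zT 1 1 2 1 (by decide), zT 1 1 2 2 (by decide), zT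 1 2 0 0 (by decide), zT 1 2 0 1 (by decide), zT 1 2 0 2 (by decide), zT 1 2 1 0 (by decide), zT 1 2 1 1 (by decide), zT 1 2 2 0 (by decide), zT 1 2 2 1 (by decide), zT 1 2 2 2 (by decide), zT 2 0 0 0 (by decide), zT 2 0 0 1 (by decide), zT 2 0 0 2 (by decide), zT 2 0 1 0 (by decide), zT 2 0 1 1 (by decide), zT 2 0 1 2 (by decide), zT 2 0 2 1 (by decide), zT 2 0 2 2 (by decide), zT 2 1 0 0 (by decide), zT 2 1 0 1 (by decide), zT 2 1 0 2 (by decide), zT 2 1 1 0 (by decide), zT 2 1 1 1 (by decide), zT 2 1 1 2 (by decide), zT 2 1 2 0 (by decide), zT 2 1 2 2 (by decide), zT 2 2 0 0 (by decide), zT 2 2 0 1 (by decide), zT 2 2 0 2 (by decide), zT 2 2 1 0 (by decide), zT 2 2 1 1 (by decide), zT 2 2 1 2 (by decide), zT 2 2 2 0 (by decide), zT 2 2 2 1 (by decide), mul_zero, zero_mul, add_zero, zero_add]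
    simp only [Units.val_one, Units.val_neg, Int.cast_one, Int.cast_neg, mul_one, one_mul, mul_neg, neg_mul, neg_neg]
    ring
  rw [gb, HopfKC.gb_blocks hR', e0]

end H30K
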