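import Pool.Agent.Lib.H30K.Defs

/-!
# P7A (M/L): the Gauss-Bonnet integrand for three pairs of indices

`Trp R`: only the components with `{i, j} = {k, l}` (as pairs of types) are nonzero. So in the notation
of `HopfKC` (`lo i = ix i 0`, `hi i = ix i 1`), the nonzero components, up to symmetries, are
`k_i = R (lo i) (hi i) (lo i) (hi i)` and the blocks `bl R i j`, `i ≠ j`. The formula (checked
numerically) follows from `HopfKC.gb_blocks` (`Lib/H87/HopfKC/Block2.lean`; `bT i j k l =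
R (lo i) (hi j) (lo k) (hi l)`, `bA i k`, `bC j l`, `bG i l`, `bL`, `bM`): expand the sums
(`Fin.sum_univ_succ`, `sum_perm3` for `bX` and for `H91.Mat3.QP`), put the components excluded by
`Trp` equal to zero, normalise the remaining ones by skewness, pair symmetry and the consequences of
the Bianchi identity (`R(i a, j b, i a', j b') = R(i a, j b', i a', j b)` for `i ≠ j`, because
`R(i a, i a', j b, j b') = 0`), `ring`. It may be wise to first prove lemmas for the five parts (`QP`,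
`bX`, and the sums in `bE3`), and to name the 3 + 27 independent components.
-/

set_option autoImplicit false

open scoped ContDiff Topology Manifold
open Set

namespace H30K

open H31R H79G H60E
open Pool.Agent.H69Hopf (Arr IsAlgCurv ev area2)
open HopfKC (lo hi)


/-- types of the indices -/
def p7a_ty : Fin 6 → Fin 3 := ![0, 1, 2, 0, 1, 2]

theorem p7a_zero {R : Arr 6} (hT : Trp R) (i j k l : Fin 6)
    (h : ¬((p7a_ty i = p7a_ty k ∧ p7a_ty j = p7a_ty l) ∨ (p7a_ty i = p7a_ty l ∧ p7a_ty j = p7a_ty k))) :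
    R i j k l = 0 := by
  by_contra h0
  apply h
  have hx : ∀ i : Fin 6, ∃ a : Fin 2, i = ix (p7a_ty i) a := by decide
  obtain ⟨a, ha⟩ := hx i
  obtain ⟨b, hb⟩ := hx j
  obtain ⟨c, hc⟩ := hx k
  obtain ⟨e, he⟩ := hx l
  refine hT (p7a_ty i) (p7a_ty j) (p7a_ty k) (p7a_ty l) a b c e ?_
  rw [← ha, ← hb, ← hc, ← he]
  exact h0

theorem p7a_can {R : Arr 6} (hR : IsAlgCurv R) (hT : Trp R) :
    R 0 1 3 1 = -R 0 1 1 3 ∧
    R 0 4 0 1 = R 0 1 0 4 ∧
    R 0 4 1 3 = -R 0 1 3 4 ∧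
    R 0 4 3 1 = R 0 1 3 4 ∧
    R 0 5 2 3 = -R 0 2 3 5 ∧
    R 1 2 4 2 = -R 1 2 2 4 ∧
    R 1 3 0 4 = -R 0 1 3 4 ∧
    R 1 5 1 2 = R 1 2 1 5 ∧
    R 1 5 2 4 = -R 1 2 4 5 ∧
    R 1 5 4 2 = R 1 2 4 5 ∧
    R 2 0 0 5 = -R 0 2 0 5 ∧
    R 2 0 2 0 = R 0 2 0 2 ∧
    R 2 0 2 3 = -R 0 2 2 3 ∧
    R 2 0 5 0 = R 0 2 0 5 ∧
    R 2 0 5 3 = R 0 2 3 5 ∧
    R 2 3 0 5 = -R 0 2 3 5 ∧
    R 2 3 2 0 = -R 0 2 2 3 ∧
    R 2 3 5 0 = R 0 2 3 5 ∧
    R 2 3 5 3 = -R 2 3 3 5 ∧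
    R 2 4 1 5 = -R 1 2 4 5 ∧
    R 3 1 0 1 = -R 0 1 1 3 ∧
    R 3 1 0 4 = R 0 1 3 4 ∧
    R 3 1 3 1 = R 1 3 1 3 ∧
    R 3 1 3 4 = -R 1 3 3 4 ∧
    R 3 4 0 1 = R 0 1 3 4 ∧
    R 3 4 0 4 = R 0 4 3 4 ∧
    R 3 4 1 3 = R 1 3 3 4 ∧
    R 3 4 3 1 = -R 1 3 3 4 ∧
    R 4 2 1 2 = -R 1 2 2 4 ∧
    R 4 2 1 5 = R 1 2 4 5 ∧
    R 4 2 4 2 = R 2 4 2 4 ∧
    R 4 2 4 5 = -R 2 4 4 5 ∧
    R 4 5 1 2 = R 1 2 4 5 ∧
    R 4 5 1 5 = R 1 5 4 5 ∧
    R 4 5 2 4 = R 2 4 4 5 ∧
    R 4 5 4 2 = -R 2 4 4 5 ∧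
    R 5 0 2 0 = R 0 2 0 5 ∧
    R 5 0 2 3 = R 0 2 3 5 ∧
    R 5 0 5 0 = R 0 5 0 5 ∧
    R 5 0 5 3 = R 0 5 3 5 ∧
    R 5 3 0 5 = -R 0 5 3 5 ∧
    R 5 3 2 0 = R 0 2 3 5 ∧
    R 5 3 2 3 = -R 2 3 3 5 ∧
    R 5 3 5 0 = R 0 5 3 5 ∧
    R 5 3 5 3 = R 3 5 3 5 := by
  have sk2 : ∀ i j k l, R i j k l = - R i j l k := fun i j k l => by
    rw [hR.pair i j k l, hR.skew k l i j, hR.pair l k i j]
  have z0 := p7a_zero hT
  refine ⟨(by have h1 := hR.skew 0 1 3 1; have h2 := hR.pair 0 1 3 1; have h3 := sk2 0 1 3 1; have h4 := hR.skew 0 1 1 3; have h5 := hR.pair 1 0 3 1; have h6 := hR.pair 0 1 1 3;have h7 := hR.pair 1 0 1 3; linarith),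
    (by have h1 := hR.skew 0 4 0 1; have h2 := hR.pair 0 4 0 1; have h3 := sk2 0 4 0 1; have h4 := hR.skew 0 4 1 0; have h5 := hR.pair 4 0 0 1; have h6 := hR.pair 0 4 1 0;have h7 := hR.pair 4 0 1 0; linarith),
    (by have h1 := hR.skew 0 4 1 3; have h2 := hR.pair 0 4 1 3; have h3 := sk2 0 4 1 3; have h4 := hR.skew 0 4 3 1; have h5 := hR.pair 4 0 1 3; have h6 := hR.pair 0 4 3 1;have h7 := hR.pair 4 0 3 1; have b1 := hR.bianchi 0 1 3 4; have b2 := z0 3 0 1 4 (by decide); have b3 := hR.skew 1 3 0 4; have b4 := hR.pair 3 1 0 4; have b5 := sk2 0 4 3 1; have b6 := hR.skew 0 4 3 1; have b7 := hR.pair 0 1 3 4; have b8 := hR.pair 4 0 1 3; have b9 := sk2 0 1 3 4; have b10 := hR.pair 0 4 1 3; linarith),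
    (by have h1 := hR.skew 0 4 3 1; have h2 := hR.pair 0 4 3 1; have h3 := sk2 0 4 3 1; have h4 := hR.skew 0 4 1 3; have h5 := hR.pair 4 0 3 1; have h6 := hR.pair 0 4 1 3;have h7 := hR.pair 4 0 1 3; have b1 := hR.bianchi 0 1 3 4; have b2 := z0 3 0 1 4 (by decide); have b3 := hR.skew 1 3 0 4; have b4 := hR.pair 3 1 0 4; have b5 := sk2 0 4 3 1; have b6 := hR.skew 0 4 3 1; have b7 := hR.pair 0 1 3 4; have b8 := hR.pair 4 0 1 3; have b9 := sk2 0 1 3 4; have b10 := hR.pair 0 4 1 3; linarith),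
    (by have h1 := hR.skew 0 5 2 3; have h2 := hR.pair 0 5 2 3; have h3 := sk2 0 5 2 3; have h4 := hR.skew 0 5 3 2; have h5 := hR.pair 5 0 2 3; have h6 := hR.pair 0 5 3 2;have h7 := hR.pair 5 0 3 2; have b1 := hR.bianchi 0 2 3 5; have b2 := z0 3 0 2 5 (by decide); have b3 := hR.skew 2 3 0 5; have b4 := hR.pair 3 2 0 5; have b5 := sk2 0 5 3 2; have b6 := hR.skew 0 5 3 2; have b7 := hR.pair 0 2 3 5; have b8 := hR.pair 5 0 2 3; have b9 := sk2 0 2 3 5; have b10 := hR.pair 0 5 2 3; linarith),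
    (by have h1 := hR.skew 1 2 4 2; have h2 := hR.pair 1 2 4 2; have h3 := sk2 1 2 4 2; have h4 := hR.skew 1 2 2 4; have h5 := hR.pair 2 1 4 2; have h6 := hR.pair 1 2 2 4;have h7 := hR.pair 2 1 2 4; linarith),
    (by have h1 := hR.skew 1 3 0 4; have h2 := hR.pair 1 3 0 4; have h3 := sk2 1 3 0 4; have h4 := hR.skew 1 3 4 0; have h5 := hR.pair 3 1 0 4; have h6 := hR.pair 1 3 4 0;have h7 := hR.pair 3 1 4 0; have b1 := hR.bianchi 0 1 3 4; have b2 := z0 3 0 1 4 (by decide); have b3 := hR.skew 1 3 0 4; have b4 := hR.pair 3 1 0 4; have b5 := sk2 0 4 3 1; have b6 := hR.skew 0 4 3 1; have b7 := hR.pair 0 1 3 4; have b8 := hR.pair 4 0 1 3; have b9 := sk2 0 1 3 4; have b10 := hR.pair 0 4 1 3; linarith),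
    (by have h1 := hR.skew 1 5 1 2; have h2 := hR.pair 1 5 1 2; have h3 := sk2 1 5 1 2; have h4 := hR.skew 1 5 2 1; have h5 := hR.pair 5 1 1 2; have h6 := hR.pair 1 5 2 1;have h7 := hR.pair 5 1 2 1; linarith),
    (by have h1 := hR.skew 1 5 2 4; have h2 := hR.pair 1 5 2 4; have h3 := sk2 1 5 2 4; have h4 := hR.skew 1 5 4 2; have h5 := hR.pair 5 1 2 4; have h6 := hR.pair 1 5 4 2;have h7 := hR.pair 5 1 4 2; have b1 := hR.bianchi 1 2 4 5; have b2 := z0 4 1 2 5 (by decide); have b3 := hR.skew 2 4 1 5; have b4 := hR.pair 4 2 1 5; have b5 := sk2 1 5 4 2; have b6 := hR.skew 1 5 4 2; have b7 := hR.pair 1 2 4 5; have b8 := hR.pair 5 1 2 4; have b9 := sk2 1 2 4 5; have b10 := hR.pair 1 5 2 4; linarith),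
    (by have h1 := hR.skew 1 5 4 2; have h2 := hR.pair 1 5 4 2; have h3 := sk2 1 5 4 2; have h4 := hR.skew 1 5 2 4; have h5 := hR.pair 5 1 4 2; have h6 := hR.pair 1 5 2 4;have h7 := hR.pair 5 1 2 4; have b1 := hR.bianchi 1 2 4 5; have b2 := z0 4 1 2 5 (by decide); have b3 := hR.skew 2 4 1 5; have b4 := hR.pair 4 2 1 5; have b5 := sk2 1 5 4 2; have b6 := hR.skew 1 5 4 2; have b7 := hR.pair 1 2 4 5; have b8 := hR.pair 5 1 2 4; have b9 := sk2 1 2 4 5; have b10 := hR.pair 1 5 2 4; linarith),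
    (by have h1 := hR.skew 2 0 0 5; have h2 := hR.pair 2 0 0 5; have h3 := sk2 2 0 0 5; have h4 := hR.skew 2 0 5 0; have h5 := hR.pair 0 2 0 5; have h6 := hR.pair 2 0 5 0;have h7 := hR.pair 0 2 5 0; linarith),
    (by have h1 := hR.skew 2 0 2 0; have h2 := hR.pair 2 0 2 0; have h3 := sk2 2 0 2 0; have h4 := hR.skew 2 0 0 2; have h5 := hR.pair 0 2 2 0; have h6 := hR.pair 2 0 0 2;have h7 := hR.pair 0 2 0 2; linarith),
    (by have h1 := hR.skew 2 0 2 3; have h2 := hR.pair 2 0 2 3; have h3 := sk2 2 0 2 3; have h4 := hR.skew 2 0 3 2; have h5 := hR.pair 0 2 2 3; have h6 := hR.pair 2 0 3 2;have h7 := hR.pair 0 2 3 2; linarith),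
    (by have h1 := hR.skew 2 0 5 0; have h2 := hR.pair 2 0 5 0; have h3 := sk2 2 0 5 0; have h4 := hR.skew 2 0 0 5; have h5 := hR.pair 0 2 5 0; have h6 := hR.pair 2 0 0 5;have h7 := hR.pair 0 2 0 5; linarith),
    (by have h1 := hR.skew 2 0 5 3; have h2 := hR.pair 2 0 5 3; have h3 := sk2 2 0 5 3; have h4 := hR.skew 2 0 3 5; have h5 := hR.pair 0 2 5 3; have h6 := hR.pair 2 0 3 5;have h7 := hR.pair 0 2 3 5; have b1 := hR.bianchi 0 2 3 5; have b2 := z0 3 0 2 5 (by decide); have b3 := hR.skew 2 3 0 5; have b4 := hR.pair 3 2 0 5; have b5 := sk2 0 5 3 2; have b6 := hR.skew 0 5 3 2; have b7 := hR.pair 0 2 3 5; have b8 := hR.pair 5 0 2 3; have b9 := sk2 0 2 3 5; have b10 := hR.pair 0 5 2 3; linarith),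
    (by have h1 := hR.skew 2 3 0 5; have h2 := hR.pair 2 3 0 5; have h3 := sk2 2 3 0 5; have h4 := hR.skew 2 3 5 0; have h5 := hR.pair 3 2 0 5; have h6 := hR.pair 2 3 5 0;have h7 := hR.pair 3 2 5 0; have b1 := hR.bianchi 0 2 3 5; have b2 := z0 3 0 2 5 (by decide); have b3 := hR.skew 2 3 0 5; have b4 := hR.pair 3 2 0 5; have b5 := sk2 0 5 3 2; have b6 := hR.skew 0 5 3 2; have b7 := hR.pair 0 2 3 5; have b8 := hR.pair 5 0 2 3; have b9 := sk2 0 2 3 5; have b10 := hR.pair 0 5 2 3; linarith),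
    (by have h1 := hR.skew 2 3 2 0; have h2 := hR.pair 2 3 2 0; have h3 := sk2 2 3 2 0; have h4 := hR.skew 2 3 0 2; have h5 := hR.pair 3 2 2 0; have h6 := hR.pair 2 3 0 2;have h7 := hR.pair 3 2 0 2; linarith),
    (by have h1 := hR.skew 2 3 5 0; have h2 := hR.pair 2 3 5 0; have h3 := sk2 2 3 5 0; have h4 := hR.skew 2 3 0 5; have h5 := hR.pair 3 2 5 0; have h6 := hR.pair 2 3 0 5;have h7 := hR.pair 3 2 0 5; have b1 := hR.bianchi 0 2 3 5; have b2 := z0 3 0 2 5 (by decide); have b3 := hR.skew 2 3 0 5; have b4 := hR.pair 3 2 0 5; have b5 := sk2 0 5 3 2; have b6 := hR.skew 0 5 3 2; have b7 := hR.pair 0 2 3 5; have b8 := hR.pair 5 0 2 3; have b9 := sk2 0 2 3 5; have b10 := hR.pair 0 5 2 3; linarith),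
    (by have h1 := hR.skew 2 3 5 3; have h2 := hR.pair 2 3 5 3; have h3 := sk2 2 3 5 3; have h4 := hR.skew 2 3 3 5; have h5 := hR.pair 3 2 5 3; have h6 := hR.pair 2 3 3 5;have h7 := hR.pair 3 2 3 5; linarith),
    (by have h1 := hR.skew 2 4 1 5; have h2 := hR.pair 2 4 1 5; have h3 := sk2 2 4 1 5; have h4 := hR.skew 2 4 5 1; have h5 := hR.pair 4 2 1 5; have h6 := hR.pair 2 4 5 1;have h7 := hR.pair 4 2 5 1; have b1 := hR.bianchi 1 2 4 5; have b2 := z0 4 1 2 5 (by decide); have b3 := hR.skew 2 4 1 5; have b4 := hR.pair 4 2 1 5; have b5 := sk2 1 5 4 2; have b6 := hR.skew 1 5 4 2; have b7 := hR.pair 1 2 4 5; have b8 := hR.pair 5 1 2 4; have b9 := sk2 1 2 4 5; have b10 := hR.pair 1 5 2 4; linarith),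
    (by have h1 := hR.skew 3 1 0 1; have h2 := hR.pair 3 1 0 1; have h3 := sk2 3 1 0 1; have h4 := hR.skew 3 1 1 0; have h5 := hR.pair 1 3 0 1; have h6 := hR.pair 3 1 1 0;have h7 := hR.pair 1 3 1 0; linarith),
    (by have h1 := hR.skew 3 1 0 4; have h2 := hR.pair 3 1 0 4; have h3 := sk2 3 1 0 4; have h4 := hR.skew 3 1 4 0; have h5 := hR.pair 1 3 0 4; have h6 := hR.pair 3 1 4 0;have h7 := hR.pair 1 3 4 0; have b1 := hR.bianchi 0 1 3 4; have b2 := z0 3 0 1 4 (by decide); have b3 := hR.skew 1 3 0 4; have b4 := hR.pair 3 1 0 4; have b5 := sk2 0 4 3 1; have b6 := hR.skew 0 4 3 1; have b7 := hR.pair 0 1 3 4; have b8 := hR.pair 4 0 1 3; have b9 := sk2 0 1 3 4; have b10 := hR.pair 0 4 1 3; linarith),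
    (by have h1 := hR.skew 3 1 3 1; have h2 := hR.pair 3 1 3 1; have h3 := sk2 3 1 3 1; have h4 := hR.skew 3 1 1 3; have h5 := hR.pair 1 3 3 1; have h6 := hR.pair 3 1 1 3;have h7 := hR.pair 1 3 1 3; linarith),
    (by have h1 := hR.skew 3 1 3 4; have h2 := hR.pair 3 1 3 4; have h3 := sk2 3 1 3 4; have h4 := hR.skew 3 1 4 3; have h5 := hR.pair 1 3 3 4; have h6 := hR.pair 3 1 4 3;have h7 := hR.pair 1 3 4 3; linarith),
    (by have h1 := hR.skew 3 4 0 1; have h2 := hR.pair 3 4 0 1; have h3 := sk2 3 4 0 1; have h4 := hR.skew 3 4 1 0; have h5 := hR.pair 4 3 0 1; have h6 := hR.pair 3 4 1 0;have h7 := hR.pair 4 3 1 0; have b1 := hR.bianchi 0 1 3 4; have b2 := z0 3 0 1 4 (by decide); have b3 := hR.skew 1 3 0 4; have b4 := hR.pair 3 1 0 4; have b5 := sk2 0 4 3 1; have b6 := hR.skew 0 4 3 1; have b7 := hR.pair 0 1 3 4; have b8 := hR.pair 4 0 1 3; have b9 := sk2 0 1 3 4; have b10 := hR.pair 0 4 1 3; linarith),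
    (by have h1 := hR.skew 3 4 0 4; have h2 := hR.pair 3 4 0 4; have h3 := sk2 3 4 0 4; have h4 := hR.skew 3 4 4 0; have h5 := hR.pair 4 3 0 4; have h6 := hR.pair 3 4 4 0;have h7 := hR.pair 4 3 4 0; linarith),
    (by have h1 := hR.skew 3 4 1 3; have h2 := hR.pair 3 4 1 3; have h3 := sk2 3 4 1 3; have h4 := hR.skew 3 4 3 1; have h5 := hR.pair 4 3 1 3; have h6 := hR.pair 3 4 3 1;have h7 := hR.pair 4 3 3 1; linarith),
    (by have h1 := hR.skew 3 4 3 1; have h2 := hR.pair 3 4 3 1; have h3 := sk2 3 4 3 1; have h4 := hR.skew 3 4 1 3; have h5 := hR.pair 4 3 3 1; have h6 := hR.pair 3 4 1 3;have h7 := hR.pair 4 3 1 3; linarith),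
    (by have h1 := hR.skew 4 2 1 2; have h2 := hR.pair 4 2 1 2; have h3 := sk2 4 2 1 2; have h4 := hR.skew 4 2 2 1; have h5 := hR.pair 2 4 1 2; have h6 := hR.pair 4 2 2 1;have h7 := hR.pair 2 4 2 1; linarith),
    (by have h1 := hR.skew 4 2 1 5; have h2 := hR.pair 4 2 1 5; have h3 := sk2 4 2 1 5; have h4 := hR.skew 4 2 5 1; have h5 := hR.pair 2 4 1 5; have h6 := hR.pair 4 2 5 1;have h7 := hR.pair 2 4 5 1; have b1 := hR.bianchi 1 2 4 5; have b2 := z0 4 1 2 5 (by decide); have b3 := hR.skew 2 4 1 5; have b4 := hR.pair 4 2 1 5; have b5 := sk2 1 5 4 2; have b6 := hR.skew 1 5 4 2; have b7 := hR.pair 1 2 4 5; have b8 := hR.pair 5 1 2 4; have b9 := sk2 1 2 4 5; have b10 := hR.pair 1 5 2 4; linarith),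
    (by have h1 := hR.skew 4 2 4 2; have h2 := hR.pair 4 2 4 2; have h3 := sk2 4 2 4 2; have h4 := hR.skew 4 2 2 4; have h5 := hR.pair 2 4 4 2; have h6 := hR.pair 4 2 2 4;have h7 := hR.pair 2 4 2 4; linarith),
    (by have h1 := hR.skew 4 2 4 5; have h2 := hR.pair 4 2 4 5; have h3 := sk2 4 2 4 5; have h4 := hR.skew 4 2 5 4; have h5 := hR.pair 2 4 4 5; have h6 := hR.pair 4 2 5 4;have h7 := hR.pair 2 4 5 4; linarith),
    (by have h1 := hR.skew 4 5 1 2; have h2 := hR.pair 4 5 1 2; have h3 := sk2 4 5 1 2; have h4 := hR.skew 4 5 2 1; have h5 := hR.pair 5 4 1 2; have h6 := hR.pair 4 5 2 1;have h7 := hR.pair 5 4 2 1; have b1 := hR.bianchi 1 2 4 5; have b2 := z0 4 1 2 5 (by decide); have b3 := hR.skew 2 4 1 5; have b4 := hR.pair 4 2 1 5; have b5 := sk2 1 5 4 2; have b6 := hR.skew 1 5 4 2; have b7 := hR.pair 1 2 4 5; have b8 := hR.pair 5 1 2 4; have b9 := sk2 1 2 4 5; have b10 := hR.pair 1 5 2 4; linarith),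
    (by have h1 := hR.skew 4 5 1 5; have h2 := hR.pair 4 5 1 5; have h3 := sk2 4 5 1 5; have h4 := hR.skew 4 5 5 1; have h5 := hR.pair 5 4 1 5; have h6 := hR.pair 4 5 5 1;have h7 := hR.pair 5 4 5 1; linarith),
    (by have h1 := hR.skew 4 5 2 4; have h2 := hR.pair 4 5 2 4; have h3 := sk2 4 5 2 4; have h4 := hR.skew 4 5 4 2; have h5 := hR.pair 5 4 2 4; have h6 := hR.pair 4 5 4 2;have h7 := hR.pair 5 4 4 2; linarith),
    (by have h1 := hR.skew 4 5 4 2; have h2 := hR.pair 4 5 4 2; have h3 := sk2 4 5 4 2; have h4 := hR.skew 4 5 2 4; have h5 := hR.pair 5 4 4 2; have h6 := hR.pair 4 5 2 4;have h7 := hR.pair 5 4 2 4; linarith),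
    (by have h1 := hR.skew 5 0 2 0; have h2 := hR.pair 5 0 2 0; have h3 := sk2 5 0 2 0; have h4 := hR.skew 5 0 0 2; have h5 := hR.pair 0 5 2 0; have h6 := hR.pair 5 0 0 2;have h7 := hR.pair 0 5 0 2; linarith),
    (by have h1 := hR.skew 5 0 2 3; have h2 := hR.pair 5 0 2 3; have h3 := sk2 5 0 2 3; have h4 := hR.skew 5 0 3 2; have h5 := hR.pair 0 5 2 3; have h6 := hR.pair 5 0 3 2;have h7 := hR.pair 0 5 3 2; have b1 := hR.bianchi 0 2 3 5; have b2 := z0 3 0 2 5 (by decide); have b3 := hR.skew 2 3 0 5; have b4 := hR.pair 3 2 0 5; have b5 := sk2 0 5 3 2; have b6 := hR.skew 0 5 3 2; have b7 := hR.pair 0 2 3 5; have b8 := hR.pair 5 0 2 3; have b9 := sk2 0 2 3 5; have b10 := hR.pair 0 5 2 3; linarith),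
    (by have h1 := hR.skew 5 0 5 0; have h2 := hR.pair 5 0 5 0; have h3 := sk2 5 0 5 0; have h4 := hR.skew 5 0 0 5; have h5 := hR.pair 0 5 5 0; have h6 := hR.pair 5 0 0 5;have h7 := hR.pair 0 5 0 5; linarith),
    (by have h1 := hR.skew 5 0 5 3; have h2 := hR.pair 5 0 5 3; have h3 := sk2 5 0 5 3; have h4 := hR.skew 5 0 3 5; have h5 := hR.pair 0 5 5 3; have h6 := hR.pair 5 0 3 5;have h7 := hR.pair 0 5 3 5; linarith),
    (by have h1 := hR.skew 5 3 0 5; have h2 := hR.pair 5 3 0 5; have h3 := sk2 5 3 0 5; have h4 := hR.skew 5 3 5 0; have h5 := hR.pair 3 5 0 5; have h6 := hR.pair 5 3 5 0;have h7 := hR.pair 3 5 5 0; linarith),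
    (by have h1 := hR.skew 5 3 2 0; have h2 := hR.pair 5 3 2 0; have h3 := sk2 5 3 2 0; have h4 := hR.skew 5 3 0 2; have h5 := hR.pair 3 5 2 0; have h6 := hR.pair 5 3 0 2;have h7 := hR.pair 3 5 0 2; have b1 := hR.bianchi 0 2 3 5; have b2 := z0 3 0 2 5 (by decide); have b3 := hR.skew 2 3 0 5; have b4 := hR.pair 3 2 0 5; have b5 := sk2 0 5 3 2; have b6 := hR.skew 0 5 3 2; have b7 := hR.pair 0 2 3 5; have b8 := hR.pair 5 0 2 3; have b9 := sk2 0 2 3 5; have b10 := hR.pair 0 5 2 3; linarith),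
    (by have h1 := hR.skew 5 3 2 3; have h2 := hR.pair 5 3 2 3; have h3 := sk2 5 3 2 3; have h4 := hR.skew 5 3 3 2; have h5 := hR.pair 3 5 2 3; have h6 := hR.pair 5 3 3 2;have h7 := hR.pair 3 5 3 2; linarith),
    (by have h1 := hR.skew 5 3 5 0; have h2 := hR.pair 5 3 5 0; have h3 := sk2 5 3 5 0; have h4 := hR.skew 5 3 0 5; have h5 := hR.pair 3 5 5 0; have h6 := hR.pair 5 3 0 5;have h7 := hR.pair 3 5 0 5; linarith),
    (by have h1 := hR.skew 5 3 5 3; have h2 := hR.pair 5 3 5 3; have h3 := sk2 5 3 5 3; have h4 := hR.skew 5 3 3 5; have h5 := hR.pair 3 5 5 3; have h6 := hR.pair 5 3 3 5;have h7 := hR.pair 3 5 3 5; linarith)⟩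


open HopfKC in
theorem P7_gb {R : Arr 6} (hR : IsAlgCurv R) (hT : Trp R) :
    gb R = 384 * (R 0 3 0 3 * R 1 4 1 4 * R 2 5 2 5 + R 0 3 0 3 * DD (bl R 1 2) +
      R 1 4 1 4 * DD (bl R 2 0) + R 2 5 2 5 * DD (bl R 0 1) +
      TT (bl R 0 1) (bl R 1 2) (bl R 2 0)) := by
  have z0 := p7a_zero hT
  obtain ⟨c0131, c0401, c0413, c0431, c0523, c1242, c1304, c1512, c1524, c1542, c2005, c2020, c2023, c2050, c2053, c2305, c2320, c2350, c2353, c2415, c3101, c3104, c3131, c3134, c3401, c3404, c3413, c3431, c4212, c4215, c4242, c4245, c4512, c4515, c4524, c4542, c5020, c5023, c5050, c5053, c5305, c5320, c5323, c5350, c5353⟩ := p7a_can hR hT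
  have zT : ∀ i j k l, ¬(i = k ∧ j = l) → ¬(i = l ∧ j = k) → bT R i j k l = 0 := by
    intro i j k l h1 h2
    refine z0 _ _ _ _ ?_
    revert h1 h2
    revert i j k l
    decide
  have zA : ∀ i k, i ≠ k → bA R i k = 0 := by
    intro i k h1
    refine z0 _ _ _ _ ?_
    revert h1
    revert i k
    decide
  have zC : ∀ i k, i ≠ k → bC R i k = 0 := by
    intro i k h1
    refine z0 _ _ _ _ ?_
    revert h1
    revert i k
    decide
  have zG : ∀ i k, i ≠ k → bG R i k = 0 := by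
    intro i k h1
    refine z0 _ _ _ _ ?_
    revert h1
    revert i k
    decide
  have zL : ∀ i k l, ¬(k = nx i ∧ l = pv i) → ¬(l = nx i ∧ k = pv i) → bL R i k l = 0 := by
    intro i k l h1 h2
    refine z0 _ _ _ _ ?_
    revert h1 h2
    revert i k l
    decide
  have zM : ∀ i k l, ¬(k = nx i ∧ l = pv i) → ¬(l = nx i ∧ k = pv i) → bM R i k l = 0 := by
    intro i k l h1 h2
    refine z0 _ _ _ _ ?_
    revert h1 h2
    revert i k l
    decide
  have hR' : HopfSix.IsAlgCurv R := ⟨hR.skew, hR.pair, hR.bianchi⟩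
  have e0 : H91.Mat3.QP (fun i k j l => bT R i k j l) - 2 * bX R + bE3 R =
      R 0 3 0 3 * R 1 4 1 4 * R 2 5 2 5 + R 0 3 0 3 * DD (bl R 1 2) +
      R 1 4 1 4 * DD (bl R 2 0) + R 2 5 2 5 * DD (bl R 0 1) +
      TT (bl R 0 1) (bl R 1 2) (bl R 2 0) := by
    unfold H91.Mat3.QP bX bE3 DD TT
    simp only [HopfKC.sum_perm3, Fin.prod_univ_three, Fin.sum_univ_three, Fin.sum_univ_two]
    simp only [Equiv.Perm.sign_one, Equiv.Perm.sign_mul, Equiv.Perm.sign_swap (show (0 : Fin 3) ≠ 1 by decide),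
      Equiv.Perm.sign_swap (show (0 : Fin 3) ≠ 2 by decide), Equiv.Perm.sign_swap (show (1 : Fin 3) ≠ 2 by decide)]
    simp (decide := true) only [Equiv.Perm.coe_one, id, Equiv.Perm.coe_mul, Function.comp, Equiv.swap_apply_def, if_true, if_false]
    simp only [zT 0 0 0 1 (by decide) (by decide), zT 0 0 0 2 (by decide) (by decide), zT 0 0 1 0 (by decide) (by decide), zT 0 0 1 1 (by decide) (by decide), zT 0 0 1 2 (by decide) (by decide), zT 0 0 2 0 (by decide) (by decide), zT 0 0 2 1 (by decide) (by decide), zT 0 0 2 2 (by decide) (by decide), zT 0 1 0 0 (by decide) (by decide), zT 0 1 0 2 (by decide) (by decide), zT 0 1 1 1 (by decide) (by decide), zT 0 1 1 2 (by decide) (by decide), zT 0 1 2 0 (by decide) (by decide), zT 0 1 2 1 (by decide) (by decide), zT 0 1 2 2 (by decide) (by decide), zT 0 2 0 0 (by decide) (by decide), zT 0 2 0 1 (by decide) (by decide), zT 0 2 1 0 (by decide) (by decide),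 zT 0 2 1 1 (by decide) (by decide), zT 0 2 1 2 (by decide) (by decide), zT 0 2 2 1 (by decide) (by decide), zT 0 2 2 2 (by decide) (by decide), zT 1 0 0 0 (by decide) (by decide), zT 1 0 0 2 (by decide) (by decide), zT 1 0 1 1 (by decide) (by decide), zT 1 0 1 2 (by decide) (by decide), zT 1 0 2 0 (by decide) (by decide), zT 1 0 2 1 (by decide) (by decide), zT 1 0 2 2 (by decide) (by decide), zT 1 1 0 0 (by decide) (by decide), zT 1 1 0 1 (by decide) (by decide), zT 1 1 0 2 (by decide) (by decide), zT 1 1 1 0 (by decide) (by decide), zT 1 1 1 2 (by decide) (by decide), zT 1 1 2 0 (by decide) (by decide), zT 1 1 2 1 (by decide) (by decide), zT 1 1 2 2 (by decide) (by decide), zT 1 2 0 0 (by decide) (by decide), zT 1 2 0 1 (by decide) (by decide), zT 1 2 0 2 (by decide) (by decide), zT 1 2 1 0 (by decide) (by decide), zT 1 2 1 1 (by decide) (by decide), zT 1 2 2 0 (by decide) (by decide), zT 1 2 2 2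 (by decide) (by decide), zT 2 0 0 0 (by decide) (by decide), zT 2 0 0 1 (by decide) (by decide), zT 2 0 1 0 (by decide) (by decide), zT 2 0 1 1 (by decide) (by decide), zT 2 0 1 2 (by decide) (by decide), zT 2 0 2 1 (by decide) (by decide), zT 2 0 2 2 (by decide) (by decide), zT 2 1 0 0 (by decide) (by decide), zT 2 1 0 1 (by decide) (by decide), zT 2 1 0 2 (by decide) (by decide), zT 2 1 1 0 (by decide) (by decide), zT 2 1 1 1 (by decide) (by decide), zT 2 1 2 0 (by decide) (by decide), zT 2 1 2 2 (by decide) (by decide), zT 2 2 0 0 (by decide) (by decide), zT 2 2 0 1 (by decide) (by decide), zT 2 2 0 2 (by decide) (by decide), zT 2 2 1 0 (by decide) (by decide), zT 2 2 1 1 (by decide) (by decide), zT 2 2 1 2 (by decide) (by decide), zT 2 2 2 0 (by decide) (by decide), zT 2 2 2 1 (by decide) (by decide), zA 0 1 (by decide), zC 0 1 (by decide), zG 0 1 (by decide), zA 0 2 (by decide), zC 0 2 (by decide),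 zG 0 2 (by decide), zA 1 0 (by decide), zC 1 0 (by decide), zG 1 0 (by decide), zA 1 2 (by decide), zC 1 2 (by decide), zG 1 2 (by decide), zA 2 0 (by decide), zC 2 0 (by decide), zG 2 0 (by decide), zA 2 1 (by decide), zC 2 1 (by decide), zG 2 1 (by decide), zL 0 0 0 (by decide) (by decide), zM 0 0 0 (by decide) (by decide), zL 0 0 1 (by decide) (by decide), zM 0 0 1 (by decide) (by decide), zL 0 0 2 (by decide) (by decide), zM 0 0 2 (by decide) (by decide), zL 0 1 0 (by decide) (by decide), zM 0 1 0 (by decide) (by decide), zL 0 1 1 (by decide) (by decide), zM 0 1 1 (by decide) (by decide), zL 0 2 0 (by decide) (by decide), zM 0 2 0 (by decide) (by decide), zL 0 2 2 (by decide) (by decide), zM 0 2 2 (by decide) (by decide), zL 1 0 0 (by decide) (by decide), zM 1 0 0 (by decide) (by decide), zL 1 0 1 (by decide) (by decide), zM 1 0 1 (by decide) (by decide), zL 1 1 0 (by decide) (by decide), zM 1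 1 0 (by decide) (by decide), zL 1 1 1 (by decide) (by decide), zM 1 1 1 (by decide) (by decide), zL 1 1 2 (by decide) (by decide), zM 1 1 2 (by decide) (by decide), zL 1 2 1 (by decide) (by decide), zM 1 2 1 (by decide) (by decide), zL 1 2 2 (by decide) (by decide), zM 1 2 2 (by decide) (by decide), zL 2 0 0 (by decide) (by decide), zM 2 0 0 (by decide) (by decide), zL 2 0 2 (by decide) (by decide), zM 2 0 2 (by decide) (by decide), zL 2 1 1 (by decide) (by decide), zM 2 1 1 (by decide) (by decide), zL 2 1 2 (by decide) (by decide), zM 2 1 2 (by decide) (by decide), zL 2 2 0 (by decide) (by decide), zM 2 2 0 (by decide) (by decide), zL 2 2 1 (by decide) (by decide), zM 2 2 1 (by decide) (by decide), zL 2 2 2 (by decide) (by decide), zM 2 2 2 (by decide) (by decide), mul_zero, zero_mul, add_zero, zero_add]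
    simp only [Units.val_one, Units.val_neg, Units.val_mul, Int.cast_one, Int.cast_neg, mul_one, one_mul, mul_neg, neg_mul, neg_neg]
    simp only [show (1 - 0 : Fin 2) = 1 by decide, show (1 - 1 : Fin 2) = 0 by decide, show ((0 : Fin 2) : ℕ) = 0 by decide, show ((1 : Fin 2) : ℕ) = 1 by decide]
    simp only [(show bA R 0 0 = R 1 2 1 2 from rfl), (show bA R 1 1 = R 0 2 0 2 from c2020), (show bA R 2 2 = R 0 1 0 1 from rfl), (show bC R 0 0 = R 4 5 4 5 from rfl), (show bC R 1 1 = R 3 5 3 5 from c5353), (show bC R 2 2 = R 3 4 3 4 from rfl), (show bG R 0 0 = R 1 2 4 5 from rfl), (show bG R 1 1 = R 0 2 3 5 from c2053), (show bG R 2 2 = R 0 1 3 4 from rfl), (show bL R 0 1 2 = R 1 2 1 5 from rfl), (show bL R 0 2 1 = R 1 2 2 4 from rfl), (show bL R 1 0 2 = -R 0 2 0 5 from c2005), (show bL R 1 2 0 = -R 0 2 2 3 from c2023), (show bL R 2 0 1 = R 0 1 0 4 from rfl), (show bL R 2 1 0 = R 0 1 1 3 from rfl), (show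 bM R 0 1 2 = R 1 5 4 5 from c4515), (show bM R 0 2 1 = R 2 4 4 5 from c4524), (show bM R 1 0 2 = -R 0 5 3 5 from c5305), (show bM R 1 2 0 = -R 2 3 3 5 from c5323), (show bM R 2 0 1 = R 0 4 3 4 from c3404), (show bM R 2 1 0 = R 1 3 3 4 from c3413), (show bT R 0 0 0 0 = R 0 3 0 3 from rfl), (show bT R 0 1 0 1 = R 0 4 0 4 from rfl), (show bT R 0 1 1 0 = -R 0 1 3 4 from c0413), (show bT R 0 2 0 2 = R 0 5 0 5 from rfl), (show bT R 0 2 2 0 = -R 0 2 3 5 from c0523), (show bT R 1 0 0 1 = -R 0 1 3 4 from c1304), (show bT R 1 0 1 0 = R 1 3 1 3 from rfl), (show bT R 1 1 1 1 = R 1 4 1 4 from rfl), (show bT R 1 2 1 2 = R 1 5 1 5 from rfl), (show bT R 1 2 2 1 = -R 1 2 4 5 from c1524), (show bT R 2 0 0 2 = -R 0 2 3 5 from c2305), (show bT R 2 0 2 0 = R 2 3 2 3 from rfl), (show bT R 2 1 1 2 = -R 1 2 4 5 from c2415), (show bT R 2 1 2 1 = R 2 4 2 4 from rfl), (show bT R 2 2 2 2 = R 2 5 2 5 from rfl)]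
    simp only [(show bl R 0 1 0 0 0 0 = R 0 1 0 1 from rfl), (show bl R 0 1 0 0 0 1 = R 0 1 0 4 from rfl), (show bl R 0 1 0 0 1 0 = -R 0 1 1 3 from c0131), (show bl R 0 1 0 0 1 1 = R 0 1 3 4 from rfl), (show bl R 0 1 0 1 0 0 = R 0 1 0 4 from c0401), (show bl R 0 1 0 1 0 1 = R 0 4 0 4 from rfl), (show bl R 0 1 0 1 1 0 = R 0 1 3 4 from c0431), (show bl R 0 1 0 1 1 1 = R 0 4 3 4 from rfl), (show bl R 0 1 1 0 0 0 = -R 0 1 1 3 from c3101), (show bl R 0 1 1 0 0 1 = R 0 1 3 4 from c3104), (show bl R 0 1 1 0 1 0 = R 1 3 1 3 from c3131), (show bl R 0 1 1 0 1 1 = -R 1 3 3 4 from c3134), (show bl R 0 1 1 1 0 0 = R 0 1 3 4 from c3401), (show bl R 0 1 1 1 0 1 = R 0 4 3 4 from c3404), (show bl R 0 1 1 1 1 0 = -R 1 3 3 4 from c3431), (show bl R 0 1 1 1 1 1 = R 3 4 3 4 from rfl), (show bl R 1 2 0 0 0 0 = R 1 2 1 2 from rfl), (show bl R 1 2 0 0 0 1 = R 1 2 1 5 from rfl), (show bl R 1 2 0 0 1 0 = -R 1 2 2 4 from c1242),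 (show bl R 1 2 0 0 1 1 = R 1 2 4 5 from rfl), (show bl R 1 2 0 1 0 0 = R 1 2 1 5 from c1512), (show bl R 1 2 0 1 0 1 = R 1 5 1 5 from rfl), (show bl R 1 2 0 1 1 0 = R 1 2 4 5 from c1542), (show bl R 1 2 0 1 1 1 = R 1 5 4 5 from rfl), (show bl R 1 2 1 0 0 0 = -R 1 2 2 4 from c4212), (show bl R 1 2 1 0 0 1 = R 1 2 4 5 from c4215), (show bl R 1 2 1 0 1 0 = R 2 4 2 4 from c4242), (show bl R 1 2 1 0 1 1 = -R 2 4 4 5 from c4245), (show bl R 1 2 1 1 0 0 = R 1 2 4 5 from c4512), (show bl R 1 2 1 1 0 1 = R 1 5 4 5 from c4515), (show bl R 1 2 1 1 1 0 = -R 2 4 4 5 from c4542), (show bl R 1 2 1 1 1 1 = R 4 5 4 5 from rfl), (show bl R 2 0 0 0 0 0 = R 0 2 0 2 from c2020), (show bl R 2 0 0 0 0 1 = -R 0 2 2 3 from c2023), (show bl R 2 0 0 0 1 0 = R 0 2 0 5 from c2050), (show bl R 2 0 0 0 1 1 = R 0 2 3 5 from c2053), (show bl R 2 0 0 1 0 0 = -R 0 2 2 3 from c2320), (show bl R 2 0 0 1 0 1 = R 2 3 2 3 from rfl), (show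 bl R 2 0 0 1 1 0 = R 0 2 3 5 from c2350), (show bl R 2 0 0 1 1 1 = -R 2 3 3 5 from c2353), (show bl R 2 0 1 0 0 0 = R 0 2 0 5 from c5020), (show bl R 2 0 1 0 0 1 = R 0 2 3 5 from c5023), (show bl R 2 0 1 0 1 0 = R 0 5 0 5 from c5050), (show bl R 2 0 1 0 1 1 = R 0 5 3 5 from c5053), (show bl R 2 0 1 1 0 0 = R 0 2 3 5 from c5320), (show bl R 2 0 1 1 0 1 = -R 2 3 3 5 from c5323), (show bl R 2 0 1 1 1 0 = R 0 5 3 5 from c5350), (show bl R 2 0 1 1 1 1 = R 3 5 3 5 from c5353)]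
    ring
  rw [gb, HopfKC.gb_blocks hR', e0]

end H30K
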