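import Pool.Agent.Lib.H60E.Stmt

/-!
# H30K: Codazzi tensors, in charts

Definitions used in the final statement. `H79G.riem` is the curvature tensor in coordinates, with
`R_{ijij}` the sectional curvature of an orthonormal pair `∂_i`, `∂_j`.
-/

set_option autoImplicit false

open scoped ContDiff Manifold
open Set

namespace H30K

open H31R H79G

variable {d : ℕ}

/-- The covariant derivative `∇_k b_{ij}` of the field `b` of bilinear forms, at the point `x`, in
coordinates: `∂_k b_{ij} - ∑ l, Γ^l_{ki} b_{lj} - ∑ l, Γ^l_{kj} b_{il}`. -/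
noncomputable def cov (G b : EE d → Matrix (Fin d) (Fin d) ℝ) (x : EE d) (k i j : Fin d) : ℝ :=
  pd k (fun y => b y i j) x - ∑ l, chr G l k i x * b x l j - ∑ l, chr G l k j x * b x i l

/-- `b` is a Codazzi tensor on the open set `U`: a smooth field of symmetric bilinear forms with
`∇_k b_{ij} = ∇_i b_{kj}` (so that `∇ b` is totally symmetric). -/
structure IsCodazzi (G : EE d → Matrix (Fin d) (Fin d) ℝ) (U : Set (EE d))
    (b : EE d → Matrix (Fin d) (Fin d) ℝ) : Prop where
  sm : ∀ i j, ContDiffOn ℝ ∞ (fun y => b y i j) U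
  symm : ∀ y ∈ U, ∀ i j, b y i j = b y j i
  cod : ∀ y ∈ U, ∀ k i j, cov G b y k i j = cov G b y i k j

/-- The Ricci tensor `R_{ik} = ∑ j l, G^{jl} R_{ijkl}`. -/
noncomputable def ricT (G : EE d → Matrix (Fin d) (Fin d) ℝ) (x : EE d) :
    Matrix (Fin d) (Fin d) ℝ :=
  fun i k => ∑ j, ∑ l, (G x)⁻¹ j l * riem G x i j k l

/-- The scalar curvature. -/
noncomputable def scalT (G : EE d → Matrix (Fin d) (Fin d) ℝ) (x : EE d) : ℝ :=
  ∑ i, ∑ k, (G x)⁻¹ i k * ricT G x i k

/-- The Schouten tensor times `d - 2`: `Ric - s / (2 (d - 1)) g`. -/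
noncomputable def schT (G : EE d → Matrix (Fin d) (Fin d) ℝ) (x : EE d) :
    Matrix (Fin d) (Fin d) ℝ :=
  ricT G x - (scalT G x / (2 * ((d : ℝ) - 1))) • G x

variable {M : Type} [TopologicalSpace M] [ChartedSpace (EE d) M]

/-- Every nonempty open set of `M` contains a nonempty open set `U` on which there is a Codazzi
tensor which is not everywhere a multiple of the metric. (In the charts `chartAt p`.) -/
def DenseCodazzi (g : Ch.Metric d M) : Prop :=
  ∀ p : M, ∀ V : Set (EE d), V ⊆ (chartAt (EE d) p).target → IsOpen V → V.Nonempty →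
    ∃ U : Set (EE d), U ⊆ V ∧ IsOpen U ∧ ∃ b : EE d → Matrix (Fin d) (Fin d) ℝ,
      IsCodazzi (g.mat p) U b ∧ ∃ y ∈ U, ∀ c : ℝ, b y ≠ c • g.mat p y

/-- The Weyl tensor is harmonic (divergence-free): for `d ≥ 4` this is the Codazzi equation
`∇_k A_{ij} = ∇_i A_{kj}` for the Schouten tensor `A`. It holds if the curvature is harmonic, that is
if the Ricci tensor satisfies the Codazzi equation. -/
def HarmonicWeyl (g : Ch.Metric d M) : Prop :=
  ∀ p : M, ∀ y ∈ (chartAt (EE d) p).target, ∀ k i j : Fin d,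
    cov (g.mat p) (schT (g.mat p)) y k i j = cov (g.mat p) (schT (g.mat p)) y i k j

/-- The curvature is harmonic (divergence-free, equivalently the Ricci tensor is a Codazzi tensor).
For `d ≥ 4` this means that the Weyl tensor is harmonic and the scalar curvature is constant. -/
def HarmonicCurvature (g : Ch.Metric d M) : Prop :=
  HarmonicWeyl g ∧ ∃ s : ℝ, ∀ p : M, ∀ y ∈ (chartAt (EE d) p).target, scalT (g.mat p) y = s

/-- The metric is Einstein on no nonempty open set: every nonempty open set contains a point at which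
the Ricci tensor is not a multiple of the metric. -/
def NowhereEinstein (g : Ch.Metric d M) : Prop :=
  ∀ p : M, ∀ V : Set (EE d), V ⊆ (chartAt (EE d) p).target → IsOpen V → V.Nonempty →
    ∃ y ∈ V, ∀ c : ℝ, ricT (g.mat p) y ≠ c • g.mat p y

/-- All sectional curvatures at the point `m` are negative (in the chart at `m`). -/
def NegAt (g : Ch.Metric d M) (m : M) : Prop :=
  ∀ v w : Fin d → ℝ, LinearIndependent ℝ ![v, w] →
    ∑ i, ∑ j, ∑ k, ∑ l, riem (g.mat m) (chartAt (EE d) m m) i j k l * v i * w j * v k * w l < 0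

end H30K
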