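import Pool.Agent.Lib.H31R.N1

/-!
# Module U: unique continuation. Definitions

Everything on `EE d` (Euclidean space), second order operators in divergence form. `a` is a smooth
field of symmetric matrices; it is positive definite only near the point of interest.

`Gm a f g = ∑ i j, a i j ∂_i f ∂_j g` (carre du champ), `Lp a f = ∑ i, ∂_i (∑ j, a i j ∂_j f)`.
-/

set_option autoImplicit false

open scoped ContDiff Topology Manifold
open Set MeasureTheory

namespace H30K

open H31R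

variable {d : ℕ}

/-- smooth functions -/
abbrev Sf (f : EE d → ℝ) : Prop := ContDiff ℝ ∞ f

/-- a smooth field of symmetric matrices -/
structure SmA (a : EE d → Mt d) : Prop where
  sm : ∀ i j, Sf (fun x => a x i j)
  symm : ∀ x i j, a x i j = a x j i

/-- carre du champ -/
noncomputable def Gm (a : EE d → Mt d) (f g : EE d → ℝ) (x : EE d) : ℝ :=
  ∑ i, ∑ j, a x i j * pd i f x * pd j g x

/-- the operator `∑ i j, ∂_i (a i j ∂_j f)` -/
noncomputable def Lp (a : EE d → Mt d) (f : EE d → ℝ) (x : EE d) : ℝ :=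
  ∑ i, pd i (fun y => ∑ j, a y i j * pd j f y) x

/-- the Hessian of `ψ` applied to the gradient of `w` -/
noncomputable def Kf (a : EE d → Mt d) (ψ w : EE d → ℝ) (x : EE d) : ℝ :=
  Gm a w (Gm a ψ w) x - (1 / 2) * Gm a ψ (Gm a w w) x

/-- symmetric part of the conjugated operator -/
noncomputable def At (a : EE d → Mt d) (ψ : EE d → ℝ) (τ : ℝ) (w : EE d → ℝ) (x : EE d) : ℝ :=
  Lp a w x + τ ^ 2 * Gm a ψ ψ x * w x

/-- antisymmetric part of the conjugated operator -/
noncomputable def Bt (a : EE d → Mt d) (ψ : EE d → ℝ) (τ : ℝ) (w : EE d → ℝ) (x : EE d) : ℝ :=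
  -(2 * τ * Gm a ψ w x) - τ * Lp a ψ x * w x

/-- the conjugated operator `exp(τ ψ) L exp(-τ ψ)` -/
noncomputable def Tt (a : EE d → Mt d) (ψ : EE d → ℝ) (τ : ℝ) (w : EE d → ℝ) (x : EE d) : ℝ :=
  At a ψ τ w x + Bt a ψ τ w x

/-- the Carleman estimate with the weight `ψ` on the set `D` -/
def Carl (a : EE d → Mt d) (ψ : EE d → ℝ) (D : Set (EE d)) (C τ0 : ℝ) : Prop :=
  ∀ τ ≥ τ0, ∀ v, Sf v → HasCompactSupport v → tsupport v ⊆ D →
    τ ^ 3 * (∫ x, Real.exp (2 * τ * ψ x) * v x ^ 2) +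
      τ * (∫ x, Real.exp (2 * τ * ψ x) * Gm a v v x) ≤
      C * ∫ x, Real.exp (2 * τ * ψ x) * Lp a v x ^ 2

end H30K
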