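import Pool.Agent.Lib.H30K.U0

/-!
# U1 (M): calculus

`pd_sf`: the derivative of a smooth function is smooth (`ContDiff.fderiv_right`, `clm_apply`).
`Gm_sf`, `Lp_sf`: sums and products. `Gm_comm`: symmetry of `a`. `Gm_mul`, `Gm_add`, `Gm_smul`,
`Gm_chain`: product and chain rule for `pd` (`N_pd_mul`, ...; `pd k (F ∘ ρ) = F'(ρ) pd k ρ`).

`int_pd`: `∫ pd k F = 0` for smooth `F` with compact support (see `integral_pd_eq_zero` in
`Lib/H79G/I5.lean` for the same statement, or `integral_mul_fderiv_eq_neg_fderiv_mul_of_integrable` /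
`integral_bilinear_hasLineDerivAt_right_eq_neg_left_of_integrable` in
`Mathlib.Analysis.Calculus.LineDeriv.IntegrationByParts` with a bump function or directly).

`int_parts`: `∑ i, ∂_i (w ∑ j, a i j ∂_j f) = w Lp a f + Gm a f w` pointwise (`Gm_comm`), and the left
hand side has integral zero if `w` or `f` has compact support.
`sf_int`: a continuous function with compact support is integrable
(`Continuous.integrable_of_hasCompactSupport`).
-/

set_option autoImplicit false

open scoped ContDiff Topology Manifold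
open Set MeasureTheory

namespace H30K

open H31R

variable {d : ℕ} {a : EE d → Mt d}

theorem u1_diff {f : EE d → ℝ} (hf : Sf f) (x : EE d) : DifferentiableAt ℝ f x :=
  (hf.differentiable (by simp)).differentiableAt

theorem pd_sf {f : EE d → ℝ} (hf : Sf f) (k : Fin d) : Sf (pd k f) :=
  (hf.fderiv_right (m := ∞) (by simp)).clm_apply contDiff_const

theorem u1_flux (ha : SmA a) {f : EE d → ℝ} (hf : Sf f) (i : Fin d) :
    Sf (fun y => ∑ j, a y i j * pd j f y) :=
  ContDiff.sum fun j _ => (ha.sm i j).mul (pd_sf hf j)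

theorem Gm_sf (ha : SmA a) {f g : EE d → ℝ} (hf : Sf f) (hg : Sf g) : Sf (Gm a f g) :=
  ContDiff.sum fun i _ => ContDiff.sum fun j _ => ((ha.sm i j).mul (pd_sf hf i)).mul (pd_sf hg j)

theorem Lp_sf (ha : SmA a) {f : EE d → ℝ} (hf : Sf f) : Sf (Lp a f) :=
  ContDiff.sum fun i _ => pd_sf (u1_flux ha hf i) i

theorem Gm_comm (ha : SmA a) (f g : EE d → ℝ) (x : EE d) : Gm a f g x = Gm a g f x := by
  unfold Gm
  rw [Finset.sum_comm]
  refine Finset.sum_congr rfl fun i _ => Finset.sum_congr rfl fun j _ => ?_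
  rw [ha.symm x j i]
  ring

/-- product rule in the second argument -/
theorem Gm_mul {f g h : EE d → ℝ} (hg : Sf g) (hh : Sf h) (x : EE d) :
    Gm a f (fun y => g y * h y) x = g x * Gm a f h x + h x * Gm a f g x := by
  unfold Gm
  rw [Finset.mul_sum, Finset.mul_sum, ← Finset.sum_add_distrib]
  refine Finset.sum_congr rfl fun i _ => ?_
  rw [Finset.mul_sum, Finset.mul_sum, ← Finset.sum_add_distrib]
  refine Finset.sum_congr rfl fun j _ => ?_
  rw [N_pd_mul (u1_diff hg x) (u1_diff hh x) j]
  ring

theorem Gm_add {f g h : EE d → ℝ} (hg : Sf g) (hh : Sf h) (x : EE d) :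
    Gm a f (fun y => g y + h y) x = Gm a f g x + Gm a f h x := by
  unfold Gm
  rw [← Finset.sum_add_distrib]
  refine Finset.sum_congr rfl fun i _ => ?_
  rw [← Finset.sum_add_distrib]
  refine Finset.sum_congr rfl fun j _ => ?_
  rw [N_pd_add (u1_diff hg x) (u1_diff hh x) j]
  ring

theorem Gm_smul {f g : EE d → ℝ} (c : ℝ) (hg : Sf g) (x : EE d) :
    Gm a f (fun y => c * g y) x = c * Gm a f g x := by
  unfold Gm
  rw [Finset.mul_sum]
  refine Finset.sum_congr rfl fun i _ => ?_
  rw [Finset.mul_sum]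
  refine Finset.sum_congr rfl fun j _ => ?_
  rw [N_pd_cmul (u1_diff hg x) c j]
  ring

/-- chain rule in the second argument -/
theorem Gm_chain {f ρ : EE d → ℝ} {F : ℝ → ℝ} (hF : ContDiff ℝ ∞ F) (hρ : Sf ρ) (x : EE d) :
    Gm a f (fun y => F (ρ y)) x = deriv F (ρ x) * Gm a f ρ x := by
  have h1 : ∀ j, pd j (fun y => F (ρ y)) x = deriv F (ρ x) * pd j ρ x := by
    intro j
    have h2 : HasDerivAt F (deriv F (ρ x)) (ρ x) :=
      ((hF.differentiable (by simp)).differentiableAt).hasDerivAt
    have h3 := (h2.comp_hasFDerivAt x (u1_diff hρ x).hasFDerivAt).fderiv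
    unfold pd
    have h4 : fderiv ℝ (fun y => F (ρ y)) x = deriv F (ρ x) • fderiv ℝ ρ x := h3
    rw [h4]
    rfl
  unfold Gm
  rw [Finset.mul_sum]
  refine Finset.sum_congr rfl fun i _ => ?_
  rw [Finset.mul_sum]
  refine Finset.sum_congr rfl fun j _ => ?_
  rw [h1]
  ring

/-- product rule for the operator -/
theorem Lp_mul (ha : SmA a) {f g : EE d → ℝ} (hf : Sf f) (hg : Sf g) (x : EE d) :
    Lp a (fun y => f y * g y) x = f x * Lp a g x + g x * Lp a f x + 2 * Gm a f g x := by
  have h1 : ∀ i, pd i (fun y => ∑ j, a y i j * pd j (fun z => f z * g z) y) x =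
      f x * pd i (fun y => ∑ j, a y i j * pd j g y) x +
        g x * pd i (fun y => ∑ j, a y i j * pd j f y) x +
        ((∑ j, a x i j * pd i f x * pd j g x) + ∑ j, a x i j * pd i g x * pd j f x) := by
    intro i
    have e1 : (fun y => ∑ j, a y i j * pd j (fun z => f z * g z) y) =
        fun y => f y * (∑ j, a y i j * pd j g y) + g y * (∑ j, a y i j * pd j f y) := by
      funext y
      rw [Finset.mul_sum, Finset.mul_sum, ← Finset.sum_add_distrib]
      refine Finset.sum_congr rfl fun j _ => ?_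
      rw [N_pd_mul (u1_diff hf y) (u1_diff hg y) j]
      ring
    have d1 := u1_diff (u1_flux ha hg i) x
    have d2 := u1_diff (u1_flux ha hf i) x
    rw [e1, N_pd_add ((u1_diff hf x).fun_mul d1) ((u1_diff hg x).fun_mul d2),
      N_pd_mul (u1_diff hf x) d1, N_pd_mul (u1_diff hg x) d2]
    have e2 : pd i f x * ∑ j, a x i j * pd j g x = ∑ j, a x i j * pd i f x * pd j g x := by
      rw [Finset.mul_sum]
      exact Finset.sum_congr rfl fun j _ => by ring
    have e3 : pd i g x * ∑ j, a x i j * pd j f x = ∑ j, a x i j * pd i g x * pd j f x := by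
      rw [Finset.mul_sum]
      exact Finset.sum_congr rfl fun j _ => by ring
    rw [← e2, ← e3]
    ring
  have h2 : Gm a f g x = Gm a g f x := Gm_comm ha f g x
  have h3 : 2 * Gm a f g x = Gm a f g x + Gm a g f x := by rw [← h2]; ring
  rw [h3]
  unfold Lp Gm
  rw [Finset.sum_congr rfl fun i _ => h1 i, Finset.sum_add_distrib, Finset.sum_add_distrib,
    Finset.sum_add_distrib, Finset.mul_sum, Finset.mul_sum]

theorem u1_zero {f : EE d → ℝ} {x : EE d} (hx : x ∉ tsupport f) (k : Fin d) : pd k f x = 0 := by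
  have h1 : f =ᶠ[𝓝 x] fun _ => 0 := by
    have h2 := notMem_tsupport_iff_eventuallyEq.1 hx
    exact h2
  rw [N_pd_congr k h1, N_pd_const]

theorem pd_supp {f : EE d → ℝ} (hc : HasCompactSupport f) (k : Fin d) :
    HasCompactSupport (pd k f) :=
  HasCompactSupport.intro hc fun _ hx => u1_zero hx k

theorem Gm_supp {f g : EE d → ℝ} (hc : HasCompactSupport g) : HasCompactSupport (Gm a f g) := by
  refine HasCompactSupport.intro hc fun x hx => ?_
  unfold Gm
  refine Finset.sum_eq_zero fun i _ => Finset.sum_eq_zero fun j _ => ?_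
  rw [u1_zero hx j, mul_zero]

theorem Lp_supp {f : EE d → ℝ} (hc : HasCompactSupport f) : HasCompactSupport (Lp a f) := by
  refine HasCompactSupport.intro hc fun x hx => ?_
  unfold Lp
  refine Finset.sum_eq_zero fun i _ => ?_
  have h1 : (fun y => ∑ j, a y i j * pd j f y) =ᶠ[𝓝 x] fun _ => 0 := by
    filter_upwards [(isClosed_tsupport f).isOpen_compl.mem_nhds hx] with y hy
    refine Finset.sum_eq_zero fun j _ => ?_
    rw [u1_zero hy j, mul_zero]
  rw [N_pd_congr i h1, N_pd_const]

theorem sf_int {F : EE d → ℝ} (hF : Sf F) (hc : HasCompactSupport F) : Integrable F :=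
  hF.continuous.integrable_of_hasCompactSupport hc

theorem int_pd {F : EE d → ℝ} (hF : Sf F) (hc : HasCompactSupport F) (k : Fin d) :
    ∫ x, pd k F x = 0 := by
  have h1 := integral_mul_fderiv_eq_neg_fderiv_mul_of_integrable (μ := (volume : Measure (EE d)))
    (f := fun _ : EE d => (1 : ℝ)) (g := F) (v := ebas k) (by simp)
    (by simpa [pd] using (show Integrable (fun x => pd k F x) from
      sf_int (pd_sf hF k) (pd_supp hc k))) (by simpa using sf_int hF hc)
    (fun _ _ => differentiableAt_const _) (fun x _ => u1_diff hF x)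
  simpa [pd] using h1

theorem u1_parts (ha : SmA a) {f w : EE d → ℝ} (hf : Sf f) (hw : Sf w)
    (hc : ∀ i, HasCompactSupport (fun y => w y * ∑ j, a y i j * pd j f y))
    (h1 : Integrable (fun x => Lp a f x * w x)) (h2 : Integrable (Gm a f w)) :
    ∫ x, Lp a f x * w x = -∫ x, Gm a f w x := by
  have e1 : ∀ x, Lp a f x * w x + Gm a f w x =
      ∑ i, pd i (fun y => w y * ∑ j, a y i j * pd j f y) x := by
    intro x
    rw [Gm_comm ha f w x]
    unfold Lp Gm
    rw [Finset.sum_mul, ← Finset.sum_add_distrib]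
    refine Finset.sum_congr rfl fun i _ => ?_
    rw [N_pd_mul (u1_diff hw x) (u1_diff (u1_flux ha hf i) x)]
    have e2 : pd i w x * ∑ j, a x i j * pd j f x = ∑ j, a x i j * pd i w x * pd j f x := by
      rw [Finset.mul_sum]
      exact Finset.sum_congr rfl fun j _ => by ring
    rw [e2]
    ring
  have h3 : ∫ x, (Lp a f x * w x + Gm a f w x) = 0 := by
    rw [integral_congr_ae (Filter.Eventually.of_forall e1), integral_finsetSum]
    · refine Finset.sum_eq_zero fun i _ => ?_
      exact int_pd (hw.mul (u1_flux ha hf i)) (hc i) i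
    · intro i _
      exact sf_int (pd_sf (hw.mul (u1_flux ha hf i)) i) (pd_supp (hc i) i)
  rw [integral_add h1 h2] at h3
  linarith

/-- the test function has compact support -/
theorem int_parts (ha : SmA a) {f w : EE d → ℝ} (hf : Sf f) (hw : Sf w)
    (hc : HasCompactSupport w) : ∫ x, Lp a f x * w x = -∫ x, Gm a f w x :=
  u1_parts ha hf hw (fun _ => hc.mul_right)
    (sf_int ((Lp_sf ha hf).mul hw) hc.mul_left) (sf_int (Gm_sf ha hf hw) (Gm_supp hc))

/-- the function has compact support -/
theorem int_parts' (ha : SmA a) {f w : EE d → ℝ} (hf : Sf f) (hw : Sf w)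
    (hc : HasCompactSupport f) : ∫ x, Lp a f x * w x = -∫ x, Gm a f w x := by
  have hG : HasCompactSupport (Gm a f w) := by
    have e : Gm a f w = Gm a w f := by
      funext x
      exact Gm_comm ha f w x
    rw [e]
    exact Gm_supp hc
  refine u1_parts ha hf hw (fun i => ?_)
    (sf_int ((Lp_sf ha hf).mul hw) (Lp_supp hc).mul_right) (sf_int (Gm_sf ha hf hw) hG)
  refine HasCompactSupport.intro hc fun x hx => ?_
  have e : ∑ j, a x i j * pd j f x = 0 := by
    refine Finset.sum_eq_zero fun j _ => ?_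
    rw [u1_zero hx j, mul_zero]
  rw [e, mul_zero]

end H30K
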