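import Pool.Agent.Lib.H30K.U9
import Pool.Agent.Lib.H30K.G2

/-!
# U10 (M): the Laplacian of a Codazzi tensor with constant trace

`cov G b y k i j` is totally symmetric on `V` (`cod` and symmetry of `b`: `g7c_cov_sym` in `G7C.lean` for
dimension six, the same proof for all `d`). Divergence: `∑ G^{nm} cov n m j = ∑ G^{nm} cov j n m =
∂_j (tr b) = 0` (`U9_tr`, `ht`). With `D = cov2 G b x`: `D n m i j = D n i m j` (symmetry in the two middle
indices: `N_pd_congr_on`, see `G2.lean`), `D n i m j = D i n m j - ∑ a, Rm G n i x a m b a j -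
∑ a, Rm G n i x a j b m a` (`G1_ricci`), and `∑ n m, G^{nm} D i n m j = 0` (`U9_contr` with
`T = cov G b`).
-/

set_option autoImplicit false

open scoped ContDiff Topology Manifold
open Set MeasureTheory

namespace H30K

open H31R

open H79G H60E

variable {d : ℕ} {V : Set (EE d)} {G b : EE d → Mt d}

theorem u10_cov_sm (h : MetOn V G) (hb : ∀ i j, ContDiffOn ℝ ∞ (fun y => b y i j) V) (m i j : Fin d) :
    ContDiffOn ℝ ∞ (fun y => cov G b y m i j) V := by
  have hU := h.hU
  have hch : ∀ k i j, ContDiffOn ℝ ∞ (chr G k i j) V := fun k i j => contDiffOn_infty.2 fun n =>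
    N_chr_sm hU (fun i j => g1_sm (h.sm i j) (n + 1)) (met_det_ne h) k i j
  exact ((pd_sm hU (hb i j) m).sub (ContDiffOn.sum fun l _ => (hch l m i).mul (hb l j))).sub
    (ContDiffOn.sum fun l _ => (hch l m j).mul (hb i l))

theorem u10_cov_symm (hU : IsOpen V) (hs : ∀ y ∈ V, ∀ i j, b y i j = b y j i) {y : EE d} (hy : y ∈ V)
    (m i j : Fin d) : cov G b y m i j = cov G b y m j i := by
  unfold cov
  have h1 : pd m (fun y => b y i j) y = pd m (fun y => b y j i) y :=
    N_pd_congr_on hU hy m fun z hz => hs z hz i j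
  have h2 : ∀ l, b y l j = b y j l := fun l => hs y hy l j
  have h3 : ∀ l, b y i l = b y l i := fun l => hs y hy i l
  simp only [h1, h2, h3]
  ring

theorem U10_lap (h : MetOn V G) (hc : IsCodazzi G V b) {t : ℝ}
    (ht : ∀ y ∈ V, ∑ i, ∑ j, (G y)⁻¹ i j * b y i j = t) {x : EE d} (hx : x ∈ V) (i j : Fin d) :
    ∑ n, ∑ m, (G x)⁻¹ n m * cov2 G b x n m i j =
      ∑ n, ∑ m, (G x)⁻¹ n m * (-(∑ a, Rm G n i x a m * b x a j) - ∑ a, Rm G n i x a j * b x m a) := by
  have hsym : ∀ n m i j, cov2 G b x n m i j = cov2 G b x n i m j := by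
    intro n m i j
    unfold cov2 cov3
    have h1 : pd n (fun y => cov G b y m i j) x = pd n (fun y => cov G b y i m j) x :=
      N_pd_congr_on h.hU hx n fun y hy => hc.cod y hy m i j
    have h2 : ∀ l, cov G b x m l j = cov G b x l m j := fun l => hc.cod x hx m l j
    have h3 : ∀ l, cov G b x i l j = cov G b x l i j := fun l => hc.cod x hx i l j
    have h4 : ∀ l, cov G b x m i l = cov G b x i m l := fun l => hc.cod x hx m i l
    simp only [h1, h2, h3, h4]
    ring
  have hdiv : ∀ y ∈ V, ∀ j, ∑ n, ∑ m, (G y)⁻¹ n m * cov G b y n m j = 0 := by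
    intro y hy j
    have h1 : ∀ n m, cov G b y n m j = cov G b y j n m := by
      intro n m
      rw [u10_cov_symm h.hU hc.symm hy n m j, hc.cod y hy n j m]
    simp only [h1]
    rw [U9_tr h hc.sm hy j]
    have h2 : pd j (fun y => ∑ n, ∑ m, (G y)⁻¹ n m * b y n m) y = pd j (fun _ => t) y :=
      N_pd_congr_on h.hU hy j fun z hz => ht z hz
    rw [h2, N_pd_const]
  have h0 : ∑ n, ∑ m, (G x)⁻¹ n m * cov2 G b x i n m j = 0 :=
    U9_contr h (u10_cov_sm h hc.sm) hdiv hx i j
  have h1 : ∑ n, ∑ m, (G x)⁻¹ n m * cov2 G b x n m i j =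
      ∑ n, ∑ m, (G x)⁻¹ n m * cov2 G b x n m i j - ∑ n, ∑ m, (G x)⁻¹ n m * cov2 G b x i n m j := by
    rw [h0, sub_zero]
  rw [h1, ← Finset.sum_sub_distrib]
  refine Finset.sum_congr rfl fun n _ => ?_
  rw [← Finset.sum_sub_distrib]
  refine Finset.sum_congr rfl fun m _ => ?_
  rw [← mul_sub, hsym n m i j, G1_ricci h hc.sm hx n i m j]

end H30K
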