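import Pool.Agent.Lib.H30K.U7C

/-!
# U8 (M): unique continuation in a connected open set

`U8_loc`: `a` is only given on `V`. Let `χ` be a smooth bump function around `z`, `tsupport χ ⊆ V`, `χ = 1`
near `z`; `a' = χ a` (zero outside `V`) is a smooth field of symmetric matrices on the whole space, equal to
`a` near `z`, so `Lp a' = Lp a` near `z`. Apply `U7_step` to `a'` and a small ball `V'` around `z` on which
`χ = 1` and the inequality holds with the constant `C`.

`U8_ucp`: let `Z = interior {x ∈ V | ∀ α, u α x = 0}`, nonempty, open. It is closed in `V`: let `z₀ ∈ V` be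
in the closure of `Z`, `ball z₀ (3 r) ⊆ V`, `q ∈ Z` with `dist q z₀ < r`. Suppose `z₀ ∉ Z`. Let
`s = sSup {t | t ≥ 0, ball q t ⊆ Z}` (the set is bounded by `dist q z₀ < r` since `z₀ ∉ Z`, and contains a
positive number); `ball q s ⊆ Z`, `0 < s < r`... `s ≤ dist q z₀`. `closedBall q s ⊆ ball z₀ (3 r) ⊆ V` is
compact. Each point `z` of the sphere `dist z q = s` is in `Z` by `U8_loc` (with `h0` on `ball q s`). So
`closedBall q s ⊆ Z`, and by compactness `ball q (s + η) ⊆ Z` for some `η > 0`: contradiction. Now `V` is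
preconnected: `Z = V`.
-/

set_option autoImplicit false

open scoped ContDiff Topology Manifold
open Set MeasureTheory

namespace H30K

open H31R

variable {d m : ℕ} {a : EE d → Mt d}

/-- the differential inequality near `z` -/
def Ineq (a : EE d → Mt d) (u : Fin m → EE d → ℝ) (z : EE d) : Prop :=
  ∃ C : ℝ, ∀ᶠ x in 𝓝 z, ∀ α, |Lp a (u α) x| ≤ C * ∑ β, (|u β x| + ∑ i, |pd i (u β) x|)

theorem U8_loc {V : Set (EE d)} (hV : IsOpen V) (ha : ∀ i j, ContDiffOn ℝ ∞ (fun x => a x i j) V)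
    (hs : ∀ x ∈ V, ∀ i j, a x i j = a x j i) {u : Fin m → EE d → ℝ}
    (hu : ∀ α, ContDiffOn ℝ ∞ (u α) V) {z q : EE d} (hz : z ∈ V) (hC : Ineq a u z) (hzq : z ≠ q)
    (hp : ∀ ξ : Fin d → ℝ, ξ ≠ 0 → 0 < ∑ i, ∑ j, a z i j * ξ i * ξ j)
    (h0 : ∀ x ∈ V, dist x q < dist z q → ∀ α, u α x = 0) :
    ∃ δ > 0, ∀ x ∈ Metric.ball z δ, ∀ α, u α x = 0 := by
  obtain ⟨C, hC⟩ := hC
  obtain ⟨e1, he1, hb1⟩ := Metric.isOpen_iff.1 hV z hz
  obtain ⟨e2, he2, hb2⟩ := Metric.eventually_nhds_iff_ball.1 hC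
  obtain ⟨e, hed⟩ : ∃ e, e = min e1 e2 := ⟨_, rfl⟩
  have he : 0 < e := by rw [hed]; exact lt_min he1 he2
  have hee1 : e ≤ e1 := by rw [hed]; exact min_le_left _ _
  have hee2 : e ≤ e2 := by rw [hed]; exact min_le_right _ _
  let χ : ContDiffBump z := ⟨e / 4, e / 2, by positivity, by linarith⟩
  have hχ1 : ∀ x ∈ Metric.ball z (e / 4), χ x = 1 := fun x hx =>
    χ.one_of_mem_closedBall (Metric.ball_subset_closedBall hx)
  have hχ0 : ∀ x, x ∉ V → χ x = 0 := by
    intro x hx
    apply χ.zero_of_le_dist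
    show e / 2 ≤ dist x z
    by_contra hcon
    exact hx (hb1 (by rw [Metric.mem_ball]; linarith [not_le.1 hcon]))
  have hsm : ∀ i j, Sf (fun x => χ x * a x i j) := by
    intro i j
    refine contDiff_iff_contDiffAt.2 fun x => ?_
    by_cases hx : dist x z < e1
    · have hxV : x ∈ V := hb1 hx
      exact χ.contDiffAt.mul ((ha i j).contDiffAt (hV.mem_nhds hxV))
    · have hxc : x ∈ (Metric.closedBall z (e / 2))ᶜ := by
        rw [mem_compl_iff, Metric.mem_closedBall]
        have := not_lt.1 hx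
        linarith
      have h1 : (fun x => χ x * a x i j) =ᶠ[𝓝 x] fun _ => 0 := by
        filter_upwards [Metric.isClosed_closedBall.isOpen_compl.mem_nhds hxc] with y hy
        have h2 : χ y = 0 := by
          apply χ.zero_of_le_dist
          show e / 2 ≤ dist y z
          rw [mem_compl_iff, Metric.mem_closedBall, not_le] at hy
          exact hy.le
        rw [h2, zero_mul]
      exact contDiffAt_const.congr_of_eventuallyEq h1
  have hSm : SmA (fun x => χ x • a x) := by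
    refine ⟨fun i j => hsm i j, fun x i j => ?_⟩
    show χ x * a x i j = χ x * a x j i
    by_cases hx : x ∈ V
    · rw [hs x hx i j]
    · rw [hχ0 x hx, zero_mul, zero_mul]
  have heq : ∀ x ∈ Metric.ball z (e / 4), χ x • a x = a x := fun x hx => by
    rw [hχ1 x hx, one_smul]
  have hball : Metric.ball z (e / 4) ⊆ V := fun x hx => hb1 (by
    rw [Metric.mem_ball] at hx ⊢
    linarith)
  have hLp : ∀ x ∈ Metric.ball z (e / 4), ∀ α, Lp (fun x => χ x • a x) (u α) x = Lp a (u α) x := by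
    intro x hx α
    unfold Lp
    refine Finset.sum_congr rfl fun i _ => ?_
    refine N_pd_congr_on Metric.isOpen_ball hx i fun y hy => ?_
    simp only [heq y hy]
  refine U7_step hSm (V := Metric.ball z (e / 4)) Metric.isOpen_ball (fun α => (hu α).mono hball)
    (C := C) ?_ (Metric.mem_ball_self (by positivity)) hzq ?_ fun x hx h α => h0 x (hball hx) h α
  · intro x hx α
    rw [hLp x hx α]
    exact hb2 x (by
      rw [Metric.mem_ball] at hx ⊢
      linarith) α
  · intro ξ hξ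
    simp only [heq z (Metric.mem_ball_self (by positivity))]
    exact hp ξ hξ

theorem U8_ucp {V : Set (EE d)} (hV : IsOpen V) (hc : IsPreconnected V)
    (ha : ∀ i j, ContDiffOn ℝ ∞ (fun x => a x i j) V) (hs : ∀ x ∈ V, ∀ i j, a x i j = a x j i)
    (hp : ∀ x ∈ V, ∀ ξ : Fin d → ℝ, ξ ≠ 0 → 0 < ∑ i, ∑ j, a x i j * ξ i * ξ j)
    {u : Fin m → EE d → ℝ} (hu : ∀ α, ContDiffOn ℝ ∞ (u α) V) (hC : ∀ z ∈ V, Ineq a u z)
    {W : Set (EE d)} (hW : IsOpen W) (hWn : W.Nonempty) (hWV : W ⊆ V)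
    (h0 : ∀ x ∈ W, ∀ α, u α x = 0) : ∀ x ∈ V, ∀ α, u α x = 0 := by
  obtain ⟨Z, hZd⟩ : ∃ Z, Z = interior {x | x ∈ V ∧ ∀ α, u α x = 0} := ⟨_, rfl⟩
  have hZo : IsOpen Z := by rw [hZd]; exact isOpen_interior
  have hZs : ∀ x ∈ Z, ∀ α, u α x = 0 := by
    intro x hx
    rw [hZd] at hx
    exact (interior_subset hx).2
  have hWZ : W ⊆ Z := by
    rw [hZd]
    exact interior_maximal (fun x hx => ⟨hWV hx, h0 x hx⟩) hW
  have hne : (V ∩ Z).Nonempty := by
    obtain ⟨x, hx⟩ := hWn
    exact ⟨x, hWV hx, hWZ hx⟩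
  have hcl : closure Z ∩ V ⊆ Z := by
    rintro z₀ ⟨hz1, hz2⟩
    by_contra hz0
    obtain ⟨r, hr, hb⟩ := Metric.isOpen_iff.1 hV z₀ hz2
    obtain ⟨q, hqZ, hq⟩ := Metric.mem_closure_iff.1 hz1 (r / 2) (by positivity)
    obtain ⟨z, hzc, hzd⟩ := hZo.isClosed_compl.exists_infDist_eq_dist ⟨z₀, hz0⟩ q
    have h1 : dist q z ≤ dist q z₀ := by
      rw [← hzd]
      exact Metric.infDist_le_dist_of_mem hz0
    have hzV : z ∈ V := by
      apply hb
      rw [Metric.mem_ball]
      have h2 := dist_triangle z q z₀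
      rw [dist_comm z q] at h2
      rw [dist_comm] at hq
      linarith
    have hzq : z ≠ q := fun h => hzc (h ▸ hqZ)
    obtain ⟨δ, hδ, h3⟩ := U8_loc hV ha hs hu hzV (hC z hzV) hzq (hp z hzV) (by
      intro x _ hx α
      apply hZs x
      by_contra hxZ
      have h4 : Metric.infDist q Zᶜ ≤ dist q x := Metric.infDist_le_dist_of_mem hxZ
      rw [hzd, dist_comm q z, dist_comm q x] at h4
      exact absurd hx (not_lt.2 h4))
    apply hzc
    rw [hZd]
    rw [mem_interior_iff_mem_nhds]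
    filter_upwards [hV.mem_nhds hzV, Metric.ball_mem_nhds z hδ] with y hy1 hy2
    exact ⟨hy1, h3 y hy2⟩
  have := hc.subset_of_closure_inter_subset hZo hne hcl
  exact fun x hx => hZs x (this hx)

end H30K
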