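import Pool.Agent.Lib.H30K.U10
import Pool.Agent.Lib.H30K.U8

/-!
# U11 (M): the differential inequality for a Codazzi tensor with constant trace

Let `S y = ∑ k l, (|b y k l| + ∑ m, |pd m (b_kl) y|)`. Say that `f` is dominated near `x` if
`|f y| ≤ C S y` for `y` near `x`, some `C`. Dominated functions are closed under sums and under
multiplication with functions continuous on `V` (bounded near `x`); `b_kl`, `pd m (b_kl)` are dominated.
`Lp (G⁻¹) (b_ij) = ∑ n m, G^{nm} ∂_n ∂_m b_ij + ∑ n m, (∂_n G^{nm}) ∂_m b_ij`;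
`cov2 G b y n m i j = ∂_n (∂_m b_ij - ∑ Γ^l_mi b_lj - ∑ Γ^l_mj b_il) - (terms Γ · cov G b)
 = ∂_n ∂_m b_ij + dominated` (product rule). By `U10_lap`, `∑ G^{nm} cov2 n m i j` is dominated (`Rm`, `G⁻¹`
are continuous on `V`). So `Lp (G⁻¹) (b_ij)` is dominated.

The index set `Fin d × Fin d` is written as `Fin (d * d)` with `finProdFinEquiv`:
`ub b α y = b y (finProdFinEquiv.symm α).1 (finProdFinEquiv.symm α).2`.
-/

set_option autoImplicit false

open scoped ContDiff Topology Manifold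
open Set MeasureTheory

namespace H30K

open H31R

open H79G H60E

variable {d : ℕ} {V : Set (EE d)} {G b : EE d → Mt d}

/-- the entries of `b` as a vector -/
def ub (b : EE d → Mt d) (α : Fin (d * d)) (y : EE d) : ℝ :=
  b y (finProdFinEquiv.symm α).1 (finProdFinEquiv.symm α).2

/-- dominated functions -/
def u11_dom (b : EE d → Mt d) (x : EE d) (f : EE d → ℝ) : Prop :=
  ∃ C : ℝ, ∀ᶠ y in 𝓝 x, |f y| ≤ C * ∑ β, (|ub b β y| + ∑ i, |pd i (ub b β) y|)

theorem u11_S0 (b : EE d → Mt d) (y : EE d) : 0 ≤ ∑ β, (|ub b β y| + ∑ i, |pd i (ub b β) y|) :=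
  Finset.sum_nonneg fun _ _ => add_nonneg (abs_nonneg _) (Finset.sum_nonneg fun _ _ => abs_nonneg _)

theorem u11_congr {x : EE d} {f g : EE d → ℝ} (hf : u11_dom b x f) (h : ∀ᶠ y in 𝓝 x, g y = f y) :
    u11_dom b x g := by
  obtain ⟨C, hC⟩ := hf
  refine ⟨C, ?_⟩
  filter_upwards [hC, h] with y h1 h2
  rw [h2]
  exact h1

theorem u11_add {x : EE d} {f g : EE d → ℝ} (hf : u11_dom b x f) (hg : u11_dom b x g) :
    u11_dom b x (fun y => f y + g y) := by
  obtain ⟨C, hC⟩ := hf
  obtain ⟨D, hD⟩ := hg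
  refine ⟨C + D, ?_⟩
  filter_upwards [hC, hD] with y h1 h2
  rw [add_mul]
  exact (abs_add_le _ _).trans (add_le_add h1 h2)

theorem u11_neg {x : EE d} {f : EE d → ℝ} (hf : u11_dom b x f) : u11_dom b x (fun y => -f y) := by
  obtain ⟨C, hC⟩ := hf
  refine ⟨C, ?_⟩
  filter_upwards [hC] with y h1
  rw [abs_neg]
  exact h1

theorem u11_sub {x : EE d} {f g : EE d → ℝ} (hf : u11_dom b x f) (hg : u11_dom b x g) :
    u11_dom b x (fun y => f y - g y) := by
  have h := u11_add hf (u11_neg hg)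
  exact u11_congr h (Filter.Eventually.of_forall fun y => sub_eq_add_neg _ _)

theorem u11_zero {x : EE d} : u11_dom b x (fun _ => 0) :=
  ⟨0, Filter.Eventually.of_forall fun y => by simp⟩

theorem u11_sum {ι : Type*} (s : Finset ι) {x : EE d} {f : ι → EE d → ℝ}
    (hf : ∀ i ∈ s, u11_dom b x (f i)) : u11_dom b x (fun y => ∑ i ∈ s, f i y) := by
  classical
  induction s using Finset.induction_on with
  | empty => simpa using u11_zero
  | insert a s ha ih =>
    have h1 := u11_add (hf a (Finset.mem_insert_self a s))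
      (ih fun i hi => hf i (Finset.mem_insert_of_mem hi))
    exact u11_congr h1 (Filter.Eventually.of_forall fun y => Finset.sum_insert ha)

theorem u11_mul {x : EE d} {f g : EE d → ℝ} (hg : ContinuousAt g x) (hf : u11_dom b x f) :
    u11_dom b x (fun y => g y * f y) := by
  obtain ⟨C, hC⟩ := hf
  refine ⟨(|g x| + 1) * C, ?_⟩
  have h1 : ∀ᶠ y in 𝓝 x, |g y| < |g x| + 1 :=
    hg.abs.eventually_lt continuousAt_const (lt_add_one _)
  filter_upwards [hC, h1] with y h2 h3
  rw [abs_mul, mul_assoc]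
  exact mul_le_mul h3.le h2 (abs_nonneg _) (by positivity)

theorem u11_mul' {x : EE d} {f g : EE d → ℝ} (hg : ContinuousAt g x) (hf : u11_dom b x f) :
    u11_dom b x (fun y => f y * g y) :=
  u11_congr (u11_mul hg hf) (Filter.Eventually.of_forall fun y => mul_comm _ _)

theorem u11_ub (b : EE d → Mt d) (k l : Fin d) :
    ub b (finProdFinEquiv (k, l)) = fun y => b y k l := by
  funext y
  simp [ub]

theorem u11_b (x : EE d) (k l : Fin d) : u11_dom b x (fun y => b y k l) := by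
  refine ⟨1, Filter.Eventually.of_forall fun y => ?_⟩
  rw [one_mul]
  have h1 : |ub b (finProdFinEquiv (k, l)) y| + ∑ i, |pd i (ub b (finProdFinEquiv (k, l))) y| ≤
      ∑ β, (|ub b β y| + ∑ i, |pd i (ub b β) y|) :=
    Finset.single_le_sum (f := fun β => |ub b β y| + ∑ i, |pd i (ub b β) y|)
      (fun _ _ => add_nonneg (abs_nonneg _) (Finset.sum_nonneg fun _ _ => abs_nonneg _))
      (Finset.mem_univ _)
  refine le_trans ?_ h1
  rw [u11_ub]
  exact le_add_of_nonneg_right (Finset.sum_nonneg fun _ _ => abs_nonneg _)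

theorem u11_pdb (x : EE d) (m k l : Fin d) : u11_dom b x (fun y => pd m (fun z => b z k l) y) := by
  refine ⟨1, Filter.Eventually.of_forall fun y => ?_⟩
  rw [one_mul]
  have h1 : |ub b (finProdFinEquiv (k, l)) y| + ∑ i, |pd i (ub b (finProdFinEquiv (k, l))) y| ≤
      ∑ β, (|ub b β y| + ∑ i, |pd i (ub b β) y|) :=
    Finset.single_le_sum (f := fun β => |ub b β y| + ∑ i, |pd i (ub b β) y|)
      (fun _ _ => add_nonneg (abs_nonneg _) (Finset.sum_nonneg fun _ _ => abs_nonneg _))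
      (Finset.mem_univ _)
  refine le_trans ?_ h1
  rw [u11_ub]
  have h2 : |pd m (fun z => b z k l) y| ≤ ∑ i, |pd i (fun z => b z k l) y| :=
    Finset.single_le_sum (f := fun i => |pd i (fun z => b z k l) y|) (fun _ _ => abs_nonneg _)
      (Finset.mem_univ m)
  exact h2.trans (le_add_of_nonneg_left (abs_nonneg _))

theorem u11_cov {x : EE d} (hc : ∀ l n m, ContinuousAt (chr G l n m) x) (m i j : Fin d) :
    u11_dom b x (fun y => cov G b y m i j) := by
  unfold cov
  exact u11_sub (u11_sub (u11_pdb x m i j)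
    (u11_sum _ fun l _ => u11_mul (hc l m i) (u11_b x l j)))
    (u11_sum _ fun l _ => u11_mul (hc l m j) (u11_b x i l))

theorem u11_Gi (h : MetOn V G) (n m : Fin d) : ContDiffOn ℝ ∞ (fun y => (G y)⁻¹ n m) V :=
  contDiffOn_infty.2 fun k => N_inv_sm (fun i j => g1_sm (h.sm i j) k) (met_det_ne h) n m

theorem u11_chr (h : MetOn V G) (l n m : Fin d) : ContDiffOn ℝ ∞ (chr G l n m) V :=
  contDiffOn_infty.2 fun k => N_chr_sm h.hU (fun i j => g1_sm (h.sm i j) (k + 1)) (met_det_ne h) l n m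

theorem u11_Rm (h : MetOn V G) (i j a c : Fin d) : ContDiffOn ℝ ∞ (fun y => Rm G i j y a c) V := by
  have h1 : (fun y => Rm G i j y a c) = fun y => pd i (chr G a j c) y - pd j (chr G a i c) y +
      (∑ k, chr G a i k y * chr G k j c y - ∑ k, chr G a j k y * chr G k i c y) := by
    funext y
    rfl
  rw [h1]
  refine ContDiffOn.add (ContDiffOn.sub (pd_sm h.hU (u11_chr h a j c) i)
    (pd_sm h.hU (u11_chr h a i c) j)) (ContDiffOn.sub ?_ ?_)
  · exact ContDiffOn.sum fun k _ => (u11_chr h a i k).mul (u11_chr h k j c)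
  · exact ContDiffOn.sum fun k _ => (u11_chr h a j k).mul (u11_chr h k i c)

/-- the error term -/
noncomputable def u11_E (G b : EE d → Mt d) (n m i j : Fin d) (y : EE d) : ℝ :=
  ∑ l, (pd n (chr G l m i) y * b y l j + chr G l m i y * pd n (fun z => b z l j) y) +
    ∑ l, (pd n (chr G l m j) y * b y i l + chr G l m j y * pd n (fun z => b z i l) y) +
    (∑ l, chr G l n m y * cov G b y l i j + ∑ l, chr G l n i y * cov G b y m l j +
      ∑ l, chr G l n j y * cov G b y m i l)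

theorem u11_E_dom (h : MetOn V G) {x : EE d} (hx : x ∈ V) (n m i j : Fin d) :
    u11_dom b x (u11_E G b n m i j) := by
  have hV := h.hU
  have c1 : ∀ l n m, ContinuousAt (chr G l n m) x := fun l n m =>
    ((u11_chr h l n m).contDiffAt (hV.mem_nhds hx)).continuousAt
  have c2 : ∀ k l n m, ContinuousAt (pd k (chr G l n m)) x := fun k l n m =>
    ((pd_sm hV (u11_chr h l n m) k).contDiffAt (hV.mem_nhds hx)).continuousAt
  unfold u11_E
  refine u11_add (u11_add ?_ ?_) (u11_add (u11_add ?_ ?_) ?_)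
  · exact u11_sum _ fun l _ => u11_add (u11_mul (c2 _ _ _ _) (u11_b _ _ _))
      (u11_mul (c1 _ _ _) (u11_pdb _ _ _ _))
  · exact u11_sum _ fun l _ => u11_add (u11_mul (c2 _ _ _ _) (u11_b _ _ _))
      (u11_mul (c1 _ _ _) (u11_pdb _ _ _ _))
  · exact u11_sum _ fun l _ => u11_mul (c1 _ _ _) (u11_cov c1 _ _ _)
  · exact u11_sum _ fun l _ => u11_mul (c1 _ _ _) (u11_cov c1 _ _ _)
  · exact u11_sum _ fun l _ => u11_mul (c1 _ _ _) (u11_cov c1 _ _ _)

theorem u11_hess (h : MetOn V G) (hb : ∀ i j, ContDiffOn ℝ ∞ (fun y => b y i j) V) {y : EE d}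
    (hy : y ∈ V) (n m i j : Fin d) :
    pd n (pd m (fun z => b z i j)) y = cov2 G b y n m i j + u11_E G b n m i j y := by
  have hV := h.hU
  have hne : (∞ : WithTop ℕ∞) ≠ 0 := by simp
  have db : ∀ i j, DifferentiableAt ℝ (fun z => b z i j) y := fun i j =>
    ((hb i j).contDiffAt (hV.mem_nhds hy)).differentiableAt hne
  have dpb : ∀ m i j, DifferentiableAt ℝ (pd m (fun z => b z i j)) y := fun m i j =>
    ((pd_sm hV (hb i j) m).contDiffAt (hV.mem_nhds hy)).differentiableAt hne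
  have dc : ∀ l n m, DifferentiableAt ℝ (chr G l n m) y := fun l n m =>
    ((u11_chr h l n m).contDiffAt (hV.mem_nhds hy)).differentiableAt hne
  have e1 : pd n (fun z => cov G b z m i j) y = pd n (pd m (fun z => b z i j)) y -
      ∑ l, (pd n (chr G l m i) y * b y l j + chr G l m i y * pd n (fun z => b z l j) y) -
      ∑ l, (pd n (chr G l m j) y * b y i l + chr G l m j y * pd n (fun z => b z i l) y) := by
    unfold cov
    have s1 : DifferentiableAt ℝ (fun z => ∑ l, chr G l m i z * b z l j) y :=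
      DifferentiableAt.fun_sum fun l _ => (dc l m i).mul (db l j)
    have s2 : DifferentiableAt ℝ (fun z => ∑ l, chr G l m j z * b z i l) y :=
      DifferentiableAt.fun_sum fun l _ => (dc l m j).mul (db i l)
    have t1 : pd n (fun z => pd m (fun y => b y i j) z - ∑ l, chr G l m i z * b z l j -
        ∑ l, chr G l m j z * b z i l) y = pd n (fun z => pd m (fun y => b y i j) z -
        ∑ l, chr G l m i z * b z l j) y - pd n (fun z => ∑ l, chr G l m j z * b z i l) y :=
      N_pd_sub ((dpb m i j).sub s1) s2 n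
    have t2 : pd n (fun z => pd m (fun y => b y i j) z - ∑ l, chr G l m i z * b z l j) y =
        pd n (pd m (fun z => b z i j)) y - pd n (fun z => ∑ l, chr G l m i z * b z l j) y :=
      N_pd_sub (dpb m i j) s1 n
    rw [t1, t2, N_pd_sum, N_pd_sum]
    · congr 1
      · congr 1
        exact Finset.sum_congr rfl fun l _ => N_pd_mul (dc l m i) (db l j) n
      · exact Finset.sum_congr rfl fun l _ => N_pd_mul (dc l m j) (db i l) n
    · exact fun l _ => (dc l m j).mul (db i l)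
    · exact fun l _ => (dc l m i).mul (db l j)
  unfold cov2 cov3 u11_E
  rw [e1]
  ring

theorem u11_Lp (h : MetOn V G) (hc : IsCodazzi G V b) {t : ℝ}
    (ht : ∀ y ∈ V, ∑ i, ∑ j, (G y)⁻¹ i j * b y i j = t) {y : EE d} (hy : y ∈ V) (i j : Fin d) :
    Lp (fun y => (G y)⁻¹) (fun z => b z i j) y =
      ∑ n, ∑ m, (pd n (fun z => (G z)⁻¹ n m) y * pd m (fun z => b z i j) y +
        (G y)⁻¹ n m * u11_E G b n m i j y) +
      ∑ n, ∑ m, (G y)⁻¹ n m * (-(∑ a, Rm G n i y a m * b y a j) - ∑ a, Rm G n i y a j * b y m a) := by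
  have hV := h.hU
  have hne : (∞ : WithTop ℕ∞) ≠ 0 := by simp
  have dpb : ∀ m i j, DifferentiableAt ℝ (pd m (fun z => b z i j)) y := fun m i j =>
    ((pd_sm hV (hc.sm i j) m).contDiffAt (hV.mem_nhds hy)).differentiableAt hne
  have dG : ∀ n m, DifferentiableAt ℝ (fun z => (G z)⁻¹ n m) y := fun n m =>
    ((u11_Gi h n m).contDiffAt (hV.mem_nhds hy)).differentiableAt hne
  rw [← U10_lap h hc ht hy i j, ← Finset.sum_add_distrib]
  unfold Lp
  refine Finset.sum_congr rfl fun n _ => ?_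
  rw [N_pd_sum, ← Finset.sum_add_distrib]
  · refine Finset.sum_congr rfl fun m _ => ?_
    have e1 : pd n (fun z => (G z)⁻¹ n m * pd m (fun z => b z i j) z) y =
        pd n (fun z => (G z)⁻¹ n m) y * pd m (fun z => b z i j) y +
        (G y)⁻¹ n m * pd n (pd m (fun z => b z i j)) y := N_pd_mul (dG n m) (dpb m i j) n
    rw [e1, u11_hess h hc.sm hy]
    ring
  · exact fun m _ => (dG n m).mul (dpb m i j)

theorem u11_Lp_dom (h : MetOn V G) (hc : IsCodazzi G V b) {t : ℝ}
    (ht : ∀ y ∈ V, ∑ i, ∑ j, (G y)⁻¹ i j * b y i j = t) {x : EE d} (hx : x ∈ V) (i j : Fin d) :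
    u11_dom b x (Lp (fun y => (G y)⁻¹) (fun z => b z i j)) := by
  have hV := h.hU
  have c1 : ∀ n m, ContinuousAt (fun z => (G z)⁻¹ n m) x := fun n m =>
    ((u11_Gi h n m).contDiffAt (hV.mem_nhds hx)).continuousAt
  have c2 : ∀ k n m, ContinuousAt (pd k (fun z => (G z)⁻¹ n m)) x := fun k n m =>
    ((pd_sm hV (u11_Gi h n m) k).contDiffAt (hV.mem_nhds hx)).continuousAt
  have c3 : ∀ i j a c, ContinuousAt (fun y => Rm G i j y a c) x := fun i j a c =>
    ((u11_Rm h i j a c).contDiffAt (hV.mem_nhds hx)).continuousAt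
  have e : ∀ᶠ y in 𝓝 x, Lp (fun y => (G y)⁻¹) (fun z => b z i j) y = _ :=
    Filter.eventually_of_mem (hV.mem_nhds hx) fun y hy => u11_Lp h hc ht hy i j
  refine u11_congr ?_ e
  refine u11_add ?_ ?_
  · exact u11_sum _ fun n _ => u11_sum _ fun m _ =>
      u11_add (u11_mul (c2 _ _ _) (u11_pdb _ _ _ _)) (u11_mul (c1 _ _) (u11_E_dom h hx _ _ _ _))
  · exact u11_sum _ fun n _ => u11_sum _ fun m _ => u11_mul (c1 _ _)
      (u11_sub (u11_neg (u11_sum _ fun a _ => u11_mul (c3 _ _ _ _) (u11_b _ _ _)))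
        (u11_sum _ fun a _ => u11_mul (c3 _ _ _ _) (u11_b _ _ _)))

theorem U11_ineq (h : MetOn V G) (hc : IsCodazzi G V b) {t : ℝ}
    (ht : ∀ y ∈ V, ∑ i, ∑ j, (G y)⁻¹ i j * b y i j = t) {x : EE d} (hx : x ∈ V) :
    Ineq (fun y => (G y)⁻¹) (ub b) x := by
  have h1 : ∀ α : Fin (d * d), u11_dom b x (Lp (fun y => (G y)⁻¹) (ub b α)) := fun α =>
    u11_Lp_dom h hc ht hx (finProdFinEquiv.symm α).1 (finProdFinEquiv.symm α).2
  choose C hC using h1
  refine ⟨∑ α, |C α|, ?_⟩
  filter_upwards [Filter.eventually_all.2 hC] with y hy α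
  refine (hy α).trans (mul_le_mul_of_nonneg_right ?_ (u11_S0 b y))
  exact (le_abs_self _).trans (Finset.single_le_sum (f := fun α => |C α|)
    (fun _ _ => abs_nonneg _) (Finset.mem_univ α))

theorem u11_pos (h : MetOn V G) {x : EE d} (hx : x ∈ V) (ξ : Fin d → ℝ) (hξ : ξ ≠ 0) :
    0 < ∑ i, ∑ j, (G x)⁻¹ i j * ξ i * ξ j := by
  have hu : IsUnit (G x).det := isUnit_iff_ne_zero.2 (met_det_ne h x hx)
  have hGT := met_GT h hx
  obtain ⟨η, hη⟩ : ∃ η, η = (G x)⁻¹.mulVec ξ := ⟨_, rfl⟩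
  have h1 : (G x).mulVec η = ξ := by
    rw [hη, Matrix.mulVec_mulVec, Matrix.mul_nonsing_inv _ hu, Matrix.one_mulVec]
  have h2 : η ≠ 0 := by
    intro h0
    rw [h0, Matrix.mulVec_zero] at h1
    exact hξ h1.symm
  have h3 := h.pos x hx η h2
  have e1 : ∀ (M : Mt d) (v : Fin d → ℝ), ∑ i, ∑ j, M i j * v i * v j = v ⬝ᵥ M.mulVec v := by
    intro M v
    unfold Matrix.mulVec dotProduct
    refine Finset.sum_congr rfl fun i _ => ?_
    rw [Finset.mul_sum]
    exact Finset.sum_congr rfl fun j _ => by ring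
  rw [e1] at h3 ⊢
  rw [h1] at h3
  rw [← hη]
  rwa [dotProduct_comm] at h3

theorem U11_ucp (h : MetOn V G) (hc : IsCodazzi G V b) {t : ℝ}
    (ht : ∀ y ∈ V, ∑ i, ∑ j, (G y)⁻¹ i j * b y i j = t) {B W : Set (EE d)} (hB : IsOpen B)
    (hBc : IsPreconnected B) (hBV : B ⊆ V) (hW : IsOpen W) (hWn : W.Nonempty) (hWB : W ⊆ B)
    (h0 : ∀ x ∈ W, b x = 0) : ∀ x ∈ B, b x = 0 := by
  have key := U8_ucp (a := fun y => (G y)⁻¹) (u := ub b) hB hBc
    (fun i j => (u11_Gi h i j).mono hBV) (fun x hx i j => ?_)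
    (fun x hx ξ hξ => u11_pos h (hBV hx) ξ hξ)
    (fun α => (hc.sm _ _).mono hBV) (fun z hz => U11_ineq h hc ht (hBV hz)) hW hWn hWB
    (fun x hx α => by unfold ub; rw [h0 x hx]; rfl)
  · intro x hx
    ext i j
    have h1 := key x hx (finProdFinEquiv (i, j))
    rw [u11_ub] at h1
    exact h1
  · have h1 : ((G x)⁻¹).transpose = (G x)⁻¹ := by
      rw [Matrix.transpose_nonsing_inv, met_GT h (hBV hx)]
    exact congrFun (congrFun h1 j) i

end H30K
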