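import Pool.Agent.Lib.H30K.G7A

/-!
# Einstein metrics have harmonic curvature
-/

set_option autoImplicit false

open scoped ContDiff Topology Manifold
open Set

namespace H30K

open H31R H79G H60E

theorem u14_ricT {M : Type} [TopologicalSpace M] [ChartedSpace (EE 6) M] {g : Ch.Metric 6 M}
    {lam : ℝ} (hE : IsEinstein g lam) (p : M) {y : EE 6} (hy : y ∈ (chartAt (EE 6) p).target) :
    ricT (g.mat p) y = lam • g.mat p y := by
  ext i k
  exact hE p y hy i k

theorem u14_scalT {M : Type} [TopologicalSpace M] [ChartedSpace (EE 6) M] {g : Ch.Metric 6 M}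
    {lam : ℝ} (hE : IsEinstein g lam) (p : M) {y : EE 6} (hy : y ∈ (chartAt (EE 6) p).target) :
    scalT (g.mat p) y = 6 * lam := by
  have h := metOn g p
  have hu : IsUnit (g.mat p y).det := isUnit_iff_ne_zero.2 (met_det_ne h y hy)
  unfold scalT
  rw [u14_ricT hE p hy]
  have h1 : ∀ i, ∑ k, (g.mat p y)⁻¹ i k * (lam • g.mat p y) i k = lam := by
    intro i
    have h2 : ((g.mat p y)⁻¹ * g.mat p y) i i = 1 := by
      rw [Matrix.nonsing_inv_mul _ hu, Matrix.one_apply_eq]
    rw [Matrix.mul_apply] at h2
    calc ∑ k, (g.mat p y)⁻¹ i k * (lam • g.mat p y) i k =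
        lam * ∑ k, (g.mat p y)⁻¹ i k * g.mat p y k i := by
          rw [Finset.mul_sum]
          refine Finset.sum_congr rfl fun k _ => ?_
          rw [Matrix.smul_apply, smul_eq_mul, h.symm y hy i k]
          ring
      _ = lam := by rw [h2, mul_one]
  rw [Finset.sum_congr rfl fun i _ => h1 i]
  simp

/-- Einstein metrics have harmonic curvature. -/
theorem einstein_harmonic {M : Type} [TopologicalSpace M] [ChartedSpace (EE 6) M]
    {g : Ch.Metric 6 M} {lam : ℝ} (hE : IsEinstein g lam) : HarmonicCurvature g := by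
  refine ⟨fun p y hy k i j => ?_, 6 * lam, fun p y hy => u14_scalT hE p hy⟩
  have h := metOn g p
  have hb : ∀ z ∈ (chartAt (EE 6) p).target, schT (g.mat p) z =
      (fun _ => lam - 6 * lam / (2 * ((6 : ℕ) - 1))) z • g.mat p z +
        (fun _ => (0 : ℝ)) z • g.mat p z := by
    intro z hz
    unfold schT
    rw [u14_ricT hE p hz, u14_scalT hE p hz]
    simp only [zero_smul, add_zero]
    rw [← sub_smul]
  have e : ∀ k i j, cov (g.mat p) (schT (g.mat p)) y k i j = 0 := by
    intro k i j
    rw [G7_leib h h.sm contDiffOn_const contDiffOn_const hb hy, N_pd_const, N_pd_const,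
      G7_met h hy]
    ring
  rw [e, e]

end H30K
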