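import Pool.Agent.Lib.H30K.U1

/-!
# U2 (M): the commutator identity

`(At + Bt)² = At² + Bt² + 2 At Bt`; all integrands are smooth with compact support (integrable). With
`N = Gm ψ ψ`:
(i) `-4τ ∫ Lp w · Gm ψ w = 4τ ∫ Gm w (Gm ψ w)` (`int_parts'`, test function `Gm ψ w`)
`= 4τ ∫ Kf ψ w + 2τ ∫ Gm ψ (Gm w w) = 4τ ∫ Kf ψ w - 2τ ∫ Lp ψ · Gm w w` (`int_parts`, test function
`Gm w w`).
(ii) `-2τ ∫ Lp w · (Lp ψ · w) = 2τ ∫ Gm w (Lp ψ · w) = 2τ ∫ Lp ψ · Gm w w + 2τ ∫ w Gm w (Lp ψ)` and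
`2 w Gm w (Lp ψ) = Gm (Lp ψ) (w²)`, `∫ Gm (Lp ψ) (w²) = -∫ Lp (Lp ψ) w²`.
(iii) `-4τ³ ∫ N w Gm ψ w = -2τ³ ∫ N Gm ψ (w²)`, `N Gm ψ (w²) = Gm ψ (N w²) - w² Gm ψ N`,
`∫ Gm ψ (N w²) = -∫ Lp ψ N w²`: so (iii) `= 2τ³ ∫ Lp ψ N w² + 2τ³ ∫ w² Gm ψ N`.
(iv) `-2τ³ ∫ N Lp ψ w²`.
Sum: `4τ ∫ Kf ψ w - τ ∫ Lp (Lp ψ) w² + 2τ³ ∫ Gm ψ N w²`.
-/

set_option autoImplicit false

open scoped ContDiff Topology Manifold
open Set MeasureTheory

namespace H30K

open H31R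

variable {d : ℕ} {a : EE d → Mt d}

theorem u2_sq (ha : SmA a) {f w : EE d → ℝ} (hf : Sf f) (hw : Sf w) (x : EE d) :
    Gm a f (fun y => w y ^ 2) x = 2 * w x * Gm a f w x := by
  have h1 : (fun y => w y ^ 2) = fun y => w y * w y := by
    funext y
    ring
  rw [h1, Gm_mul hw hw]
  ring

theorem U2_id (ha : SmA a) {ψ w : EE d → ℝ} (hψ : Sf ψ) (hw : Sf w) (hc : HasCompactSupport w)
    (τ : ℝ) : ∫ x, Tt a ψ τ w x ^ 2 = (∫ x, At a ψ τ w x ^ 2) + (∫ x, Bt a ψ τ w x ^ 2) +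
      4 * τ * (∫ x, Kf a ψ w x) + 2 * τ ^ 3 * (∫ x, Gm a ψ (Gm a ψ ψ) x * w x ^ 2) -
      τ * ∫ x, Lp a (Lp a ψ) x * w x ^ 2 := by
  have hLw := Lp_sf ha hw
  have hLψ := Lp_sf ha hψ
  have hN := Gm_sf ha hψ hψ
  have hψw := Gm_sf ha hψ hw
  have hww := Gm_sf ha hw hw
  have cww : HasCompactSupport (Gm a w w) := Gm_supp hc
  have cψw : HasCompactSupport (Gm a ψ w) := Gm_supp hc
  have cLw : HasCompactSupport (Lp a w) := Lp_supp hc
  have hA : Sf (At a ψ τ w) := hLw.add (((contDiff_const (c := τ ^ 2)).mul hN).mul hw)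
  have cA : HasCompactSupport (At a ψ τ w) :=
    cLw.add (hc.mul_left (f := fun x => τ ^ 2 * Gm a ψ ψ x))
  have hB : Sf (Bt a ψ τ w) :=
    (((contDiff_const (c := 2 * τ)).mul hψw).neg).sub (((contDiff_const (c := τ)).mul hLψ).mul hw)
  have cB : HasCompactSupport (Bt a ψ τ w) :=
    ((cψw.mul_left (f := fun _ => 2 * τ)).neg).sub (hc.mul_left (f := fun x => τ * Lp a ψ x))
  have iA2 : Integrable (fun x => At a ψ τ w x ^ 2) := by
    have : (fun x => At a ψ τ w x ^ 2) = fun x => At a ψ τ w x * At a ψ τ w x := by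
      funext x; ring
    rw [this]
    exact sf_int (hA.mul hA) (cA.mul_left)
  have iB2 : Integrable (fun x => Bt a ψ τ w x ^ 2) := by
    have : (fun x => Bt a ψ τ w x ^ 2) = fun x => Bt a ψ τ w x * Bt a ψ τ w x := by
      funext x; ring
    rw [this]
    exact sf_int (hB.mul hB) (cB.mul_left)
  have i1 : Integrable (fun x => Lp a w x * Gm a ψ w x) := sf_int (hLw.mul hψw) cψw.mul_left
  have i2 : Integrable (fun x => Lp a w x * (Lp a ψ x * w x)) :=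
    sf_int (hLw.mul (hLψ.mul hw)) (hc.mul_left (f := Lp a ψ)).mul_left
  have i3 : Integrable (fun x => Gm a ψ ψ x * w x * Gm a ψ w x) :=
    sf_int ((hN.mul hw).mul hψw) cψw.mul_left
  have cw2 : HasCompactSupport (fun x => w x ^ 2) := by
    have : (fun x => w x ^ 2) = fun x => w x * w x := by
      funext x; ring
    rw [this]
    exact hc.mul_left
  have hw2 : Sf (fun x => w x ^ 2) := hw.pow 2
  have i4 : Integrable (fun x => Lp a ψ x * (Gm a ψ ψ x * w x ^ 2)) :=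
    sf_int (hLψ.mul (hN.mul hw2)) (cw2.mul_left (f := Gm a ψ ψ)).mul_left
  have k1 : Integrable (fun x => Gm a w (Gm a ψ w) x) := sf_int (Gm_sf ha hw hψw) (Gm_supp cψw)
  have k2 : Integrable (fun x => Gm a ψ (Gm a w w) x) := sf_int (Gm_sf ha hψ hww) (Gm_supp cww)
  have k3 : Integrable (fun x => w x * Gm a w (Lp a ψ) x) :=
    sf_int (hw.mul (Gm_sf ha hw hLψ)) hc.mul_right
  have k4 : Integrable (fun x => Lp a ψ x * Gm a w w x) := sf_int (hLψ.mul hww) cww.mul_left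
  have k5 : Integrable (fun x => Gm a ψ (Gm a ψ ψ) x * w x ^ 2) :=
    sf_int ((Gm_sf ha hψ hN).mul hw2) cw2.mul_left
  have k6 : Integrable (fun x => w x * Gm a (Lp a ψ) w x) :=
    sf_int (hw.mul (Gm_sf ha hLψ hw)) hc.mul_right
  -- integration by parts
  have e1 : ∫ x, Lp a w x * Gm a ψ w x = -∫ x, Gm a w (Gm a ψ w) x := int_parts' ha hw hψw hc
  have e2 : ∫ x, Kf a ψ w x = (∫ x, Gm a w (Gm a ψ w) x) -
      (1 / 2) * ∫ x, Gm a ψ (Gm a w w) x := by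
    unfold Kf
    rw [integral_sub k1 (k2.const_mul _), integral_const_mul]
  have e3 : ∫ x, Lp a ψ x * Gm a w w x = -∫ x, Gm a ψ (Gm a w w) x := int_parts ha hψ hww cww
  have e4 : ∫ x, Lp a w x * (Lp a ψ x * w x) =
      -((∫ x, Lp a ψ x * Gm a w w x) + ∫ x, w x * Gm a w (Lp a ψ) x) := by
    rw [int_parts' ha hw (hLψ.mul hw) hc, ← integral_add k4 k3]
    congr 1
    refine integral_congr_ae (Filter.Eventually.of_forall fun x => ?_)
    exact Gm_mul hLψ hw x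
  have e5 : ∫ x, Lp a (Lp a ψ) x * w x ^ 2 = -(2 * ∫ x, w x * Gm a w (Lp a ψ) x) := by
    rw [int_parts ha hLψ hw2 cw2, ← integral_const_mul]
    congr 1
    refine integral_congr_ae (Filter.Eventually.of_forall fun x => ?_)
    show Gm a (Lp a ψ) (fun y => w y ^ 2) x = 2 * (w x * Gm a w (Lp a ψ) x)
    rw [u2_sq ha hLψ hw, Gm_comm ha]
    ring
  have e6 : ∫ x, Lp a ψ x * (Gm a ψ ψ x * w x ^ 2) =
      -(2 * (∫ x, Gm a ψ ψ x * w x * Gm a ψ w x)) - ∫ x, Gm a ψ (Gm a ψ ψ) x * w x ^ 2 := by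
    have j1 : Integrable (fun x => -(2 * (Gm a ψ ψ x * w x * Gm a ψ w x))) :=
      (i3.const_mul 2).neg
    rw [int_parts ha hψ (hN.mul hw2) (cw2.mul_left (f := Gm a ψ ψ)), ← integral_const_mul,
      ← integral_neg, ← integral_neg, ← integral_sub j1 k5]
    refine integral_congr_ae (Filter.Eventually.of_forall fun x => ?_)
    show -Gm a ψ (fun y => Gm a ψ ψ y * w y ^ 2) x =
      -(2 * (Gm a ψ ψ x * w x * Gm a ψ w x)) - Gm a ψ (Gm a ψ ψ) x * w x ^ 2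
    rw [Gm_mul hN hw2, u2_sq ha hψ hw]
    ring
  have e0 : ∫ x, Tt a ψ τ w x ^ 2 = (∫ x, At a ψ τ w x ^ 2) + (∫ x, Bt a ψ τ w x ^ 2) +
      (-(4 * τ) * (∫ x, Lp a w x * Gm a ψ w x) + -(2 * τ) * (∫ x, Lp a w x * (Lp a ψ x * w x)) +
      (-(4 * τ ^ 3) * (∫ x, Gm a ψ ψ x * w x * Gm a ψ w x) +
      -(2 * τ ^ 3) * ∫ x, Lp a ψ x * (Gm a ψ ψ x * w x ^ 2))) := by
    have j1 : Integrable (fun x => -(4 * τ) * (Lp a w x * Gm a ψ w x)) := i1.const_mul _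
    have j2 : Integrable (fun x => -(2 * τ) * (Lp a w x * (Lp a ψ x * w x))) := i2.const_mul _
    have j3 : Integrable (fun x => -(4 * τ ^ 3) * (Gm a ψ ψ x * w x * Gm a ψ w x)) :=
      i3.const_mul _
    have j4 : Integrable (fun x => -(2 * τ ^ 3) * (Lp a ψ x * (Gm a ψ ψ x * w x ^ 2))) :=
      i4.const_mul _
    have j12 : Integrable (fun x => -(4 * τ) * (Lp a w x * Gm a ψ w x) +
        -(2 * τ) * (Lp a w x * (Lp a ψ x * w x))) := j1.add j2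
    have j34 : Integrable (fun x => -(4 * τ ^ 3) * (Gm a ψ ψ x * w x * Gm a ψ w x) +
        -(2 * τ ^ 3) * (Lp a ψ x * (Gm a ψ ψ x * w x ^ 2))) := j3.add j4
    have j1234 : Integrable (fun x => (-(4 * τ) * (Lp a w x * Gm a ψ w x) +
        -(2 * τ) * (Lp a w x * (Lp a ψ x * w x))) +
        (-(4 * τ ^ 3) * (Gm a ψ ψ x * w x * Gm a ψ w x) +
        -(2 * τ ^ 3) * (Lp a ψ x * (Gm a ψ ψ x * w x ^ 2)))) := j12.add j34
    have jAB : Integrable (fun x => At a ψ τ w x ^ 2 + Bt a ψ τ w x ^ 2) := iA2.add iB2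
    rw [← integral_const_mul, ← integral_const_mul, ← integral_const_mul, ← integral_const_mul,
      ← integral_add j1 j2, ← integral_add j3 j4, ← integral_add j12 j34, ← integral_add iA2 iB2,
      ← integral_add jAB j1234]
    refine integral_congr_ae (Filter.Eventually.of_forall fun x => ?_)
    show Tt a ψ τ w x ^ 2 = At a ψ τ w x ^ 2 + Bt a ψ τ w x ^ 2 +
      (-(4 * τ) * (Lp a w x * Gm a ψ w x) + -(2 * τ) * (Lp a w x * (Lp a ψ x * w x)) +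
      (-(4 * τ ^ 3) * (Gm a ψ ψ x * w x * Gm a ψ w x) +
      -(2 * τ ^ 3) * (Lp a ψ x * (Gm a ψ ψ x * w x ^ 2))))
    unfold Tt At Bt
    ring
  rw [e0, e1, e2, e4, e5, e6, e3]
  ring

end H30K
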