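import Pool.Agent.Lib.H30K.U2

/-!
# U3 (M): the abstract Carleman inequality

All functions of `w` vanish outside `D` (indeed outside `tsupport w`), so the pointwise bounds on `D` can
be integrated. Let `N = Gm ψ ψ`. `∫ Gm w w = -∫ w Lp w = τ² ∫ N w² - ∫ w At w` (`int_parts`). By `U2_id`
(drop `∫ Bt²`), `h1`, `h2`, `h4`:
`∫ Tt² ≥ ∫ At² - 4τ M ∫ Gm w w + 4τ³ N0 ∫ N w² - τ C0 ∫ w²
 = ∫ At² + 4τ M ∫ w At + 4τ³ (N0 - M) ∫ N w² - τ C0 ∫ w²`, and `At² + 4τ M w At ≥ At²/2 - 8τ² M² w²`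
(because `(At + 4τ M w)² ≥ 0`). With `N ≥ n0`: `∫ Tt² ≥ ∫ At²/2 + (4τ³ (N0-M) n0 - 8τ² M² - τ C0) ∫ w²`,
and for `τ ≥ τ0` the bracket is `≥ c τ³`, `c = 2 (N0 - M) n0 > 0` (e.g. `τ0 = 1 + (8 M² + |C0|)/c`).
Gradient: `τ ∫ Gm w w = τ³ ∫ N w² - τ ∫ w At ≤ |n1| τ³ ∫ w² + τ² ∫ w²/2 + ∫ At²/2`, so
`τ³ ∫ w² + τ ∫ Gm w w ≤ (1/c + |n1|/c + 1/c + 1) ∫ Tt²` (`τ ≥ 1`).
-/

set_option autoImplicit false

open scoped ContDiff Topology Manifold
open Set MeasureTheory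

namespace H30K

open H31R

variable {d : ℕ} {a : EE d → Mt d}

theorem u3_alg {τ M N0 n0 n1 C0 T A B K P Q NW W G X : ℝ} (hM : 0 ≤ M) (hN : M < N0) (hn : 0 < n0)
    (hτ : 1 + (8 * M ^ 2 + |C0|) / (2 * (N0 - M) * n0) ≤ τ)
    (hT : T = A + B + 4 * τ * K + 2 * τ ^ 3 * P - τ * Q) (hG : G = τ ^ 2 * NW - X)
    (hB : 0 ≤ B) (hA : 0 ≤ A) (hW : 0 ≤ W) (hK : -(M * G) ≤ K) (hP : 2 * N0 * NW ≤ P)
    (hQ : Q ≤ C0 * W) (hn0 : n0 * W ≤ NW) (hn1 : NW ≤ n1 * W)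
    (hs1 : 0 ≤ A + 2 * (4 * τ * M) * X + (4 * τ * M) ^ 2 * W)
    (hs2 : 0 ≤ A + 2 * τ * X + τ ^ 2 * W) :
    τ ^ 3 * W + τ * G ≤ ((3 / 2 + |n1|) / (2 * (N0 - M) * n0) + 1) * T := by
  obtain ⟨c, hc⟩ : ∃ c, c = 2 * (N0 - M) * n0 := ⟨_, rfl⟩
  rw [← hc] at hτ ⊢
  have hc0 : 0 < c := by
    rw [hc]
    exact mul_pos (by linarith) hn
  have hq : 0 ≤ (8 * M ^ 2 + |C0|) / c := by positivity
  have hτ1 : 1 ≤ τ := by linarith
  have hτ0 : 0 < τ := by linarith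
  have hcτ : 8 * M ^ 2 + |C0| ≤ c * τ := by
    have h1 : c * (1 + (8 * M ^ 2 + |C0|) / c) ≤ c * τ := mul_le_mul_of_nonneg_left hτ hc0.le
    have h2 : c * (1 + (8 * M ^ 2 + |C0|) / c) = c + (8 * M ^ 2 + |C0|) := by
      field_simp
    linarith
  -- main lower bound
  have b1 : 4 * τ * (-(M * G)) ≤ 4 * τ * K := mul_le_mul_of_nonneg_left hK (by positivity)
  have b2 : 2 * τ ^ 3 * (2 * N0 * NW) ≤ 2 * τ ^ 3 * P := mul_le_mul_of_nonneg_left hP (by positivity)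
  have b3 : τ * Q ≤ τ * (|C0| * W) := by
    refine mul_le_mul_of_nonneg_left (hQ.trans ?_) hτ0.le
    exact mul_le_mul_of_nonneg_right (le_abs_self _) hW
  have b4 : 4 * τ ^ 3 * (N0 - M) * (n0 * W) ≤ 4 * τ ^ 3 * (N0 - M) * NW :=
    mul_le_mul_of_nonneg_left hn0 (mul_nonneg (by positivity) (by linarith))
  have b5 : A / 2 + 2 * c * (τ ^ 3 * W) - 8 * τ ^ 2 * M ^ 2 * W - τ * (|C0| * W) ≤ T := by
    have e1 : 4 * τ ^ 3 * (N0 - M) * (n0 * W) = 2 * c * (τ ^ 3 * W) := by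
      rw [hc]
      ring
    rw [e1] at b4
    rw [hG] at b1
    nlinarith
  have b6 : 8 * τ ^ 2 * M ^ 2 * W + τ * (|C0| * W) ≤ c * (τ ^ 3 * W) := by
    have e1 : τ * (|C0| * W) ≤ τ ^ 2 * (|C0| * W) := by
      refine mul_le_mul_of_nonneg_right ?_ (by positivity)
      nlinarith
    have e2 : (8 * M ^ 2 + |C0|) * (τ ^ 2 * W) ≤ c * τ * (τ ^ 2 * W) :=
      mul_le_mul_of_nonneg_right hcτ (by positivity)
    nlinarith
  have b7 : A / 2 + c * (τ ^ 3 * W) ≤ T := by linarith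
  have c1 : c * (τ ^ 3 * W) ≤ T := by linarith
  have c2 : A / 2 ≤ T := by
    have : 0 ≤ c * (τ ^ 3 * W) := by positivity
    linarith
  -- gradient
  have g1 : τ * G ≤ |n1| * (τ ^ 3 * W) + τ ^ 3 * W / 2 + A / 2 := by
    have e1 : τ ^ 3 * NW ≤ τ ^ 3 * (|n1| * W) := by
      refine mul_le_mul_of_nonneg_left (hn1.trans ?_) (by positivity)
      exact mul_le_mul_of_nonneg_right (le_abs_self _) hW
    have e2 : τ ^ 2 * W ≤ τ ^ 3 * W := by
      refine mul_le_mul_of_nonneg_right ?_ hW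
      nlinarith [sq_nonneg τ]
    rw [hG]
    nlinarith
  have g2 : τ ^ 3 * W + τ * G ≤ (3 / 2 + |n1|) * (τ ^ 3 * W) + A / 2 := by linarith
  refine g2.trans ?_
  have g3 : (3 / 2 + |n1|) * (τ ^ 3 * W) ≤ (3 / 2 + |n1|) / c * T := by
    rw [div_mul_eq_mul_div, le_div_iff₀ hc0]
    have := mul_le_mul_of_nonneg_left c1 (by positivity : 0 ≤ 3 / 2 + |n1|)
    linarith
  linarith

theorem u3_pdz {f : EE d → ℝ} {x : EE d} (hx : x ∉ tsupport f) (k : Fin d) : pd k f x = 0 := by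
  have h1 : f =ᶠ[𝓝 x] fun _ => 0 := by
    have h2 := notMem_tsupport_iff_eventuallyEq.1 hx
    exact h2
  rw [N_pd_congr k h1, N_pd_const]

theorem u3_Gz {f g : EE d → ℝ} {x : EE d} (hx : x ∉ tsupport g) : Gm a f g x = 0 := by
  unfold Gm
  refine Finset.sum_eq_zero fun i _ => Finset.sum_eq_zero fun j _ => ?_
  rw [u3_pdz hx j, mul_zero]

theorem u3_Gz' {f g : EE d → ℝ} {x : EE d} (hx : x ∉ tsupport f) : Gm a f g x = 0 := by
  unfold Gm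
  refine Finset.sum_eq_zero fun i _ => Finset.sum_eq_zero fun j _ => ?_
  rw [u3_pdz hx i, mul_zero, zero_mul]

theorem u3_ts {f w : EE d → ℝ} : tsupport (Gm a f w) ⊆ tsupport w := by
  refine closure_minimal ?_ (isClosed_tsupport w)
  intro x hx
  by_contra h0
  exact hx (u3_Gz h0)

theorem u3_Lz {f : EE d → ℝ} {x : EE d} (hx : x ∉ tsupport f) : Lp a f x = 0 := by
  unfold Lp
  refine Finset.sum_eq_zero fun i _ => ?_
  have h1 : (fun y => ∑ j, a y i j * pd j f y) =ᶠ[𝓝 x] fun _ => 0 := by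
    filter_upwards [(isClosed_tsupport f).isOpen_compl.mem_nhds hx] with y hy
    refine Finset.sum_eq_zero fun j _ => ?_
    rw [u3_pdz hy j, mul_zero]
  rw [N_pd_congr i h1, N_pd_const]

theorem u3_int {w F : EE d → ℝ} (hc : HasCompactSupport w) (hF : Sf F)
    (h0 : ∀ x, x ∉ tsupport w → F x = 0) : Integrable F :=
  sf_int hF (HasCompactSupport.intro hc h0)

theorem u3_le {w F H : EE d → ℝ} (hc : HasCompactSupport w) (hF : Sf F) (hH : Sf H)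
    (h0 : ∀ x, x ∉ tsupport w → F x = 0) (h0' : ∀ x, x ∉ tsupport w → H x = 0)
    (hle : ∀ x ∈ tsupport w, F x ≤ H x) : ∫ x, F x ≤ ∫ x, H x := by
  refine integral_mono (u3_int hc hF h0) (u3_int hc hH h0') fun x => ?_
  by_cases hx : x ∈ tsupport w
  · exact hle x hx
  · rw [h0 x hx, h0' x hx]

theorem U3_carl (ha : SmA a) {ψ : EE d → ℝ} (hψ : Sf ψ) {D : Set (EE d)} {M N0 n0 n1 C0 : ℝ}
    (hM : 0 ≤ M) (hN : M < N0) (hn : 0 < n0)
    (h1 : ∀ w, Sf w → ∀ x ∈ D, -(M * Gm a w w x) ≤ Kf a ψ w x)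
    (h2 : ∀ x ∈ D, 2 * N0 * Gm a ψ ψ x ≤ Gm a ψ (Gm a ψ ψ) x)
    (h3 : ∀ x ∈ D, n0 ≤ Gm a ψ ψ x ∧ Gm a ψ ψ x ≤ n1)
    (h4 : ∀ x ∈ D, |Lp a (Lp a ψ) x| ≤ C0) (h5 : ∀ w, Sf w → ∀ x ∈ D, 0 ≤ Gm a w w x) :
    ∃ C τ0 : ℝ, 0 < C ∧ 1 ≤ τ0 ∧ ∀ τ ≥ τ0, ∀ w, Sf w → HasCompactSupport w → tsupport w ⊆ D →
      τ ^ 3 * (∫ x, w x ^ 2) + τ * (∫ x, Gm a w w x) ≤ C * ∫ x, Tt a ψ τ w x ^ 2 := by
  have hc0 : 0 < 2 * (N0 - M) * n0 := mul_pos (by linarith) hn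
  refine ⟨(3 / 2 + |n1|) / (2 * (N0 - M) * n0) + 1, 1 + (8 * M ^ 2 + |C0|) / (2 * (N0 - M) * n0),
    by positivity, le_add_of_nonneg_right (by positivity), fun τ hτ w hw hc hD => ?_⟩
  have hLw := Lp_sf ha hw
  have hLψ := Lp_sf ha hψ
  have hLLψ := Lp_sf ha hLψ
  have hN' := Gm_sf ha hψ hψ
  have hPsi := Gm_sf ha hψ hN'
  have hψw := Gm_sf ha hψ hw
  have hww := Gm_sf ha hw hw
  have hw2 : Sf (fun x => w x ^ 2) := hw.pow 2
  have w0 : ∀ x, x ∉ tsupport w → w x = 0 := fun x hx => image_eq_zero_of_notMem_tsupport hx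
  have hAt : Sf (At a ψ τ w) := hLw.add (((contDiff_const (c := τ ^ 2)).mul hN').mul hw)
  have A0 : ∀ x, x ∉ tsupport w → At a ψ τ w x = 0 := by
    intro x hx
    unfold At
    rw [u3_Lz hx, w0 x hx]
    ring
  have hKf : Sf (Kf a ψ w) := (Gm_sf ha hw hψw).sub ((contDiff_const (c := 1 / 2)).mul (Gm_sf ha hψ hww))
  have K0 : ∀ x, x ∉ tsupport w → Kf a ψ w x = 0 := by
    intro x hx
    unfold Kf
    rw [u3_Gz' hx, u3_Gz (fun h => hx (u3_ts h))]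
    ring
  have iA2 : Integrable (fun x => At a ψ τ w x ^ 2) :=
    u3_int hc (hAt.pow 2) fun x hx => by rw [A0 x hx]; ring
  have iAw : Integrable (fun x => At a ψ τ w x * w x) :=
    u3_int hc (hAt.mul hw) fun x hx => by rw [A0 x hx, zero_mul]
  have iw2 : Integrable (fun x => w x ^ 2) :=
    u3_int hc hw2 fun x hx => by rw [w0 x hx]; ring
  have hs : ∀ s : ℝ, 0 ≤ (∫ x, At a ψ τ w x ^ 2) + 2 * s * (∫ x, At a ψ τ w x * w x) +
      s ^ 2 * ∫ x, w x ^ 2 := by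
    intro s
    have e1 : 0 ≤ ∫ x, (At a ψ τ w x + s * w x) ^ 2 := integral_nonneg fun x => sq_nonneg _
    have e2 : ∫ x, (At a ψ τ w x + s * w x) ^ 2 =
        ∫ x, ((At a ψ τ w x ^ 2 + (2 * s) * (At a ψ τ w x * w x)) + s ^ 2 * w x ^ 2) :=
      integral_congr_ae (Filter.Eventually.of_forall fun x => by ring)
    have e3 := integral_add (iA2.add (iAw.const_mul (2 * s))) (iw2.const_mul (s ^ 2))
    have e4 := integral_add iA2 (iAw.const_mul (2 * s))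
    rw [integral_const_mul] at e3 e4
    rw [e2] at e1
    have e5 : ∫ x, ((At a ψ τ w x ^ 2 + (2 * s) * (At a ψ τ w x * w x)) + s ^ 2 * w x ^ 2) =
        (∫ x, (At a ψ τ w x ^ 2 + (2 * s) * (At a ψ τ w x * w x))) + s ^ 2 * ∫ x, w x ^ 2 := e3
    rw [e5, e4] at e1
    exact e1
  refine u3_alg (B := ∫ x, Bt a ψ τ w x ^ 2) (A := ∫ x, At a ψ τ w x ^ 2)
    (K := ∫ x, Kf a ψ w x) (P := ∫ x, Gm a ψ (Gm a ψ ψ) x * w x ^ 2)
    (Q := ∫ x, Lp a (Lp a ψ) x * w x ^ 2) (NW := ∫ x, Gm a ψ ψ x * w x ^ 2)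
    (X := ∫ x, At a ψ τ w x * w x) hM hN hn hτ (U2_id ha hψ hw hc τ) ?_
    (integral_nonneg fun x => sq_nonneg _) (integral_nonneg fun x => sq_nonneg _)
    (integral_nonneg fun x => sq_nonneg _) ?_ ?_ ?_ ?_ ?_ (hs _) (hs _)
  · have e1 := int_parts' ha hw hw hc
    have e2 : ∫ x, At a ψ τ w x * w x =
        ∫ x, (Lp a w x * w x + τ ^ 2 * (Gm a ψ ψ x * w x ^ 2)) := by
      refine integral_congr_ae (Filter.Eventually.of_forall fun x => ?_)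
      show At a ψ τ w x * w x = _
      unfold At
      ring
    have i1 : Integrable (fun x => Lp a w x * w x) :=
      u3_int hc (hLw.mul hw) fun x hx => by rw [w0 x hx, mul_zero]
    have i2 : Integrable (fun x => Gm a ψ ψ x * w x ^ 2) :=
      u3_int hc (hN'.mul hw2) fun x hx => by rw [w0 x hx]; ring
    rw [e2, integral_add i1 (i2.const_mul _), integral_const_mul, e1]
    ring
  · rw [← integral_const_mul, ← integral_neg]
    exact u3_le hc ((contDiff_const.mul hww).neg) hKf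
      (fun x hx => by rw [u3_Gz hx]; ring) K0 fun x hx => h1 w hw x (hD hx)
  · rw [← integral_const_mul]
    refine u3_le hc (contDiff_const.mul (hN'.mul hw2)) (hPsi.mul hw2)
      (fun x hx => by rw [w0 x hx]; ring) (fun x hx => by rw [w0 x hx]; ring) fun x hx => ?_
    have := mul_le_mul_of_nonneg_right (h2 x (hD hx)) (sq_nonneg (w x))
    linarith
  · rw [← integral_const_mul]
    refine u3_le hc (hLLψ.mul hw2) (contDiff_const.mul hw2)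
      (fun x hx => by rw [w0 x hx]; ring) (fun x hx => by rw [w0 x hx]; ring) fun x hx => ?_
    exact mul_le_mul_of_nonneg_right ((le_abs_self _).trans (h4 x (hD hx))) (sq_nonneg (w x))
  · rw [← integral_const_mul]
    refine u3_le hc (contDiff_const.mul hw2) (hN'.mul hw2)
      (fun x hx => by rw [w0 x hx]; ring) (fun x hx => by rw [w0 x hx]; ring) fun x hx => ?_
    exact mul_le_mul_of_nonneg_right (h3 x (hD hx)).1 (sq_nonneg (w x))
  · rw [← integral_const_mul]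
    refine u3_le hc (hN'.mul hw2) (contDiff_const.mul hw2)
      (fun x hx => by rw [w0 x hx]; ring) (fun x hx => by rw [w0 x hx]; ring) fun x hx => ?_
    exact mul_le_mul_of_nonneg_right (h3 x (hD hx)).2 (sq_nonneg (w x))

end H30K
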