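import Pool.Agent.Lib.H30K.U1

/-!
# U4 (M): conjugation with the weight

`U4_conj`: `w = exp(τ ψ) v`. `Gm a f w = exp(τψ) (Gm f v + τ v Gm f ψ)` (`Gm_mul`, `Gm_chain`),
`Lp w = exp(τψ) (Lp v + 2τ Gm ψ v + τ v Lp ψ + τ² v Gm ψ ψ)` (`Lp_mul`; `Lp (exp(τψ)) = exp(τψ) (τ Lp ψ +
τ² Gm ψ ψ)`). Insert in the definition of `Tt`: everything cancels except `exp(τψ) Lp v`.

`U4_carl`: apply the hypothesis to `w = exp(τψ) v` (smooth, `tsupport w ⊆ tsupport v`).
`w² = exp(2τψ) v²`, `Tt w ² = exp(2τψ) (Lp v)²`, and on `D`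
`exp(2τψ) Gm v v ≤ 2 Gm w w + 2 τ² N w²` because `exp(τψ) ∂v = ∂w - τ w ∂ψ` and `Gm` is positive
semidefinite at the points of `D` (`h5`: `Gm (p - q) (p - q) ≤ 2 Gm p p + 2 Gm q q` as forms; `h5` for all
smooth functions gives positivity of the matrix `a x` on all covectors, take linear functions). `N ≤ n1`.
So `C' = C (2 n1⁺ + 3)` works (`τ · 2 τ² n1 ∫ w² ≤ 2 n1 τ³ ∫ w²`).
-/

set_option autoImplicit false

open scoped ContDiff Topology Manifold
open Set MeasureTheory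

namespace H30K

open H31R

variable {d : ℕ} {a : EE d → Mt d}

/-- the exponential weight -/
theorem u4_E {ψ : EE d → ℝ} (hψ : Sf ψ) (τ : ℝ) : Sf (fun y => Real.exp (τ * ψ y)) :=
  Real.contDiff_exp.comp (contDiff_const.mul hψ)

theorem u4_pdE {ψ : EE d → ℝ} (hψ : Sf ψ) (τ : ℝ) (j : Fin d) (x : EE d) :
    pd j (fun y => Real.exp (τ * ψ y)) x = τ * Real.exp (τ * ψ x) * pd j ψ x := by
  have h1 : HasFDerivAt ψ (fderiv ℝ ψ x) x :=
    ((hψ.differentiable (by simp)).differentiableAt).hasFDerivAt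
  have h2 := ((h1.const_mul τ).exp).fderiv
  unfold pd
  rw [h2]
  simp only [FunLike.coe_smul, Pi.smul_apply, smul_eq_mul]
  ring

theorem u4_GE (ha : SmA a) {ψ : EE d → ℝ} (hψ : Sf ψ) (f : EE d → ℝ) (τ : ℝ) (x : EE d) :
    Gm a f (fun y => Real.exp (τ * ψ y)) x = τ * Real.exp (τ * ψ x) * Gm a f ψ x := by
  unfold Gm
  rw [Finset.mul_sum]
  refine Finset.sum_congr rfl fun i _ => ?_
  rw [Finset.mul_sum]
  refine Finset.sum_congr rfl fun j _ => ?_
  rw [u4_pdE hψ τ j x]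
  ring

theorem u4_LE (ha : SmA a) {ψ : EE d → ℝ} (hψ : Sf ψ) (τ : ℝ) (x : EE d) :
    Lp a (fun y => Real.exp (τ * ψ y)) x =
      Real.exp (τ * ψ x) * (τ * Lp a ψ x + τ ^ 2 * Gm a ψ ψ x) := by
  have h1 : ∀ i, pd i (fun y => ∑ j, a y i j * pd j (fun z => Real.exp (τ * ψ z)) y) x =
      Real.exp (τ * ψ x) * (τ * pd i (fun y => ∑ j, a y i j * pd j ψ y) x +
        τ ^ 2 * ∑ j, a x i j * pd i ψ x * pd j ψ x) := by
    intro i
    have e1 : (fun y => ∑ j, a y i j * pd j (fun z => Real.exp (τ * ψ z)) y) =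
        fun y => (τ * Real.exp (τ * ψ y)) * ∑ j, a y i j * pd j ψ y := by
      funext y
      rw [Finset.mul_sum]
      refine Finset.sum_congr rfl fun j _ => ?_
      rw [u4_pdE hψ τ j y]
      ring
    have hF : Sf (fun y => ∑ j, a y i j * pd j ψ y) :=
      ContDiff.sum fun j _ => (ha.sm i j).mul (pd_sf hψ j)
    have d1 : DifferentiableAt ℝ (fun y => ∑ j, a y i j * pd j ψ y) x :=
      (hF.differentiable (by simp)).differentiableAt
    have d2 : DifferentiableAt ℝ (fun y => Real.exp (τ * ψ y)) x :=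
      ((u4_E hψ τ).differentiable (by simp)).differentiableAt
    rw [e1, N_pd_mul (d2.const_mul τ) d1, N_pd_cmul d2, u4_pdE hψ]
    have e2 : ∑ j, a x i j * pd i ψ x * pd j ψ x = pd i ψ x * ∑ j, a x i j * pd j ψ x := by
      rw [Finset.mul_sum]
      exact Finset.sum_congr rfl fun j _ => by ring
    rw [e2]
    ring
  unfold Lp Gm
  rw [Finset.sum_congr rfl fun i _ => h1 i, ← Finset.mul_sum, Finset.sum_add_distrib,
    ← Finset.mul_sum, ← Finset.mul_sum]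

theorem U4_conj (ha : SmA a) {ψ v : EE d → ℝ} (hψ : Sf ψ) (hv : Sf v) (τ : ℝ) (x : EE d) :
    Tt a ψ τ (fun y => Real.exp (τ * ψ y) * v y) x = Real.exp (τ * ψ x) * Lp a v x := by
  have hE := u4_E hψ τ
  unfold Tt At Bt
  rw [Lp_mul ha hE hv, Gm_mul hE hv, u4_LE ha hψ, u4_GE ha hψ,
    Gm_comm ha (fun y => Real.exp (τ * ψ y)) v, u4_GE ha hψ, Gm_comm ha v ψ]
  ring

theorem u4_form {A : Mt d} (hA : ∀ ξ : Fin d → ℝ, 0 ≤ ∑ i, ∑ j, A i j * ξ i * ξ j)
    (p q : Fin d → ℝ) : ∑ i, ∑ j, A i j * (p i - q i) * (p j - q j) ≤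
      2 * (∑ i, ∑ j, A i j * p i * p j) + 2 * ∑ i, ∑ j, A i j * q i * q j := by
  have h1 := hA (fun i => p i + q i)
  have h2 : (∑ i, ∑ j, A i j * (p i - q i) * (p j - q j)) +
      (∑ i, ∑ j, A i j * (p i + q i) * (p j + q j)) =
      2 * (∑ i, ∑ j, A i j * p i * p j) + 2 * ∑ i, ∑ j, A i j * q i * q j := by
    rw [Finset.mul_sum, Finset.mul_sum, ← Finset.sum_add_distrib, ← Finset.sum_add_distrib]
    refine Finset.sum_congr rfl fun i _ => ?_
    rw [Finset.mul_sum, Finset.mul_sum, ← Finset.sum_add_distrib, ← Finset.sum_add_distrib]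
    refine Finset.sum_congr rfl fun j _ => ?_
    ring
  linarith

theorem u4_point {ψ v : EE d → ℝ} (hψ : Sf ψ) (hv : Sf v) (τ : ℝ) {x : EE d}
    (h5 : ∀ ξ : Fin d → ℝ, 0 ≤ ∑ i, ∑ j, a x i j * ξ i * ξ j) :
    Real.exp (2 * τ * ψ x) * Gm a v v x ≤
      2 * Gm a (fun y => Real.exp (τ * ψ y) * v y) (fun y => Real.exp (τ * ψ y) * v y) x +
        2 * τ ^ 2 * ((Real.exp (τ * ψ x) * v x) ^ 2 * Gm a ψ ψ x) := by
  have dE : DifferentiableAt ℝ (fun y => Real.exp (τ * ψ y)) x :=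
    ((u4_E hψ τ).differentiable (by simp)).differentiableAt
  have dv : DifferentiableAt ℝ v x := (hv.differentiable (by simp)).differentiableAt
  have e0 : ∀ j, Real.exp (τ * ψ x) * pd j v x =
      pd j (fun y => Real.exp (τ * ψ y) * v y) x -
        τ * (Real.exp (τ * ψ x) * v x) * pd j ψ x := by
    intro j
    rw [N_pd_mul dE dv, u4_pdE hψ]
    ring
  have h1 := u4_form h5 (fun j => pd j (fun y => Real.exp (τ * ψ y) * v y) x)
    (fun j => τ * (Real.exp (τ * ψ x) * v x) * pd j ψ x)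
  have e1 : Real.exp (2 * τ * ψ x) * Gm a v v x = ∑ i, ∑ j, a x i j *
      (pd i (fun y => Real.exp (τ * ψ y) * v y) x -
        τ * (Real.exp (τ * ψ x) * v x) * pd i ψ x) *
      (pd j (fun y => Real.exp (τ * ψ y) * v y) x -
        τ * (Real.exp (τ * ψ x) * v x) * pd j ψ x) := by
    unfold Gm
    rw [Finset.mul_sum]
    refine Finset.sum_congr rfl fun i _ => ?_
    rw [Finset.mul_sum]
    refine Finset.sum_congr rfl fun j _ => ?_
    rw [← e0 i, ← e0 j, show 2 * τ * ψ x = τ * ψ x + τ * ψ x by ring, Real.exp_add]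
    ring
  have e2 : ∑ i, ∑ j, a x i j * (τ * (Real.exp (τ * ψ x) * v x) * pd i ψ x) *
      (τ * (Real.exp (τ * ψ x) * v x) * pd j ψ x) =
      τ ^ 2 * ((Real.exp (τ * ψ x) * v x) ^ 2 * Gm a ψ ψ x) := by
    unfold Gm
    rw [Finset.mul_sum, Finset.mul_sum]
    refine Finset.sum_congr rfl fun i _ => ?_
    rw [Finset.mul_sum, Finset.mul_sum]
    refine Finset.sum_congr rfl fun j _ => ?_
    ring
  rw [e1]
  refine h1.trans (le_of_eq ?_)
  rw [e2]
  unfold Gm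
  ring

theorem u4_pdz {f : EE d → ℝ} {x : EE d} (hx : x ∉ tsupport f) (k : Fin d) : pd k f x = 0 := by
  have h1 : f =ᶠ[𝓝 x] fun _ => 0 := by
    have h2 := notMem_tsupport_iff_eventuallyEq.1 hx
    exact h2
  rw [N_pd_congr k h1, N_pd_const]

theorem u4_Gz {f g : EE d → ℝ} {x : EE d} (hx : x ∉ tsupport g) : Gm a f g x = 0 := by
  unfold Gm
  refine Finset.sum_eq_zero fun i _ => Finset.sum_eq_zero fun j _ => ?_
  rw [u4_pdz hx j, mul_zero]

theorem U4_carl (ha : SmA a) {ψ : EE d → ℝ} (hψ : Sf ψ) {D : Set (EE d)} {n1 C τ0 : ℝ} (hC : 0 < C)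
    (hτ : 1 ≤ τ0) (h3 : ∀ x ∈ D, Gm a ψ ψ x ≤ n1)
    (h5 : ∀ x ∈ D, ∀ ξ : Fin d → ℝ, 0 ≤ ∑ i, ∑ j, a x i j * ξ i * ξ j)
    (h : ∀ τ ≥ τ0, ∀ w, Sf w → HasCompactSupport w → tsupport w ⊆ D →
      τ ^ 3 * (∫ x, w x ^ 2) + τ * (∫ x, Gm a w w x) ≤ C * ∫ x, Tt a ψ τ w x ^ 2) :
    ∃ C', 0 < C' ∧ Carl a ψ D C' τ0 := by
  have hn : 0 ≤ max n1 0 := le_max_right _ _
  have hn1 : n1 ≤ max n1 0 := le_max_left _ _
  generalize max n1 0 = m at hn hn1
  refine ⟨C * (2 + 2 * m), by positivity, ?_⟩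
  intro τ hτ0 v hv hc hD
  have hτ1 : 0 < τ := by linarith
  obtain ⟨w, hw⟩ : ∃ w : EE d → ℝ, w = fun y => Real.exp (τ * ψ y) * v y := ⟨_, rfl⟩
  have hwS : Sf w := by
    rw [hw]
    exact (u4_E hψ τ).mul hv
  have hwc : HasCompactSupport w := by
    rw [hw]
    exact hc.mul_left
  have hwt : tsupport w ⊆ tsupport v := by
    rw [hw]
    exact tsupport_mul_subset_right
  have h1 := h τ hτ0 w hwS hwc (hwt.trans hD)
  have e1 : ∀ x, Tt a ψ τ w x ^ 2 = Real.exp (2 * τ * ψ x) * Lp a v x ^ 2 := by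
    intro x
    rw [hw, U4_conj ha hψ hv, show 2 * τ * ψ x = τ * ψ x + τ * ψ x by ring, Real.exp_add]
    ring
  have e2 : ∀ x, w x ^ 2 = Real.exp (2 * τ * ψ x) * v x ^ 2 := by
    intro x
    rw [hw, show 2 * τ * ψ x = τ * ψ x + τ * ψ x by ring, Real.exp_add]
    ring
  have e3 : ∫ x, Tt a ψ τ w x ^ 2 = ∫ x, Real.exp (2 * τ * ψ x) * Lp a v x ^ 2 :=
    integral_congr_ae (Filter.Eventually.of_forall e1)
  have e4 : ∫ x, Real.exp (2 * τ * ψ x) * v x ^ 2 = ∫ x, w x ^ 2 :=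
    integral_congr_ae (Filter.Eventually.of_forall fun x => (e2 x).symm)
  have hGw : Sf (Gm a w w) := Gm_sf ha hwS hwS
  have i1 : Integrable (Gm a w w) := sf_int hGw (Gm_supp hwc)
  have i2 : Integrable (fun x => w x ^ 2) := by
    have : (fun x => w x ^ 2) = fun x => w x * w x := by
      funext x
      ring
    rw [this]
    exact sf_int (hwS.mul hwS) hwc.mul_left
  have hE2 : Sf (fun x => Real.exp (2 * τ * ψ x)) := u4_E hψ (2 * τ)
  have i3 : Integrable (fun x => Real.exp (2 * τ * ψ x) * Gm a v v x) :=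
    sf_int (hE2.mul (Gm_sf ha hv hv)) (Gm_supp hc).mul_left
  have hpt : ∀ x, Real.exp (2 * τ * ψ x) * Gm a v v x ≤
      2 * Gm a w w x + 2 * τ ^ 2 * m * w x ^ 2 := by
    intro x
    by_cases hx : x ∈ tsupport v
    · have h2 := u4_point (a := a) hψ hv τ (h5 x (hD hx))
      have h4 : (Real.exp (τ * ψ x) * v x) ^ 2 * Gm a ψ ψ x ≤
          (Real.exp (τ * ψ x) * v x) ^ 2 * m :=
        mul_le_mul_of_nonneg_left ((h3 x (hD hx)).trans hn1) (sq_nonneg _)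
      have h6 : 2 * τ ^ 2 * ((Real.exp (τ * ψ x) * v x) ^ 2 * Gm a ψ ψ x) ≤
          2 * τ ^ 2 * ((Real.exp (τ * ψ x) * v x) ^ 2 * m) :=
        mul_le_mul_of_nonneg_left h4 (by positivity)
      rw [hw]
      linarith
    · have hx' : x ∉ tsupport w := fun h' => hx (hwt h')
      rw [u4_Gz hx, u4_Gz hx', image_eq_zero_of_notMem_tsupport hx']
      simp
  have h2 : ∫ x, Real.exp (2 * τ * ψ x) * Gm a v v x ≤
      2 * (∫ x, Gm a w w x) + 2 * τ ^ 2 * m * ∫ x, w x ^ 2 := by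
    have h4 := integral_mono i3 ((i1.const_mul 2).add (i2.const_mul (2 * τ ^ 2 * m))) hpt
    refine h4.trans (le_of_eq ?_)
    have h6 := integral_add (i1.const_mul 2) (i2.const_mul (2 * τ ^ 2 * m))
    rw [integral_const_mul, integral_const_mul] at h6
    exact h6
  have p1 : 0 ≤ ∫ x, w x ^ 2 := integral_nonneg fun x => sq_nonneg _
  have p2 : 0 ≤ ∫ x, Gm a w w x := by
    refine integral_nonneg fun x => ?_
    show 0 ≤ Gm a w w x
    by_cases hx : x ∈ tsupport v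
    · exact h5 x (hD hx) fun j => pd j w x
    · have hx' : x ∉ tsupport w := fun h' => hx (hwt h')
      rw [u4_Gz hx']
  rw [e3] at h1
  rw [e4]
  have h6 := mul_le_mul_of_nonneg_left h2 hτ1.le
  have h7 : 0 ≤ τ ^ 3 * ∫ x, w x ^ 2 := mul_nonneg (by positivity) p1
  have h8 : 0 ≤ τ * ∫ x, Gm a w w x := mul_nonneg hτ1.le p2
  have h9 : (2 + 2 * m) * (τ ^ 3 * (∫ x, w x ^ 2) + τ * (∫ x, Gm a w w x)) ≤
      (2 + 2 * m) * (C * ∫ x, Real.exp (2 * τ * ψ x) * Lp a v x ^ 2) :=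
    mul_le_mul_of_nonneg_left h1 (by positivity)
  have h10 : 0 ≤ m * (τ * ∫ x, Gm a w w x) := mul_nonneg hn h8
  nlinarith

end H30K
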