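import Pool.Agent.Lib.H30K.U1

/-!
# U5 (M): the Hessian is a quadratic form in the first derivatives

`U5_formula`: with `r = pd k ρ` etc.: `Kf a ρ w = ∑ i l, k i l ∂_i w ∂_l w`,
`k i l = ∑ j k, a i j ∂_j (a k l ∂_k ρ) - (1/2) ∑ k m, a k m ∂_k ρ ∂_m (a i l)` (expand the two terms
`Gm w (Gm ρ w)` and `Gm ρ (Gm w w)`; the second derivatives of `w` cancel by symmetry: `N_pd_symm`).

`U5_ell`: `a` is positive definite at each point of the compact set `D`: the continuous function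
`(x, ξ) ↦ ∑ a x i j ξ i ξ j` has a positive minimum `α` on `D × unit sphere`; homogeneity.

`U5_bound`: `|Kf| ≤ κ (∑ |∂_i w|)² ≤ κ d ∑ (∂_i w)² ≤ (κ d / α) Gm w w`, `κ` a bound for `|k i l|` on `D`
(continuous on a compact set).
-/

set_option autoImplicit false

open scoped ContDiff Topology Manifold
open Set MeasureTheory

namespace H30K

open H31R

variable {d : ℕ} {a : EE d → Mt d}

/-- the coefficients of the Hessian -/
noncomputable def kk (a : EE d → Mt d) (ρ : EE d → ℝ) (x : EE d) (i l : Fin d) : ℝ :=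
  ∑ j, ∑ k, a x i j * pd j (fun y => a y k l * pd k ρ y) x -
    (1 / 2) * ∑ k, ∑ m, a x k m * pd k ρ x * pd m (fun y => a y i l) x

theorem u5_c3 (f : Fin d → Fin d → Fin d → ℝ) :
    ∑ j, ∑ k, ∑ l, f j k l = ∑ l, ∑ j, ∑ k, f j k l := by
  have h1 : ∀ j, ∑ k, ∑ l, f j k l = ∑ l, ∑ k, f j k l := fun j => Finset.sum_comm
  simp only [h1]
  exact Finset.sum_comm

/-- swapping two pairs of indices -/
theorem u5_c4 (f : Fin d → Fin d → Fin d → Fin d → ℝ) :
    ∑ i, ∑ j, ∑ k, ∑ l, f i j k l = ∑ k, ∑ l, ∑ i, ∑ j, f i j k l := by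
  have h1 : ∀ i, ∑ j, ∑ k, ∑ l, f i j k l = ∑ k, ∑ l, ∑ j, f i j k l := by
    intro i
    rw [Finset.sum_comm]
    exact Finset.sum_congr rfl fun k _ => Finset.sum_comm
  simp only [h1]
  rw [Finset.sum_comm]
  exact Finset.sum_congr rfl fun k _ => Finset.sum_comm

theorem u5_alg (A H : Fin d → Fin d → ℝ) (W R : Fin d → ℝ) (P Q : Fin d → Fin d → Fin d → ℝ)
    (hA : ∀ i j, A i j = A j i) (hH : ∀ i j, H i j = H j i) :
    ∑ i, ∑ j, A i j * W i * (∑ k, ∑ l, (P j k l * W l + A k l * R k * H j l)) -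
      1 / 2 * ∑ k, ∑ m, A k m * R k *
        (∑ i, ∑ l, (Q m i l * W i * W l + A i l * H m i * W l + A i l * W i * H m l)) =
    ∑ i, ∑ l, (∑ j, ∑ k, A i j * P j k l - 1 / 2 * ∑ k, ∑ m, A k m * R k * Q m i l) * W i * W l := by
  have e1 : ∑ i, ∑ j, A i j * W i * (∑ k, ∑ l, (P j k l * W l + A k l * R k * H j l)) =
      ∑ i, ∑ l, (∑ j, ∑ k, A i j * P j k l) * W i * W l +
      ∑ k, ∑ m, ∑ i, ∑ l, A i l * W i * (A k m * R k * H l m) := by
    have h1 : ∀ i, ∑ j, A i j * W i * (∑ k, ∑ l, (P j k l * W l + A k l * R k * H j l)) =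
        ∑ l, (∑ j, ∑ k, A i j * P j k l) * W i * W l +
        ∑ j, ∑ k, ∑ l, A i j * W i * (A k l * R k * H j l) := by
      intro i
      have h2 : ∑ l, (∑ j, ∑ k, A i j * P j k l) * W i * W l =
          ∑ j, ∑ k, ∑ l, A i j * W i * (P j k l * W l) := by
        rw [u5_c3]
        refine Finset.sum_congr rfl fun l _ => ?_
        simp only [Finset.sum_mul]
        refine Finset.sum_congr rfl fun j _ => Finset.sum_congr rfl fun k _ => ?_
        ring
      rw [h2, ← Finset.sum_add_distrib]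
      refine Finset.sum_congr rfl fun j _ => ?_
      rw [← Finset.sum_add_distrib, Finset.mul_sum]
      refine Finset.sum_congr rfl fun k _ => ?_
      rw [← Finset.sum_add_distrib, Finset.mul_sum]
      refine Finset.sum_congr rfl fun l _ => ?_
      ring
    simp only [h1]
    rw [Finset.sum_add_distrib]
    congr 1
    rw [u5_c4]
  have e2 : ∑ k, ∑ m, A k m * R k *
        (∑ i, ∑ l, (Q m i l * W i * W l + A i l * H m i * W l + A i l * W i * H m l)) =
      ∑ i, ∑ l, (∑ k, ∑ m, A k m * R k * Q m i l) * W i * W l +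
      2 * ∑ k, ∑ m, ∑ i, ∑ l, A i l * W i * (A k m * R k * H l m) := by
    have h2 : ∑ i, ∑ l, (∑ k, ∑ m, A k m * R k * Q m i l) * W i * W l =
        ∑ k, ∑ m, ∑ i, ∑ l, A k m * R k * (Q m i l * W i * W l) := by
      rw [u5_c4 (fun k m i l => A k m * R k * (Q m i l * W i * W l))]
      refine Finset.sum_congr rfl fun i _ => Finset.sum_congr rfl fun l _ => ?_
      simp only [Finset.sum_mul]
      refine Finset.sum_congr rfl fun j _ => Finset.sum_congr rfl fun k _ => ?_
      ring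
    rw [h2, Finset.mul_sum, ← Finset.sum_add_distrib]
    refine Finset.sum_congr rfl fun k _ => ?_
    rw [Finset.mul_sum, ← Finset.sum_add_distrib]
    refine Finset.sum_congr rfl fun m _ => ?_
    have h3 : ∑ i, ∑ l, A i l * H m i * W l = ∑ i, ∑ l, A i l * W i * H m l := by
      rw [Finset.sum_comm]
      refine Finset.sum_congr rfl fun i _ => Finset.sum_congr rfl fun l _ => ?_
      rw [hA l i]
      ring
    have h4 : ∑ i, ∑ l, A i l * W i * (A k m * R k * H l m) =
        A k m * R k * ∑ i, ∑ l, A i l * W i * H m l := by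
      simp only [Finset.mul_sum]
      refine Finset.sum_congr rfl fun i _ => Finset.sum_congr rfl fun l _ => ?_
      rw [hH l m]
      ring
    rw [h4]
    simp only [Finset.sum_add_distrib]
    rw [h3]
    simp only [← Finset.mul_sum]
    ring
  rw [e1, e2]
  have e3 : ∑ i, ∑ l, (∑ j, ∑ k, A i j * P j k l - 1 / 2 * ∑ k, ∑ m, A k m * R k * Q m i l) * W i * W l =
      ∑ i, ∑ l, (∑ j, ∑ k, A i j * P j k l) * W i * W l -
      1 / 2 * ∑ i, ∑ l, (∑ k, ∑ m, A k m * R k * Q m i l) * W i * W l := by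
    rw [Finset.mul_sum, ← Finset.sum_sub_distrib]
    refine Finset.sum_congr rfl fun i _ => ?_
    rw [Finset.mul_sum, ← Finset.sum_sub_distrib]
    refine Finset.sum_congr rfl fun l _ => ?_
    ring
  rw [e3]
  ring

theorem U5_formula (ha : SmA a) {ρ w : EE d → ℝ} (hρ : Sf ρ) (hw : Sf w) (x : EE d) :
    Kf a ρ w x = ∑ i, ∑ l, kk a ρ x i l * pd i w x * pd l w x := by
  have hne : (∞ : WithTop ℕ∞) ≠ 0 := by simp
  have da : ∀ i j, DifferentiableAt ℝ (fun y => a y i j) x := fun i j =>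
    (ha.sm i j).contDiffAt.differentiableAt hne
  have dρ : ∀ k, DifferentiableAt ℝ (pd k ρ) x := fun k =>
    (pd_sf hρ k).contDiffAt.differentiableAt hne
  have dw : ∀ k, DifferentiableAt ℝ (pd k w) x := fun k =>
    (pd_sf hw k).contDiffAt.differentiableAt hne
  have h1 : ∀ j, pd j (Gm a ρ w) x = ∑ k, ∑ l, (pd j (fun y => a y k l * pd k ρ y) x * pd l w x +
      a x k l * pd k ρ x * pd j (pd l w) x) := by
    intro j
    unfold Gm
    rw [N_pd_sum]
    · refine Finset.sum_congr rfl fun k _ => ?_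
      rw [N_pd_sum]
      · refine Finset.sum_congr rfl fun l _ => ?_
        exact N_pd_mul ((da k l).mul (dρ k)) (dw l) j
      · exact fun l _ => ((da k l).mul (dρ k)).mul (dw l)
    · exact fun k _ => DifferentiableAt.fun_sum fun l _ => ((da k l).mul (dρ k)).mul (dw l)
  have h2 : ∀ m, pd m (Gm a w w) x = ∑ i, ∑ l, (pd m (fun y => a y i l) x * pd i w x * pd l w x +
      a x i l * pd m (pd i w) x * pd l w x + a x i l * pd i w x * pd m (pd l w) x) := by
    intro m
    unfold Gm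
    rw [N_pd_sum]
    · refine Finset.sum_congr rfl fun k _ => ?_
      rw [N_pd_sum]
      · refine Finset.sum_congr rfl fun l _ => ?_
        have e1 : pd m (fun y => a y k l * pd k w y * pd l w y) x =
            pd m (fun y => a y k l * pd k w y) x * pd l w x + (a x k l * pd k w x) * pd m (pd l w) x :=
          N_pd_mul ((da k l).mul (dw k)) (dw l) m
        have e2 : pd m (fun y => a y k l * pd k w y) x =
            pd m (fun y => a y k l) x * pd k w x + a x k l * pd m (pd k w) x :=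
          N_pd_mul (da k l) (dw k) m
        rw [e1, e2]
        ring
      · exact fun l _ => ((da k l).mul (dw k)).mul (dw l)
    · exact fun k _ => DifferentiableAt.fun_sum fun l _ => ((da k l).mul (dw k)).mul (dw l)
  have h3 := u5_alg (fun i j => a x i j) (fun i j => pd i (pd j w) x) (fun i => pd i w x)
    (fun k => pd k ρ x) (fun j k l => pd j (fun y => a y k l * pd k ρ y) x)
    (fun m i l => pd m (fun y => a y i l) x) (ha.symm x)
    (fun i j => N_pd_symm isOpen_univ (contDiff_infty.1 hw 2).contDiffOn (mem_univ x) i j)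
  unfold kk
  rw [← h3]
  unfold Kf
  congr 1
  · show ∑ i, ∑ j, a x i j * pd i w x * pd j (Gm a ρ w) x = _
    refine Finset.sum_congr rfl fun i _ => Finset.sum_congr rfl fun j _ => ?_
    rw [h1]
  · congr 1
    show ∑ i, ∑ j, a x i j * pd i ρ x * pd j (Gm a w w) x = _
    refine Finset.sum_congr rfl fun i _ => Finset.sum_congr rfl fun j _ => ?_
    rw [h2]

theorem U5_ell (ha : SmA a) {D : Set (EE d)} (hD : IsCompact D)
    (hp : ∀ x ∈ D, ∀ ξ : Fin d → ℝ, ξ ≠ 0 → 0 < ∑ i, ∑ j, a x i j * ξ i * ξ j) :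
    ∃ al > 0, ∀ x ∈ D, ∀ ξ : Fin d → ℝ, al * ∑ i, ξ i ^ 2 ≤ ∑ i, ∑ j, a x i j * ξ i * ξ j := by
  have hc : IsCompact {ξ : Fin d → ℝ | ∑ i, ξ i ^ 2 = 1} := by
    apply Metric.isCompact_of_isClosed_isBounded
    · exact isClosed_eq (by fun_prop) continuous_const
    · rw [Metric.isBounded_iff_subset_closedBall 0]
      refine ⟨1, fun ξ hξ => ?_⟩
      rw [mem_closedBall_zero_iff, pi_norm_le_iff_of_nonneg zero_le_one]
      intro i
      rw [Real.norm_eq_abs]
      have h1 : ξ i ^ 2 ≤ ∑ i, ξ i ^ 2 :=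
        Finset.single_le_sum (f := fun i => ξ i ^ 2) (fun j _ => sq_nonneg _) (Finset.mem_univ i)
      rw [hξ] at h1
      exact abs_le_one_iff_mul_self_le_one.2 (by nlinarith)
  have hcont : Continuous (fun p : EE d × (Fin d → ℝ) => ∑ i, ∑ j, a p.1 i j * p.2 i * p.2 j) := by
    refine continuous_finset_sum _ fun i _ => continuous_finset_sum _ fun j _ => ?_
    have h1 : Continuous (fun p : EE d × (Fin d → ℝ) => a p.1 i j) :=
      (ha.sm i j).continuous.comp continuous_fst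
    exact (h1.mul (by fun_prop)).mul (by fun_prop)
  obtain ⟨al, hal, h⟩ := (hD.prod hc).exists_forall_le' hcont.continuousOn (a := 0) (by
    rintro ⟨x, ξ⟩ ⟨hx, hξ⟩
    refine hp x hx ξ fun h0 => ?_
    have h1 : ∑ i, ξ i ^ 2 = 1 := hξ
    rw [h0] at h1
    simp at h1)
  refine ⟨al, hal, fun x hx ξ => ?_⟩
  rcases eq_or_ne (∑ i, ξ i ^ 2) 0 with h0 | h0
  · have h1 : ∀ i, ξ i = 0 := by
      intro i
      have h2 := (Finset.sum_eq_zero_iff_of_nonneg (fun i _ => sq_nonneg (ξ i))).1 h0 i (Finset.mem_univ i)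
      exact pow_eq_zero_iff (two_ne_zero) |>.1 h2
    simp [h1]
  · have hpos : 0 < ∑ i, ξ i ^ 2 :=
      lt_of_le_of_ne (Finset.sum_nonneg fun i _ => sq_nonneg _) (Ne.symm h0)
    obtain ⟨s, hs⟩ : ∃ s, s = Real.sqrt (∑ i, ξ i ^ 2) := ⟨_, rfl⟩
    have hs0 : 0 < s := by rw [hs]; exact Real.sqrt_pos.2 hpos
    have hs2 : s ^ 2 = ∑ i, ξ i ^ 2 := by rw [hs]; exact Real.sq_sqrt hpos.le
    have h1 := h (x, fun i => ξ i / s) ⟨hx, by
      show ∑ i, (ξ i / s) ^ 2 = 1
      simp only [div_pow]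
      rw [← Finset.sum_div, ← hs2]
      exact div_self (by positivity)⟩
    have h2 : ∑ i, ∑ j, a x i j * (ξ i / s) * (ξ j / s) = (∑ i, ∑ j, a x i j * ξ i * ξ j) / s ^ 2 := by
      simp only [Finset.sum_div]
      refine Finset.sum_congr rfl fun i _ => Finset.sum_congr rfl fun j _ => ?_
      field_simp
    have h3 : al ≤ (∑ i, ∑ j, a x i j * ξ i * ξ j) / s ^ 2 := by
      rw [← h2]
      exact h1
    rw [le_div_iff₀ (by positivity), hs2] at h3
    exact h3

theorem U5_bound (ha : SmA a) {ρ : EE d → ℝ} (hρ : Sf ρ) {D : Set (EE d)} (hD : IsCompact D)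
    (hp : ∀ x ∈ D, ∀ ξ : Fin d → ℝ, ξ ≠ 0 → 0 < ∑ i, ∑ j, a x i j * ξ i * ξ j) :
    ∃ h ≥ 0, ∀ w, Sf w → ∀ x ∈ D, |Kf a ρ w x| ≤ h * Gm a w w x := by
  obtain ⟨al, hal, hell⟩ := U5_ell ha hD hp
  have hk : ∀ i l, ∃ C, ∀ x ∈ D, |kk a ρ x i l| ≤ C := by
    intro i l
    have hc : Continuous (fun x => kk a ρ x i l) := by
      unfold kk
      refine Continuous.sub ?_ (Continuous.mul continuous_const ?_)
      · refine continuous_finset_sum _ fun j _ => continuous_finset_sum _ fun k _ => ?_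
        exact (ha.sm i j).continuous.mul (pd_sf ((ha.sm k l).mul (pd_sf hρ k)) j).continuous
      · refine continuous_finset_sum _ fun j _ => continuous_finset_sum _ fun k _ => ?_
        exact ((ha.sm j k).continuous.mul (pd_sf hρ j).continuous).mul (pd_sf (ha.sm i l) k).continuous
    obtain ⟨C, hC⟩ := hD.exists_bound_of_continuousOn hc.continuousOn
    exact ⟨C, fun x hx => hC x hx⟩
  choose κ hκ using hk
  refine ⟨(∑ i, ∑ l, |κ i l|) / al, div_nonneg (Finset.sum_nonneg fun i _ =>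
    Finset.sum_nonneg fun l _ => abs_nonneg _) hal.le, fun w hw x hx => ?_⟩
  have h1 := hell x hx (fun i => pd i w x)
  have h2 : ∑ i, ∑ j, a x i j * pd i w x * pd j w x = Gm a w w x := rfl
  simp only [h2] at h1
  have hS : ∀ i, |pd i w x| ^ 2 ≤ ∑ i, pd i w x ^ 2 := by
    intro i
    rw [sq_abs]
    exact Finset.single_le_sum (f := fun i => pd i w x ^ 2) (fun j _ => sq_nonneg _) (Finset.mem_univ i)
  rw [U5_formula ha hρ hw x]
  have h3 : |∑ i, ∑ l, kk a ρ x i l * pd i w x * pd l w x| ≤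
      (∑ i, ∑ l, |κ i l|) * ∑ i, pd i w x ^ 2 := by
    rw [Finset.sum_mul]
    refine (Finset.abs_sum_le_sum_abs _ _).trans (Finset.sum_le_sum fun i _ => ?_)
    rw [Finset.sum_mul]
    refine (Finset.abs_sum_le_sum_abs _ _).trans (Finset.sum_le_sum fun l _ => ?_)
    rw [abs_mul, abs_mul, mul_assoc]
    refine mul_le_mul ((hκ i l x hx).trans (le_abs_self _)) ?_ (by positivity) (abs_nonneg _)
    nlinarith [hS i, hS l, sq_nonneg (|pd i w x| - |pd l w x|)]
  have hK : 0 ≤ ∑ i, ∑ l, |κ i l| := Finset.sum_nonneg fun i _ =>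
    Finset.sum_nonneg fun l _ => abs_nonneg _
  rw [div_mul_eq_mul_div, le_div_iff₀ hal]
  calc |∑ i, ∑ l, kk a ρ x i l * pd i w x * pd l w x| * al
      ≤ ((∑ i, ∑ l, |κ i l|) * ∑ i, pd i w x ^ 2) * al := mul_le_mul_of_nonneg_right h3 hal.le
    _ = (∑ i, ∑ l, |κ i l|) * (al * ∑ i, pd i w x ^ 2) := by ring
    _ ≤ (∑ i, ∑ l, |κ i l|) * Gm a w w x := mul_le_mul_of_nonneg_left h1 hK

end H30K
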