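import Pool.Agent.Lib.H30K.U3
import Pool.Agent.Lib.H30K.U4
import Pool.Agent.Lib.H30K.U5

/-!
# U6 (M): the Carleman estimate with a convexified weight

`ψ = ρ + (lam/2) ρ²`, `F' = 1 + lam ρ`. `Gm a f ψ = F' Gm a f ρ` (`Gm_chain` or `Gm_add`, `Gm_mul`).
`U6_K`: `Kf ψ w = F' Kf ρ w + lam (Gm ρ w)²`: `Gm w (F' Gm ρ w) = F' Gm w (Gm ρ w) + lam Gm w ρ Gm ρ w`,
`Gm ψ (Gm w w) = F' Gm ρ (Gm w w)`. `U6_N`: `R = Gm ρ ρ`, `N = F'² R`,
`Gm ψ N = F' Gm ρ (F'² R) = F' (2 F' lam R² + F'² Gm ρ R)`, and `Gm ρ R = 2 Kf ρ ρ`.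

Theorem. `a` is positive definite at `z`, hence on a closed ball `D₀` around `z` (continuity, compactness
of the unit sphere), and `R > 0` on `D₀` after shrinking: `R ≥ r0 > 0` on `D₀`. `U5_bound` on `D₀`: `h`.
Put `lam = (3 h + 1)/r0` and `D = closedBall z δ ⊆ D₀` with `|lam ρ| ≤ 1/2` on `D` (`ρ z = 0`). On `D`:
`1/2 ≤ F' ≤ 3/2`, `Kf ψ w ≥ -(3/2) h Gm w w` (`M = (3/2) h`), `Gm ψ N ≥ 2 F'² R (lam R - F' h) ≥
2 N (lam r0 - (3/2) h) = 2 N0 N`, `N0 = lam r0 - (3/2) h = M + 1`; `N ≥ r0/4 = n0`; `N ≤ n1` and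
`|Lp (Lp ψ)| ≤ C0` by compactness. `U3_carl`, `U4_carl`, `U5_ell`.
-/

set_option autoImplicit false

open scoped ContDiff Topology Manifold
open Set MeasureTheory

namespace H30K

open H31R

variable {d : ℕ} {a : EE d → Mt d}

/-- the convexification -/
theorem u6_F (lam : ℝ) : ContDiff ℝ ∞ (fun t : ℝ => t + lam / 2 * t ^ 2) := by fun_prop

theorem u6_dF (lam t : ℝ) : deriv (fun t : ℝ => t + lam / 2 * t ^ 2) t = 1 + lam * t := by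
  have h : HasDerivAt (fun t : ℝ => t + lam / 2 * t ^ 2) (1 + lam / 2 * (2 * t ^ (2 - 1) * 1)) t :=
    (hasDerivAt_id t).add (((hasDerivAt_id t).pow 2).const_mul (lam / 2))
  rw [h.deriv]
  ring

theorem u6_F2 (lam : ℝ) : ContDiff ℝ ∞ (fun t : ℝ => (1 + lam * t) ^ 2) := by fun_prop

theorem u6_dF2 (lam t : ℝ) : deriv (fun t : ℝ => (1 + lam * t) ^ 2) t = 2 * lam * (1 + lam * t) := by
  have h : HasDerivAt (fun t : ℝ => (1 + lam * t) ^ 2) (2 * (1 + lam * t) ^ (2 - 1) * (lam * 1)) t :=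
    (((hasDerivAt_id t).const_mul lam).const_add 1).pow 2
  rw [h.deriv]
  ring

theorem u6_sf {ρ : EE d → ℝ} (hρ : Sf ρ) (lam : ℝ) : Sf (fun y => ρ y + lam / 2 * ρ y ^ 2) :=
  (u6_F lam).comp hρ

theorem u6_r {g ρ : EE d → ℝ} (hρ : Sf ρ) (lam : ℝ) (x : EE d) :
    Gm a g (fun y => ρ y + lam / 2 * ρ y ^ 2) x = (1 + lam * ρ x) * Gm a g ρ x := by
  have h := Gm_chain (a := a) (f := g) (u6_F lam) hρ x
  rw [u6_dF] at h
  exact h

theorem u6_l (ha : SmA a) {g ρ : EE d → ℝ} (hρ : Sf ρ) (lam : ℝ) (x : EE d) :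
    Gm a (fun y => ρ y + lam / 2 * ρ y ^ 2) g x = (1 + lam * ρ x) * Gm a ρ g x := by
  rw [Gm_comm ha, u6_r hρ, Gm_comm ha]

theorem u6_lf (ha : SmA a) {g ρ : EE d → ℝ} (hρ : Sf ρ) (lam : ℝ) :
    Gm a (fun y => ρ y + lam / 2 * ρ y ^ 2) g = fun x => (1 + lam * ρ x) * Gm a ρ g x :=
  funext fun x => u6_l ha hρ lam x

theorem u6_lin {f ρ : EE d → ℝ} (hρ : Sf ρ) (lam : ℝ) (x : EE d) :
    Gm a f (fun y => 1 + lam * ρ y) x = lam * Gm a f ρ x := by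
  rw [Gm_add contDiff_const (contDiff_const.mul hρ), Gm_smul lam hρ]
  have h : Gm a f (fun _ => (1 : ℝ)) x = 0 := by
    unfold Gm
    simp only [N_pd_const, mul_zero, Finset.sum_const_zero]
  rw [h, zero_add]

theorem U6_K (ha : SmA a) {ρ w : EE d → ℝ} (hρ : Sf ρ) (hw : Sf w) (lam : ℝ) (x : EE d) :
    Kf a (fun y => ρ y + lam / 2 * ρ y ^ 2) w x =
      (1 + lam * ρ x) * Kf a ρ w x + lam * Gm a ρ w x ^ 2 := by
  unfold Kf
  rw [u6_lf ha hρ lam, Gm_mul (contDiff_const.add (contDiff_const.mul hρ)) (Gm_sf ha hρ hw), u6_lin hρ,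
    u6_l ha hρ lam x, Gm_comm ha w ρ x]
  ring

theorem U6_N (ha : SmA a) {ρ : EE d → ℝ} (hρ : Sf ρ) (lam : ℝ) (x : EE d) :
    Gm a (fun y => ρ y + lam / 2 * ρ y ^ 2) (fun y => ρ y + lam / 2 * ρ y ^ 2) x =
      (1 + lam * ρ x) ^ 2 * Gm a ρ ρ x ∧
    Gm a (fun y => ρ y + lam / 2 * ρ y ^ 2)
      (Gm a (fun y => ρ y + lam / 2 * ρ y ^ 2) (fun y => ρ y + lam / 2 * ρ y ^ 2)) x =
      2 * lam * (1 + lam * ρ x) ^ 2 * Gm a ρ ρ x ^ 2 +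
        2 * (1 + lam * ρ x) ^ 3 * Kf a ρ ρ x := by
  have h1 : ∀ x, Gm a (fun y => ρ y + lam / 2 * ρ y ^ 2) (fun y => ρ y + lam / 2 * ρ y ^ 2) x =
      (1 + lam * ρ x) ^ 2 * Gm a ρ ρ x := by
    intro x
    rw [u6_l ha hρ, u6_r hρ]
    ring
  refine ⟨h1 x, ?_⟩
  have h2 : Gm a (fun y => ρ y + lam / 2 * ρ y ^ 2) (fun y => ρ y + lam / 2 * ρ y ^ 2) =
      fun x => (1 + lam * ρ x) ^ 2 * Gm a ρ ρ x := funext h1
  have h3 : Gm a ρ (fun y => (1 + lam * ρ y) ^ 2) x = 2 * lam * (1 + lam * ρ x) * Gm a ρ ρ x := by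
    have h := Gm_chain (a := a) (f := ρ) (u6_F2 lam) hρ x
    rw [u6_dF2] at h
    exact h
  have hs2 : Sf (fun y => (1 + lam * ρ y) ^ 2) := (u6_F2 lam).comp hρ
  rw [h2, u6_l ha hρ, Gm_mul hs2 (Gm_sf ha hρ hρ), h3]
  unfold Kf
  ring

/-- positivity near a point -/
theorem u6_ell (ha : SmA a) {z : EE d} (hp : ∀ ξ : Fin d → ℝ, ξ ≠ 0 → 0 < ∑ i, ∑ j, a z i j * ξ i * ξ j) :
    ∃ al > 0, ∃ δ > 0, ∀ x ∈ Metric.closedBall z δ, ∀ ξ : Fin d → ℝ,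
      al * ∑ i, ξ i ^ 2 ≤ ∑ i, ∑ j, a x i j * ξ i * ξ j := by
  obtain ⟨al, hal, h1⟩ := U5_ell ha (D := {z}) isCompact_singleton (by
    intro x hx
    rw [mem_singleton_iff.1 hx]
    exact hp)
  have h2 := h1 z rfl
  obtain ⟨η, hη, hηd⟩ : ∃ η : ℝ, 0 < η ∧ η * d ≤ al / 2 := by
    refine ⟨al / (2 * (d + 1)), by positivity, ?_⟩
    have hd : (0 : ℝ) < 2 * (d + 1) := by positivity
    rw [div_mul_eq_mul_div, div_le_div_iff₀ hd (by norm_num)]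
    nlinarith
  have h3 : ∀ᶠ x in 𝓝 z, ∀ i j, |a x i j - a z i j| ≤ η := by
    rw [Filter.eventually_all]
    intro i
    rw [Filter.eventually_all]
    intro j
    have hc : Continuous fun x => |a x i j - a z i j| := ((ha.sm i j).continuous.sub continuous_const).abs
    have h4 := hc.continuousAt.eventually_lt (g := fun _ => η) (x₀ := z) continuousAt_const (by simpa using hη)
    filter_upwards [h4] with x hx
    exact hx.le
  obtain ⟨ε, hε, h4⟩ := Metric.eventually_nhds_iff.1 h3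
  refine ⟨al / 2, by linarith, ε / 2, by linarith, fun x hx ξ => ?_⟩
  have h5 := h4 (y := x) (by
    rw [Metric.mem_closedBall] at hx
    linarith)
  have h6 : ∑ i, ∑ j, a x i j * ξ i * ξ j = ∑ i, ∑ j, a z i j * ξ i * ξ j +
      ∑ i, ∑ j, (a x i j - a z i j) * ξ i * ξ j := by
    rw [← Finset.sum_add_distrib]
    refine Finset.sum_congr rfl fun i _ => ?_
    rw [← Finset.sum_add_distrib]
    exact Finset.sum_congr rfl fun j _ => by ring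
  have h7 : -(η * d * ∑ i, ξ i ^ 2) ≤ ∑ i, ∑ j, (a x i j - a z i j) * ξ i * ξ j := by
    have h8 : ∑ i : Fin d, ∑ j : Fin d, -(η * ((ξ i ^ 2 + ξ j ^ 2) / 2)) ≤
        ∑ i, ∑ j, (a x i j - a z i j) * ξ i * ξ j := by
      refine Finset.sum_le_sum fun i _ => Finset.sum_le_sum fun j _ => ?_
      have h9 : |(a x i j - a z i j) * ξ i * ξ j| ≤ η * ((ξ i ^ 2 + ξ j ^ 2) / 2) := by
        rw [abs_mul, abs_mul, mul_assoc]
        refine mul_le_mul (h5 i j) ?_ (by positivity) hη.le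
        rw [← sq_abs (ξ i), ← sq_abs (ξ j)]
        nlinarith [sq_nonneg (|ξ i| - |ξ j|)]
      exact (abs_le.1 h9).1
    have h10 : ∑ i : Fin d, ∑ j : Fin d, -(η * ((ξ i ^ 2 + ξ j ^ 2) / 2)) = -(η * d * ∑ i, ξ i ^ 2) := by
      have h11 : ∀ i : Fin d, ∑ j : Fin d, -(η * ((ξ i ^ 2 + ξ j ^ 2) / 2)) =
          -(η / 2 * d * ξ i ^ 2) - η / 2 * ∑ j, ξ j ^ 2 := by
        intro i
        rw [Finset.sum_congr rfl fun j _ =>
          show -(η * ((ξ i ^ 2 + ξ j ^ 2) / 2)) = -(η / 2 * ξ i ^ 2) + -(η / 2) * ξ j ^ 2 by ring]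
        rw [Finset.sum_add_distrib, Finset.sum_const, Finset.card_univ, Fintype.card_fin, nsmul_eq_mul,
          ← Finset.mul_sum]
        ring
      rw [Finset.sum_congr rfl fun i _ => h11 i, Finset.sum_sub_distrib, Finset.sum_neg_distrib, ← Finset.mul_sum,
        Finset.sum_const, Finset.card_univ, Fintype.card_fin, nsmul_eq_mul]
      ring
    rw [h10] at h8
    exact h8
  have h12 := h2 ξ
  have h13 : 0 ≤ ∑ i, ξ i ^ 2 := Finset.sum_nonneg fun i _ => sq_nonneg _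
  have h14 : η * d * ∑ i, ξ i ^ 2 ≤ al / 2 * ∑ i, ξ i ^ 2 := mul_le_mul_of_nonneg_right hηd h13
  rw [h6]
  linarith

theorem U6_carleman (ha : SmA a) {ρ : EE d → ℝ} (hρ : Sf ρ) {z : EE d} (hz : ρ z = 0)
    (hdz : ∃ i, pd i ρ z ≠ 0)
    (hp : ∀ ξ : Fin d → ℝ, ξ ≠ 0 → 0 < ∑ i, ∑ j, a z i j * ξ i * ξ j) :
    ∃ lam δ C τ0 al : ℝ, 0 < lam ∧ 0 < δ ∧ 0 < C ∧ 1 ≤ τ0 ∧ 0 < al ∧
      (∀ x ∈ Metric.closedBall z δ, |lam * ρ x| ≤ 1 / 2) ∧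
      (∀ x ∈ Metric.closedBall z δ, ∀ ξ : Fin d → ℝ,
        al * ∑ i, ξ i ^ 2 ≤ ∑ i, ∑ j, a x i j * ξ i * ξ j) ∧
      Carl a (fun x => ρ x + lam / 2 * ρ x ^ 2) (Metric.closedBall z δ) C τ0 := by
  obtain ⟨al, hal, δ1, hδ1, hell⟩ := u6_ell ha hp
  have hRz : 0 < Gm a ρ ρ z := by
    obtain ⟨i, hi⟩ := hdz
    exact hp (fun i => pd i ρ z) (fun h => hi (congrFun h i))
  obtain ⟨r0, hr0⟩ : ∃ r0, r0 = Gm a ρ ρ z / 2 := ⟨_, rfl⟩
  have hr0p : 0 < r0 := by rw [hr0]; linarith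
  have hRc : Continuous (Gm a ρ ρ) := (Gm_sf ha hρ hρ).continuous
  have hR : ∀ᶠ x in 𝓝 z, r0 < Gm a ρ ρ x :=
    continuousAt_const.eventually_lt hRc.continuousAt (by rw [hr0]; linarith)
  obtain ⟨δ2, hδ2, hR2⟩ := Metric.eventually_nhds_iff.1 hR
  obtain ⟨δ3, hδ3, hδ3a, hδ3b⟩ : ∃ δ3 : ℝ, 0 < δ3 ∧ δ3 ≤ δ1 ∧ δ3 < δ2 :=
    ⟨min δ1 (δ2 / 2), lt_min hδ1 (by linarith), min_le_left _ _, (min_le_right _ _).trans_lt (by linarith)⟩
  have hposd : ∀ x ∈ Metric.closedBall z δ1, ∀ ξ : Fin d → ℝ, ξ ≠ 0 → 0 < ∑ i, ∑ j, a x i j * ξ i * ξ j := by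
    intro x hx ξ hξ
    have h1 := hell x hx ξ
    have h2 : 0 < ∑ i, ξ i ^ 2 := by
      obtain ⟨i, hi⟩ := Function.ne_iff.1 hξ
      exact Finset.sum_pos' (fun i _ => sq_nonneg _) ⟨i, Finset.mem_univ i, by
        have : ξ i ≠ 0 := hi
        positivity⟩
    have h3 : 0 < al * ∑ i, ξ i ^ 2 := mul_pos hal h2
    linarith
  have hnn : ∀ x ∈ Metric.closedBall z δ1, ∀ ξ : Fin d → ℝ, 0 ≤ ∑ i, ∑ j, a x i j * ξ i * ξ j := by
    intro x hx ξ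
    have h1 := hell x hx ξ
    have h2 : 0 ≤ al * ∑ i, ξ i ^ 2 := mul_nonneg hal.le (Finset.sum_nonneg fun i _ => sq_nonneg _)
    linarith
  obtain ⟨h, hh, hK⟩ := U5_bound ha hρ (isCompact_closedBall z δ1) hposd
  obtain ⟨lam, hlam⟩ : ∃ lam, lam = (3 * h + 1) / r0 := ⟨_, rfl⟩
  have hlam0 : 0 < lam := by rw [hlam]; positivity
  have hlamr : lam * r0 = 3 * h + 1 := by rw [hlam, div_mul_cancel₀ _ hr0p.ne']
  have hsm : ∀ᶠ x in 𝓝 z, |lam * ρ x| < 1 / 2 := by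
    have hc : Continuous fun x => |lam * ρ x| := (continuous_const.mul hρ.continuous).abs
    exact hc.continuousAt.eventually_lt continuousAt_const (by rw [hz]; norm_num)
  obtain ⟨δ4, hδ4, hsm4⟩ := Metric.eventually_nhds_iff.1 hsm
  obtain ⟨δ, hδ, hδa, hδb⟩ : ∃ δ : ℝ, 0 < δ ∧ δ ≤ δ3 ∧ δ < δ4 :=
    ⟨min δ3 (δ4 / 2), lt_min hδ3 (by linarith), min_le_left _ _, (min_le_right _ _).trans_lt (by linarith)⟩
  have hD1 : ∀ x ∈ Metric.closedBall z δ, x ∈ Metric.closedBall z δ1 := fun x hx =>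
    Metric.closedBall_subset_closedBall (hδa.trans hδ3a) hx
  have hDl : ∀ x ∈ Metric.closedBall z δ, |lam * ρ x| ≤ 1 / 2 := by
    intro x hx
    rw [Metric.mem_closedBall] at hx
    exact (hsm4 (lt_of_le_of_lt hx hδb)).le
  have hDR : ∀ x ∈ Metric.closedBall z δ, r0 ≤ Gm a ρ ρ x := by
    intro x hx
    rw [Metric.mem_closedBall] at hx
    exact (hR2 (lt_of_le_of_lt (hx.trans hδa) hδ3b)).le
  have hGnn : ∀ w, ∀ x ∈ Metric.closedBall z δ, 0 ≤ Gm a w w x := fun w x hx => hnn x (hD1 x hx) fun i => pd i w x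
  obtain ⟨ψ, hψ⟩ : ∃ ψ : EE d → ℝ, ψ = fun x => ρ x + lam / 2 * ρ x ^ 2 := ⟨_, rfl⟩
  have hψs : Sf ψ := by rw [hψ]; exact u6_sf hρ lam
  have hNc : Continuous (Gm a ψ ψ) := (Gm_sf ha hψs hψs).continuous
  have hLc : Continuous (Lp a (Lp a ψ)) := (Lp_sf ha (Lp_sf ha hψs)).continuous
  obtain ⟨n1, hn1⟩ := (isCompact_closedBall z δ).exists_bound_of_continuousOn hNc.continuousOn
  obtain ⟨C0, hC0⟩ := (isCompact_closedBall z δ).exists_bound_of_continuousOn hLc.continuousOn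
  have hK' : ∀ w, Sf w → ∀ x ∈ Metric.closedBall z δ, -(h * Gm a w w x) ≤ Kf a ρ w x := fun w hw x hx =>
    (abs_le.1 (hK w hw x (hD1 x hx))).1
  have h1 : ∀ w, Sf w → ∀ x ∈ Metric.closedBall z δ, -((3 / 2 * h) * Gm a w w x) ≤ Kf a ψ w x := by
    intro w hw x hx
    rw [hψ, U6_K ha hρ hw]
    have e1 := abs_le.1 (hDl x hx)
    have e2 := hK' w hw x hx
    have e3 := mul_nonneg hh (hGnn w x hx)
    have e4 : 0 ≤ lam * Gm a ρ w x ^ 2 := mul_nonneg hlam0.le (sq_nonneg _)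
    have e5 : (1 + lam * ρ x) * (-(h * Gm a w w x)) ≤ (1 + lam * ρ x) * Kf a ρ w x :=
      mul_le_mul_of_nonneg_left e2 (by linarith)
    have e6 : (1 + lam * ρ x) * (h * Gm a w w x) ≤ 3 / 2 * (h * Gm a w w x) :=
      mul_le_mul_of_nonneg_right (by linarith) e3
    linarith
  have h2 : ∀ x ∈ Metric.closedBall z δ, 2 * (3 / 2 * h + 1) * Gm a ψ ψ x ≤ Gm a ψ (Gm a ψ ψ) x := by
    intro x hx
    have e0 := U6_N ha hρ lam x
    rw [hψ, e0.1, e0.2]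
    have e1 := abs_le.1 (hDl x hx)
    have e2 := hK' ρ hρ x hx
    have e3 := hDR x hx
    have e7 : 0 ≤ Gm a ρ ρ x := by linarith
    have e5 : 2 * (1 + lam * ρ x) ^ 3 * (-(h * Gm a ρ ρ x)) ≤ 2 * (1 + lam * ρ x) ^ 3 * Kf a ρ ρ x :=
      mul_le_mul_of_nonneg_left e2 (by
        have : 0 ≤ 1 + lam * ρ x := by linarith
        positivity)
    have e8 : lam * r0 ≤ lam * Gm a ρ ρ x := mul_le_mul_of_nonneg_left e3 hlam0.le
    have e9 : (1 + lam * ρ x) * h ≤ 3 / 2 * h := mul_le_mul_of_nonneg_right (by linarith) hh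
    have e10 : 3 / 2 * h + 1 ≤ lam * Gm a ρ ρ x - (1 + lam * ρ x) * h := by linarith
    have e11 : 0 ≤ 2 * (1 + lam * ρ x) ^ 2 * Gm a ρ ρ x := by positivity
    have e12 := mul_le_mul_of_nonneg_left e10 e11
    nlinarith
  have h3 : ∀ x ∈ Metric.closedBall z δ, r0 / 4 ≤ Gm a ψ ψ x ∧ Gm a ψ ψ x ≤ n1 := by
    intro x hx
    refine ⟨?_, (le_abs_self _).trans (hn1 x hx)⟩
    rw [hψ, (U6_N ha hρ lam x).1]
    have e1 := abs_le.1 (hDl x hx)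
    have e3 := hDR x hx
    have e4 : 1 / 4 ≤ (1 + lam * ρ x) ^ 2 := by nlinarith
    have e5 : 1 / 4 * r0 ≤ (1 + lam * ρ x) ^ 2 * Gm a ρ ρ x := mul_le_mul e4 e3 hr0p.le (by positivity)
    linarith
  obtain ⟨C, τ0, hC, hτ0, hcarl⟩ := U3_carl ha hψs (D := Metric.closedBall z δ) (M := 3 / 2 * h)
    (N0 := 3 / 2 * h + 1) (n0 := r0 / 4) (n1 := n1) (C0 := C0) (by linarith) (by linarith) (by linarith) h1 h2 h3 hC0
    (fun w _ x hx => hGnn w x hx)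
  obtain ⟨C', hC', hfin⟩ := U4_carl ha hψs (D := Metric.closedBall z δ) (n1 := n1) hC hτ0 (fun x hx => (h3 x hx).2)
    (fun x hx => hnn x (hD1 x hx)) hcarl
  refine ⟨lam, δ, C', τ0, al, hlam0, hδ, hC', hτ0, hal, hDl, fun x hx => hell x (hD1 x hx), ?_⟩
  rw [← hψ]
  exact hfin

end H30K
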