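import Pool.Agent.Lib.H30K.U1

/-!
# U7A (S/M): the touching ball

`ρ x = ((s/2)² - |x - p|²)/2`, `p = (z + q)/2` the midpoint, `|z - q| = s`. `ρ z = 0` since
`|z - p| = s/2`; `pd i ρ x = -(x - p) i`, nonzero at `z` for some `i` because `z ≠ p`. Median formula:
`|x - p|² = |x - q|²/2 + |x - z|²/2 - s²/4`; so `|x - q| ≥ s` implies `|x - p|² ≥ s²/4 + |x - z|²/2`, i.e.
`ρ x ≤ -|x - z|²/4`. Smoothness: `contDiff_norm_sq` or coordinates.
-/

set_option autoImplicit false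

open scoped ContDiff Topology Manifold
open Set MeasureTheory

namespace H30K

open H31R

variable {d : ℕ}

/-- the weight -/
noncomputable def rh (z q : EE d) (x : EE d) : ℝ :=
  ((dist z q / 2) ^ 2 - ‖x - (1 / 2 : ℝ) • (z + q)‖ ^ 2) / 2

theorem u7a_mid (z q x : EE d) :
    ‖x - (1 / 2 : ℝ) • (z + q)‖ ^ 2 = dist x q ^ 2 / 2 + dist x z ^ 2 / 2 - dist z q ^ 2 / 4 := by
  have h := parallelogram_law_with_norm ℝ (x - q) (x - z)
  have e1 : x - q + (x - z) = (2 : ℝ) • (x - (1 / 2 : ℝ) • (z + q)) := by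
    rw [smul_sub, smul_smul]
    norm_num
    rw [two_smul]
    abel
  have e2 : x - q - (x - z) = z - q := by abel
  rw [e1, e2, norm_smul] at h
  rw [dist_eq_norm, dist_eq_norm, dist_eq_norm]
  have h2 : ‖(2 : ℝ)‖ = 2 := by norm_num
  rw [h2] at h
  nlinarith [h]

theorem u7a_pd (z q x : EE d) (i : Fin d) :
    pd i (rh z q) x = -(x - (1 / 2 : ℝ) • (z + q)) i := by
  have h1 : HasFDerivAt (fun y : EE d => y - (1 / 2 : ℝ) • (z + q)) (ContinuousLinearMap.id ℝ (EE d)) x :=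
    (hasFDerivAt_id x).sub_const _
  have h2 := h1.norm_sq
  have h3 := (h2.const_sub ((dist z q / 2) ^ 2)).const_mul (2⁻¹ : ℝ)
  have h4 : (rh z q) = fun y => (2⁻¹ : ℝ) * ((dist z q / 2) ^ 2 - ‖y - (1 / 2 : ℝ) • (z + q)‖ ^ 2) := by
    funext y
    show ((dist z q / 2) ^ 2 - ‖y - (1 / 2 : ℝ) • (z + q)‖ ^ 2) / 2 = _
    ring
  unfold pd
  rw [h4, h3.fderiv]
  simp [EuclideanSpace.inner_single_right]

theorem U7_rh (z q : EE d) (hzq : z ≠ q) : Sf (rh z q) ∧ rh z q z = 0 ∧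
    (∃ i, pd i (rh z q) z ≠ 0) ∧
    ∀ x, dist z q ≤ dist x q → rh z q x ≤ -(dist x z ^ 2 / 4) := by
  refine ⟨?_, ?_, ?_, ?_⟩
  · show ContDiff ℝ ∞ (rh z q)
    unfold rh
    exact (contDiff_const.sub ((contDiff_id.sub contDiff_const).norm_sq ℝ)).div_const _
  · unfold rh
    rw [u7a_mid, dist_self]
    ring
  · by_contra hcon
    push Not at hcon
    apply hzq
    have h0 : z - (1 / 2 : ℝ) • (z + q) = 0 := by
      ext i
      have := hcon i
      rw [u7a_pd, neg_eq_zero] at this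
      exact this
    have h1 : z - q = (2 : ℝ) • (z - (1 / 2 : ℝ) • (z + q)) := by
      rw [smul_sub, smul_smul]
      norm_num
      rw [two_smul]
      abel
    rw [h0, smul_zero] at h1
    exact sub_eq_zero.1 h1
  · intro x hx
    unfold rh
    rw [u7a_mid]
    have h0 : (0 : ℝ) ≤ dist z q := dist_nonneg
    nlinarith [h0, hx, mul_self_le_mul_self h0 hx]

end H30K
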