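import Pool.Agent.Lib.H30K.U1

/-!
# U7B (M): cutting off

`χ` = smooth bump function (`ContDiffBump z`, `rIn = δ/2`, `rOut = δ`; `Metric.closedBall z δ ⊆ V`),
`v α = χ u α`: smooth on the whole space (near points of `V` a product of smooth functions, and zero on the
open complement of `tsupport χ ⊆ closedBall z δ`).

(1) for `x ∈ ball z (δ/2)`: `v = u` near `x`, so `v α x = u α x`, `pd i (v α) x = pd i (u α) x`,
`Lp a (v α) x = Lp a (u α) x` (`N_pd_congr`, twice).
(2) `Lp a (v α)` is smooth with compact support, so bounded: `|Lp a (v α) x| ≤ B`. It vanishes outside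
`closedBall z δ`.
(3) if `dist x q < s` then `u = 0` near `x` (within `V`), `v = 0` near `x`, `Lp a (v α) x = 0` (for `x`
outside `V` too: there `v = 0` near `x`).
So `(Lp a (v α) x)² ≤ C² (∑ β, (|v β x| + ∑ i, |pd i (v β) x|))²` on `ball z (δ/2)`, and this is
`≤ C' ∑ β, (v β x ² + ∑ i, pd i (v β) x ²)` (Cauchy-Schwarz, `C' = C² m (d+1)` or so); outside of this ball
it is `≤ B²` if `x ∈ closedBall z δ` and `s ≤ dist x q`, and `0` otherwise.
-/

set_option autoImplicit false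

open scoped ContDiff Topology Manifold
open Set MeasureTheory

namespace H30K

open H31R

variable {d m : ℕ} {a : EE d → Mt d}

theorem u7b_congr {f g : EE d → ℝ} {x : EE d} (h : f =ᶠ[𝓝 x] g) : Lp a f x = Lp a g x := by
  unfold Lp
  refine Finset.sum_congr rfl fun i _ => N_pd_congr i ?_
  filter_upwards [h.eventually_nhds] with y hy
  exact Finset.sum_congr rfl fun j _ => by rw [N_pd_congr j hy]

theorem u7b_zero {f : EE d → ℝ} {x : EE d} (h : f =ᶠ[𝓝 x] fun _ => 0) : Lp a f x = 0 := by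
  rw [u7b_congr h]
  unfold Lp
  refine Finset.sum_eq_zero fun i _ => ?_
  have e : (fun y : EE d => ∑ j, a y i j * pd j (fun _ : EE d => (0 : ℝ)) y) = fun _ => 0 := by
    funext y
    exact Finset.sum_eq_zero fun j _ => by rw [N_pd_const, mul_zero]
  rw [e]
  exact N_pd_const i 0

theorem u7b_cs (r : ℝ) (p : Fin d → ℝ) :
    (|r| + ∑ i, |p i|) ^ 2 ≤ (2 * ((d : ℝ) + 1)) * (r ^ 2 + ∑ i, p i ^ 2) := by
  have h1 : (∑ i, |p i|) ^ 2 ≤ (d : ℝ) * ∑ i, p i ^ 2 := by
    have h := sq_sum_le_card_mul_sum_sq (s := (Finset.univ : Finset (Fin d))) (f := fun i => |p i|)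
    simpa using h
  have h2 : |r| ^ 2 = r ^ 2 := sq_abs r
  have h3 : 0 ≤ ∑ i, p i ^ 2 := Finset.sum_nonneg fun i _ => sq_nonneg _
  have h4 : (0 : ℝ) ≤ d := Nat.cast_nonneg d
  nlinarith [sq_nonneg (|r| - ∑ i, |p i|), sq_nonneg r, mul_nonneg h4 (sq_nonneg r)]

theorem U7_cut (ha : SmA a) {u : Fin m → EE d → ℝ} {V : Set (EE d)} (hV : IsOpen V)
    (hu : ∀ α, ContDiffOn ℝ ∞ (u α) V) {C : ℝ} (hC : ∀ x ∈ V, ∀ α,
      |Lp a (u α) x| ≤ C * ∑ β, (|u β x| + ∑ i, |pd i (u β) x|)) {z q : EE d} {s δ : ℝ}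
    (hδ : 0 < δ) (hδV : Metric.closedBall z δ ⊆ V)
    (h0 : ∀ x ∈ V, dist x q < s → ∀ α, u α x = 0) :
    ∃ (v : Fin m → EE d → ℝ) (C' B : ℝ), 0 ≤ C' ∧ 0 ≤ B ∧ (∀ α, Sf (v α)) ∧
      (∀ α, HasCompactSupport (v α)) ∧ (∀ α, tsupport (v α) ⊆ Metric.closedBall z δ) ∧
      (∀ x ∈ Metric.ball z (δ / 2), ∀ α, v α x = u α x) ∧
      (∀ x ∈ Metric.ball z (δ / 2), ∀ α,
        Lp a (v α) x ^ 2 ≤ C' * ∑ β, (v β x ^ 2 + ∑ i, pd i (v β) x ^ 2)) ∧
      (∀ x ∉ Metric.ball z (δ / 2), ∀ α, Lp a (v α) x ^ 2 ≤ B) ∧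
      (∀ x, (x ∉ Metric.closedBall z δ ∨ dist x q < s) → ∀ α, Lp a (v α) x = 0) := by
  set χ : ContDiffBump z := ⟨δ / 2, δ, by linarith, by linarith⟩ with hχ
  have hts : tsupport (χ : EE d → ℝ) = Metric.closedBall z δ := χ.tsupport_eq
  have hsm : ContDiff ℝ ∞ (χ : EE d → ℝ) := χ.contDiff
  have hone : ∀ x ∈ Metric.ball z (δ / 2), χ x = 1 := fun x hx =>
    χ.one_of_mem_closedBall (Metric.ball_subset_closedBall hx)
  have hout : ∀ x ∉ Metric.closedBall z δ, χ x = 0 := by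
    intro x hx
    rw [← hts] at hx
    exact image_eq_zero_of_notMem_tsupport hx
  have hev : ∀ x ∉ Metric.closedBall z δ, ∀ α, (fun y => χ y * u α y) =ᶠ[𝓝 x] fun _ => 0 := by
    intro x hx α
    filter_upwards [Metric.isClosed_closedBall.isOpen_compl.mem_nhds hx] with y hy
    rw [hout y hy, zero_mul]
  have hsf : ∀ α, Sf fun y => χ y * u α y := by
    intro α
    show ContDiff ℝ ∞ fun y => χ y * u α y
    rw [contDiff_iff_contDiffAt]
    intro x
    by_cases hx : x ∈ V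
    · exact hsm.contDiffAt.mul ((hu α).contDiffAt (hV.mem_nhds hx))
    · exact contDiffAt_const.congr_of_eventuallyEq (hev x (fun h => hx (hδV h)) α)
  have hcs : ∀ α, HasCompactSupport fun y => χ y * u α y := fun α => χ.hasCompactSupport.mul_right
  have htu : ∀ α, tsupport (fun y => χ y * u α y) ⊆ Metric.closedBall z δ := by
    intro α
    rw [← hts]
    exact closure_mono fun y hy => by
      rw [Function.mem_support] at hy ⊢
      exact left_ne_zero_of_mul hy
  have hloc : ∀ x ∈ Metric.ball z (δ / 2), ∀ α, (fun y => χ y * u α y) =ᶠ[𝓝 x] u α := by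
    intro x hx α
    filter_upwards [Metric.isOpen_ball.mem_nhds hx] with y hy
    rw [hone y hy, one_mul]
  have hbd : ∀ α, ∃ b, ∀ x, ‖Lp a (fun y => χ y * u α y) x‖ ≤ b := fun α =>
    (Lp_sf ha (hsf α)).continuous.bounded_above_of_compact_support (Lp_supp (hcs α))
  choose b hb using hbd
  refine ⟨fun α y => χ y * u α y, C ^ 2 * ((m : ℝ) * (2 * ((d : ℝ) + 1))), ∑ α, b α ^ 2, by positivity,
    Finset.sum_nonneg fun α _ => sq_nonneg _, hsf, hcs, htu, ?_, ?_, ?_, ?_⟩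
  · intro x hx α
    show χ x * u α x = u α x
    rw [hone x hx, one_mul]
  · intro x hx α
    have hxV : x ∈ V := hδV (Metric.ball_subset_closedBall (Metric.ball_subset_ball (by linarith) hx))
    have e1 : Lp a (fun y => χ y * u α y) x = Lp a (u α) x := u7b_congr (hloc x hx α)
    have e2 : ∀ β, (fun y => χ y * u β y) x = u β x := fun β => by
      show χ x * u β x = u β x
      rw [hone x hx, one_mul]
    have e3 : ∀ β i, pd i (fun y => χ y * u β y) x = pd i (u β) x := fun β i => N_pd_congr i (hloc x hx β)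
    show Lp a (fun y => χ y * u α y) x ^ 2 ≤ C ^ 2 * ((m : ℝ) * (2 * ((d : ℝ) + 1))) *
      ∑ β, ((χ x * u β x) ^ 2 + ∑ i, pd i (fun y => χ y * u β y) x ^ 2)
    have e4 : ∀ β, χ x * u β x = u β x := e2
    simp only [e1, e3, e4]
    have h1 := hC x hxV α
    set S := ∑ β, (|u β x| + ∑ i, |pd i (u β) x|) with hS
    have h2 : Lp a (u α) x ^ 2 ≤ C ^ 2 * S ^ 2 := by
      rw [← sq_abs, ← mul_pow]
      exact pow_le_pow_left₀ (abs_nonneg _) h1 2
    have h3 : S ^ 2 ≤ (m : ℝ) * ∑ β, (|u β x| + ∑ i, |pd i (u β) x|) ^ 2 := by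
      have h := sq_sum_le_card_mul_sum_sq (s := (Finset.univ : Finset (Fin m)))
        (f := fun β => |u β x| + ∑ i, |pd i (u β) x|)
      simpa using h
    have h4 : ∑ β, (|u β x| + ∑ i, |pd i (u β) x|) ^ 2 ≤
        (2 * ((d : ℝ) + 1)) * ∑ β, (u β x ^ 2 + ∑ i, pd i (u β) x ^ 2) := by
      rw [Finset.mul_sum]
      exact Finset.sum_le_sum fun β _ => u7b_cs _ _
    have h5 : (0 : ℝ) ≤ m := Nat.cast_nonneg m
    calc Lp a (u α) x ^ 2 ≤ C ^ 2 * S ^ 2 := h2
      _ ≤ C ^ 2 * ((m : ℝ) * ((2 * ((d : ℝ) + 1)) * ∑ β, (u β x ^ 2 + ∑ i, pd i (u β) x ^ 2))) :=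
          mul_le_mul_of_nonneg_left (h3.trans (mul_le_mul_of_nonneg_left h4 h5)) (sq_nonneg _)
      _ = _ := by ring
  · intro x _ α
    have h1 := hb α x
    have h2 : Lp a (fun y => χ y * u α y) x ^ 2 ≤ b α ^ 2 := by
      rw [← sq_abs]
      exact pow_le_pow_left₀ (abs_nonneg _) h1 2
    exact h2.trans (Finset.single_le_sum (f := fun α => b α ^ 2) (fun β _ => sq_nonneg _) (Finset.mem_univ α))
  · intro x hx α
    by_cases h : x ∈ Metric.closedBall z δ
    · have hq : dist x q < s := by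
        rcases hx with h' | h'
        · exact absurd h h'
        · exact h'
      refine u7b_zero ?_
      filter_upwards [Metric.isOpen_ball.mem_nhds (show x ∈ Metric.ball q s from hq)] with y hy
      by_cases hyV : y ∈ V
      · show χ y * u α y = 0
        rw [h0 y hyV hy α, mul_zero]
      · show χ y * u α y = 0
        rw [hout y fun h' => hyV (hδV h'), zero_mul]
    · exact u7b_zero (hev x h α)

end H30K
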