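import Pool.Agent.Lib.H30K.U6
import Pool.Agent.Lib.H30K.U7A
import Pool.Agent.Lib.H30K.U7B

/-!
# U7C (M): unique continuation across a sphere

`ρ = rh z q` (`U7_rh`, `s = dist z q > 0`), `U6_carleman` gives `lam, δ, C₁, τ0, al`; decrease `δ` such that
`closedBall z δ ⊆ V` (the estimate `Carl` is inherited by smaller sets: only the test functions are
restricted). `ψ = ρ + (lam/2) ρ²`. `U7_cut` gives `v`, `C'`, `B`. Let `I = ∑ α ∫ exp(2τψ) v α ²`,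
`J = ∑ α ∫ exp(2τψ) Gm (v α)(v α)`.

Where `ρ ≤ 0` and `|lam ρ| ≤ 1/2`: `ψ = ρ (1 + lam ρ/2) ≤ (3/4) ρ`. At points `x ∈ closedBall z δ`,
`x ∉ ball z (δ/2)`, `dist x q ≥ s`: `ρ x ≤ -δ²/16`, `ψ x ≤ -3 δ²/64 =: -κ`. Hence, splitting the integral,
`∑ α ∫ exp(2τψ) (Lp (v α))² ≤ m C' ∑ β ∫ exp(2τψ) (v β ² + ∑ i, (pd i v β)²) + m B vol(closedBall z δ)
exp(-2τκ)` and `∑ i (pd i v β)² ≤ Gm (v β)(v β) / al` on `closedBall z δ` (outside both are zero). By `Carl`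
for each `v α`, summed: `τ³ I + τ J ≤ C₁ (m C' (I + J/al)) + C₂ exp(-2τκ)`. For large `τ` the first term is
`≤ (τ³ I + τ J)/2`, so `τ³ I ≤ 2 C₂ exp(-2τκ)`, `I ≤ 2 C₂ exp(-2τκ)`.

`ψ z = 0` and `ψ` is continuous: `ψ ≥ -κ/2` on `ball z δ'`, `δ' ≤ δ/2`. So
`exp(-τκ) ∑ α ∫_{ball z δ'} v α ² ≤ I`, and `∑ α ∫_{ball z δ'} v α ² ≤ 2 C₂ exp(-τκ) → 0`. So `v α = 0` on
`ball z δ'` (continuous functions; `Continuous` + `integral_eq_zero_iff_of_nonneg`, or
`MeasureTheory.Measure.IsOpenPosMeasure`), and `u α = v α` there.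
-/

set_option autoImplicit false

open scoped ContDiff Topology Manifold
open Set MeasureTheory

namespace H30K

open H31R

variable {d m : ℕ} {a : EE d → Mt d}

theorem u7c_G0 {v : EE d → ℝ} {z : EE d} {δ : ℝ} (hvs : tsupport v ⊆ Metric.closedBall z δ)
    (hell : ∀ x ∈ Metric.closedBall z δ, ∀ ξ : Fin d → ℝ, 0 ≤ ∑ i, ∑ j, a x i j * ξ i * ξ j) (x : EE d) :
    0 ≤ Gm a v v x := by
  by_cases hx : x ∈ Metric.closedBall z δ
  · exact hell x hx fun i => pd i v x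
  · have h1 : x ∉ tsupport v := fun h => hx (hvs h)
    have h2 : ∀ i, pd i v x = 0 := fun i => by
      have h3 : v =ᶠ[𝓝 x] fun _ => 0 := notMem_tsupport_iff_eventuallyEq.1 h1
      rw [N_pd_congr i h3, N_pd_const]
    unfold Gm
    simp only [h2, mul_zero, Finset.sum_const_zero]
    exact le_rfl

theorem u7c_num {I J E A al τ : ℝ} (hI : 0 ≤ I) (hJ : 0 ≤ J) (hA : 0 ≤ A) (hal : 0 < al)
    (h1 : 1 ≤ τ) (h2 : 2 * A ≤ τ) (h3 : 2 * (A / al) ≤ τ)
    (h : τ ^ 3 * I + τ * J ≤ A * (I + J / al) + E) : I ≤ 2 * E := by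
  have e1 : A * (I + J / al) = A * I + A / al * J := by
    field_simp
  rw [e1] at h
  have e2 : A * I ≤ τ / 2 * I := mul_le_mul_of_nonneg_right (by linarith) hI
  have e3 : A / al * J ≤ τ / 2 * J := mul_le_mul_of_nonneg_right (by linarith) hJ
  have e4 : τ * I ≤ τ ^ 3 * I := mul_le_mul_of_nonneg_right (by nlinarith [mul_nonneg (by linarith : 0 ≤ τ) (by nlinarith : (0 : ℝ) ≤ τ ^ 2 - 1)]) hI
  have e5 : 1 * I ≤ τ * I := mul_le_mul_of_nonneg_right h1 hI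
  have e6 : 0 ≤ τ * J := mul_nonneg (by linarith) hJ
  linarith

theorem u7c_int {ψ G : EE d → ℝ} (hψ : Continuous ψ) (hG : Continuous G) (hc : HasCompactSupport G) (τ : ℝ) :
    Integrable fun x => Real.exp (2 * τ * ψ x) * G x := by
  have h1 : Continuous fun x => Real.exp (2 * τ * ψ x) * G x :=
    (Real.continuous_exp.comp (continuous_const.mul hψ)).mul hG
  exact h1.integrable_of_hasCompactSupport hc.mul_left

theorem u7c_sq {f : EE d → ℝ} (hf : Continuous f) (hc : HasCompactSupport f) :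
    (Continuous fun x => f x ^ 2) ∧ HasCompactSupport fun x => f x ^ 2 := by
  refine ⟨hf.pow 2, ?_⟩
  have h := HasCompactSupport.mul_right (f := f) (f' := f) hc
  have e : (fun x => f x ^ 2) = f * f := by
    funext x
    simp only [Pi.mul_apply]
    ring
  rw [e]
  exact h

/-- the weighted estimate of the right hand side -/
theorem u7c_rhs (ha : SmA a) {v : Fin m → EE d → ℝ} {ψ : EE d → ℝ} (hψ : Continuous ψ) {z : EE d} {δ C' B al κ τ : ℝ}
    (hv : ∀ α, Sf (v α)) (hvc : ∀ α, HasCompactSupport (v α))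
    (hτ : 0 ≤ τ) (hC' : 0 ≤ C') (hB : 0 ≤ B) (hal : 0 < al)
    (hG0 : ∀ α x, 0 ≤ Gm a (v α) (v α) x)
    (hGal : ∀ x ∈ Metric.closedBall z δ, ∀ α, ∑ i, pd i (v α) x ^ 2 ≤ Gm a (v α) (v α) x / al)
    (hin : ∀ x ∈ Metric.ball z (δ / 2), ∀ α, Lp a (v α) x ^ 2 ≤ C' * ∑ β, (v β x ^ 2 + ∑ i, pd i (v β) x ^ 2))
    (hout : ∀ x ∉ Metric.ball z (δ / 2), ∀ α, Lp a (v α) x ^ 2 ≤ B)
    (hzero : ∀ x ∉ Metric.ball z (δ / 2), (x ∈ Metric.closedBall z δ ∧ ψ x ≤ -κ) ∨ ∀ α, Lp a (v α) x = 0)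
    (hδ : 0 < δ) (α : Fin m) :
    ∫ x, Real.exp (2 * τ * ψ x) * Lp a (v α) x ^ 2 ≤
      C' * (∑ β, (∫ x, Real.exp (2 * τ * ψ x) * v β x ^ 2) +
        (∑ β, ∫ x, Real.exp (2 * τ * ψ x) * Gm a (v β) (v β) x) / al) +
        B * volume.real (Metric.closedBall z δ) * Real.exp (-(2 * τ * κ)) := by
  have i1 : ∀ β, Integrable fun x => Real.exp (2 * τ * ψ x) * v β x ^ 2 := fun β =>
    u7c_int hψ (u7c_sq (hv β).continuous (hvc β)).1 (u7c_sq (hv β).continuous (hvc β)).2 τ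
  have i2 : ∀ β, Integrable fun x => Real.exp (2 * τ * ψ x) * Gm a (v β) (v β) x := fun β =>
    u7c_int hψ (Gm_sf ha (hv β) (hv β)).continuous (Gm_supp (hvc β)) τ
  have i3 : Integrable fun x => Real.exp (2 * τ * ψ x) * Lp a (v α) x ^ 2 :=
    u7c_int hψ (u7c_sq (Lp_sf ha (hv α)).continuous (Lp_supp (hvc α))).1
      (u7c_sq (Lp_sf ha (hv α)).continuous (Lp_supp (hvc α))).2 τ
  have i4 : Integrable ((Metric.closedBall z δ).indicator fun _ : EE d => B * Real.exp (-(2 * τ * κ))) :=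
    (integrable_indicator_iff measurableSet_closedBall).2
      (integrableOn_const (measure_closedBall_lt_top).ne)
  have i6 : ∀ β, Integrable fun x => (Real.exp (2 * τ * ψ x) * v β x ^ 2 +
      (Real.exp (2 * τ * ψ x) * Gm a (v β) (v β) x) / al) := fun β => (i1 β).add ((i2 β).div_const al)
  have i5 : Integrable fun x => C' * ∑ β, (Real.exp (2 * τ * ψ x) * v β x ^ 2 +
      (Real.exp (2 * τ * ψ x) * Gm a (v β) (v β) x) / al) :=
    (integrable_finset_sum _ fun β _ => i6 β).const_mul C'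
  have key : ∫ x, Real.exp (2 * τ * ψ x) * Lp a (v α) x ^ 2 ≤
      ∫ x, (C' * ∑ β, (Real.exp (2 * τ * ψ x) * v β x ^ 2 + (Real.exp (2 * τ * ψ x) * Gm a (v β) (v β) x) / al) +
        (Metric.closedBall z δ).indicator (fun _ : EE d => B * Real.exp (-(2 * τ * κ))) x) := by
    refine integral_mono i3 (i5.add i4) fun x => ?_
    have e0 := Real.exp_pos (2 * τ * ψ x)
    have e1 : 0 ≤ C' * ∑ β, (Real.exp (2 * τ * ψ x) * v β x ^ 2 + (Real.exp (2 * τ * ψ x) * Gm a (v β) (v β) x) / al) := by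
      refine mul_nonneg hC' (Finset.sum_nonneg fun β _ => ?_)
      have := hG0 β x
      positivity
    have e2 : 0 ≤ (Metric.closedBall z δ).indicator (fun _ : EE d => B * Real.exp (-(2 * τ * κ))) x :=
      Set.indicator_nonneg (fun _ _ => by positivity) x
    change Real.exp (2 * τ * ψ x) * Lp a (v α) x ^ 2 ≤
      C' * ∑ β, (Real.exp (2 * τ * ψ x) * v β x ^ 2 + (Real.exp (2 * τ * ψ x) * Gm a (v β) (v β) x) / al) +
        (Metric.closedBall z δ).indicator (fun _ : EE d => B * Real.exp (-(2 * τ * κ))) x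
    by_cases hx : x ∈ Metric.ball z (δ / 2)
    · have hxc : x ∈ Metric.closedBall z δ := by
        rw [Metric.mem_ball] at hx
        rw [Metric.mem_closedBall]
        linarith
      have e3 : Real.exp (2 * τ * ψ x) * Lp a (v α) x ^ 2 ≤
          Real.exp (2 * τ * ψ x) * (C' * ∑ β, (v β x ^ 2 + Gm a (v β) (v β) x / al)) := by
        refine mul_le_mul_of_nonneg_left ((hin x hx α).trans ?_) e0.le
        refine mul_le_mul_of_nonneg_left (Finset.sum_le_sum fun β _ => ?_) hC'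
        have := hGal x hxc β
        linarith
      have e4 : Real.exp (2 * τ * ψ x) * (C' * ∑ β, (v β x ^ 2 + Gm a (v β) (v β) x / al)) =
          C' * ∑ β, (Real.exp (2 * τ * ψ x) * v β x ^ 2 + (Real.exp (2 * τ * ψ x) * Gm a (v β) (v β) x) / al) := by
        rw [← mul_assoc, mul_comm (Real.exp _) C', mul_assoc, Finset.mul_sum]
        congr 1
        refine Finset.sum_congr rfl fun β _ => ?_
        ring
      linarith
    · rcases hzero x hx with ⟨h1, h2⟩ | h1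
      · rw [Set.indicator_of_mem h1]
        have e3 : Real.exp (2 * τ * ψ x) ≤ Real.exp (-(2 * τ * κ)) := by
          refine Real.exp_le_exp.2 ?_
          have : 2 * τ * ψ x ≤ 2 * τ * -κ := mul_le_mul_of_nonneg_left h2 (by linarith)
          linarith
        have e4 : Real.exp (2 * τ * ψ x) * Lp a (v α) x ^ 2 ≤ Real.exp (-(2 * τ * κ)) * B :=
          mul_le_mul e3 (hout x hx α) (sq_nonneg _) (Real.exp_pos _).le
        linarith
      · rw [h1 α]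
        have : Real.exp (2 * τ * ψ x) * (0 : ℝ) ^ 2 = 0 := by ring
        linarith
  refine key.trans (le_of_eq ?_)
  rw [integral_add i5 i4, integral_const_mul, integral_finset_sum _ fun β _ => i6 β,
    integral_indicator_const _ measurableSet_closedBall]
  have e5 : ∀ β, ∫ x, (Real.exp (2 * τ * ψ x) * v β x ^ 2 + (Real.exp (2 * τ * ψ x) * Gm a (v β) (v β) x) / al) =
      (∫ x, Real.exp (2 * τ * ψ x) * v β x ^ 2) + (∫ x, Real.exp (2 * τ * ψ x) * Gm a (v β) (v β) x) / al := by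
    intro β
    rw [integral_add (i1 β) ((i2 β).div_const al), integral_div]
  rw [Finset.sum_congr rfl fun β _ => e5 β, Finset.sum_add_distrib, Finset.sum_div, smul_eq_mul]
  ring

theorem u7c_pow {X Y Z W : ℝ} (h1 : X * Y ≤ Z) (h2 : Z ≤ 2 * (W * (X * X))) (hX : 0 < X) : Y ≤ 2 * W * X := by
  have h3 : X * Y ≤ X * (2 * W * X) := by linarith
  exact le_of_mul_le_mul_left h3 hX

/-- the estimate on the small ball -/
theorem u7c_ball {w ψ : EE d → ℝ} (hψ : Continuous ψ) (hw : Continuous w) (hwc : HasCompactSupport w)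
    {z : EE d} {r κ τ : ℝ} (hτ : 0 ≤ τ) (hψr : ∀ y ∈ Metric.ball z r, -(κ / 2) ≤ ψ y) :
    Real.exp (-(τ * κ)) * ∫ y in Metric.ball z r, w y ^ 2 ≤ ∫ x, Real.exp (2 * τ * ψ x) * w x ^ 2 := by
  have iα : Integrable fun x => Real.exp (2 * τ * ψ x) * w x ^ 2 :=
    u7c_int hψ (u7c_sq hw hwc).1 (u7c_sq hw hwc).2 τ
  have iv : Integrable fun x => w x ^ 2 :=
    (u7c_sq hw hwc).1.integrable_of_hasCompactSupport (u7c_sq hw hwc).2
  have h10 : ∫ y in Metric.ball z r, Real.exp (-(τ * κ)) * w y ^ 2 ≤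
      ∫ y in Metric.ball z r, Real.exp (2 * τ * ψ y) * w y ^ 2 := by
    refine setIntegral_mono_on (iv.const_mul _).integrableOn iα.integrableOn measurableSet_ball fun y hy => ?_
    refine mul_le_mul_of_nonneg_right (Real.exp_le_exp.2 ?_) (sq_nonneg _)
    have h11 := hψr y hy
    have h12 : 2 * τ * -(κ / 2) ≤ 2 * τ * ψ y := mul_le_mul_of_nonneg_left h11 (by linarith)
    linarith
  have h13 : ∫ y in Metric.ball z r, Real.exp (2 * τ * ψ y) * w y ^ 2 ≤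
      ∫ y, Real.exp (2 * τ * ψ y) * w y ^ 2 :=
    setIntegral_le_integral iα (Filter.Eventually.of_forall fun y => by positivity)
  rw [integral_const_mul] at h10
  exact h10.trans h13

theorem u7c_zero {w : EE d → ℝ} (hw : Continuous w) (hwc : HasCompactSupport w)
    {z : EE d} {r : ℝ} (h : ∫ y in Metric.ball z r, w y ^ 2 ≤ 0) (x : EE d) (hx : x ∈ Metric.ball z r) :
    w x = 0 := by
  have iv : Integrable fun x => w x ^ 2 :=
    (u7c_sq hw hwc).1.integrable_of_hasCompactSupport (u7c_sq hw hwc).2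
  have hz1 : ∫ y in Metric.ball z r, w y ^ 2 = 0 :=
    le_antisymm h (integral_nonneg fun y => sq_nonneg _)
  have hz2 := (setIntegral_eq_zero_iff_of_nonneg_ae (Filter.Eventually.of_forall fun y => sq_nonneg (w y))
    iv.integrableOn).1 hz1
  have hz3 := Measure.eqOn_open_of_ae_eq hz2 Metric.isOpen_ball (u7c_sq hw hwc).1.continuousOn
    continuousOn_const
  have hz4 : w x ^ 2 = 0 := hz3 hx
  exact pow_eq_zero_iff (two_ne_zero) |>.1 hz4

theorem u7c_lim {X D κ t0 t1 t2 : ℝ} (hκ0 : 0 < κ) (h : ∀ τ : ℝ, t0 ≤ τ → t1 ≤ τ → t2 ≤ τ → X ≤ 2 * D * Real.exp (-(τ * κ))) :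
    X ≤ 0 := by
  have hlim : Filter.Tendsto (fun τ : ℝ => 2 * D * Real.exp (-(τ * κ))) Filter.atTop (𝓝 (2 * D * 0)) := by
    refine Filter.Tendsto.const_mul _ ?_
    exact Real.tendsto_exp_neg_atTop_nhds_zero.comp (Filter.tendsto_id.atTop_mul_const hκ0)
  have hle : X ≤ 2 * D * 0 := by
    refine ge_of_tendsto hlim ?_
    filter_upwards [Filter.eventually_ge_atTop t0, Filter.eventually_ge_atTop t1,
      Filter.eventually_ge_atTop t2] with τ h1 h2 h3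
    exact h τ h1 h2 h3
  rwa [mul_zero] at hle

/-- the weighted estimate, absorbed -/
theorem u7c_main (ha : SmA a) {v : Fin m → EE d → ℝ} {ψ : EE d → ℝ} (hψc : Continuous ψ) {z : EE d}
    {δ δ0 C1 C' B al κ τ τ0 A C2 : ℝ}
    (hcarl : Carl a ψ (Metric.closedBall z δ0) C1 τ0) (hC1 : 0 < C1) (hτ0 : 1 ≤ τ0)
    (hsub : Metric.closedBall z δ ⊆ Metric.closedBall z δ0)
    (hv : ∀ α, Sf (v α)) (hvc : ∀ α, HasCompactSupport (v α))
    (hvs : ∀ α, tsupport (v α) ⊆ Metric.closedBall z δ)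
    (hC' : 0 ≤ C') (hB : 0 ≤ B) (hal : 0 < al)
    (hG0 : ∀ α x, 0 ≤ Gm a (v α) (v α) x)
    (hGal : ∀ x ∈ Metric.closedBall z δ, ∀ α, ∑ i, pd i (v α) x ^ 2 ≤ Gm a (v α) (v α) x / al)
    (hin : ∀ x ∈ Metric.ball z (δ / 2), ∀ α, Lp a (v α) x ^ 2 ≤ C' * ∑ β, (v β x ^ 2 + ∑ i, pd i (v β) x ^ 2))
    (hout : ∀ x ∉ Metric.ball z (δ / 2), ∀ α, Lp a (v α) x ^ 2 ≤ B)
    (hzero : ∀ x ∉ Metric.ball z (δ / 2), (x ∈ Metric.closedBall z δ ∧ ψ x ≤ -κ) ∨ ∀ α, Lp a (v α) x = 0)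
    (hδ : 0 < δ) (hA : A = m * C1 * C') (hC2 : C2 = m * C1 * (B * volume.real (Metric.closedBall z δ)))
    (h1 : τ0 ≤ τ) (h2 : 2 * A ≤ τ) (h3 : 2 * (A / al) ≤ τ) (α : Fin m) :
    ∫ x, Real.exp (2 * τ * ψ x) * v α x ^ 2 ≤ 2 * (C2 * Real.exp (-(2 * τ * κ))) := by
  have hA0 : 0 ≤ A := by rw [hA]; positivity
  have h4 : 1 ≤ τ := hτ0.trans h1
  have i1 : ∀ β, 0 ≤ ∫ x, Real.exp (2 * τ * ψ x) * v β x ^ 2 := fun β => integral_nonneg fun x => by positivity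
  have i2 : ∀ β, 0 ≤ ∫ x, Real.exp (2 * τ * ψ x) * Gm a (v β) (v β) x := fun β => integral_nonneg fun x =>
    mul_nonneg (Real.exp_pos _).le (hG0 β x)
  obtain ⟨I, hI⟩ : ∃ I, I = ∑ β, ∫ x, Real.exp (2 * τ * ψ x) * v β x ^ 2 := ⟨_, rfl⟩
  obtain ⟨J, hJ⟩ : ∃ J, J = ∑ β, ∫ x, Real.exp (2 * τ * ψ x) * Gm a (v β) (v β) x := ⟨_, rfl⟩
  have hI0 : 0 ≤ I := by rw [hI]; exact Finset.sum_nonneg fun β _ => i1 β
  have hJ0 : 0 ≤ J := by rw [hJ]; exact Finset.sum_nonneg fun β _ => i2 β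
  have h5 : ∀ β : Fin m, τ ^ 3 * (∫ x, Real.exp (2 * τ * ψ x) * v β x ^ 2) +
      τ * (∫ x, Real.exp (2 * τ * ψ x) * Gm a (v β) (v β) x) ≤
      C1 * (C' * (I + J / al) + B * volume.real (Metric.closedBall z δ) * Real.exp (-(2 * τ * κ))) := by
    intro β
    refine (hcarl τ h1 (v β) (hv β) (hvc β) ((hvs β).trans hsub)).trans ?_
    refine mul_le_mul_of_nonneg_left ?_ hC1.le
    rw [hI, hJ]
    exact u7c_rhs ha hψc hv hvc (by linarith) hC' hB hal hG0 hGal hin hout hzero hδ β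
  have h6 : τ ^ 3 * I + τ * J ≤ A * (I + J / al) + C2 * Real.exp (-(2 * τ * κ)) := by
    have h7 := Finset.sum_le_sum fun β (_ : β ∈ (Finset.univ : Finset (Fin m))) => h5 β
    rw [Finset.sum_add_distrib, ← Finset.mul_sum, ← Finset.mul_sum, ← hI, ← hJ, Finset.sum_const, Finset.card_univ,
      Fintype.card_fin, nsmul_eq_mul] at h7
    refine h7.trans (le_of_eq ?_)
    rw [hA, hC2]
    ring
  have h8 := u7c_num hI0 hJ0 hA0 hal h4 h2 h3 h6
  refine le_trans ?_ h8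
  rw [hI]
  exact Finset.single_le_sum (f := fun β => ∫ x, Real.exp (2 * τ * ψ x) * v β x ^ 2) (fun β _ => i1 β)
    (Finset.mem_univ α)

theorem U7_step (ha : SmA a) {u : Fin m → EE d → ℝ} {V : Set (EE d)} (hV : IsOpen V)
    (hu : ∀ α, ContDiffOn ℝ ∞ (u α) V) {C : ℝ} (hC : ∀ x ∈ V, ∀ α,
      |Lp a (u α) x| ≤ C * ∑ β, (|u β x| + ∑ i, |pd i (u β) x|)) {z q : EE d} (hz : z ∈ V)
    (hzq : z ≠ q) (hp : ∀ ξ : Fin d → ℝ, ξ ≠ 0 → 0 < ∑ i, ∑ j, a z i j * ξ i * ξ j)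
    (h0 : ∀ x ∈ V, dist x q < dist z q → ∀ α, u α x = 0) :
    ∃ δ > 0, ∀ x ∈ Metric.ball z δ, ∀ α, u α x = 0 := by
  obtain ⟨hρ, hρz, hdρ, hρs⟩ := U7_rh z q hzq
  obtain ⟨lam, δ0, C1, τ0, al, hlam, hδ0, hC1, hτ0, hal, hsm, hell, hcarl⟩ := U6_carleman ha hρ hρz hdρ hp
  obtain ⟨ε, hε, hεV⟩ := Metric.isOpen_iff.1 hV z hz
  obtain ⟨δ, hδ, hδa, hδb⟩ : ∃ δ : ℝ, 0 < δ ∧ δ ≤ δ0 ∧ δ < ε :=
    ⟨min δ0 (ε / 2), lt_min hδ0 (by linarith), min_le_left _ _, (min_le_right _ _).trans_lt (by linarith)⟩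
  have hδV : Metric.closedBall z δ ⊆ V := fun x hx => hεV (by
    rw [Metric.mem_closedBall] at hx
    rw [Metric.mem_ball]
    exact lt_of_le_of_lt hx hδb)
  have hsub : Metric.closedBall z δ ⊆ Metric.closedBall z δ0 := Metric.closedBall_subset_closedBall hδa
  obtain ⟨v, C', B, hC', hB, hv, hvc, hvs, hvu, hin, hout, hz0⟩ := U7_cut ha hV hu hC hδ hδV h0
  obtain ⟨ψ, hψ⟩ : ∃ ψ : EE d → ℝ, ψ = fun x => rh z q x + lam / 2 * rh z q x ^ 2 := ⟨_, rfl⟩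
  have hψc : Continuous ψ := by
    rw [hψ]
    exact hρ.continuous.add (continuous_const.mul (hρ.continuous.pow 2))
  rw [← hψ] at hcarl
  obtain ⟨κ, hκ⟩ : ∃ κ : ℝ, κ = 3 * δ ^ 2 / 64 := ⟨_, rfl⟩
  have hκ0 : 0 < κ := by rw [hκ]; positivity
  have hnn : ∀ x ∈ Metric.closedBall z δ, ∀ ξ : Fin d → ℝ, 0 ≤ ∑ i, ∑ j, a x i j * ξ i * ξ j := by
    intro x hx ξ
    have h1 := hell x (hsub hx) ξ
    have h2 : 0 ≤ al * ∑ i, ξ i ^ 2 := mul_nonneg hal.le (Finset.sum_nonneg fun i _ => sq_nonneg _)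
    linarith
  have hG0 : ∀ α x, 0 ≤ Gm a (v α) (v α) x := fun α x => u7c_G0 (hvs α) hnn x
  have hGal : ∀ x ∈ Metric.closedBall z δ, ∀ α, ∑ i, pd i (v α) x ^ 2 ≤ Gm a (v α) (v α) x / al := by
    intro x hx α
    rw [le_div_iff₀ hal, mul_comm]
    exact hell x (hsub hx) fun i => pd i (v α) x
  have hzero : ∀ x ∉ Metric.ball z (δ / 2), (x ∈ Metric.closedBall z δ ∧ ψ x ≤ -κ) ∨ ∀ α, Lp a (v α) x = 0 := by
    intro x hx
    by_cases h1 : x ∉ Metric.closedBall z δ ∨ dist x q < dist z q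
    · exact Or.inr fun α => hz0 x h1 α
    · push Not at h1
      left
      refine ⟨h1.1, ?_⟩
      have h2 := hρs x h1.2
      have h3 := abs_le.1 (hsm x (hsub h1.1))
      rw [Metric.mem_ball, not_lt] at hx
      have h4 : (δ / 2) ^ 2 ≤ dist x z ^ 2 := pow_le_pow_left₀ (by linarith) hx 2
      have h5 : rh z q x ≤ -(δ ^ 2 / 16) := by nlinarith
      have h6 : ψ x = rh z q x * (1 + lam * rh z q x / 2) := by
        rw [hψ]
        ring
      rw [h6, hκ]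
      have h7 : 3 / 4 ≤ 1 + lam * rh z q x / 2 := by linarith
      have h8 : (-rh z q x) * (3 / 4) ≤ (-rh z q x) * (1 + lam * rh z q x / 2) :=
        mul_le_mul_of_nonneg_left h7 (by nlinarith [sq_nonneg δ])
      linarith
  -- the small ball
  have hψz : ψ z = 0 := by
    rw [hψ]
    change rh z q z + lam / 2 * rh z q z ^ 2 = 0
    rw [hρz]
    ring
  have hev : ∀ᶠ x in 𝓝 z, -(κ / 2) < ψ x :=
    continuousAt_const.eventually_lt hψc.continuousAt (by rw [hψz]; linarith)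
  obtain ⟨ε2, hε2, hev2⟩ := Metric.eventually_nhds_iff.1 hev
  obtain ⟨r, hr, hr1, hr2⟩ : ∃ r : ℝ, 0 < r ∧ r ≤ δ / 2 ∧ r ≤ ε2 :=
    ⟨min (δ / 2) ε2, lt_min (by linarith) hε2, min_le_left _ _, min_le_right _ _⟩
  refine ⟨r, hr, fun x hx α => ?_⟩
  have hxb : x ∈ Metric.ball z (δ / 2) := Metric.ball_subset_ball hr1 hx
  rw [← hvu x hxb α]
  -- the constants
  obtain ⟨A, hA⟩ : ∃ A : ℝ, A = m * C1 * C' := ⟨_, rfl⟩
  obtain ⟨C2, hC2⟩ : ∃ C2 : ℝ, C2 = m * C1 * (B * volume.real (Metric.closedBall z δ)) := ⟨_, rfl⟩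
  refine u7c_zero (hv α).continuous (hvc α) ?_ x hx
  refine u7c_lim (D := C2) hκ0 (t0 := τ0) (t1 := 2 * A) (t2 := 2 * (A / al)) fun τ h1 h2 h3 => ?_
  have h4 : 1 ≤ τ := hτ0.trans h1
  have h5 := u7c_main ha hψc hcarl hC1 hτ0 hsub hv hvc hvs hC' hB hal hG0 hGal hin hout hzero hδ hA hC2 h1 h2 h3 α
  have h6 := u7c_ball hψc (hv α).continuous (hvc α) (z := z) (r := r) (κ := κ) (τ := τ) (by linarith)
    (fun y hy => (hev2 (by rw [Metric.mem_ball] at hy; exact lt_of_lt_of_le hy hr2)).le)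
  have h14 : Real.exp (-(2 * τ * κ)) = Real.exp (-(τ * κ)) * Real.exp (-(τ * κ)) := by
    rw [← Real.exp_add]
    congr 1
    ring
  rw [h14] at h5
  exact u7c_pow h6 h5 (Real.exp_pos _)

end H30K
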