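import Pool.Agent.Lib.H30K.G8

/-!
# U9 (M): contractions

`U9_tr`: `∑ n m, G^{nm} ∇_j b_nm = ∂_j (∑ n m, G^{nm} b_nm)` (`G⁻¹` is parallel:
`∂_j G^{nm} = -∑ a, (G^{na} Γ^m_ja + Γ^n_ja G^{am})`, from `N_pdM_inv`, `met_compat`; see the proof of
`G7_idem` in `G7A.lean`).

`U9_contr`: `∑ n m, G^{nm} (∇_i T)_nmj = ∂_i (∑ G^{nm} T_nmj) - ∑ l, Γ^l_ij (∑ G^{nm} T_nml) = 0`:
expand `cov3 G T x i n m j`, the terms with `Γ^l_in`, `Γ^l_im` combine with `∂_i G^{nm}` to zero.
-/

set_option autoImplicit false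

open scoped ContDiff Topology Manifold
open Set MeasureTheory

namespace H30K

open H31R

open H79G H60E

variable {d : ℕ} {V : Set (EE d)} {G b : EE d → Mt d}

theorem u9_alg (K Γ B : Mt d) : ∑ n, ∑ m, K n m * (Γ.transpose * B + B * Γ) n m =
    ∑ n, ∑ m, (K * Γ.transpose + Γ * K) n m * B n m := by
  have e1 : ∀ X Y : Mt d, ∑ n, ∑ m, X n m * Y n m = (X.transpose * Y).trace := by
    intro X Y
    simp only [Matrix.trace, Matrix.diag, Matrix.mul_apply, Matrix.transpose_apply]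
    exact Finset.sum_comm
  rw [e1, e1, Matrix.mul_add, Matrix.transpose_add, Matrix.transpose_mul, Matrix.transpose_mul,
    Matrix.transpose_transpose, Matrix.add_mul, Matrix.trace_add, Matrix.trace_add]
  have e2 : (K.transpose * (Γ.transpose * B)).trace = (K.transpose * Γ.transpose * B).trace := by
    rw [Matrix.mul_assoc]
  have e3 : (K.transpose * (B * Γ)).trace = (Γ * K.transpose * B).trace := by
    rw [← Matrix.mul_assoc, Matrix.trace_mul_comm, Matrix.mul_assoc]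
  rw [e2, e3, add_comm]

theorem U9_tr (h : MetOn V G) (hb : ∀ i j, ContDiffOn ℝ ∞ (fun y => b y i j) V) {x : EE d}
    (hx : x ∈ V) (j : Fin d) : ∑ n, ∑ m, (G x)⁻¹ n m * cov G b x j n m =
      pd j (fun y => ∑ n, ∑ m, (G y)⁻¹ n m * b y n m) x := by
  have hU := h.hU
  have hG : ∀ k, SmM k V G := fun k i j => g1_sm (h.sm i j) k
  have hB : ∀ k, SmM k V b := fun k i j => g1_sm (hb i j) k
  have hd := met_det_ne h
  have hI : ∀ k, SmM k V (fun y => (G y)⁻¹) := fun k => N_inv_sm (hG k) hd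
  have hu : IsUnit (G x).det := isUnit_iff_ne_zero.2 (hd x hx)
  have hGi : (G x)⁻¹ * G x = 1 := Matrix.nonsing_inv_mul _ hu
  have hGi' : G x * (G x)⁻¹ = 1 := Matrix.mul_nonsing_inv _ hu
  have dI : ∀ n m, DifferentiableAt ℝ (fun y => (G y)⁻¹ n m) x := fun n m =>
    N_diff (n := 0) hU (hI 1 n m) hx
  have dB : ∀ n m, DifferentiableAt ℝ (fun y => b y n m) x := fun n m =>
    N_diff (n := 0) hU (hB 1 n m) hx
  have e1 : pd j (fun y => ∑ n, ∑ m, (G y)⁻¹ n m * b y n m) x =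
      ∑ n, ∑ m, (pdM j (fun y => (G y)⁻¹) x n m * b x n m + (G x)⁻¹ n m * pdM j b x n m) := by
    rw [N_pd_sum]
    · refine Finset.sum_congr rfl fun n _ => ?_
      rw [N_pd_sum]
      · refine Finset.sum_congr rfl fun m _ => ?_
        exact N_pd_mul (dI n m) (dB n m) j
      · exact fun m _ => (dI n m).mul (dB n m)
    · exact fun n _ => DifferentiableAt.fun_sum fun m _ => (dI n m).mul (dB n m)
  have e2 : pdM j (fun y => (G y)⁻¹) x =
      -((G x)⁻¹ * (chM G j x).transpose + chM G j x * (G x)⁻¹) := by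
    rw [N_pdM_inv (n := 0) hU hx (hG 1) hd, met_compat h hx]
    rw [Matrix.mul_add, Matrix.add_mul]
    have a1 : (G x)⁻¹ * ((chM G j x).transpose * G x) * (G x)⁻¹ =
        (G x)⁻¹ * (chM G j x).transpose := by
      rw [Matrix.mul_assoc, Matrix.mul_assoc, hGi', Matrix.mul_one]
    have a2 : (G x)⁻¹ * (G x * chM G j x) * (G x)⁻¹ = chM G j x * (G x)⁻¹ := by
      rw [← Matrix.mul_assoc, hGi, Matrix.one_mul]
    rw [a1, a2]
  have e3 : ∀ n m, cov G b x j n m = pdM j b x n m - ((chM G j x).transpose * b x + b x * chM G j x) n m := by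
    intro n m
    have h1 := congrFun (congrFun (G1_covM G b x j) n) m
    rw [Matrix.of_apply] at h1
    rw [h1]
    simp only [Matrix.sub_apply, Matrix.add_apply]
    ring
  have e4 := u9_alg (G x)⁻¹ (chM G j x) (b x)
  rw [e1]
  simp only [e3, e2, Matrix.neg_apply]
  have e5 : ∑ n, ∑ m, (G x)⁻¹ n m * (pdM j b x n m - ((chM G j x).transpose * b x + b x * chM G j x) n m) =
      ∑ n, ∑ m, (G x)⁻¹ n m * pdM j b x n m -
      ∑ n, ∑ m, (G x)⁻¹ n m * ((chM G j x).transpose * b x + b x * chM G j x) n m := by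
    simp only [← Finset.sum_sub_distrib, mul_sub]
  have e6 : ∑ n, ∑ m, (-((G x)⁻¹ * (chM G j x).transpose + chM G j x * (G x)⁻¹) n m * b x n m +
      (G x)⁻¹ n m * pdM j b x n m) = ∑ n, ∑ m, (G x)⁻¹ n m * pdM j b x n m -
      ∑ n, ∑ m, ((G x)⁻¹ * (chM G j x).transpose + chM G j x * (G x)⁻¹) n m * b x n m := by
    simp only [← Finset.sum_sub_distrib]
    refine Finset.sum_congr rfl fun n _ => Finset.sum_congr rfl fun m _ => ?_
    ring
  rw [e5, e4, e6]

theorem U9_contr (h : MetOn V G) {T : EE d → Fin d → Fin d → Fin d → ℝ}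
    (hT : ∀ m i j, ContDiffOn ℝ ∞ (fun y => T y m i j) V)
    (h0 : ∀ y ∈ V, ∀ j, ∑ n, ∑ m, (G y)⁻¹ n m * T y n m j = 0) {x : EE d} (hx : x ∈ V)
    (i j : Fin d) : ∑ n, ∑ m, (G x)⁻¹ n m * cov3 G T x i n m j = 0 := by
  have h1 := U9_tr h (b := fun y => (fun n m => T y n m j : Mt d)) (fun n m => hT n m j) hx i
  have h2 : pd i (fun y => ∑ n, ∑ m, (G y)⁻¹ n m * T y n m j) x = 0 := by
    rw [N_pd_congr_on h.hU hx i (g := fun _ => 0) (fun y hy => h0 y hy j)]
    exact N_pd_const i 0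
  rw [h2] at h1
  have h3 : ∀ n m, cov3 G T x i n m j = cov G (fun y => (fun n m => T y n m j : Mt d)) x i n m -
      ∑ l, chr G l i j x * T x n m l := by
    intro n m
    unfold cov3 cov
    rfl
  have h4 : ∑ n, ∑ m, (G x)⁻¹ n m * ∑ l, chr G l i j x * T x n m l = 0 := by
    have h5 : ∑ n, ∑ m, (G x)⁻¹ n m * ∑ l, chr G l i j x * T x n m l =
        ∑ l, chr G l i j x * ∑ n, ∑ m, (G x)⁻¹ n m * T x n m l := by
      simp only [Finset.mul_sum]
      have h6 : ∀ n, ∑ m, ∑ l, (G x)⁻¹ n m * (chr G l i j x * T x n m l) =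
          ∑ l, ∑ m, (G x)⁻¹ n m * (chr G l i j x * T x n m l) := fun n => Finset.sum_comm
      simp only [h6]
      rw [Finset.sum_comm]
      refine Finset.sum_congr rfl fun l _ => Finset.sum_congr rfl fun n _ =>
        Finset.sum_congr rfl fun m _ => ?_
      ring
    rw [h5]
    refine Finset.sum_eq_zero fun l _ => ?_
    rw [h0 x hx l, mul_zero]
  simp only [h3, mul_sub, Finset.sum_sub_distrib]
  rw [h4, sub_zero]
  exact h1

end H30K
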